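import Pool.Agent.Run7.h563.LS.D

set_option autoImplicit false

/-!
# From `(s - 1) ζ(s)` to `ζ(s)`
-/

namespace Run7.h563.LS

open Complex MeasureTheory Filter Topology Set Q97.RB Q97.MM

noncomputable section

/-- the mean of order `β` of zeta on the line of abscissa `x`, in a Gaussian window -/
def JB (β T Δ x : ℝ) : ℝ := ∫ y : ℝ, ‖riemannZeta (x + y * I)‖ ^ β * wt T Δ y

theorem zeta_line_cont {x : ℝ} (hx : x ≠ 1) : Continuous (fun y : ℝ => riemannZeta (x + y * I)) := by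
  rw [continuous_iff_continuousAt]
  intro y
  have h1 : ContinuousAt riemannZeta (x + y * I) :=
    (differentiableAt_riemannZeta (ne_one_of_re hx y)).continuousAt
  have h2 : ContinuousAt (fun y : ℝ => (x : ℂ) + y * I) y := by fun_prop
  exact ContinuousAt.comp (f := fun y : ℝ => (x : ℂ) + y * I) h1 h2

theorem wt_le_half (T U y : ℝ) : wt T U y ≤ Real.exp (-(((y - T) / U) ^ 2 / 2)) := by
  unfold wt
  apply Real.exp_le_exp.2
  nlinarith [sq_nonneg ((y - T) / U)]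

theorem zeta_le_Z1 {w : ℂ} (hw : w.re ≤ 5 / 8) : ‖riemannZeta w‖ ≤ 3 * ‖Z1 w‖ := by
  have hne : w ≠ 1 := by
    rintro rfl
    rw [Complex.one_re] at hw
    norm_num at hw
  rw [Z1_of_ne hne, norm_mul]
  have h1 : 3 / 8 ≤ ‖w - 1‖ := by
    have := Complex.abs_re_le_norm (w - 1)
    rw [Complex.sub_re, Complex.one_re] at this
    refine le_trans ?_ this
    rw [abs_of_nonpos (by linarith)]
    linarith
  nlinarith [norm_nonneg (riemannZeta w)]

theorem zeta_near {w : ℂ} {v : ℝ} (hv : 0 < v) (hw : v ≤ |w.im|) : ‖riemannZeta w‖ ≤ ‖Z1 w‖ / v := by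
  have hne : w ≠ 1 := by
    rintro rfl
    rw [Complex.one_im, abs_zero] at hw
    linarith
  rw [Z1_of_ne hne, norm_mul, le_div_iff₀ hv, mul_comm]
  have h1 : v ≤ ‖w - 1‖ := by
    have := Complex.abs_im_le_norm (w - 1)
    rw [Complex.sub_im, Complex.one_im, sub_zero] at this
    linarith
  exact mul_le_mul_of_nonneg_right h1 (norm_nonneg _)

theorem zeta_rpow_bd {β : ℝ} {n : ℕ} (hβ : 0 < β) (hn : β ≤ n) {x : ℝ} (h1 : 1 / 4 ≤ x)
    (h2 : x ≤ 5 / 8) (y : ℝ) : ‖riemannZeta (x + y * I)‖ ^ β ≤ 135 ^ n * (1 + |y|) ^ (2 * n) := by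
  refine rpow_growth hβ hn (norm_nonneg _) (by norm_num) (by linarith [abs_nonneg y]) ?_
  have h3 := zeta_le_Z1 (w := (x : ℂ) + y * I) (by simp; linarith)
  have h4 := Z1_growth (y := y) h1 (by linarith : x ≤ 3)
  linarith

theorem JB_integrable {β T Δ x : ℝ} (hβ : 0 < β) (hΔ : 0 < Δ) (hT : 0 ≤ T) (hΔT : Δ ≤ T)
    (h1 : 1 / 4 ≤ x) (h2 : x ≤ 5 / 8) :
    Integrable (fun y : ℝ => ‖riemannZeta (x + y * I)‖ ^ β * wt T Δ y) := by
  obtain ⟨n, hn⟩ := exists_nat_ge β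
  refine poly_wt_integrable (2 * n) (C₀ := 135 ^ n) hΔ hT hΔT
    (((zeta_line_cont (by linarith)).norm.rpow_const fun _ => Or.inr hβ.le).aestronglyMeasurable)
    (fun y => ?_)
  rw [abs_of_nonneg (by positivity)]
  exact zeta_rpow_bd hβ hn h1 h2 y

theorem JB_nonneg (β T Δ x : ℝ) : 0 ≤ JB β T Δ x :=
  integral_nonneg fun y => mul_nonneg (by positivity) (wt_pos _ _ _).le

/-- crude upper bound -/
theorem PB_crude {β : ℝ} (hβ : 0 < β) {n : ℕ} (hn : β ≤ n) {T Δ : ℝ} (hT : 0 ≤ T) (hΔ : 0 < Δ)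
    (hΔT : Δ ≤ T) : PB β T Δ (1 / 2) ≤ 45 ^ n * (1 + T) ^ (2 * n) * (Δ * KK (2 * n)) := by
  have hi := PB_integrable hβ hΔ hT hΔT (x := 1 / 2) (by norm_num) (by norm_num)
  have hpt : ∀ y : ℝ, ‖Z1 (((1 / 2 : ℝ) : ℂ) + y * I)‖ ^ β * wt T Δ y ≤ 45 ^ n * (1 + T) ^ (2 * n) *
      ((1 + |(y - T) / Δ|) ^ (2 * n) * Real.exp (-(((y - T) / Δ) ^ 2 / 2))) := by
    intro y
    have h1 := Z1_rpow_bd hβ hn (x := 1 / 2) (by norm_num) (by norm_num) y
    have h2 := abs_le_scaled hΔ hT hΔT y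
    have h3 := wt_le_half T Δ y
    have h4 : ‖Z1 (((1 / 2 : ℝ) : ℂ) + y * I)‖ ^ β ≤
        45 ^ n * ((1 + T) * (1 + |(y - T) / Δ|)) ^ (2 * n) := by
      refine h1.trans ?_
      gcongr
    calc _ ≤ (45 ^ n * ((1 + T) * (1 + |(y - T) / Δ|)) ^ (2 * n)) *
          Real.exp (-(((y - T) / Δ) ^ 2 / 2)) := mul_le_mul h4 h3 (wt_pos _ _ _).le (by positivity)
      _ = _ := by rw [mul_pow]; ring
  have h := integral_mono hi ((scaled_integrable (2 * n) T hΔ).const_mul (45 ^ n * (1 + T) ^ (2 * n))) hpt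
  rw [integral_const_mul, scaled_integral (2 * n) T hΔ] at h
  exact h

/-- lower bound, in a crude form -/
theorem PB_low {β : ℝ} (hβ : 0 < β) : ∃ c : ℝ, ∀ T Δ : ℝ, 3 ≤ T → 0 < Δ → Δ ≤ T →
    1 ≤ Δ ^ 2 * Real.log T → Δ * Real.exp (-c) * (1 / T ^ 4) ≤ PB β T Δ (1 / 2) := by
  obtain ⟨c, hc⟩ := PB_half_lower hβ
  refine ⟨c, fun T Δ hT3 hΔ hΔT h1 => ?_⟩
  have hT0 : 0 < T := by linarith
  have hlog := log_ge_one hT3
  have h5 := hc T Δ hT3 hΔ hΔT
  have hP := PB_pos hβ hΔ T (x := 1 / 2) (by norm_num) (by norm_num)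
  rw [← Real.exp_log hP]
  have e1 : Δ * Real.exp (-c) * (1 / T ^ 4) = Real.exp (Real.log Δ + -c + -(4 * Real.log T)) := by
    rw [Real.exp_add, Real.exp_add, Real.exp_log hΔ, Real.exp_neg (4 * Real.log T)]
    have : (4 : ℝ) * Real.log T = ((4 : ℕ) : ℝ) * Real.log T := by norm_num
    rw [this, Real.exp_nat_mul, Real.exp_log hT0, one_div]
  rw [e1]
  apply Real.exp_le_exp.mpr
  have h7 : 4 / Δ ^ 2 ≤ 4 * Real.log T := by
    rw [div_le_iff₀ (by positivity)]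
    nlinarith
  have h8 : 0 ≤ β * Real.log T := by positivity
  linarith

theorem near_one {β ε : ℝ} (hε : 0 < ε) : ∃ η : ℝ, 0 < η ∧ η ≤ 1 / 4 ∧ (1 + 2 * η) ^ β ≤ 1 + ε ∧
    (1 - 2 * η) ^ (-β) ≤ 1 + ε := by
  have h1 : Tendsto (fun η : ℝ => (1 + 2 * η) ^ β) (𝓝 0) (𝓝 1) := by
    have : ContinuousAt (fun η : ℝ => (1 + 2 * η) ^ β) 0 := by
      refine ContinuousAt.rpow_const (by fun_prop) (Or.inl (by norm_num))
    have h := this.tendsto
    simpa using h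
  have h2 : Tendsto (fun η : ℝ => (1 - 2 * η) ^ (-β)) (𝓝 0) (𝓝 1) := by
    have : ContinuousAt (fun η : ℝ => (1 - 2 * η) ^ (-β)) 0 := by
      refine ContinuousAt.rpow_const (by fun_prop) (Or.inl (by norm_num))
    have h := this.tendsto
    simpa using h
  have h3 := (h1.eventually (gt_mem_nhds (show (1 : ℝ) < 1 + ε by linarith))).and
    (h2.eventually (gt_mem_nhds (show (1 : ℝ) < 1 + ε by linarith)))
  obtain ⟨d, hd, hd2⟩ := Metric.eventually_nhds_iff.mp h3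
  refine ⟨min (d / 2) (1 / 4), by positivity, min_le_right _ _, ?_, ?_⟩
  · refine (hd2 (y := min (d / 2) (1 / 4)) ?_).1.le
    rw [Real.dist_eq, sub_zero, abs_of_pos (by positivity)]
    exact (min_le_left _ _).trans_lt (by linarith)
  · refine (hd2 (y := min (d / 2) (1 / 4)) ?_).2.le
    rw [Real.dist_eq, sub_zero, abs_of_pos (by positivity)]
    exact (min_le_left _ _).trans_lt (by linarith)

/-- the moment of `(s - 1) ζ(s)` by the moment of zeta -/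
theorem PB_le_JB {β ε : ℝ} (hβ : 0 < β) (hε : 0 < ε) : ∃ T₀ : ℝ, ∀ T Δ : ℝ, T₀ ≤ T → 0 < Δ →
    1 ≤ Δ ^ 2 * Real.log T → Δ ≤ T / Real.log T →
    PB β T Δ (1 / 2) ≤ (1 + ε) * T ^ β * JB β T Δ (1 / 2) := by
  obtain ⟨η, hη, hη4, hη1, -⟩ := near_one (β := β) (half_pos hε)
  set ε' : ℝ := (ε / 2) / (1 + ε) with hε'
  have hε'0 : 0 < ε' := by positivity
  obtain ⟨T₁, hT₁⟩ := far_small hβ hε'0 hη 0
  refine ⟨max (max T₁ 3) (1 / η), fun T Δ hT hΔ h1 h2 => ?_⟩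
  have hTT1 : T₁ ≤ T := (le_max_left _ _).trans ((le_max_left _ _).trans hT)
  have hT3 : 3 ≤ T := (le_max_right _ _).trans ((le_max_left _ _).trans hT)
  have hTη : 1 / η ≤ T := (le_max_right _ _).trans hT
  have hT0 : 0 < T := by linarith
  have hlog := log_ge_one hT3
  have hΔT : Δ ≤ T := h2.trans (div_le_self hT0.le hlog)
  have hF := hT₁ T Δ hTT1 hΔ h1 h2 (1 / 2) (by norm_num) (by norm_num)
  rw [pow_zero, div_one, mul_one] at hF
  rw [div_le_iff₀ hη] at hTη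
  set N : Set ℝ := {y : ℝ | η * T < |y - T|} with hN
  have hms : MeasurableSet N := measurableSet_lt measurable_const (by fun_prop)
  have hi := PB_integrable hβ hΔ hT0.le hΔT (x := 1 / 2) (by norm_num) (by norm_num)
  have hj := JB_integrable hβ hΔ hT0.le hΔT (x := 1 / 2) (by norm_num) (by norm_num)
  set F : ℝ := (1 + ε / 2) * T ^ β with hFd
  have hF0 : 0 ≤ F := by positivity
  have hnear : ∫ y in Nᶜ, ‖Z1 (((1 / 2 : ℝ) : ℂ) + y * I)‖ ^ β * wt T Δ y ≤ F * JB β T Δ (1 / 2) := by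
    have h3 : ∀ y ∈ Nᶜ, ‖Z1 (((1 / 2 : ℝ) : ℂ) + y * I)‖ ^ β * wt T Δ y ≤
        F * (‖riemannZeta (((1 / 2 : ℝ) : ℂ) + y * I)‖ ^ β * wt T Δ y) := by
      intro y hy
      have hy' : |y - T| ≤ η * T := by
        rw [hN, mem_compl_iff] at hy
        exact not_lt.mp hy
      have hy2 := abs_le.mp hy'
      have hyb : |y| ≤ (1 + η) * T := by
        rw [abs_le]
        constructor <;> nlinarith
      have h4 : ‖Z1 (((1 / 2 : ℝ) : ℂ) + y * I)‖ ≤
          ((1 + 2 * η) * T) * ‖riemannZeta (((1 / 2 : ℝ) : ℂ) + y * I)‖ := by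
        rw [Z1_of_ne (ne_one_of_re (by norm_num) y), norm_mul]
        refine mul_le_mul_of_nonneg_right ?_ (norm_nonneg _)
        have e : (((1 / 2 : ℝ) : ℂ) + y * I) - 1 = ((-1 / 2 : ℝ) : ℂ) + y * I := by
          push_cast; ring
        rw [e]
        refine (norm_add_le _ _).trans ?_
        rw [norm_mul, Complex.norm_I, mul_one, Complex.norm_real, Complex.norm_real,
          Real.norm_eq_abs, Real.norm_eq_abs]
        have : |(-1 / 2 : ℝ)| = 1 / 2 := by rw [abs_of_neg] <;> norm_num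
        rw [this]
        nlinarith
      have h5 : ‖Z1 (((1 / 2 : ℝ) : ℂ) + y * I)‖ ^ β ≤
          F * ‖riemannZeta (((1 / 2 : ℝ) : ℂ) + y * I)‖ ^ β := by
        calc _ ≤ (((1 + 2 * η) * T) * ‖riemannZeta (((1 / 2 : ℝ) : ℂ) + y * I)‖) ^ β :=
              Real.rpow_le_rpow (norm_nonneg _) h4 hβ.le
          _ = ((1 + 2 * η) ^ β * T ^ β) * ‖riemannZeta (((1 / 2 : ℝ) : ℂ) + y * I)‖ ^ β := by
              rw [Real.mul_rpow (by positivity) (norm_nonneg _),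
                Real.mul_rpow (by positivity) hT0.le]
          _ ≤ _ := by
              rw [hFd]
              gcongr
      calc _ ≤ (F * ‖riemannZeta (((1 / 2 : ℝ) : ℂ) + y * I)‖ ^ β) * wt T Δ y :=
            mul_le_mul_of_nonneg_right h5 (wt_pos _ _ _).le
        _ = _ := by ring
    have h6 := setIntegral_mono_on hi.integrableOn (hj.const_mul F).integrableOn hms.compl h3
    refine h6.trans ((setIntegral_le_integral (hj.const_mul F) (Eventually.of_forall fun y => ?_)).trans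
      (le_of_eq ?_))
    · have := wt_pos T Δ y
      show 0 ≤ _
      positivity
    · rw [integral_const_mul]
      rfl
  have hsum : PB β T Δ (1 / 2) ≤ F * JB β T Δ (1 / 2) + ε' * PB β T Δ (1 / 2) := by
    unfold PB at hnear hF ⊢
    rw [← integral_add_compl hms hi] at hF ⊢
    linarith
  have h8 : 1 - ε' = (1 + ε / 2) / (1 + ε) := by
    rw [hε']
    field_simp
    ring
  have h9 : (1 + ε / 2) / (1 + ε) * PB β T Δ (1 / 2) ≤ F * JB β T Δ (1 / 2) := by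
    rw [← h8]; linarith
  rw [div_mul_eq_mul_div, div_le_iff₀ (by positivity)] at h9
  have h10 : (1 + ε / 2) * PB β T Δ (1 / 2) ≤ (1 + ε / 2) * ((1 + ε) * T ^ β * JB β T Δ (1 / 2)) := by
    refine h9.trans (le_of_eq ?_)
    rw [hFd]
    ring
  exact le_of_mul_le_mul_left h10 (by positivity)

/-- doubling the square of the width -/
theorem wt_two {T Δ Λ y : ℝ} (hΔ : 0 < Δ) (hΛ : 0 ≤ Λ) (h : Λ ≤ |(y - T) / Δ|) :
    wt T Δ y ≤ Real.exp (-(Λ ^ 2 / 2)) * wt T (√2 * Δ) y := by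
  unfold wt
  rw [← Real.exp_add]
  apply Real.exp_le_exp.mpr
  have e : ((y - T) / (√2 * Δ)) ^ 2 = ((y - T) / Δ) ^ 2 / 2 := by
    rw [div_pow, div_pow, mul_pow, Real.sq_sqrt (by norm_num)]
    field_simp
  rw [e]
  have h6 : Λ ^ 2 ≤ ((y - T) / Δ) ^ 2 := by
    rw [← sq_abs ((y - T) / Δ)]
    exact pow_le_pow_left₀ hΛ h 2
  linarith

/-- from `(s - 1) ζ(s)` to zeta on a set, with a relative error -/
theorem transfer {β ε : ℝ} (hβ : 0 < β) (hε : 0 < ε) : ∃ T₀ : ℝ, ∀ T Δ : ℝ, T₀ ≤ T → 0 < Δ →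
    1 ≤ Δ ^ 2 * Real.log T → Δ ≤ T / (2 * Real.log T) → ∀ (S : Set ℝ) (Q : ℝ), MeasurableSet S → 0 ≤ Q →
    ∫ y in S, ‖Z1 (((1 / 2 : ℝ) : ℂ) + y * I)‖ ^ β * wt T Δ y ≤ Q * PB β T Δ (1 / 2) →
    ∫ y in S, ‖Z1 (((1 / 2 : ℝ) : ℂ) + y * I)‖ ^ β * wt T (√2 * Δ) y ≤ Q * PB β T (√2 * Δ) (1 / 2) →
    ∫ y in S, ‖riemannZeta (((1 / 2 : ℝ) : ℂ) + y * I)‖ ^ β * wt T Δ y ≤
      (1 + ε) * Q * JB β T Δ (1 / 2) := by
  set ε₁ : ℝ := min 1 (ε / 5) with hε₁
  have hε₁0 : 0 < ε₁ := by positivity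
  have hε₁1 : ε₁ ≤ 1 := min_le_left _ _
  have hε₁5 : ε₁ ≤ ε / 5 := min_le_right _ _
  obtain ⟨η, hη, hη4, -, hη1⟩ := near_one (β := β) hε₁0
  obtain ⟨T₁, hT₁⟩ := PB_le_JB hβ hε₁0
  obtain ⟨n, hn⟩ := exists_nat_ge β
  obtain ⟨c, hc⟩ := PB_low hβ
  have hK0 := KK_nonneg (2 * n)
  set W : ℝ := 3 ^ β * (45 ^ n * 2 * (KK (2 * n) + 1)) * Real.exp c with hW
  have hW0 : 0 < W := by positivity
  have ht := tail_tendsto (2 * n + 4 + n) hη
  have hev : ∀ᶠ T : ℝ in atTop, (1 + T) ^ (2 * n + 4 + n) *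
      Real.exp (-((η * Real.log T) ^ 2 / 2)) < ε₁ / W :=
    ht.eventually (gt_mem_nhds (by positivity))
  obtain ⟨T₂, hT₂⟩ := eventually_atTop.mp hev
  refine ⟨max (max T₁ 3) T₂, fun T Δ hT hΔ h1 h2 S Q hS hQ hS1 hS2 => ?_⟩
  have hTT1 : T₁ ≤ T := (le_max_left _ _).trans ((le_max_left _ _).trans hT)
  have hT3 : 3 ≤ T := (le_max_right _ _).trans ((le_max_left _ _).trans hT)
  have hTT2 : T₂ ≤ T := (le_max_right _ _).trans hT
  have hT0 : 0 < T := by linarith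
  have hlog := log_ge_one hT3
  have hL0 : 0 < Real.log T := by linarith
  have h2' : Δ ≤ T / Real.log T := h2.trans (by gcongr; linarith)
  have hΔT : Δ ≤ T := h2'.trans (div_le_self hT0.le hlog)
  have hs2 : √2 ≤ 2 := by
    rw [Real.sqrt_le_left (by norm_num)]
    norm_num
  have hs20 : 0 < √2 := by positivity
  have hΔ2T : √2 * Δ ≤ T := by
    calc √2 * Δ ≤ 2 * Δ := by gcongr
      _ ≤ 2 * (T / (2 * Real.log T)) := by gcongr
      _ = T / Real.log T := by field_simp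
      _ ≤ T := div_le_self hT0.le hlog
  have hPJ := hT₁ T Δ hTT1 hΔ h1 h2'
  have hlow := hc T Δ hT3 hΔ hΔT h1
  have hE := hT₂ T hTT2
  rw [lt_div_iff₀ hW0] at hE
  have hJ0 := JB_nonneg β T Δ (1 / 2)
  have hPpos := PB_pos hβ hΔ T (x := 1 / 2) (by norm_num) (by norm_num)
  set N : Set ℝ := {y : ℝ | η * T < |y - T|} with hN
  have hms : MeasurableSet N := measurableSet_lt measurable_const (by fun_prop)
  have hi := PB_integrable hβ hΔ hT0.le hΔT (x := 1 / 2) (by norm_num) (by norm_num)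
  have hi2 := PB_integrable hβ (mul_pos hs20 hΔ) hT0.le hΔ2T (x := 1 / 2) (by norm_num) (by norm_num)
  have hj := JB_integrable hβ hΔ hT0.le hΔT (x := 1 / 2) (by norm_num) (by norm_num)
  have hTη : 0 < (1 - 2 * η) * T := mul_pos (by linarith) hT0
  -- the near part
  have hnear : ∫ y in S ∩ Nᶜ, ‖riemannZeta (((1 / 2 : ℝ) : ℂ) + y * I)‖ ^ β * wt T Δ y ≤
      (1 + ε₁) * (1 + ε₁) * Q * JB β T Δ (1 / 2) := by
    have h3 : ∀ y ∈ S ∩ Nᶜ, ‖riemannZeta (((1 / 2 : ℝ) : ℂ) + y * I)‖ ^ β * wt T Δ y ≤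
        ((1 + ε₁) * T ^ (-β)) * (‖Z1 (((1 / 2 : ℝ) : ℂ) + y * I)‖ ^ β * wt T Δ y) := by
      intro y hy
      have hy' : |y - T| ≤ η * T := by
        have := hy.2
        rw [hN, mem_compl_iff] at this
        exact not_lt.mp this
      have hy2 := abs_le.mp hy'
      have hyb : (1 - 2 * η) * T ≤ |(((1 / 2 : ℝ) : ℂ) + y * I).im| := by
        have e : (((1 / 2 : ℝ) : ℂ) + y * I).im = y := by simp
        rw [e]
        refine le_trans ?_ (le_abs_self y)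
        nlinarith
      have h4 := zeta_near hTη hyb
      have h5 : ‖riemannZeta (((1 / 2 : ℝ) : ℂ) + y * I)‖ ^ β ≤
          ((1 + ε₁) * T ^ (-β)) * ‖Z1 (((1 / 2 : ℝ) : ℂ) + y * I)‖ ^ β := by
        calc _ ≤ (‖Z1 (((1 / 2 : ℝ) : ℂ) + y * I)‖ / ((1 - 2 * η) * T)) ^ β :=
              Real.rpow_le_rpow (norm_nonneg _) h4 hβ.le
          _ = ((1 - 2 * η) ^ (-β) * T ^ (-β)) * ‖Z1 (((1 / 2 : ℝ) : ℂ) + y * I)‖ ^ β := by
              rw [Real.div_rpow (norm_nonneg _) hTη.le, Real.mul_rpow (by linarith) hT0.le,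
                Real.rpow_neg (by linarith), Real.rpow_neg hT0.le]
              field_simp
          _ ≤ _ := by gcongr
      calc _ ≤ (((1 + ε₁) * T ^ (-β)) * ‖Z1 (((1 / 2 : ℝ) : ℂ) + y * I)‖ ^ β) * wt T Δ y :=
            mul_le_mul_of_nonneg_right h5 (wt_pos _ _ _).le
        _ = _ := by ring
    have h6 := setIntegral_mono_on hj.integrableOn (hi.const_mul ((1 + ε₁) * T ^ (-β))).integrableOn
      (hS.inter hms.compl) h3
    refine h6.trans ?_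
    rw [integral_const_mul]
    have h7 : ∫ y in S ∩ Nᶜ, ‖Z1 (((1 / 2 : ℝ) : ℂ) + y * I)‖ ^ β * wt T Δ y ≤
        ∫ y in S, ‖Z1 (((1 / 2 : ℝ) : ℂ) + y * I)‖ ^ β * wt T Δ y :=
      setIntegral_mono_set hi.integrableOn (Eventually.of_forall fun y =>
        mul_nonneg (by positivity) (wt_pos _ _ _).le) inter_subset_left.eventuallyLE
    calc (1 + ε₁) * T ^ (-β) * ∫ y in S ∩ Nᶜ, ‖Z1 (((1 / 2 : ℝ) : ℂ) + y * I)‖ ^ β * wt T Δ y
        ≤ (1 + ε₁) * T ^ (-β) * (Q * ((1 + ε₁) * T ^ β * JB β T Δ (1 / 2))) := by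
          refine mul_le_mul_of_nonneg_left ?_ (by positivity)
          exact h7.trans (hS1.trans (mul_le_mul_of_nonneg_left hPJ hQ))
      _ = _ := by
          rw [Real.rpow_neg hT0.le]
          field_simp
  -- the far part
  have hfar : ∫ y in S ∩ N, ‖riemannZeta (((1 / 2 : ℝ) : ℂ) + y * I)‖ ^ β * wt T Δ y ≤
      ε₁ * (1 + ε₁) * Q * JB β T Δ (1 / 2) := by
    set E := Real.exp (-((η * Real.log T) ^ 2 / 2)) with hEd
    have hE0 : 0 < E := Real.exp_pos _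
    have h3 : ∀ y ∈ S ∩ N, ‖riemannZeta (((1 / 2 : ℝ) : ℂ) + y * I)‖ ^ β * wt T Δ y ≤
        (3 ^ β * E) * (‖Z1 (((1 / 2 : ℝ) : ℂ) + y * I)‖ ^ β * wt T (√2 * Δ) y) := by
      intro y hy
      have hy' : η * T < |y - T| := hy.2
      have h4 := zeta_le_Z1 (w := (((1 / 2 : ℝ) : ℂ) + y * I)) (by simp; norm_num)
      have h5 : ‖riemannZeta (((1 / 2 : ℝ) : ℂ) + y * I)‖ ^ β ≤
          3 ^ β * ‖Z1 (((1 / 2 : ℝ) : ℂ) + y * I)‖ ^ β := by
        rw [← Real.mul_rpow (by norm_num) (norm_nonneg _)]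
        exact Real.rpow_le_rpow (norm_nonneg _) h4 hβ.le
      have h6 : η * Real.log T ≤ |(y - T) / Δ| := by
        rw [abs_div, abs_of_pos hΔ, le_div_iff₀ hΔ]
        have h7 : Δ * Real.log T ≤ T := by
          rwa [le_div_iff₀ (by linarith)] at h2'
        nlinarith
      have h8 := wt_two (T := T) (y := y) hΔ (by positivity) h6
      calc _ ≤ (3 ^ β * ‖Z1 (((1 / 2 : ℝ) : ℂ) + y * I)‖ ^ β) * (E * wt T (√2 * Δ) y) :=
            mul_le_mul h5 h8 (wt_pos _ _ _).le (by positivity)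
        _ = _ := by ring
    have h6 := setIntegral_mono_on hj.integrableOn (hi2.const_mul (3 ^ β * E)).integrableOn
      (hS.inter hms) h3
    refine h6.trans ?_
    rw [integral_const_mul]
    have h7 : ∫ y in S ∩ N, ‖Z1 (((1 / 2 : ℝ) : ℂ) + y * I)‖ ^ β * wt T (√2 * Δ) y ≤
        ∫ y in S, ‖Z1 (((1 / 2 : ℝ) : ℂ) + y * I)‖ ^ β * wt T (√2 * Δ) y :=
      setIntegral_mono_set hi2.integrableOn (Eventually.of_forall fun y =>
        mul_nonneg (by positivity) (wt_pos _ _ _).le) inter_subset_left.eventuallyLE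
    have h8 := PB_crude hβ hn hT0.le (mul_pos hs20 hΔ) hΔ2T
    have h9 : PB β T (√2 * Δ) (1 / 2) ≤ (45 ^ n * 2 * (KK (2 * n) + 1)) * (1 + T) ^ (2 * n) * Δ := by
      refine h8.trans ?_
      calc 45 ^ n * (1 + T) ^ (2 * n) * (√2 * Δ * KK (2 * n))
          ≤ 45 ^ n * (1 + T) ^ (2 * n) * (2 * Δ * (KK (2 * n) + 1)) := by
            gcongr
            linarith
        _ = _ := by ring
    have hTβ : T ^ β ≤ (1 + T) ^ n := by
      calc T ^ β ≤ (1 + T) ^ β := Real.rpow_le_rpow hT0.le (by linarith) hβ.le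
        _ ≤ (1 + T) ^ (n : ℝ) := Real.rpow_le_rpow_of_exponent_le (by linarith) hn
        _ = _ := Real.rpow_natCast _ _
    have h10 : 3 ^ β * E * PB β T (√2 * Δ) (1 / 2) ≤ ε₁ * T ^ (-β) * PB β T Δ (1 / 2) := by
      have h11 : Real.exp c * T ^ 4 * (Δ * Real.exp (-c) * (1 / T ^ 4)) = Δ := by
        rw [Real.exp_neg]
        field_simp
      have h12 : (1 + T) ^ (2 * n) * T ^ 4 * T ^ β ≤ (1 + T) ^ (2 * n + 4 + n) := by
        rw [pow_add, pow_add]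
        gcongr
        linarith
      calc 3 ^ β * E * PB β T (√2 * Δ) (1 / 2)
          ≤ 3 ^ β * E * ((45 ^ n * 2 * (KK (2 * n) + 1)) * (1 + T) ^ (2 * n) * Δ) := by gcongr
        _ = ((1 + T) ^ (2 * n) * T ^ 4 * T ^ β) * E * W * T ^ (-β) *
            (Δ * Real.exp (-c) * (1 / T ^ 4)) := by
            rw [hW, Real.rpow_neg hT0.le, Real.exp_neg]
            field_simp
        _ ≤ (1 + T) ^ (2 * n + 4 + n) * E * W * T ^ (-β) * PB β T Δ (1 / 2) := by gcongr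
        _ ≤ _ := by gcongr
    calc 3 ^ β * E * ∫ y in S ∩ N, ‖Z1 (((1 / 2 : ℝ) : ℂ) + y * I)‖ ^ β * wt T (√2 * Δ) y
        ≤ 3 ^ β * E * (Q * PB β T (√2 * Δ) (1 / 2)) :=
          mul_le_mul_of_nonneg_left (h7.trans hS2) (by positivity)
      _ = Q * (3 ^ β * E * PB β T (√2 * Δ) (1 / 2)) := by ring
      _ ≤ Q * (ε₁ * T ^ (-β) * PB β T Δ (1 / 2)) := mul_le_mul_of_nonneg_left h10 hQ
      _ ≤ Q * (ε₁ * T ^ (-β) * ((1 + ε₁) * T ^ β * JB β T Δ (1 / 2))) := by gcongr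
      _ = _ := by
          rw [Real.rpow_neg hT0.le]
          field_simp
  have hsplit : ∫ y in S, ‖riemannZeta (((1 / 2 : ℝ) : ℂ) + y * I)‖ ^ β * wt T Δ y =
      (∫ y in S ∩ N, ‖riemannZeta (((1 / 2 : ℝ) : ℂ) + y * I)‖ ^ β * wt T Δ y) +
      ∫ y in S ∩ Nᶜ, ‖riemannZeta (((1 / 2 : ℝ) : ℂ) + y * I)‖ ^ β * wt T Δ y := by
    rw [← Set.diff_eq]
    exact (integral_inter_add_diff hms hj.integrableOn).symm
  rw [hsplit]
  have hQJ : 0 ≤ Q * JB β T Δ (1 / 2) := mul_nonneg hQ hJ0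
  have hfin : (1 + ε₁) * (1 + ε₁) + ε₁ * (1 + ε₁) ≤ 1 + ε := by nlinarith
  calc _ ≤ ε₁ * (1 + ε₁) * Q * JB β T Δ (1 / 2) + (1 + ε₁) * (1 + ε₁) * Q * JB β T Δ (1 / 2) :=
        add_le_add hfar hnear
    _ = ((1 + ε₁) * (1 + ε₁) + ε₁ * (1 + ε₁)) * (Q * JB β T Δ (1 / 2)) := by ring
    _ ≤ (1 + ε) * (Q * JB β T Δ (1 / 2)) := mul_le_mul_of_nonneg_right hfin hQJ
    _ = _ := by ring

end

end Run7.h563.LS
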