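import Pool.Agent.Q277.UM.TlA
import Pool.Agent.Q97.MM.Low
import Pool.Agent.W184.ZetaB

set_option autoImplicit false

/-!
# Moments of zeta of real order near the critical line, in short windows
-/

namespace Run7.h563.LS

open Complex MeasureTheory Filter Topology Set Q97.RB Q97.MM

noncomputable section

/-- the windowed function -/
def GW (β T Δ : ℝ) (s : ℂ) : ℂ := Z1 s * cexp ((s - 1 / 2 - T * I) ^ 2 / ((β * Δ ^ 2 : ℝ) : ℂ))

theorem GW_diff (β T Δ : ℝ) : Differentiable ℂ (GW β T Δ) := by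
  unfold GW
  exact Z1_differentiable.mul (by fun_prop)

theorem GW_norm (β T Δ x y : ℝ) : ‖GW β T Δ (x + y * I)‖ =
    ‖Z1 (x + y * I)‖ * Real.exp (((x - 1 / 2) ^ 2 - (y - T) ^ 2) / (β * Δ ^ 2)) := by
  rw [GW, norm_mul, Complex.norm_exp]
  congr 2
  have e1 : ((x : ℂ) + y * I) - 1 / 2 - T * I = ((x - 1 / 2 : ℝ) : ℂ) + ((y - T : ℝ) : ℂ) * I := by
    push_cast; ring
  have e3 : (((x - 1 / 2 : ℝ) : ℂ) + ((y - T : ℝ) : ℂ) * I) ^ 2 =
      (((x - 1 / 2) ^ 2 - (y - T) ^ 2 : ℝ) : ℂ) + ((2 * (x - 1 / 2) * (y - T) : ℝ) : ℂ) * I := by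
    push_cast
    linear_combination ((y : ℂ) - T) ^ 2 * Complex.I_sq
  rw [e1, e3, Complex.div_ofReal_re, Complex.add_re, Complex.re_ofReal_mul, Complex.ofReal_re,
    Complex.I_re, mul_zero, add_zero]

theorem GW_pow {β Δ : ℝ} (hβ : 0 < β) (hΔ : 0 < Δ) (T x y : ℝ) : ‖GW β T Δ (x + y * I)‖ ^ β =
    Real.exp ((x - 1 / 2) ^ 2 / Δ ^ 2) * (‖Z1 (x + y * I)‖ ^ β * wt T Δ y) := by
  rw [GW_norm, Real.mul_rpow (norm_nonneg _) (Real.exp_pos _).le, ← Real.exp_mul, wt]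
  have e1 : ((x - 1 / 2) ^ 2 - (y - T) ^ 2) / (β * Δ ^ 2) * β =
      (x - 1 / 2) ^ 2 / Δ ^ 2 + -((y - T) / Δ) ^ 2 := by
    rw [div_pow]
    field_simp
    ring
  rw [e1, Real.exp_add]
  ring

/-- the mean of order `β` of `(s - 1) ζ(s)` on the line of abscissa `x`, in a Gaussian window -/
def PB (β T Δ x : ℝ) : ℝ := ∫ y : ℝ, ‖Z1 (x + y * I)‖ ^ β * wt T Δ y

theorem LI_GW {β Δ : ℝ} (hβ : 0 < β) (hΔ : 0 < Δ) (T x : ℝ) :
    LI (GW β T Δ) β x = Real.exp ((x - 1 / 2) ^ 2 / Δ ^ 2) * PB β T Δ x := by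
  unfold LI PB
  rw [← integral_const_mul]
  exact integral_congr_ae (Eventually.of_forall fun y => GW_pow hβ hΔ T x y)

theorem LI_half {β Δ : ℝ} (hβ : 0 < β) (hΔ : 0 < Δ) (T : ℝ) :
    LI (GW β T Δ) β (1 / 2) = PB β T Δ (1 / 2) := by
  rw [LI_GW hβ hΔ]; simp

/-- real powers of polynomially bounded quantities -/
theorem rpow_growth {β : ℝ} {n : ℕ} (hβ : 0 < β) (hn : β ≤ n) {a C : ℝ} {k : ℕ} {v : ℝ} (ha : 0 ≤ a)
    (hC : 1 ≤ C) (hv : 1 ≤ v) (h : a ≤ C * v ^ k) : a ^ β ≤ C ^ n * v ^ (k * n) := by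
  have h1 : 1 ≤ C * v ^ k := one_le_mul_of_one_le_of_one_le hC (one_le_pow₀ hv)
  calc a ^ β ≤ (C * v ^ k) ^ β := Real.rpow_le_rpow ha h hβ.le
    _ ≤ (C * v ^ k) ^ (n : ℝ) := Real.rpow_le_rpow_of_exponent_le h1 hn
    _ = (C * v ^ k) ^ n := Real.rpow_natCast _ _
    _ = _ := by rw [mul_pow, ← pow_mul]

theorem Z1_rpow_bd {β : ℝ} {n : ℕ} (hβ : 0 < β) (hn : β ≤ n) {x : ℝ} (h1 : 1 / 4 ≤ x) (h2 : x ≤ 3)
    (y : ℝ) : ‖Z1 (x + y * I)‖ ^ β ≤ 45 ^ n * (1 + |y|) ^ (2 * n) :=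
  rpow_growth hβ hn (norm_nonneg _) (by norm_num) (by linarith [abs_nonneg y]) (Z1_growth h1 h2)

theorem Z1_rpow_cont {β : ℝ} (hβ : 0 < β) (x : ℝ) :
    Continuous (fun y : ℝ => ‖Z1 (x + y * I)‖ ^ β) :=
  (Z1_cont_line x).norm.rpow_const fun _ => Or.inr hβ.le

theorem PB_integrable {β T Δ x : ℝ} (hβ : 0 < β) (hΔ : 0 < Δ) (hT : 0 ≤ T) (hΔT : Δ ≤ T)
    (h1 : 1 / 4 ≤ x) (h2 : x ≤ 3) :
    Integrable (fun y : ℝ => ‖Z1 (x + y * I)‖ ^ β * wt T Δ y) := by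
  obtain ⟨n, hn⟩ := exists_nat_ge β
  refine poly_wt_integrable (2 * n) (C₀ := 45 ^ n) hΔ hT hΔT
    (Z1_rpow_cont hβ x).aestronglyMeasurable (fun y => ?_)
  rw [abs_of_nonneg (by positivity)]
  exact Z1_rpow_bd hβ hn h1 h2 y

theorem GW_gd {β Δ : ℝ} (hβ : 0 < β) (hΔ : 0 < Δ) (T : ℝ) : Gd (GW β T Δ) (1 / 4) 3 := by
  have hq : 0 < β * Δ ^ 2 := by positivity
  obtain ⟨C, hC0, hC⟩ := poly_le_exp 2 (1 / (4 * (β * Δ ^ 2))) (by positivity)
  refine ⟨45 * C * Real.exp ((25 / 4 + T ^ 2) / (β * Δ ^ 2)), 1 / (4 * (β * Δ ^ 2)), by positivity,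
    by positivity, fun x y h1 h2 => ?_⟩
  rw [GW_norm]
  have hg := Z1_growth (y := y) h1 h2
  have e1 : ((x - 1 / 2) ^ 2 - (y - T) ^ 2) / (β * Δ ^ 2) ≤
      (25 / 4 + T ^ 2) / (β * Δ ^ 2) + -(1 / (2 * (β * Δ ^ 2))) * y ^ 2 := by
    have e2 : (25 / 4 + T ^ 2) / (β * Δ ^ 2) + -(1 / (2 * (β * Δ ^ 2))) * y ^ 2 =
        (25 / 4 + T ^ 2 - y ^ 2 / 2) / (β * Δ ^ 2) := by
      field_simp
      ring
    rw [e2]
    apply div_le_div_of_nonneg_right _ (by positivity)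
    have e3 : (x - 1 / 2) ^ 2 ≤ 25 / 4 := by nlinarith
    nlinarith [sq_nonneg (y - 2 * T)]
  calc ‖Z1 (x + y * I)‖ * Real.exp (((x - 1 / 2) ^ 2 - (y - T) ^ 2) / (β * Δ ^ 2))
      ≤ (45 * (1 + |y|) ^ 2) * Real.exp ((25 / 4 + T ^ 2) / (β * Δ ^ 2) +
          -(1 / (2 * (β * Δ ^ 2))) * y ^ 2) := by gcongr
    _ ≤ (45 * (C * Real.exp (1 / (4 * (β * Δ ^ 2)) * y ^ 2))) *
          Real.exp ((25 / 4 + T ^ 2) / (β * Δ ^ 2) + -(1 / (2 * (β * Δ ^ 2))) * y ^ 2) := by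
        gcongr
        exact hC y
    _ = 45 * C * Real.exp ((25 / 4 + T ^ 2) / (β * Δ ^ 2)) *
          (Real.exp (1 / (4 * (β * Δ ^ 2)) * y ^ 2) * Real.exp (-(1 / (2 * (β * Δ ^ 2))) * y ^ 2)) := by
        rw [Real.exp_add]
        ring
    _ = _ := by
        rw [← Real.exp_add]
        congr 2
        field_simp
        ring

theorem GW_ne_zero (β T Δ : ℝ) : GW β T Δ ≠ 0 := by
  intro h
  have h1 := congrFun h 1
  rw [GW, Z1_one, one_mul, Pi.zero_apply] at h1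
  exact Complex.exp_ne_zero _ h1

theorem LI_pos {β Δ : ℝ} (hβ : 0 < β) (hΔ : 0 < Δ) (T : ℝ) {x : ℝ} (h1 : 1 / 4 ≤ x) (h2 : x ≤ 3) :
    0 < LI (GW β T Δ) β x := by
  obtain ⟨y, hy⟩ : ∃ y : ℝ, GW β T Δ (x + y * I) ≠ 0 := by
    by_contra hcon
    push Not at hcon
    exact GW_ne_zero β T Δ (Pool.Agent.Q277.UM.TL.eq_zero_of_line (GW_diff β T Δ) hcon)
  have hc := li_cont (GW_diff β T Δ) hβ x
  have hi := li_int (GW_diff β T Δ) hβ (GW_gd hβ hΔ T) h1 h2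
  unfold LI
  rw [integral_pos_iff_support_of_nonneg (fun y => by positivity) hi]
  refine IsOpen.measure_pos volume hc.isOpen_support ⟨y, ?_⟩
  rw [Function.mem_support]
  exact (Real.rpow_pos_of_pos (norm_pos_iff.mpr hy) _).ne'

theorem PB_pos {β Δ : ℝ} (hβ : 0 < β) (hΔ : 0 < Δ) (T : ℝ) {x : ℝ} (h1 : 1 / 4 ≤ x) (h2 : x ≤ 3) :
    0 < PB β T Δ x := by
  have h := LI_pos hβ hΔ T h1 h2
  rw [LI_GW hβ hΔ] at h
  exact (mul_pos_iff_of_pos_left (Real.exp_pos _)).mp h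

theorem PB_lower {β T Δ : ℝ} (hβ : 0 < β) (hT : 3 ≤ T) (hΔ : 0 < Δ) (hΔT : Δ ≤ T) :
    (T / 6) ^ β * Real.exp (-1) * Δ ≤ PB β T Δ 2 := by
  have hT0 : 0 ≤ T := by linarith
  have hi := PB_integrable hβ hΔ hT0 hΔT (x := 2) (by norm_num) (by norm_num)
  have hpt : ∀ y ∈ Icc (T - Δ / 2) (T + Δ / 2),
      (T / 6) ^ β * Real.exp (-1) ≤ ‖Z1 ((2 : ℝ) + y * I)‖ ^ β * wt T Δ y := by
    intro y hy
    have hy1 : T / 2 ≤ y := by linarith [hy.1]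
    have e1 : T / 6 ≤ ‖Z1 ((2 : ℝ) + y * I)‖ := by
      rw [Z1_of_ne (ne_one_of_re (by norm_num) y), norm_mul]
      have a1 : y ≤ ‖((2 : ℝ) : ℂ) + y * I - 1‖ := by
        have := Complex.abs_im_le_norm (((2 : ℝ) : ℂ) + y * I - 1)
        have e : (((2 : ℝ) : ℂ) + y * I - 1).im = y := by simp
        rw [e] at this
        exact (le_abs_self y).trans this
      have a2 := H345.Chi.zeta_two_lower y
      have a3 : ((2 : ℝ) : ℂ) + y * I = 2 + y * I := by push_cast; ring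
      rw [a3] at a1 ⊢
      calc T / 6 = (T / 2) * (1 / 3) := by ring
        _ ≤ ‖(2 : ℂ) + y * I - 1‖ * ‖riemannZeta (2 + y * I)‖ :=
          mul_le_mul (by linarith) a2 (by norm_num) (norm_nonneg _)
    have e2 : Real.exp (-1) ≤ wt T Δ y := by
      unfold wt
      apply Real.exp_le_exp.2
      have b1 : |(y - T) / Δ| ≤ 1 := by
        rw [abs_div, abs_of_pos hΔ, div_le_iff₀ hΔ, abs_le]
        constructor <;> linarith [hy.1, hy.2]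
      have b2 : ((y - T) / Δ) ^ 2 ≤ 1 := by
        rw [← sq_abs]
        exact pow_le_one₀ (abs_nonneg _) b1
      linarith
    exact mul_le_mul (Real.rpow_le_rpow (by positivity) e1 hβ.le) e2 (Real.exp_pos _).le
      (by positivity)
  have h1 : ∫ y in Icc (T - Δ / 2) (T + Δ / 2), (T / 6) ^ β * Real.exp (-1) ≤
      ∫ y in Icc (T - Δ / 2) (T + Δ / 2), ‖Z1 ((2 : ℝ) + y * I)‖ ^ β * wt T Δ y := by
    refine setIntegral_mono_on (integrableOn_const (μ := volume) (by simp) enorm_ne_top)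
      hi.integrableOn measurableSet_Icc hpt
  have h2 : ∫ y in Icc (T - Δ / 2) (T + Δ / 2), ‖Z1 ((2 : ℝ) + y * I)‖ ^ β * wt T Δ y ≤
      PB β T Δ 2 :=
    setIntegral_le_integral hi (Eventually.of_forall fun y =>
      mul_nonneg (by positivity) (wt_pos _ _ _).le)
  rw [setIntegral_const, Measure.real, Real.volume_Icc, ENNReal.toReal_ofReal (by linarith),
    smul_eq_mul] at h1
  refine (le_trans (le_of_eq ?_) h1).trans h2
  ring

theorem PB_upper {β : ℝ} (hβ : 0 < β) : ∃ C : ℝ, 1 ≤ C ∧ ∀ T Δ : ℝ, 3 ≤ T → 0 < Δ → Δ ≤ T →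
    PB β T Δ 3 ≤ C * (T ^ β * Δ) := by
  obtain ⟨C, hC0, hC⟩ := zeta_three_bd
  obtain ⟨n, hn⟩ := exists_nat_ge β
  refine ⟨(6 * C) ^ β * KK n + 1, ?_, fun T Δ hT hΔ hΔT => ?_⟩
  · have := KK_nonneg n
    have : 0 ≤ (6 * C) ^ β * KK n := by positivity
    linarith
  have hT0 : 0 < T := by linarith
  have hpt : ∀ y : ℝ, ‖Z1 ((3 : ℝ) + y * I)‖ ^ β * wt T Δ y ≤
      (6 * C) ^ β * T ^ β *
        ((1 + |(y - T) / Δ|) ^ n * Real.exp (-(((y - T) / Δ) ^ 2 / 2))) := by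
    intro y
    have hu : 1 ≤ 1 + |(y - T) / Δ| := by linarith [abs_nonneg ((y - T) / Δ)]
    have e1 : ‖Z1 ((3 : ℝ) + y * I)‖ ≤ (6 * C) * T * (1 + |(y - T) / Δ|) := by
      rw [Z1_of_ne (ne_one_of_re (by norm_num) y), norm_mul]
      have a1 := norm_sub_one_le (x := 3) (by norm_num) le_rfl y
      have a2 := abs_le_scaled hΔ hT0.le hΔT y
      have a3 : (1 + T) * (1 + |(y - T) / Δ|) ≤ (2 * T) * (1 + |(y - T) / Δ|) := by
        gcongr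
        linarith
      calc ‖((3 : ℝ) : ℂ) + y * I - 1‖ * ‖riemannZeta ((3 : ℝ) + y * I)‖
          ≤ (3 * ((2 * T) * (1 + |(y - T) / Δ|))) * C := by
            apply mul_le_mul _ (hC y) (norm_nonneg _) (by positivity)
            linarith
        _ = _ := by ring
    have e2 : wt T Δ y ≤ Real.exp (-(((y - T) / Δ) ^ 2 / 2)) := by
      unfold wt
      apply Real.exp_le_exp.2
      nlinarith [sq_nonneg ((y - T) / Δ)]
    have e3 : ‖Z1 ((3 : ℝ) + y * I)‖ ^ β ≤ (6 * C) ^ β * T ^ β * (1 + |(y - T) / Δ|) ^ n := by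
      calc ‖Z1 ((3 : ℝ) + y * I)‖ ^ β ≤ ((6 * C) * T * (1 + |(y - T) / Δ|)) ^ β :=
            Real.rpow_le_rpow (norm_nonneg _) e1 hβ.le
        _ = (6 * C) ^ β * T ^ β * (1 + |(y - T) / Δ|) ^ β := by
            rw [Real.mul_rpow (by positivity) (by positivity), Real.mul_rpow (by positivity) hT0.le]
        _ ≤ (6 * C) ^ β * T ^ β * (1 + |(y - T) / Δ|) ^ (n : ℝ) :=
            mul_le_mul_of_nonneg_left (Real.rpow_le_rpow_of_exponent_le hu hn) (by positivity)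
        _ = _ := by rw [Real.rpow_natCast]
    calc ‖Z1 ((3 : ℝ) + y * I)‖ ^ β * wt T Δ y
        ≤ ((6 * C) ^ β * T ^ β * (1 + |(y - T) / Δ|) ^ n) * Real.exp (-(((y - T) / Δ) ^ 2 / 2)) :=
          mul_le_mul e3 e2 (wt_pos _ _ _).le (by positivity)
      _ = _ := by ring
  have h := integral_mono (PB_integrable hβ hΔ hT0.le hΔT (by norm_num) le_rfl)
    ((scaled_integrable n T hΔ).const_mul ((6 * C) ^ β * T ^ β)) hpt
  rw [integral_const_mul, scaled_integral n T hΔ] at h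
  refine h.trans ?_
  have : 0 ≤ T ^ β * Δ := by positivity
  nlinarith

/-- lower bound of the right order on the critical line, up to a harmless factor -/
theorem PB_half_lower {β : ℝ} (hβ : 0 < β) : ∃ c : ℝ, ∀ T Δ : ℝ, 3 ≤ T → 0 < Δ → Δ ≤ T →
    β * Real.log T + Real.log Δ - 4 / Δ ^ 2 - c ≤ Real.log (PB β T Δ (1 / 2)) := by
  obtain ⟨C, hC1, hC⟩ := PB_upper hβ
  refine ⟨5 / 2 * (β * Real.log 6 + 1 + 3 / 5 * Real.log C), fun T Δ hT hΔ hΔT => ?_⟩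
  have hT0 : 0 < T := by linarith
  have h12 : (1 : ℝ) / 4 ≤ 1 / 2 := by norm_num
  have hL := LI_logconv (GW_diff β T Δ) hβ (GW_gd hβ hΔ T) (x₁ := 1 / 2) (x₂ := 3) (θ := 3 / 5) h12
    (by norm_num) le_rfl (by norm_num) (by norm_num) (LI_pos hβ hΔ T h12 (by norm_num))
    (LI_pos hβ hΔ T (by norm_num) le_rfl)
  have e2 : (1 - 3 / 5 : ℝ) * (1 / 2) + 3 / 5 * 3 = 2 := by norm_num
  rw [e2, LI_half hβ hΔ, LI_GW hβ hΔ, LI_GW hβ hΔ] at hL
  have hP1 := PB_pos hβ hΔ T (x := 1 / 2) h12 (by norm_num)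
  have hP2 := PB_pos hβ hΔ T (x := 2) (by norm_num) (by norm_num)
  have hP3 := PB_pos hβ hΔ T (x := 3) (by norm_num) le_rfl
  have h3 := Real.log_le_log (mul_pos (Real.exp_pos _) hP2) hL
  rw [Real.log_mul (Real.exp_pos _).ne' hP2.ne', Real.log_exp,
    Real.log_mul (Real.rpow_pos_of_pos hP1 _).ne' (Real.rpow_pos_of_pos (mul_pos (Real.exp_pos _) hP3) _).ne',
    Real.log_rpow hP1, Real.log_rpow (mul_pos (Real.exp_pos _) hP3),
    Real.log_mul (Real.exp_pos _).ne' hP3.ne', Real.log_exp] at h3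
  have h4 := Real.log_le_log (by positivity) (PB_lower hβ hT hΔ hΔT)
  rw [Real.log_mul (by positivity) hΔ.ne', Real.log_mul (by positivity) (Real.exp_pos _).ne',
    Real.log_exp, Real.log_rpow (by positivity), Real.log_div hT0.ne' (by norm_num)] at h4
  have h5 := Real.log_le_log hP3 (hC T Δ hT hΔ hΔT)
  rw [Real.log_mul (by positivity) (by positivity), Real.log_mul (by positivity) hΔ.ne',
    Real.log_rpow hT0] at h5
  have h6 : (0 : ℝ) ≤ 1 / Δ ^ 2 := by positivity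
  have e3 : (2 - 1 / 2 : ℝ) ^ 2 / Δ ^ 2 = 9 / 4 * (1 / Δ ^ 2) := by ring
  have e4 : (3 - 1 / 2 : ℝ) ^ 2 / Δ ^ 2 = 25 / 4 * (1 / Δ ^ 2) := by ring
  have e5 : 4 / Δ ^ 2 = 4 * (1 / Δ ^ 2) := by ring
  rw [e3, e4] at h3
  rw [e5]
  nlinarith

/-- the moments to the right of the critical line -/
theorem right {β : ℝ} (hβ : 0 < β) : ∃ C : ℝ, 0 ≤ C ∧ ∀ T Δ : ℝ, 3 ≤ T → 0 < Δ → Δ ≤ T →
    ∀ x : ℝ, 0 ≤ x → x ≤ 5 / 2 →
    LI (GW β T Δ) β (1 / 2 + x) ≤ Real.exp (x * (5 / Δ ^ 2 + C)) * LI (GW β T Δ) β (1 / 2) := by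
  obtain ⟨C, hC1, hC⟩ := PB_upper hβ
  obtain ⟨c, hc⟩ := PB_half_lower hβ
  refine ⟨|Real.log C + c|, abs_nonneg _, fun T Δ hT hΔ hΔT x hx hx2 => ?_⟩
  have hT0 : 0 < T := by linarith
  have h12 : (1 : ℝ) / 4 ≤ 1 / 2 := by norm_num
  have hp1 := LI_pos hβ hΔ T h12 (by norm_num)
  have hp3 := LI_pos hβ hΔ T (x := 3) (by norm_num) le_rfl
  set θ : ℝ := 2 / 5 * x with hθ
  have hθ0 : 0 ≤ θ := by positivity
  have hθ1 : θ ≤ 1 := by rw [hθ]; linarith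
  have hL := LI_logconv (GW_diff β T Δ) hβ (GW_gd hβ hΔ T) (x₁ := 1 / 2) (x₂ := 3) (θ := θ) h12
    (by norm_num) le_rfl hθ0 hθ1 hp1 hp3
  have e2 : (1 - θ) * (1 / 2) + θ * 3 = 1 / 2 + x := by rw [hθ]; ring
  rw [e2] at hL
  refine hL.trans ?_
  have hP3 := PB_pos hβ hΔ T (x := 3) (by norm_num) le_rfl
  have h5 := Real.log_le_log hP3 (hC T Δ hT hΔ hΔT)
  rw [Real.log_mul (by positivity) (by positivity), Real.log_mul (by positivity) hΔ.ne',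
    Real.log_rpow hT0] at h5
  have h6 := hc T Δ hT hΔ hΔT
  rw [← LI_half hβ hΔ] at h6
  have h7 : Real.log (LI (GW β T Δ) β 3) = 25 / 4 * (1 / Δ ^ 2) + Real.log (PB β T Δ 3) := by
    rw [LI_GW hβ hΔ, Real.log_mul (Real.exp_pos _).ne' hP3.ne', Real.log_exp]
    ring
  set A := LI (GW β T Δ) β (1 / 2) with hA
  set D := LI (GW β T Δ) β 3 with hD
  have h8 : Real.log D - Real.log A ≤ 25 / 2 * (1 / Δ ^ 2) + |Real.log C + c| := by
    have h9 := le_abs_self (Real.log C + c)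
    have e5 : 4 / Δ ^ 2 = 4 * (1 / Δ ^ 2) := by ring
    have h10 : (0 : ℝ) ≤ 1 / Δ ^ 2 := by positivity
    rw [e5] at h6
    rw [h7]
    linarith
  have e6 : A ^ (1 - θ) * D ^ θ = Real.exp (θ * (Real.log D - Real.log A)) * A := by
    rw [Real.rpow_def_of_pos hp1, Real.rpow_def_of_pos hp3]
    have e8 : Real.exp (θ * (Real.log D - Real.log A)) * A =
        Real.exp (θ * (Real.log D - Real.log A)) * Real.exp (Real.log A) := by rw [Real.exp_log hp1]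
    rw [e8, ← Real.exp_add, ← Real.exp_add]
    congr 1
    ring
  rw [e6]
  refine mul_le_mul_of_nonneg_right (Real.exp_le_exp.mpr ?_) hp1.le
  have h11 : θ * (Real.log D - Real.log A) ≤ θ * (25 / 2 * (1 / Δ ^ 2) + |Real.log C + c|) :=
    mul_le_mul_of_nonneg_left h8 hθ0
  refine h11.trans ?_
  rw [hθ]
  have h12 : 0 ≤ x * |Real.log C + c| := by positivity
  have e7 : 5 / Δ ^ 2 = 5 * (1 / Δ ^ 2) := by ring
  rw [e7]
  nlinarith

end

end Run7.h563.LS
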