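import Pool.Agent.Run7.h563.LS.A

set_option autoImplicit false

/-!
# Both sides of the critical line
-/

namespace Run7.h563.LS

open Complex MeasureTheory Filter Topology Set Q97.RB Q97.MM

noncomputable section

/-- the part of a weighted mean far from the centre of the window -/
theorem far (A : ℕ) {T U η C₀ : ℝ} (hT : 3 ≤ T) (hU : 0 < U) (hUT : U ≤ T / Real.log T)
    (hη : 0 ≤ η) {p : ℝ → ℝ} (hp : AEStronglyMeasurable p volume) (hp0 : ∀ y, 0 ≤ p y)
    (hpb : ∀ y, p y ≤ C₀ * (1 + |y|) ^ A) :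
    ∫ y in {y : ℝ | η * T < |y - T|}, p y * wt T U y ≤
      C₀ * (1 + T) ^ A * Real.exp (-((η * Real.log T) ^ 2 / 2)) * (U * KK A) := by
  have hlog : 1 ≤ Real.log T := by
    have h1 : Real.exp 1 ≤ T := by linarith [Real.exp_one_lt_d9]
    have h2 := Real.log_le_log (Real.exp_pos 1) h1
    rwa [Real.log_exp] at h2
  have hT0 : 0 ≤ T := by linarith
  have hUT' : U ≤ T := hUT.trans (div_le_self hT0 hlog)
  have hC₀ : 0 ≤ C₀ := by
    have := (hp0 0).trans (hpb 0)
    simpa using this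
  have ip := poly_wt_integrable A hU hT0 hUT' hp (fun y => by rw [abs_of_nonneg (hp0 y)]; exact hpb y)
  have is := scaled_integrable A T hU
  set E := Real.exp (-((η * Real.log T) ^ 2 / 2)) with hE
  have hms : MeasurableSet {y : ℝ | η * T < |y - T|} :=
    measurableSet_lt measurable_const (by fun_prop)
  have hpt : ∀ y ∈ {y : ℝ | η * T < |y - T|}, p y * wt T U y ≤
      C₀ * (1 + T) ^ A * E *
        ((1 + |(y - T) / U|) ^ A * Real.exp (-(((y - T) / U) ^ 2 / 2))) := by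
    intro y h
    have hw := wt_pos T U y
    have h' : η * T < |y - T| := h
    have h2 := abs_le_scaled hU hT0 hUT' y
    have h3 : wt T U y ≤ E * Real.exp (-(((y - T) / U) ^ 2 / 2)) := by
      rw [wt, hE, ← Real.exp_add]
      apply Real.exp_le_exp.2
      have h4 : η * Real.log T ≤ |(y - T) / U| := by
        rw [abs_div, abs_of_pos hU, le_div_iff₀ hU]
        have h5 : U * Real.log T ≤ T := by
          rwa [le_div_iff₀ (by linarith)] at hUT
        nlinarith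
      have h6 : (η * Real.log T) ^ 2 ≤ ((y - T) / U) ^ 2 := by
        rw [← sq_abs ((y - T) / U)]
        exact pow_le_pow_left₀ (by positivity) h4 2
      linarith
    have h7 : p y ≤ C₀ * ((1 + T) * (1 + |(y - T) / U|)) ^ A := by
      refine (hpb y).trans ?_
      gcongr
    calc p y * wt T U y ≤ (C₀ * ((1 + T) * (1 + |(y - T) / U|)) ^ A) *
          (E * Real.exp (-(((y - T) / U) ^ 2 / 2))) := mul_le_mul h7 h3 hw.le (by positivity)
      _ = _ := by rw [mul_pow]; ring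
  have h1 := setIntegral_mono_on ip.integrableOn (is.const_mul (C₀ * (1 + T) ^ A * E)).integrableOn
    hms hpt
  refine h1.trans ?_
  have h2 := setIntegral_le_integral (s := {y : ℝ | η * T < |y - T|})
    (is.const_mul (C₀ * (1 + T) ^ A * E)) (Eventually.of_forall fun y => by
      have := Real.exp_pos (-((η * Real.log T) ^ 2 / 2))
      show 0 ≤ _
      positivity)
  refine h2.trans (le_of_eq ?_)
  rw [integral_const_mul, scaled_integral A T hU]

/-- the functional equation, pointwise -/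
theorem fe_Z1 {x y T : ℝ} (hx : 0 ≤ x) (hx8 : x ≤ 1 / 8) (hT : 200 ≤ T) (hy : |y - T| ≤ 1 / 2 * T) :
    ‖Z1 (((1 / 2 - x : ℝ) : ℂ) + y * I)‖ ≤
      Real.exp (x * Real.log T + x + 34 / T) * ‖Z1 (((1 / 2 + x : ℝ) : ℂ) + y * I)‖ := by
  have hT0 : 0 < T := by linarith
  have hy1 : T / 2 ≤ y := by have := (abs_le.mp hy).1; linarith
  have hy2 : y ≤ 3 / 2 * T := by have := (abs_le.mp hy).2; linarith
  have hy0 : 0 < y := by linarith
  rw [Z1_of_ne (ne_one_of_re (by linarith) y), Z1_of_ne (ne_one_of_re (by linarith) y), norm_mul,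
    norm_mul]
  have h1 := Pool.Agent.W184.fe_pos hx hx8 (by linarith : 100 ≤ y)
  have h2 : ‖(((1 / 2 - x : ℝ) : ℂ) + y * I) - 1‖ ≤ 1 + y := by
    have e : (((1 / 2 - x : ℝ) : ℂ) + y * I) - 1 = ((-1 / 2 - x : ℝ) : ℂ) + y * I := by
      push_cast; ring
    rw [e]
    refine (norm_add_le _ _).trans ?_
    rw [norm_mul, Complex.norm_I, mul_one, Complex.norm_real, Complex.norm_real, Real.norm_eq_abs,
      Real.norm_eq_abs, abs_of_pos hy0]
    have : |-1 / 2 - x| ≤ 1 := by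
      rw [abs_le]
      constructor <;> linarith
    linarith
  have h3 : y ≤ ‖(((1 / 2 + x : ℝ) : ℂ) + y * I) - 1‖ := by
    have := Complex.abs_im_le_norm ((((1 / 2 + x : ℝ) : ℂ) + y * I) - 1)
    have e : ((((1 / 2 + x : ℝ) : ℂ) + y * I) - 1).im = y := by simp
    rw [e] at this
    exact (le_abs_self y).trans this
  have h4 : 1 + y ≤ Real.exp (1 / y) * y := by
    have := Real.add_one_le_exp (1 / y)
    calc 1 + y = (1 / y + 1) * y := by field_simp
      _ ≤ _ := by gcongr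
  have h5 : y ^ x ≤ Real.exp (x * Real.log T + x) := by
    rw [Real.rpow_def_of_pos hy0]
    apply Real.exp_le_exp.mpr
    have h6 : Real.log y ≤ Real.log T + 1 := by
      have h7 := Real.log_le_log hy0 hy2
      rw [Real.log_mul (by norm_num) hT0.ne'] at h7
      have h8 := Real.log_le_sub_one_of_pos (show (0 : ℝ) < 3 / 2 by norm_num)
      linarith
    nlinarith
  have h6 : 1 + 16 / y ≤ Real.exp (16 / y) := by
    have := Real.add_one_le_exp (16 / y)
    linarith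
  have h7 : 17 / y ≤ 34 / T := by
    rw [div_le_div_iff₀ hy0 hT0]
    linarith
  calc ‖(((1 / 2 - x : ℝ) : ℂ) + y * I) - 1‖ * ‖riemannZeta (((1 / 2 - x : ℝ) : ℂ) + y * I)‖
      ≤ (Real.exp (1 / y) * ‖(((1 / 2 + x : ℝ) : ℂ) + y * I) - 1‖) *
        ((Real.exp (x * Real.log T + x) * Real.exp (16 / y)) *
          ‖riemannZeta (((1 / 2 + x : ℝ) : ℂ) + y * I)‖) := by
        refine mul_le_mul ?_ ?_ (norm_nonneg _) (by positivity)
        · refine h2.trans (h4.trans ?_)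
          gcongr
        · refine h1.trans ?_
          gcongr
    _ = Real.exp (x * Real.log T + x + 17 / y) * (‖(((1 / 2 + x : ℝ) : ℂ) + y * I) - 1‖ *
          ‖riemannZeta (((1 / 2 + x : ℝ) : ℂ) + y * I)‖) := by
        have : Real.exp (x * Real.log T + x + 17 / y) =
            Real.exp (1 / y) * Real.exp (x * Real.log T + x) * Real.exp (16 / y) := by
          rw [← Real.exp_add, ← Real.exp_add]
          congr 1
          ring
        rw [this]
        ring
    _ ≤ _ := by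
        gcongr

theorem log_ge_one {T : ℝ} (hT : 3 ≤ T) : 1 ≤ Real.log T := by
  have h1 : Real.exp 1 ≤ T := by linarith [Real.exp_one_lt_d9]
  have h2 := Real.log_le_log (Real.exp_pos 1) h1
  rwa [Real.log_exp] at h2

/-- the part of the moment far from the centre is negligible -/
theorem far_small {β ε η : ℝ} (hβ : 0 < β) (hε : 0 < ε) (hη : 0 < η) (K : ℕ) : ∃ T₀ : ℝ, ∀ T Δ : ℝ, T₀ ≤ T → 0 < Δ →
    1 ≤ Δ ^ 2 * Real.log T → Δ ≤ T / Real.log T → ∀ x : ℝ, 1 / 4 ≤ x → x ≤ 3 →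
    ∫ y in {y : ℝ | η * T < |y - T|}, ‖Z1 (x + y * I)‖ ^ β * wt T Δ y ≤
      ε * PB β T Δ (1 / 2) * (1 / T ^ K) := by
  obtain ⟨c, hc⟩ := PB_half_lower hβ
  obtain ⟨n, hn⟩ := exists_nat_ge β
  set A := 2 * n with hA
  set Q : ℝ := 45 ^ n * (KK A + 1) * Real.exp c with hQ
  have hK0 := KK_nonneg A
  have hQ0 : 0 < Q := by positivity
  have ht := tail_tendsto (A + 4 + K) hη
  have hev : ∀ᶠ T : ℝ in atTop, (1 + T) ^ (A + 4 + K) *
      Real.exp (-((η * Real.log T) ^ 2 / 2)) < ε / Q :=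
    ht.eventually (gt_mem_nhds (by positivity))
  obtain ⟨T₀, hT₀⟩ := eventually_atTop.mp hev
  refine ⟨max T₀ 3, fun T Δ hT hΔ h1 h2 x hx1 hx2 => ?_⟩
  have hT3 : 3 ≤ T := (le_max_right _ _).trans hT
  have hT0 : 0 < T := by linarith
  have hlog := log_ge_one hT3
  have hΔT : Δ ≤ T := h2.trans (div_le_self hT0.le hlog)
  have h3 := far A (η := η) hT3 hΔ h2 hη.le (Z1_rpow_cont hβ x).aestronglyMeasurable
    (fun y => by positivity) (fun y => Z1_rpow_bd hβ hn hx1 hx2 y)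
  refine h3.trans ?_
  have h4 := hT₀ T ((le_max_left _ _).trans hT)
  rw [lt_div_iff₀ hQ0] at h4
  have h5 := hc T Δ hT3 hΔ hΔT
  have hP := PB_pos hβ hΔ T (x := 1 / 2) (by norm_num) (by norm_num)
  have h6 : Δ * Real.exp (-c) * (1 / T ^ 4) ≤ PB β T Δ (1 / 2) := by
    rw [← Real.exp_log hP]
    have e1 : Δ * Real.exp (-c) * (1 / T ^ 4) = Real.exp (Real.log Δ + -c + -(4 * Real.log T)) := by
      rw [Real.exp_add, Real.exp_add, Real.exp_log hΔ, Real.exp_neg (4 * Real.log T)]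
      have : (4 : ℝ) * Real.log T = ((4 : ℕ) : ℝ) * Real.log T := by norm_num
      rw [this, Real.exp_nat_mul, Real.exp_log hT0, one_div]
    rw [e1]
    apply Real.exp_le_exp.mpr
    have h7 : 4 / Δ ^ 2 ≤ 4 * Real.log T := by
      rw [div_le_iff₀ (by positivity)]
      nlinarith
    have h8 : 0 ≤ β * Real.log T := by positivity
    linarith
  have h9 : (1 + T) ^ A * (T ^ 4 * T ^ K) ≤ (1 + T) ^ (A + 4 + K) := by
    rw [pow_add, pow_add, mul_assoc]
    gcongr <;> linarith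
  calc 45 ^ n * (1 + T) ^ A * Real.exp (-((η * Real.log T) ^ 2 / 2)) * (Δ * KK A)
      ≤ 45 ^ n * (1 + T) ^ A * Real.exp (-((η * Real.log T) ^ 2 / 2)) * (Δ * (KK A + 1)) := by
        gcongr
        linarith
    _ = ((1 + T) ^ A * (T ^ 4 * T ^ K)) * Real.exp (-((η * Real.log T) ^ 2 / 2)) * Q *
        (Δ * Real.exp (-c) * (1 / T ^ 4)) * (1 / T ^ K) := by
        rw [hQ, Real.exp_neg c]
        field_simp
    _ ≤ (1 + T) ^ (A + 4 + K) * Real.exp (-((η * Real.log T) ^ 2 / 2)) * Q *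
        PB β T Δ (1 / 2) * (1 / T ^ K) := by
        gcongr
    _ ≤ ε * PB β T Δ (1 / 2) * (1 / T ^ K) := by
        gcongr

/-- the moments to the left of the critical line -/
theorem left {β ε : ℝ} (hβ : 0 < β) (hε : 0 < ε) : ∃ C T₀ : ℝ, 0 ≤ C ∧ 3 ≤ T₀ ∧ ∀ T Δ : ℝ, T₀ ≤ T →
    0 < Δ → 1 ≤ Δ ^ 2 * Real.log T → Δ ≤ T / Real.log T → ∀ x : ℝ, 0 ≤ x → x ≤ 1 / 8 →
    LI (GW β T Δ) β (1 / 2 - x) ≤
      (1 + ε) * Real.exp (x * (β * Real.log T + 5 / Δ ^ 2 + C)) * LI (GW β T Δ) β (1 / 2) := by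
  obtain ⟨C, hC0, hC⟩ := right hβ
  obtain ⟨T₁, hT₁⟩ := far_small hβ (half_pos hε) (show (0 : ℝ) < 1 / 2 by norm_num) 0
  have hlim : Tendsto (fun T : ℝ => Real.exp (β * (34 / T))) atTop (𝓝 1) := by
    have h1 : Tendsto (fun T : ℝ => β * (34 / T)) atTop (𝓝 (β * 0)) :=
      (tendsto_const_nhds.div_atTop tendsto_id).const_mul β
    rw [mul_zero] at h1
    have h2 := (Real.continuous_exp.tendsto 0).comp h1
    rwa [Real.exp_zero] at h2
  have hev : ∀ᶠ T : ℝ in atTop, Real.exp (β * (34 / T)) < 1 + ε / 2 :=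
    hlim.eventually (gt_mem_nhds (by linarith))
  obtain ⟨T₂, hT₂⟩ := eventually_atTop.mp hev
  refine ⟨C + β, max (max T₁ T₂) 200, by positivity, (by norm_num : (3 : ℝ) ≤ 200).trans (le_max_right _ _),
    fun T Δ hT hΔ h1 h2 x hx hx8 => ?_⟩
  have hT200 : 200 ≤ T := (le_max_right _ _).trans hT
  have hTT1 : T₁ ≤ T := (le_max_left _ _).trans ((le_max_left _ _).trans hT)
  have hTT2 : T₂ ≤ T := (le_max_right _ _).trans ((le_max_left _ _).trans hT)
  have hT3 : 3 ≤ T := by linarith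
  have hT0 : 0 < T := by linarith
  have hlog := log_ge_one hT3
  have hΔT : Δ ≤ T := h2.trans (div_le_self hT0.le hlog)
  have hR := hC T Δ hT3 hΔ hΔT x hx (by linarith)
  have hF := hT₁ T Δ hTT1 hΔ h1 h2 (1 / 2 - x) (by linarith) (by linarith)
  rw [pow_zero, div_one, mul_one] at hF
  have hE := hT₂ T hTT2
  have hP := PB_pos hβ hΔ T (x := 1 / 2) (by norm_num) (by norm_num)
  set N : Set ℝ := {y : ℝ | 1 / 2 * T < |y - T|} with hN
  have hms : MeasurableSet N := measurableSet_lt measurable_const (by fun_prop)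
  have hi := PB_integrable hβ hΔ hT0.le hΔT (x := 1 / 2 - x) (by linarith) (by linarith)
  have hi2 := PB_integrable hβ hΔ hT0.le hΔT (x := 1 / 2 + x) (by linarith) (by linarith)
  set F := Real.exp (β * (x * Real.log T + x + 34 / T)) with hFd
  have hnear : ∫ y in Nᶜ, ‖Z1 (((1 / 2 - x : ℝ) : ℂ) + y * I)‖ ^ β * wt T Δ y ≤
      F * PB β T Δ (1 / 2 + x) := by
    have h3 : ∀ y ∈ Nᶜ, ‖Z1 (((1 / 2 - x : ℝ) : ℂ) + y * I)‖ ^ β * wt T Δ y ≤
        F * (‖Z1 (((1 / 2 + x : ℝ) : ℂ) + y * I)‖ ^ β * wt T Δ y) := by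
      intro y hy
      have hy' : |y - T| ≤ 1 / 2 * T := by
        rw [hN, mem_compl_iff] at hy
        exact not_lt.mp hy
      have h4 := fe_Z1 hx hx8 hT200 hy'
      have h5 : ‖Z1 (((1 / 2 - x : ℝ) : ℂ) + y * I)‖ ^ β ≤
          F * ‖Z1 (((1 / 2 + x : ℝ) : ℂ) + y * I)‖ ^ β := by
        calc _ ≤ (Real.exp (x * Real.log T + x + 34 / T) *
              ‖Z1 (((1 / 2 + x : ℝ) : ℂ) + y * I)‖) ^ β :=
              Real.rpow_le_rpow (norm_nonneg _) h4 hβ.le
          _ = _ := by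
              rw [Real.mul_rpow (Real.exp_pos _).le (norm_nonneg _), ← Real.exp_mul, hFd]
              congr 2
              ring
      calc _ ≤ (F * ‖Z1 (((1 / 2 + x : ℝ) : ℂ) + y * I)‖ ^ β) * wt T Δ y :=
            mul_le_mul_of_nonneg_right h5 (wt_pos _ _ _).le
        _ = _ := by ring
    have h6 := setIntegral_mono_on hi.integrableOn (hi2.const_mul F).integrableOn hms.compl h3
    refine h6.trans ((setIntegral_le_integral (hi2.const_mul F) (Eventually.of_forall fun y => ?_)).trans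
      (le_of_eq ?_))
    · have := wt_pos T Δ y
      have := Real.exp_pos (β * (x * Real.log T + x + 34 / T))
      show 0 ≤ _
      positivity
    · rw [integral_const_mul]
      rfl
  have hsum : PB β T Δ (1 / 2 - x) ≤ F * PB β T Δ (1 / 2 + x) + ε / 2 * PB β T Δ (1 / 2) := by
    unfold PB at hnear hF ⊢
    rw [← integral_add_compl hms hi]
    linarith
  rw [LI_half hβ hΔ] at hR ⊢
  rw [LI_GW hβ hΔ] at hR ⊢
  have ex1 : (1 / 2 + x - 1 / 2 : ℝ) ^ 2 = x ^ 2 := by ring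
  have ex2 : (1 / 2 - x - 1 / 2 : ℝ) ^ 2 = x ^ 2 := by ring
  rw [ex1] at hR
  rw [ex2]
  set P := PB β T Δ (1 / 2) with hPd
  have h7 : F = Real.exp (x * (β * Real.log T + β)) * Real.exp (β * (34 / T)) := by
    rw [hFd, ← Real.exp_add]
    congr 1
    ring
  have h8 : Real.exp (x ^ 2 / Δ ^ 2) ≤ Real.exp (x * (β * Real.log T + 5 / Δ ^ 2 + (C + β))) := by
    apply Real.exp_le_exp.mpr
    have a1 : 0 ≤ 1 / Δ ^ 2 := by positivity
    have a2 : x ^ 2 / Δ ^ 2 = x * x * (1 / Δ ^ 2) := by ring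
    have a3 : 5 / Δ ^ 2 = 5 * (1 / Δ ^ 2) := by ring
    have a4 : 0 ≤ x * (β * Real.log T + (C + β)) := by positivity
    have a5 : x * x * (1 / Δ ^ 2) ≤ x * 5 * (1 / Δ ^ 2) := by gcongr; linarith
    rw [a2, a3]
    linarith
  calc Real.exp (x ^ 2 / Δ ^ 2) * PB β T Δ (1 / 2 - x)
      ≤ Real.exp (x ^ 2 / Δ ^ 2) * (F * PB β T Δ (1 / 2 + x) + ε / 2 * P) := by gcongr
    _ = F * (Real.exp (x ^ 2 / Δ ^ 2) * PB β T Δ (1 / 2 + x)) + ε / 2 * (Real.exp (x ^ 2 / Δ ^ 2) * P) := by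
        ring
    _ ≤ F * (Real.exp (x * (5 / Δ ^ 2 + C)) * P) +
        ε / 2 * (Real.exp (x * (β * Real.log T + 5 / Δ ^ 2 + (C + β))) * P) := by gcongr
    _ = (Real.exp (β * (34 / T)) + ε / 2) *
        Real.exp (x * (β * Real.log T + 5 / Δ ^ 2 + (C + β))) * P := by
        have : Real.exp (x * (β * Real.log T + 5 / Δ ^ 2 + (C + β))) =
            Real.exp (x * (β * Real.log T + β)) * Real.exp (x * (5 / Δ ^ 2 + C)) := by
          rw [← Real.exp_add]; congr 1; ring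
        rw [h7, this]
        ring
    _ ≤ _ := mul_le_mul_of_nonneg_right (mul_le_mul_of_nonneg_right (by linarith) (Real.exp_pos _).le)
        hP.le

/-- both sides, in the form used below -/
theorem band {β κ ε : ℝ} (hβ : 0 < β) (hκ : 0 < κ) (hε : 0 < ε) : ∃ B T₀ : ℝ, 1 ≤ B ∧ 200 ≤ T₀ ∧
    ∀ T Δ : ℝ, T₀ ≤ T → 0 < Δ → B ≤ Δ ^ 2 * Real.log T → Δ ≤ T / Real.log T →
    (∀ x : ℝ, 0 ≤ x → x ≤ 1 / 8 → LI (GW β T Δ) β (1 / 2 + x) ≤
      Real.exp (κ * x * Real.log T) * LI (GW β T Δ) β (1 / 2)) ∧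
    ∀ x : ℝ, |x| ≤ 1 / 8 → LI (GW β T Δ) β (1 / 2 + x) ≤
      (1 + ε) * Real.exp ((β + κ) * |x| * Real.log T) * LI (GW β T Δ) β (1 / 2) := by
  obtain ⟨C, hC0, hC⟩ := right hβ
  obtain ⟨C', T₁, hC'0, hT₁3, hC'⟩ := left hβ hε
  refine ⟨10 / κ + 1, max (max T₁ 200) (Real.exp (2 * (C + C') / κ)), ?_,
    (le_max_right _ _).trans (le_max_left _ _), fun T Δ hT hΔ hB h2 => ?_⟩
  · have : 0 ≤ 10 / κ := by positivity
    linarith
  have hTT1 : T₁ ≤ T := (le_max_left _ _).trans ((le_max_left _ _).trans hT)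
  have hT200 : 200 ≤ T := (le_max_right _ _).trans ((le_max_left _ _).trans hT)
  have hT3 : 3 ≤ T := by linarith
  have hT0 : 0 < T := by linarith
  have hlog := log_ge_one hT3
  have hL0 : 0 < Real.log T := by linarith
  have hΔT : Δ ≤ T := h2.trans (div_le_self hT0.le hlog)
  have hlog2 : 2 * (C + C') / κ ≤ Real.log T := by
    rw [Real.le_log_iff_exp_le hT0]
    exact (le_max_right _ _).trans hT
  have hCC : C + C' ≤ κ / 2 * Real.log T := by
    rw [div_le_iff₀ hκ] at hlog2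
    linarith
  have h5 : 5 / Δ ^ 2 ≤ κ / 2 * Real.log T := by
    rw [div_le_iff₀ (by positivity)]
    have h6 : 10 / κ ≤ Δ ^ 2 * Real.log T := by linarith
    rw [div_le_iff₀ hκ] at h6
    nlinarith
  have h1 : 1 ≤ Δ ^ 2 * Real.log T := by
    have : 0 ≤ 10 / κ := by positivity
    linarith
  have hp1 := LI_pos hβ hΔ T (x := 1 / 2) (by norm_num) (by norm_num)
  have hright : ∀ x : ℝ, 0 ≤ x → x ≤ 1 / 8 → LI (GW β T Δ) β (1 / 2 + x) ≤
      Real.exp (κ * x * Real.log T) * LI (GW β T Δ) β (1 / 2) := by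
    intro x hx hx8
    refine (hC T Δ hT3 hΔ hΔT x hx (by linarith)).trans ?_
    refine mul_le_mul_of_nonneg_right (Real.exp_le_exp.mpr ?_) hp1.le
    have : 5 / Δ ^ 2 + C ≤ κ * Real.log T := by linarith
    calc x * (5 / Δ ^ 2 + C) ≤ x * (κ * Real.log T) := mul_le_mul_of_nonneg_left this hx
      _ = _ := by ring
  refine ⟨hright, fun x hx8 => ?_⟩
  rcases le_total 0 x with hx | hx
  · rw [abs_of_nonneg hx] at hx8 ⊢
    refine (hright x hx hx8).trans (mul_le_mul_of_nonneg_right ?_ hp1.le)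
    have h6 : Real.exp (κ * x * Real.log T) ≤ Real.exp ((β + κ) * x * Real.log T) := by
      apply Real.exp_le_exp.mpr
      have : 0 ≤ β * x * Real.log T := by positivity
      linarith
    have h7 := Real.exp_pos ((β + κ) * x * Real.log T)
    nlinarith
  · have hx8' : -x ≤ 1 / 8 := by rwa [abs_of_nonpos hx] at hx8
    have h6 := hC' T Δ hTT1 hΔ h1 h2 (-x) (by linarith) hx8'
    rw [sub_neg_eq_add] at h6
    refine h6.trans (mul_le_mul_of_nonneg_right ?_ hp1.le)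
    rw [abs_of_nonpos hx]
    refine mul_le_mul_of_nonneg_left (Real.exp_le_exp.mpr ?_) (by positivity)
    have : β * Real.log T + 5 / Δ ^ 2 + C' ≤ (β + κ) * Real.log T := by linarith
    calc -x * (β * Real.log T + 5 / Δ ^ 2 + C') ≤ -x * ((β + κ) * Real.log T) :=
          mul_le_mul_of_nonneg_left this (by linarith)
      _ = _ := by ring

end

end Run7.h563.LS
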