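import Pool.Agent.Run7.h563.LS.B

set_option autoImplicit false

/-!
# Clusters of zeros
-/

namespace Run7.h563.LS

open Complex MeasureTheory Filter Topology Set Q97.RB Q97.MM MeromorphicOn

noncomputable section

/-- the number of zeros of zeta, with multiplicity, in the closed disc of centre `s` and radius
`r` -/
def zeroCount (s : ℂ) (r : ℝ) : ℕ :=
  ∑ᶠ (ρ : ℂ) (_ : ρ ∈ Metric.closedBall s r), analyticOrderNatAt riemannZeta ρ

theorem order_GW (β T Δ : ℝ) {u : ℂ} (hu : u ≠ 1) :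
    analyticOrderAt (GW β T Δ) u = analyticOrderAt riemannZeta u := by
  have h1 : GW β T Δ =ᶠ[𝓝 u] (fun s => (s - 1) *
      cexp ((s - 1 / 2 - T * I) ^ 2 / ((β * Δ ^ 2 : ℝ) : ℂ))) * riemannZeta := by
    filter_upwards [isOpen_ne.mem_nhds hu] with s hs
    rw [GW, Z1_of_ne hs, Pi.mul_apply]
    ring
  have hza : AnalyticAt ℂ riemannZeta u := by
    refine DifferentiableOn.analyticAt (s := {z : ℂ | z ≠ 1}) (fun z hz => ?_)
      (isOpen_ne.mem_nhds hu)
    exact (differentiableAt_riemannZeta hz).differentiableWithinAt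
  have hda : Differentiable ℂ (fun s : ℂ => (s - 1) *
      cexp ((s - 1 / 2 - T * I) ^ 2 / ((β * Δ ^ 2 : ℝ) : ℂ))) := by fun_prop
  rw [analyticOrderAt_congr h1, analyticOrderAt_mul (hda.analyticAt u) hza]
  have h2 : analyticOrderAt (fun s : ℂ => (s - 1) *
      cexp ((s - 1 / 2 - T * I) ^ 2 / ((β * Δ ^ 2 : ℝ) : ℂ))) u = 0 := by
    rw [(hda.analyticAt u).analyticOrderAt_eq_zero]
    exact mul_ne_zero (sub_ne_zero.mpr hu) (Complex.exp_ne_zero _)
  rw [h2, zero_add]

theorem order_fin (β T Δ : ℝ) (u : ℂ) : analyticOrderAt (GW β T Δ) u ≠ ⊤ := by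
  intro h
  rw [analyticOrderAt_eq_top] at h
  have hA : AnalyticOnNhd ℂ (GW β T Δ) univ := fun z _ => (GW_diff β T Δ).analyticAt z
  have h1 := hA.eq_of_eventuallyEq (g := 0) (fun z _ => analyticAt_const) (z₀ := u) h
  exact GW_ne_zero β T Δ h1

theorem div_GW (β T Δ : ℝ) {U : Set ℂ} {u : ℂ} (hu : u ∈ U) (hu1 : u ≠ 1) :
    (divisor (GW β T Δ) U u : ℝ) = (analyticOrderNatAt riemannZeta u : ℝ) := by
  have hA : AnalyticOnNhd ℂ (GW β T Δ) U := fun z _ => (GW_diff β T Δ).analyticAt z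
  rw [MeromorphicOn.AnalyticOnNhd.divisor_apply hA hu]
  have h1 := order_fin β T Δ u
  rw [order_GW β T Δ hu1] at h1 ⊢
  obtain ⟨n, hn⟩ := ENat.ne_top_iff_exists.mp h1
  unfold analyticOrderNatAt
  rw [← hn]
  simp

theorem ne_one_ball {s u : ℂ} {r : ℝ} (hr : r ≤ 1 / 8) (hs : s.re = 1 / 2)
    (hu : u ∈ Metric.closedBall s r) : u ≠ 1 := by
  rintro rfl
  rw [Metric.mem_closedBall, dist_eq_norm] at hu
  have h1 := (Complex.abs_re_le_norm (1 - s)).trans hu
  rw [Complex.sub_re, Complex.one_re, hs] at h1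
  norm_num at h1
  linarith

/-- many zeros near the centre make the counting function large -/
theorem NN_ge {β T Δ : ℝ} {s : ℂ} {δ r : ℝ} (hδ : 0 < δ) (hδr : δ ≤ r) (hr : r ≤ 1 / 8)
    (hs : s.re = 1 / 2) (hne : GW β T Δ s ≠ 0) {m : ℕ} (hm : m ≤ zeroCount s δ) :
    (m : ℝ) * Real.log (r / δ) ≤ NN (GW β T Δ) s r := by
  have hr0 : 0 < r := by linarith
  have hlog : 0 ≤ Real.log (r / δ) := Real.log_nonneg ((one_le_div hδ).mpr hδr)
  set D := divisor (GW β T Δ) (Metric.closedBall s |r|) with hD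
  have habs : |r| = r := abs_of_pos hr0
  have hfin : D.support.Finite := by
    refine Function.locallyFinsuppWithin.finiteSupport D ?_
    exact isCompact_closedBall _ _
  set f : ℂ → ℝ := fun u => (D u : ℝ) * Real.log (r * ‖s - u‖⁻¹) with hf
  have hf0 : ∀ u, 0 ≤ f u := fun u => NN_term_nonneg (GW_diff β T Δ) s hr0 u
  have hfsupp : (Function.support f) ⊆ ↑hfin.toFinset := by
    intro u hu
    rw [Set.Finite.coe_toFinset, Function.mem_support]
    intro h
    apply hu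
    simp [hf, h]
  have hNN : NN (GW β T Δ) s r = ∑ u ∈ hfin.toFinset, f u := by
    unfold NN
    exact finsum_eq_sum_of_support_subset _ hfsupp
  -- the count
  classical
  set g : ℂ → ℕ := fun u => if u ∈ Metric.closedBall s δ then analyticOrderNatAt riemannZeta u else 0
    with hg
  have hzc : zeroCount s δ = ∑ᶠ u, g u := by
    unfold zeroCount
    refine finsum_congr fun u => ?_
    rw [finsum_eq_if]
  have hgD : ∀ u, u ∈ Metric.closedBall s δ → (D u : ℝ) = (analyticOrderNatAt riemannZeta u : ℝ) := by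
    intro u hu
    have hu2 : u ∈ Metric.closedBall s |r| := by
      rw [habs]
      exact Metric.closedBall_subset_closedBall hδr hu
    exact div_GW β T Δ hu2 (ne_one_ball (r := δ) (by linarith) hs hu)
  have hgsupp : (Function.support g) ⊆ ↑hfin.toFinset := by
    intro u hu
    rw [Function.mem_support] at hu
    by_cases hu2 : u ∈ Metric.closedBall s δ
    · rw [Set.Finite.coe_toFinset, Function.mem_support]
      intro h
      have h3 := hgD u hu2
      rw [h] at h3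
      apply hu
      simp only [hg, if_pos hu2]
      exact_mod_cast h3.symm
    · exact absurd (if_neg hu2) hu
  rw [hzc, finsum_eq_sum_of_support_subset _ hgsupp] at hm
  have hm' : (m : ℝ) ≤ ∑ u ∈ hfin.toFinset, (g u : ℝ) := by exact_mod_cast hm
  calc (m : ℝ) * Real.log (r / δ) ≤ (∑ u ∈ hfin.toFinset, (g u : ℝ)) * Real.log (r / δ) :=
        mul_le_mul_of_nonneg_right hm' hlog
    _ = ∑ u ∈ hfin.toFinset, (g u : ℝ) * Real.log (r / δ) := Finset.sum_mul _ _ _
    _ ≤ ∑ u ∈ hfin.toFinset, f u := by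
        refine Finset.sum_le_sum fun u _ => ?_
        by_cases hu : u ∈ Metric.closedBall s δ
        · have h3 := hgD u hu
          simp only [hg, if_pos hu, hf]
          rw [h3]
          rcases eq_or_ne (analyticOrderNatAt riemannZeta u) 0 with h0 | h0
          · rw [h0]; simp
          · refine mul_le_mul_of_nonneg_left ?_ (by positivity)
            have hsu : 0 < ‖s - u‖ := by
              rw [norm_pos_iff, sub_ne_zero]
              rintro rfl
              have h4 := apply_eq_zero_of_analyticOrderNatAt_ne_zero h0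
              apply hne
              have h5 : s ≠ 1 := ne_one_ball (r := δ) (by linarith) hs (Metric.mem_closedBall_self hδ.le)
              rw [GW, Z1_of_ne h5, h4]
              ring
            have h6 : ‖s - u‖ ≤ δ := by
              rw [Metric.mem_closedBall, dist_comm, dist_eq_norm] at hu
              exact hu
            rw [div_eq_mul_inv]
            apply Real.log_le_log (by positivity)
            gcongr
        · simp only [hg, if_neg hu, Nat.cast_zero, zero_mul]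
          exact hf0 u
    _ = NN (GW β T Δ) s r := hNN.symm

/-- the integrated form of Jensen's inequality around the critical line -/
theorem cluster_lint {β κ ε : ℝ} (hβ : 0 < β) (hκ : 0 < κ) (hε : 0 < ε) : ∃ B T₀ : ℝ, 1 ≤ B ∧ 200 ≤ T₀ ∧
    ∀ T Δ : ℝ, T₀ ≤ T → 0 < Δ → B ≤ Δ ^ 2 * Real.log T → Δ ≤ T / Real.log T →
    ∀ r : ℝ, 0 < r → r ≤ 1 / 8 →
    ∫⁻ y : ℝ, ENNReal.ofReal (‖GW β T Δ (((1 / 2 : ℝ) : ℂ) + y * I)‖ ^ β *
        Real.exp (β * NN (GW β T Δ) (((1 / 2 : ℝ) : ℂ) + y * I) r)) ≤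
      ENNReal.ofReal ((1 + ε) * Real.exp ((β + κ) * r * Real.log T) * PB β T Δ (1 / 2)) := by
  obtain ⟨B, T₀, hB1, hT₀, h⟩ := band hβ hκ hε
  refine ⟨B, T₀, hB1, hT₀, fun T Δ hT hΔ hB h2 r hr hr8 => ?_⟩
  obtain ⟨-, h3⟩ := h T Δ hT hΔ hB h2
  have hT3 : 3 ≤ T := by linarith
  have hlog := log_ge_one hT3
  have hπ := Real.pi_pos
  refine (submean_zeros (GW_diff β T Δ) hβ (GW_gd hβ hΔ T) hr (x := 1 / 2) (by linarith) (by linarith)).trans ?_
  rw [← LI_half hβ hΔ]
  have hp1 := LI_pos hβ hΔ T (x := 1 / 2) (by norm_num) (by norm_num)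
  set M := (1 + ε) * Real.exp ((β + κ) * r * Real.log T) * LI (GW β T Δ) β (1 / 2) with hM
  have h4 : ∀ θ : ℝ, LI (GW β T Δ) β (1 / 2 + r * Real.cos θ) ≤ M := by
    intro θ
    have h5 : |r * Real.cos θ| ≤ r := by
      rw [abs_mul, abs_of_pos hr]
      have := Real.abs_cos_le_one θ
      nlinarith
    refine (h3 (r * Real.cos θ) (h5.trans hr8)).trans ?_
    rw [hM]
    refine mul_le_mul_of_nonneg_right (mul_le_mul_of_nonneg_left (Real.exp_le_exp.mpr ?_) (by positivity)) hp1.le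
    gcongr
  calc ENNReal.ofReal ((2 * Real.pi)⁻¹) *
        ∫⁻ θ in Ioc 0 (2 * Real.pi), ENNReal.ofReal (LI (GW β T Δ) β (1 / 2 + r * Real.cos θ))
      ≤ ENNReal.ofReal ((2 * Real.pi)⁻¹) * ∫⁻ _ in Ioc 0 (2 * Real.pi), ENNReal.ofReal M := by
        gcongr with θ
        exact h4 θ
    _ = ENNReal.ofReal M := by
        rw [setLIntegral_const, Real.volume_Ioc, sub_zero, mul_comm (ENNReal.ofReal M), ← mul_assoc,
          ← ENNReal.ofReal_mul (by positivity), inv_mul_cancel₀ (by positivity), ENNReal.ofReal_one, one_mul]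

/-- clusters of zeros, for the weight with `(s - 1) ζ(s)` -/
theorem cluster_GW {β κ ε : ℝ} (hβ : 0 < β) (hκ : 0 < κ) (hε : 0 < ε) : ∃ B T₀ : ℝ, 1 ≤ B ∧ 200 ≤ T₀ ∧
    ∀ T Δ : ℝ, T₀ ≤ T → 0 < Δ → B ≤ Δ ^ 2 * Real.log T → Δ ≤ T / Real.log T →
    ∀ δ r : ℝ, 0 < δ → δ ≤ r → r ≤ 1 / 8 → ∀ (m : ℕ) (S : Set ℝ), MeasurableSet S →
    (∀ y ∈ S, m ≤ zeroCount (((1 / 2 : ℝ) : ℂ) + y * I) δ) →
    ∫ y in S, ‖Z1 (((1 / 2 : ℝ) : ℂ) + y * I)‖ ^ β * wt T Δ y ≤
      (1 + ε) * Real.exp ((β + κ) * r * Real.log T) * (δ / r) ^ (β * m) * PB β T Δ (1 / 2) := by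
  obtain ⟨B, T₀, hB1, hT₀, h⟩ := cluster_lint hβ hκ hε
  refine ⟨B, T₀, hB1, hT₀, fun T Δ hT hΔ hB h2 δ r hδ hδr hr8 m S hS hm => ?_⟩
  have hr : 0 < r := by linarith
  have h3 := h T Δ hT hΔ hB h2 r hr hr8
  have hT3 : 3 ≤ T := by linarith
  have hT0 : 0 < T := by linarith
  have hlog := log_ge_one hT3
  have hΔT : Δ ≤ T := h2.trans (div_le_self hT0.le hlog)
  have hP := PB_pos hβ hΔ T (x := 1 / 2) (by norm_num) (by norm_num)
  set q : ℝ := (r / δ) ^ (β * m) with hq
  have hq0 : 0 < q := Real.rpow_pos_of_pos (by positivity) _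
  set M := (1 + ε) * Real.exp ((β + κ) * r * Real.log T) * PB β T Δ (1 / 2) with hM
  have hM0 : 0 ≤ M := by positivity
  have hi := (PB_integrable hβ hΔ hT0.le hΔT (x := 1 / 2) (by norm_num) (by norm_num)).integrableOn (s := S)
  have hpt : ∀ y ∈ S, ENNReal.ofReal (q * (‖Z1 (((1 / 2 : ℝ) : ℂ) + y * I)‖ ^ β * wt T Δ y)) ≤
      ENNReal.ofReal (‖GW β T Δ (((1 / 2 : ℝ) : ℂ) + y * I)‖ ^ β *
        Real.exp (β * NN (GW β T Δ) (((1 / 2 : ℝ) : ℂ) + y * I) r)) := by
    intro y hy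
    apply ENNReal.ofReal_le_ofReal
    have e1 := GW_pow hβ hΔ T (1 / 2) y
    rw [sub_self, zero_pow two_ne_zero, zero_div, Real.exp_zero, one_mul] at e1
    rw [← e1, mul_comm q]
    by_cases hne : GW β T Δ (((1 / 2 : ℝ) : ℂ) + y * I) = 0
    · rw [hne, norm_zero, Real.zero_rpow hβ.ne', zero_mul, zero_mul]
    · refine mul_le_mul_of_nonneg_left ?_ (by positivity)
      have h4 := NN_ge (β := β) (T := T) (Δ := Δ) hδ hδr hr8 (by simp) hne (hm y hy)
      rw [hq, Real.rpow_def_of_pos (by positivity)]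
      apply Real.exp_le_exp.mpr
      calc Real.log (r / δ) * (β * m) = β * (m * Real.log (r / δ)) := by ring
        _ ≤ _ := mul_le_mul_of_nonneg_left h4 hβ.le
  have h5 : ENNReal.ofReal (q * ∫ y in S, ‖Z1 (((1 / 2 : ℝ) : ℂ) + y * I)‖ ^ β * wt T Δ y) ≤
      ENNReal.ofReal M := by
    rw [← integral_const_mul, ofReal_integral_eq_lintegral_ofReal (hi.const_mul q)
      (Eventually.of_forall fun y => by
        have := wt_pos T Δ y
        show 0 ≤ _
        positivity)]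
    refine (setLIntegral_mono' hS hpt).trans ?_
    exact (setLIntegral_le_lintegral _ _).trans h3
  rw [ENNReal.ofReal_le_ofReal_iff hM0] at h5
  have h6 : (δ / r) ^ (β * m) = q⁻¹ := by
    rw [hq, ← Real.inv_rpow (by positivity), inv_div]
  rw [h6]
  have h7 : ∫ y in S, ‖Z1 (((1 / 2 : ℝ) : ℂ) + y * I)‖ ^ β * wt T Δ y ≤ q⁻¹ * M := by
    rw [inv_mul_eq_div, le_div_iff₀ hq0]
    linarith
  refine h7.trans (le_of_eq ?_)
  rw [hM]
  ring

end

end Run7.h563.LS
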