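import Pool.Agent.Run7.h563.LS.C
import Pool.Agent.R313.FN.D

set_option autoImplicit false

/-!
# Suprema over small discs
-/

namespace Run7.h563.LS

open Complex MeasureTheory Filter Topology Set Q97.RB Q97.MM

noncomputable section

/-- the mean value inequality over a disc -/
theorem area {β : ℝ} (hβ : 0 < β) {g : ℂ → ℂ} (hg : Differentiable ℂ g) (s : ℂ) {r : ℝ}
    (hr : 0 < r) : Real.pi * r ^ 2 * ‖g s‖ ^ β ≤ ∫ w in Metric.ball s r, ‖g w‖ ^ β := by
  have hpi := Real.pi_pos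
  have hgc : Continuous g := hg.continuous
  have hcm : Continuous fun p : ℝ × ℝ => circleMap s p.1 p.2 := by
    unfold circleMap
    fun_prop
  have hGint : IntegrableOn (fun p : ℝ × ℝ => p.1 * ‖g (circleMap s p.1 p.2)‖ ^ β)
      ((Ioo 0 r) ×ˢ (Ioo (-Real.pi) Real.pi)) := by
    have hc : Continuous (fun p : ℝ × ℝ => p.1 * ‖g (circleMap s p.1 p.2)‖ ^ β) :=
      continuous_fst.mul (((hgc.comp hcm).norm).rpow_const fun _ => Or.inr hβ.le)
    have := ContinuousOn.integrableOn_compact (μ := volume)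
      ((isCompact_Icc (a := (0 : ℝ)) (b := r)).prod (isCompact_Icc (a := -Real.pi) (b := Real.pi)))
      hc.continuousOn
    exact this.mono_set (Set.prod_mono Ioo_subset_Icc_self Ioo_subset_Icc_self)
  have hB : ∫ w in Metric.ball s r, ‖g w‖ ^ β
      = ∫ x in Ioo 0 r, ∫ θ in Ioo (-Real.pi) Real.pi, x * ‖g (circleMap s x θ)‖ ^ β := by
    rw [Pool.Agent.R313.FN.sla_polar β g s r]
    exact setIntegral_prod _ hGint
  have hInt2 : IntegrableOn (fun x => ∫ θ in Ioo (-Real.pi) Real.pi,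
      x * ‖g (circleMap s x θ)‖ ^ β) (Ioo 0 r) := by
    have h := hGint
    rw [IntegrableOn, Measure.volume_eq_prod, ← Measure.prod_restrict] at h
    exact h.integral_prod_left
  have hC : ∫ x in Ioo 0 r, x * (2 * Real.pi * ‖g s‖ ^ β)
      ≤ ∫ x in Ioo 0 r, ∫ θ in Ioo (-Real.pi) Real.pi, x * ‖g (circleMap s x θ)‖ ^ β := by
    refine setIntegral_mono_on ?_ hInt2 measurableSet_Ioo ?_
    · have : ContinuousOn (fun x : ℝ => x * (2 * Real.pi * ‖g s‖ ^ β)) (Icc 0 r) := by fun_prop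
      exact (ContinuousOn.integrableOn_compact isCompact_Icc this).mono_set Ioo_subset_Icc_self
    · intro x hx
      rw [integral_const_mul]
      refine mul_le_mul_of_nonneg_left ?_ hx.1.le
      exact Pool.Agent.R313.FN.sla_mean hβ g univ isOpen_univ hg.differentiableOn s x hx.1
        (subset_univ _)
  have hD : ∫ x in Ioo 0 r, x * (2 * Real.pi * ‖g s‖ ^ β) = Real.pi * r ^ 2 * ‖g s‖ ^ β := by
    rw [integral_mul_const, ← integral_Ioc_eq_integral_Ioo,
      ← intervalIntegral.integral_of_le hr.le, integral_id]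
    ring
  rw [← hD, hB]
  exact hC

/-- the same with the lower integral over a larger disc, translated to the origin -/
theorem area_lint {β : ℝ} (hβ : 0 < β) {g : ℂ → ℂ} (hg : Differentiable ℂ g) (s : ℂ) {r r' : ℝ}
    (hr : 0 < r') {z : ℂ} (hz : z ∈ Metric.closedBall (0 : ℂ) r) :
    ENNReal.ofReal (‖g (s + z)‖ ^ β) ≤ ENNReal.ofReal ((Real.pi * r' ^ 2)⁻¹) *
      ∫⁻ w in Metric.ball (0 : ℂ) (r + r'), ENNReal.ofReal (‖g (s + w)‖ ^ β) := by
  have hpi := Real.pi_pos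
  have hgc : Continuous (fun w : ℂ => ‖g (s + w)‖ ^ β) :=
    ((hg.continuous.comp (by fun_prop : Continuous fun w : ℂ => s + w)).norm).rpow_const
      fun _ => Or.inr hβ.le
  have h1 := area hβ (g := fun w => g (s + w)) (hg.comp (by fun_prop)) z hr
  have hint : IntegrableOn (fun w : ℂ => ‖g (s + w)‖ ^ β) (Metric.ball (0 : ℂ) (r + r')) :=
    (hgc.continuousOn.integrableOn_compact (isCompact_closedBall (0 : ℂ) (r + r'))).mono_set
      Metric.ball_subset_closedBall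
  have hsub : Metric.ball z r' ⊆ Metric.ball (0 : ℂ) (r + r') := by
    apply Metric.ball_subset_ball'
    rw [Metric.mem_closedBall] at hz
    linarith
  have h2 : ∫ w in Metric.ball z r', ‖g (s + w)‖ ^ β ≤
      ∫ w in Metric.ball (0 : ℂ) (r + r'), ‖g (s + w)‖ ^ β :=
    setIntegral_mono_set hint (Filter.Eventually.of_forall fun w => by positivity) hsub.eventuallyLE
  rw [← ofReal_integral_eq_lintegral_ofReal hint (Filter.Eventually.of_forall fun w => by positivity),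
    ← ENNReal.ofReal_mul (by positivity)]
  apply ENNReal.ofReal_le_ofReal
  rw [inv_mul_eq_div, le_div_iff₀ (by positivity)]
  linarith

/-- suprema over discs centred on the critical line, in mean -/
theorem sup_GW {β κ ε : ℝ} (hβ : 0 < β) (hκ : 0 < κ) (hε : 0 < ε) : ∃ B T₀ : ℝ, 1 ≤ B ∧ 200 ≤ T₀ ∧
    ∀ T Δ : ℝ, T₀ ≤ T → 0 < Δ → B ≤ Δ ^ 2 * Real.log T → Δ ≤ T / Real.log T →
    ∀ r r' : ℝ, 0 < r → 0 < r' → r + r' ≤ 1 / 8 →
    ∫⁻ y : ℝ, ⨆ z ∈ Metric.closedBall (0 : ℂ) r,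
        ENNReal.ofReal (‖GW β T Δ (((1 / 2 : ℝ) : ℂ) + y * I + z)‖ ^ β) ≤
      ENNReal.ofReal (((r + r') / r') ^ 2 * ((1 + ε) * Real.exp ((β + κ) * (r + r') * Real.log T) *
        PB β T Δ (1 / 2))) := by
  obtain ⟨B, T₀, hB1, hT₀, h⟩ := band hβ hκ hε
  refine ⟨B, T₀, hB1, hT₀, fun T Δ hT hΔ hB h2 r r' hr hr' hr8 => ?_⟩
  obtain ⟨-, h3⟩ := h T Δ hT hΔ hB h2
  have hT3 : 3 ≤ T := by linarith
  have hlog := log_ge_one hT3
  have hpi := Real.pi_pos
  have hG := GW_diff β T Δ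
  have hGc := hG.continuous
  have hp1 := LI_pos hβ hΔ T (x := 1 / 2) (by norm_num) (by norm_num)
  rw [← LI_half hβ hΔ]
  set M := (1 + ε) * Real.exp ((β + κ) * (r + r') * Real.log T) * LI (GW β T Δ) β (1 / 2) with hM
  have hstep1 : ∫⁻ y : ℝ, ⨆ z ∈ Metric.closedBall (0 : ℂ) r,
        ENNReal.ofReal (‖GW β T Δ (((1 / 2 : ℝ) : ℂ) + y * I + z)‖ ^ β) ≤
      ∫⁻ y : ℝ, ENNReal.ofReal ((Real.pi * r' ^ 2)⁻¹) *
        ∫⁻ w in Metric.ball (0 : ℂ) (r + r'),
          ENNReal.ofReal (‖GW β T Δ (((1 / 2 : ℝ) : ℂ) + y * I + w)‖ ^ β) :=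
    lintegral_mono fun y => iSup₂_le fun z hz => area_lint hβ hG _ hr' hz
  refine hstep1.trans ?_
  have hc2 : Continuous (fun p : ℝ × ℂ => ENNReal.ofReal (‖GW β T Δ (((1 / 2 : ℝ) : ℂ) + p.1 * I + p.2)‖ ^ β)) := by
    refine ENNReal.continuous_ofReal.comp (Continuous.rpow_const ?_ fun p => Or.inr hβ.le)
    fun_prop
  rw [lintegral_const_mul _ (Measurable.lintegral_prod_right hc2.measurable),
    lintegral_lintegral_swap hc2.measurable.aemeasurable]
  have hin : ∀ w ∈ Metric.ball (0 : ℂ) (r + r'), ∫⁻ y : ℝ,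
      ENNReal.ofReal (‖GW β T Δ (((1 / 2 : ℝ) : ℂ) + y * I + w)‖ ^ β) ≤ ENNReal.ofReal M := by
    intro w hw
    rw [Metric.mem_ball, dist_zero_right] at hw
    have hre : |w.re| ≤ r + r' := (Complex.abs_re_le_norm w).trans hw.le
    have e1 : ∀ y : ℝ, ((1 / 2 : ℝ) : ℂ) + y * I + w =
        ((1 / 2 + w.re : ℝ) : ℂ) + ((y + w.im : ℝ) : ℂ) * I := by
      intro y
      nth_rewrite 1 [← Complex.re_add_im w]
      push_cast
      ring
    simp_rw [e1]
    rw [lintegral_add_right_eq_self (fun y : ℝ =>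
      ENNReal.ofReal (‖GW β T Δ (((1 / 2 + w.re : ℝ) : ℂ) + (y : ℂ) * I)‖ ^ β)) w.im]
    have hre' := abs_le.mp hre
    rw [LI_lint hG hβ (GW_gd hβ hΔ T) (by linarith) (by linarith)]
    apply ENNReal.ofReal_le_ofReal
    refine (h3 w.re (hre.trans (by linarith))).trans ?_
    rw [hM]
    refine mul_le_mul_of_nonneg_right (mul_le_mul_of_nonneg_left (Real.exp_le_exp.mpr ?_)
      (by positivity)) hp1.le
    gcongr
  calc ENNReal.ofReal ((Real.pi * r' ^ 2)⁻¹) * ∫⁻ w in Metric.ball (0 : ℂ) (r + r'), ∫⁻ y : ℝ,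
        ENNReal.ofReal (‖GW β T Δ (((1 / 2 : ℝ) : ℂ) + y * I + w)‖ ^ β)
      ≤ ENNReal.ofReal ((Real.pi * r' ^ 2)⁻¹) * ∫⁻ _ in Metric.ball (0 : ℂ) (r + r'), ENNReal.ofReal M :=
         mul_le_mul' le_rfl (setLIntegral_mono' Metric.isOpen_ball.measurableSet hin)
    _ = ENNReal.ofReal (((r + r') / r') ^ 2 * ((1 + ε) * Real.exp ((β + κ) * (r + r') * Real.log T) *
          LI (GW β T Δ) β (1 / 2))) := by
        rw [setLIntegral_const, Complex.volume_ball]
        have e2 : ENNReal.ofReal (r + r') ^ 2 * (NNReal.pi : ENNReal) =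
            ENNReal.ofReal ((r + r') ^ 2 * Real.pi) := by
          rw [ENNReal.ofReal_mul (p := (r + r') ^ 2) (by positivity), ENNReal.ofReal_pow (by positivity)]
          congr 1
          rw [← NNReal.coe_real_pi, ENNReal.ofReal_coe_nnreal]
        rw [e2, ← ENNReal.ofReal_mul' (by positivity), ← ENNReal.ofReal_mul (by positivity)]
        congr 1
        rw [hM]
        field_simp

end

end Run7.h563.LS
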