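import Pool.Agent.Run7.h563.LS.E

set_option autoImplicit false

/-!
# Suprema and derivatives of zeta
-/

namespace Run7.h563.LS

open Complex MeasureTheory Filter Topology Set Q97.RB Q97.MM

noncomputable section

/-- the part of a weighted mean at distance more than `Λ` widths from the centre -/
theorem farL (A : ℕ) {T U Λ C₀ : ℝ} (hT : 0 ≤ T) (hU : 0 < U) (hUT : U ≤ T) (hΛ : 0 ≤ Λ) {p : ℝ → ℝ}
    (hp : AEStronglyMeasurable p volume) (hp0 : ∀ y, 0 ≤ p y)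
    (hpb : ∀ y, p y ≤ C₀ * (1 + |y|) ^ A) :
    ∫ y in {y : ℝ | |(y - T) / U| ≤ Λ}ᶜ, p y * wt T U y ≤
      C₀ * (1 + T) ^ A * Real.exp (-(Λ ^ 2 / 2)) * (U * KK A) := by
  have hC₀ : 0 ≤ C₀ := by
    have := (hp0 0).trans (hpb 0)
    simpa using this
  have ip := poly_wt_integrable A hU hT hUT hp (fun y => by rw [abs_of_nonneg (hp0 y)]; exact hpb y)
  have is := scaled_integrable A T hU
  set E := Real.exp (-(Λ ^ 2 / 2)) with hE
  have hms : MeasurableSet {y : ℝ | |(y - T) / U| ≤ Λ} :=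
    measurableSet_le (by fun_prop) measurable_const
  have hpt : ∀ y ∈ {y : ℝ | |(y - T) / U| ≤ Λ}ᶜ, p y * wt T U y ≤
      C₀ * (1 + T) ^ A * E *
        ((1 + |(y - T) / U|) ^ A * Real.exp (-(((y - T) / U) ^ 2 / 2))) := by
    intro y h
    have hw := wt_pos T U y
    have h' : Λ < |(y - T) / U| := not_le.mp h
    have h2 := abs_le_scaled hU hT hUT y
    have h3 : wt T U y ≤ E * Real.exp (-(((y - T) / U) ^ 2 / 2)) := by
      rw [wt, hE, ← Real.exp_add]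
      apply Real.exp_le_exp.2
      have h6 : Λ ^ 2 ≤ ((y - T) / U) ^ 2 := by
        rw [← sq_abs ((y - T) / U)]
        exact pow_le_pow_left₀ hΛ h'.le 2
      linarith
    have h7 : p y ≤ C₀ * ((1 + T) * (1 + |(y - T) / U|)) ^ A := by
      refine (hpb y).trans ?_
      gcongr
    calc p y * wt T U y ≤ (C₀ * ((1 + T) * (1 + |(y - T) / U|)) ^ A) *
          (E * Real.exp (-(((y - T) / U) ^ 2 / 2))) := mul_le_mul h7 h3 hw.le (by positivity)
      _ = _ := by rw [mul_pow]; ring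
  have h1 := setIntegral_mono_on ip.integrableOn (is.const_mul (C₀ * (1 + T) ^ A * E)).integrableOn
    hms.compl hpt
  refine h1.trans ?_
  have h2 := setIntegral_le_integral (s := {y : ℝ | |(y - T) / U| ≤ Λ}ᶜ)
    (is.const_mul (C₀ * (1 + T) ^ A * E)) (Eventually.of_forall fun y => by
      have := Real.exp_pos (-(Λ ^ 2 / 2))
      show 0 ≤ _
      positivity)
  refine h2.trans (le_of_eq ?_)
  rw [integral_const_mul, scaled_integral A T hU]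

/-- growth of zeta in the discs -/
theorem zeta_disc_bd {β : ℝ} {n : ℕ} (hβ : 0 < β) (hn : β ≤ n) (y : ℝ) {z : ℂ} {r : ℝ}
    (hr : r ≤ 1 / 16) (hz : z ∈ Metric.closedBall (0 : ℂ) r) :
    ‖riemannZeta (((1 / 2 : ℝ) : ℂ) + y * I + z)‖ ^ β ≤ 540 ^ n * (1 + |y|) ^ (2 * n) := by
  rw [Metric.mem_closedBall, dist_zero_right] at hz
  have hre := abs_le.mp ((Complex.abs_re_le_norm z).trans (hz.trans hr))
  have him := (Complex.abs_im_le_norm z).trans (hz.trans hr)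
  refine rpow_growth hβ hn (norm_nonneg _) (by norm_num) (by linarith [abs_nonneg y]) ?_
  have e1 : ((1 / 2 : ℝ) : ℂ) + y * I + z = ((1 / 2 + z.re : ℝ) : ℂ) + ((y + z.im : ℝ) : ℂ) * I := by
    nth_rewrite 1 [← Complex.re_add_im z]
    push_cast
    ring
  have h3 := zeta_le_Z1 (w := ((1 / 2 : ℝ) : ℂ) + y * I + z) (by rw [e1]; simp; linarith)
  rw [e1] at h3 ⊢
  have h4 := Z1_growth (x := 1 / 2 + z.re) (y := y + z.im) (by linarith) (by linarith)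
  have h5 : 1 + |y + z.im| ≤ 2 * (1 + |y|) := by
    have := abs_add_le y z.im
    linarith [abs_nonneg y]
  have h6 : (1 + |y + z.im|) ^ 2 ≤ (2 * (1 + |y|)) ^ 2 := by gcongr
  nlinarith

/-- comparison of the weights at neighbouring points -/
theorem wt_shift {κ ρ K T Δ L r y h : ℝ} (hκ : 0 < κ) (hρ : 0 < ρ) (hK : 0 < K) (hΔ : 0 < Δ)
    (hL : 0 < L) (hr : r = ρ / L) (hr16 : r ≤ 1 / 16)
    (hB2 : (8 * K / κ) ^ 2 ≤ Δ ^ 2 * L) (hB3 : 1 / (4 * κ) ≤ Δ ^ 2 * L)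
    (hy : |(y - T) / Δ| ≤ K * √L) (hh : |h| ≤ r) :
    wt T Δ y ≤ Real.exp (κ * ρ / 2) * wt T Δ (y + h) := by
  have hr0 : 0 < r := by rw [hr]; positivity
  have hrL : r * L = ρ := by rw [hr]; field_simp
  have hsL : 0 < √L := Real.sqrt_pos.mpr hL
  have hsL2 : √L * √L = L := Real.mul_self_sqrt hL.le
  have a1 : |(y - T) / Δ * (h / Δ)| ≤ (K * √L) * (r / Δ) := by
    rw [abs_mul, abs_div h, abs_of_pos hΔ]
    exact mul_le_mul hy (div_le_div_of_nonneg_right hh hΔ.le) (by positivity) (by positivity)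
  have a2 := neg_abs_le ((y - T) / Δ * (h / Δ))
  have a2' := le_abs_self ((y - T) / Δ * (h / Δ))
  have a3 : (h / Δ) ^ 2 ≤ (r / Δ) ^ 2 := by
    rw [div_pow, div_pow, ← sq_abs h]
    exact div_le_div_of_nonneg_right (pow_le_pow_left₀ (abs_nonneg h) hh 2) (by positivity)
  have a4 : (K * √L) * (r / Δ) ≤ κ * ρ / 8 := by
    have b1 : 8 * K / κ ≤ Δ * √L := by
      have e : Δ ^ 2 * L = (Δ * √L) ^ 2 := by rw [mul_pow, Real.sq_sqrt hL.le]
      rw [e] at hB2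
      exact le_of_sq_le_sq hB2 (by positivity)
    rw [div_le_iff₀ hκ] at b1
    have b2 : (K * √L) * (r / Δ) = K * ρ / (Δ * √L) := by
      rw [← hrL, eq_div_iff (by positivity)]
      calc K * √L * (r / Δ) * (Δ * √L) = K * (√L * √L) * r * (Δ / Δ) := by ring
        _ = K * (r * L) := by rw [hsL2, div_self hΔ.ne']; ring
    rw [b2, div_le_iff₀ (by positivity)]
    have : κ * ρ / 8 * (Δ * √L) = ρ * (Δ * √L * κ) / 8 := by ring
    rw [this]
    have b3 := mul_le_mul_of_nonneg_left b1 hρ.le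
    linarith
  have a5 : (r / Δ) ^ 2 ≤ κ * ρ / 4 := by
    rw [div_le_iff₀ (by positivity)] at hB3
    rw [div_pow, div_le_iff₀ (by positivity)]
    have b3 : r ^ 2 ≤ 1 / 16 * r := by
      rw [sq]
      exact mul_le_mul_of_nonneg_right hr16 hr0.le
    have b4 : κ * ρ / 4 * Δ ^ 2 = r * (Δ ^ 2 * L * (4 * κ)) / 16 := by rw [← hrL]; ring
    have b5 := mul_le_mul_of_nonneg_left hB3 hr0.le
    rw [b4]
    linarith
  unfold wt
  rw [← Real.exp_add]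
  apply Real.exp_le_exp.mpr
  have e2 : (y + h - T) / Δ = (y - T) / Δ + h / Δ := by ring
  have e3 : ((y - T) / Δ + h / Δ) ^ 2 = ((y - T) / Δ) ^ 2 + 2 * ((y - T) / Δ * (h / Δ)) + (h / Δ) ^ 2 := by
    ring
  have hkr : 0 < κ * ρ := by positivity
  rw [e2, e3]
  linarith

/-- pointwise comparison of zeta with the windowed function -/
theorem near_pt {β ε₁ η κ ρ K T Δ r y : ℝ} (hβ : 0 < β) (hε₁ : 0 < ε₁) (hη : 0 < η) (hη4 : η ≤ 1 / 4)
    (hη1 : (1 - 2 * η) ^ (-β) ≤ 1 + ε₁) (hκ : 0 < κ) (hρ : 0 < ρ) (hK : 0 < K) (hΔ : 0 < Δ)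
    (hT : 3 ≤ T) (hTe : Real.exp ((K / η) ^ 2) ≤ T) (hTη : 1 / η ≤ T) (hΔT : Δ ≤ T / Real.log T)
    (hr : r = ρ / Real.log T) (hr16 : r ≤ 1 / 16)
    (hB2 : (8 * K / κ) ^ 2 ≤ Δ ^ 2 * Real.log T) (hB3 : 1 / (4 * κ) ≤ Δ ^ 2 * Real.log T)
    (hy : |(y - T) / Δ| ≤ K * √(Real.log T)) {z : ℂ} (hz : z ∈ Metric.closedBall (0 : ℂ) r) :
    ‖riemannZeta (((1 / 2 : ℝ) : ℂ) + y * I + z)‖ ^ β * wt T Δ y ≤
      ((1 + ε₁) * T ^ (-β) * Real.exp (κ * ρ / 2)) *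
        ‖GW β T Δ (((1 / 2 : ℝ) : ℂ) + y * I + z)‖ ^ β := by
  have hT0 : 0 < T := by linarith
  have hlog := log_ge_one hT
  have hL0 : 0 < Real.log T := by linarith
  have hsL : 0 < √(Real.log T) := Real.sqrt_pos.mpr hL0
  have hsL2 : √(Real.log T) * √(Real.log T) = Real.log T := Real.mul_self_sqrt hL0.le
  have hTη' : 0 < (1 - 2 * η) * T := mul_pos (by linarith) hT0
  rw [Metric.mem_closedBall, dist_zero_right] at hz
  have him := (Complex.abs_im_le_norm z).trans hz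
  have him' := abs_le.mp him
  have h6 := wt_shift (T := T) hκ hρ hK hΔ hL0 hr hr16 hB2 hB3 hy him
  have hyT : |y - T| ≤ η * T := by
    rw [abs_div, abs_of_pos hΔ, div_le_iff₀ hΔ] at hy
    refine hy.trans ?_
    have h3 : K / η ≤ √(Real.log T) := by
      rw [Real.le_sqrt' (by positivity), Real.le_log_iff_exp_le hT0]
      exact hTe
    rw [div_le_iff₀ hη] at h3
    have h4 : K * √(Real.log T) * Δ ≤ K * √(Real.log T) * (T / Real.log T) :=
      mul_le_mul_of_nonneg_left hΔT (by positivity)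
    refine h4.trans ?_
    have h5 : K * √(Real.log T) * (T / Real.log T) = K * T / √(Real.log T) := by
      rw [eq_div_iff hsL.ne']
      calc K * √(Real.log T) * (T / Real.log T) * √(Real.log T) =
            K * T * ((√(Real.log T) * √(Real.log T)) / Real.log T) := by ring
        _ = K * T := by rw [hsL2, div_self hL0.ne', mul_one]
    rw [h5, div_le_iff₀ hsL]
    have := mul_le_mul_of_nonneg_right h3 hT0.le
    linarith
  have hyT' := abs_le.mp hyT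
  have e1 : ((1 / 2 : ℝ) : ℂ) + y * I + z = ((1 / 2 + z.re : ℝ) : ℂ) + ((y + z.im : ℝ) : ℂ) * I := by
    nth_rewrite 1 [← Complex.re_add_im z]
    push_cast
    ring
  rw [e1]
  set w : ℂ := ((1 / 2 + z.re : ℝ) : ℂ) + ((y + z.im : ℝ) : ℂ) * I with hw
  have hyb : (1 - 2 * η) * T ≤ |w.im| := by
    have e : w.im = y + z.im := by simp [hw]
    rw [e]
    refine le_trans ?_ (le_abs_self _)
    rw [div_le_iff₀ hη] at hTη
    linarith
  have h4 := zeta_near hTη' hyb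
  have h5 : ‖riemannZeta w‖ ^ β ≤ ((1 + ε₁) * T ^ (-β)) * ‖Z1 w‖ ^ β := by
    calc _ ≤ (‖Z1 w‖ / ((1 - 2 * η) * T)) ^ β := Real.rpow_le_rpow (norm_nonneg _) h4 hβ.le
      _ = ((1 - 2 * η) ^ (-β) * T ^ (-β)) * ‖Z1 w‖ ^ β := by
          rw [Real.div_rpow (norm_nonneg _) hTη'.le, Real.mul_rpow (by linarith) hT0.le,
            Real.rpow_neg (by linarith), Real.rpow_neg hT0.le, ← mul_inv, div_eq_inv_mul]
      _ ≤ _ := mul_le_mul_of_nonneg_right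
          (mul_le_mul_of_nonneg_right hη1 (Real.rpow_nonneg hT0.le _)) (by positivity)
  have h7 := GW_pow hβ hΔ T (1 / 2 + z.re) (y + z.im)
  rw [← hw] at h7
  rw [h7]
  have h8 : 1 ≤ Real.exp ((1 / 2 + z.re - 1 / 2) ^ 2 / Δ ^ 2) := Real.one_le_exp (by positivity)
  have hwp := wt_pos T Δ (y + z.im)
  have hX : 0 ≤ ‖Z1 w‖ ^ β * wt T Δ (y + z.im) := by positivity
  calc _ ≤ (((1 + ε₁) * T ^ (-β)) * ‖Z1 w‖ ^ β) * (Real.exp (κ * ρ / 2) * wt T Δ (y + z.im)) :=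
        mul_le_mul h5 h6 (wt_pos _ _ _).le (by positivity)
    _ = ((1 + ε₁) * T ^ (-β) * Real.exp (κ * ρ / 2)) * (1 * (‖Z1 w‖ ^ β * wt T Δ (y + z.im))) := by
        ring
    _ ≤ _ := mul_le_mul_of_nonneg_left (mul_le_mul_of_nonneg_right h8 hX) (by positivity)

/-- the far part of the supremum -/
theorem far_sup {β ε₁ : ℝ} (hβ : 0 < β) (hε₁ : 0 < ε₁) {n : ℕ} (hn : β ≤ n) : ∃ T₀ : ℝ, ∀ T Δ : ℝ,
    T₀ ≤ T → 3 ≤ T → 0 < Δ → 1 ≤ Δ ^ 2 * Real.log T → Δ ≤ T → ∀ r : ℝ, r ≤ 1 / 16 →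
    ∫⁻ y in {y : ℝ | |(y - T) / Δ| ≤ √(2 * (3 * n + 5)) * √(Real.log T)}ᶜ,
      ⨆ z ∈ Metric.closedBall (0 : ℂ) r,
        ENNReal.ofReal (‖riemannZeta (((1 / 2 : ℝ) : ℂ) + y * I + z)‖ ^ β * wt T Δ y) ≤
      ENNReal.ofReal (ε₁ * (T ^ (-β) * PB β T Δ (1 / 2))) := by
  obtain ⟨c, hc⟩ := PB_low hβ
  have hK0 := KK_nonneg (2 * n)
  set W : ℝ := 540 ^ n * (KK (2 * n) + 1) * Real.exp c * 4 ^ n with hW
  have hW0 : 0 < W := by positivity
  refine ⟨W / ε₁, fun T Δ hTW hT3 hΔ h1 hΔT r hr16 => ?_⟩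
  have hT0 : 0 < T := by linarith
  have hlog := log_ge_one hT3
  have hL0 : 0 < Real.log T := by linarith
  have hlow := hc T Δ hT3 hΔ hΔT h1
  set K : ℝ := √(2 * (3 * n + 5)) with hK
  have hKpos : 0 < K := Real.sqrt_pos.mpr (by positivity)
  have hK2 : K ^ 2 = 2 * (3 * n + 5) := Real.sq_sqrt (by positivity)
  set Λ : ℝ := K * √(Real.log T) with hΛ
  have hΛ0 : 0 ≤ Λ := by positivity
  set p : ℝ → ℝ := fun y => 540 ^ n * (1 + |y|) ^ (2 * n) with hp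
  have hp0 : ∀ y, 0 ≤ p y := fun y => by rw [hp]; positivity
  have hpc : Continuous p := by rw [hp]; fun_prop
  have hpi := poly_wt_integrable (2 * n) (C₀ := 540 ^ n) hΔ hT0.le hΔT (p := p)
    hpc.aestronglyMeasurable (fun y => by rw [abs_of_nonneg (hp0 y)])
  have hpt : ∀ y : ℝ, (⨆ z ∈ Metric.closedBall (0 : ℂ) r,
      ENNReal.ofReal (‖riemannZeta (((1 / 2 : ℝ) : ℂ) + y * I + z)‖ ^ β * wt T Δ y)) ≤
      ENNReal.ofReal (p y * wt T Δ y) := by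
    intro y
    refine iSup₂_le fun z hz => ENNReal.ofReal_le_ofReal ?_
    exact mul_le_mul_of_nonneg_right (zeta_disc_bd hβ hn y hr16 hz) (wt_pos _ _ _).le
  refine (lintegral_mono fun y => hpt y).trans ?_
  rw [← ofReal_integral_eq_lintegral_ofReal hpi.integrableOn (Eventually.of_forall fun y =>
    mul_nonneg (hp0 y) (wt_pos _ _ _).le)]
  apply ENNReal.ofReal_le_ofReal
  have h4 := farL (2 * n) (C₀ := 540 ^ n) hT0.le hΔ hΔT hΛ0 (p := p) hpc.aestronglyMeasurable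
    hp0 (fun y => le_rfl)
  refine h4.trans ?_
  have hE : Real.exp (-(Λ ^ 2 / 2)) = 1 / T ^ (3 * n + 5) := by
    have e3 : Λ ^ 2 / 2 = ((3 * n + 5 : ℕ) : ℝ) * Real.log T := by
      rw [hΛ, mul_pow, hK2, Real.sq_sqrt hL0.le]
      push_cast
      ring
    rw [e3, Real.exp_neg, Real.exp_nat_mul, Real.exp_log hT0, one_div]
  have hTβ : T ^ β ≤ T ^ n := by
    calc T ^ β ≤ T ^ (n : ℝ) := Real.rpow_le_rpow_of_exponent_le (by linarith) hn
      _ = _ := Real.rpow_natCast _ _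
  have h12 : (1 + T) ^ (2 * n) ≤ 4 ^ n * T ^ (2 * n) := by
    calc (1 + T) ^ (2 * n) ≤ (2 * T) ^ (2 * n) := pow_le_pow_left₀ (by linarith) (by linarith) _
      _ = _ := by
        rw [mul_pow, pow_mul]
        norm_num
  rw [div_le_iff₀ hε₁] at hTW
  have hP : Δ ≤ Real.exp c * T ^ 4 * PB β T Δ (1 / 2) := by
    have h13 := mul_le_mul_of_nonneg_left hlow (show 0 ≤ Real.exp c * T ^ 4 by positivity)
    refine le_trans (le_of_eq ?_) h13
    have e4 : Real.exp c * Real.exp (-c) = 1 := by rw [← Real.exp_add]; simp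
    calc Δ = Δ * (Real.exp c * Real.exp (-c)) * (T ^ 4 * (1 / T ^ 4)) := by
          rw [e4, mul_one, mul_one_div_cancel (by positivity), mul_one]
      _ = _ := by ring
  have hPpos := PB_pos hβ hΔ T (x := 1 / 2) (by norm_num) (by norm_num)
  have hX : 0 ≤ T ^ (-β) * PB β T Δ (1 / 2) := by positivity
  have h14 : T ^ (2 * n) * (T ^ 4 * T ^ β) * (1 / T ^ (3 * n + 5)) ≤ 1 / T := by
    have h15 : T ^ (2 * n) * (T ^ 4 * T ^ β) ≤ T ^ (2 * n) * (T ^ 4 * T ^ n) :=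
      mul_le_mul_of_nonneg_left (mul_le_mul_of_nonneg_left hTβ (by positivity)) (by positivity)
    have e5 : T ^ (2 * n) * (T ^ 4 * T ^ n) * (1 / T ^ (3 * n + 5)) = 1 / T := by
      have e6 : T ^ (3 * n + 5) = (T ^ (2 * n) * (T ^ 4 * T ^ n)) * T := by ring
      rw [e6]
      field_simp
    rw [← e5]
    exact mul_le_mul_of_nonneg_right h15 (by positivity)
  have h16 : PB β T Δ (1 / 2) = T ^ β * (T ^ (-β) * PB β T Δ (1 / 2)) := by
    rw [← mul_assoc, ← Real.rpow_add hT0, add_neg_cancel, Real.rpow_zero, one_mul]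
  set X := T ^ (-β) * PB β T Δ (1 / 2) with hXd
  calc 540 ^ n * (1 + T) ^ (2 * n) * Real.exp (-(Λ ^ 2 / 2)) * (Δ * KK (2 * n))
      ≤ 540 ^ n * (4 ^ n * T ^ (2 * n)) * (1 / T ^ (3 * n + 5)) *
        ((Real.exp c * T ^ 4 * (T ^ β * X)) * (KK (2 * n) + 1)) := by
        rw [hE, ← h16]
        gcongr
        linarith
    _ = W * (T ^ (2 * n) * (T ^ 4 * T ^ β) * (1 / T ^ (3 * n + 5))) * X := by
        rw [hW]
        ring
    _ ≤ W * (1 / T) * X := mul_le_mul_of_nonneg_right (mul_le_mul_of_nonneg_left h14 hW0.le) hX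
    _ ≤ ε₁ * X := by
        refine mul_le_mul_of_nonneg_right ?_ hX
        rw [mul_one_div, div_le_iff₀ hT0]
        linarith

/-- the near part of the supremum -/
theorem near_sup {β κ ε₁ : ℝ} (hβ : 0 < β) (hκ : 0 < κ) (hε₁ : 0 < ε₁) {K : ℝ} (hK : 0 < K) :
    ∃ B T₀ : ℝ, 1 ≤ B ∧ 200 ≤ T₀ ∧ ∀ T Δ : ℝ, T₀ ≤ T → 0 < Δ → B ≤ Δ ^ 2 * Real.log T →
    Δ ≤ T / Real.log T → ∀ ρ σ : ℝ, 0 < ρ → 0 < σ → ρ ≤ Real.log T / 16 → ρ + σ ≤ Real.log T / 8 →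
    ∫⁻ y in {y : ℝ | |(y - T) / Δ| ≤ K * √(Real.log T)},
      ⨆ z ∈ Metric.closedBall (0 : ℂ) (ρ / Real.log T),
        ENNReal.ofReal (‖riemannZeta (((1 / 2 : ℝ) : ℂ) + y * I + z)‖ ^ β * wt T Δ y) ≤
      ENNReal.ofReal (((ρ + σ) / σ) ^ 2 * ((1 + ε₁) * (1 + ε₁)) * Real.exp ((β + κ) * (ρ + σ)) *
        (T ^ (-β) * PB β T Δ (1 / 2))) := by
  obtain ⟨η, hη, hη4, -, hη1⟩ := near_one (β := β) hε₁
  obtain ⟨B₁, T₂, hB₁, hT₂, hG⟩ := sup_GW hβ (show 0 < κ / 4 by positivity) hε₁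
  refine ⟨max B₁ (max ((8 * K / κ) ^ 2) (1 / (4 * κ))),
    max T₂ (max (Real.exp ((K / η) ^ 2)) (1 / η)), hB₁.trans (le_max_left _ _),
    hT₂.trans (le_max_left _ _), fun T Δ hT hΔ hB h2 ρ σ hρ hσ hρ16 hρσ => ?_⟩
  have hTT2 : T₂ ≤ T := (le_max_left _ _).trans hT
  have hTe : Real.exp ((K / η) ^ 2) ≤ T := (le_max_left _ _).trans ((le_max_right _ _).trans hT)
  have hTη : 1 / η ≤ T := (le_max_right _ _).trans ((le_max_right _ _).trans hT)
  have hBB1 : B₁ ≤ Δ ^ 2 * Real.log T := (le_max_left _ _).trans hB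
  have hBB2 : (8 * K / κ) ^ 2 ≤ Δ ^ 2 * Real.log T := (le_max_left _ _).trans ((le_max_right _ _).trans hB)
  have hBB3 : 1 / (4 * κ) ≤ Δ ^ 2 * Real.log T := (le_max_right _ _).trans ((le_max_right _ _).trans hB)
  have hT3 : 3 ≤ T := by linarith
  have hT0 : 0 < T := by linarith
  have hlog := log_ge_one hT3
  have hL0 : 0 < Real.log T := by linarith
  have hPpos := PB_pos hβ hΔ T (x := 1 / 2) (by norm_num) (by norm_num)
  have hr0 : 0 < ρ / Real.log T := by positivity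
  have hr'0 : 0 < σ / Real.log T := by positivity
  have hr16 : ρ / Real.log T ≤ 1 / 16 := by rw [div_le_iff₀ hL0]; linarith
  have hrr : ρ / Real.log T + σ / Real.log T ≤ 1 / 8 := by
    rw [← add_div, div_le_iff₀ hL0]
    linarith
  have hrrL : (ρ / Real.log T + σ / Real.log T) * Real.log T = ρ + σ := by field_simp
  have hrrq : (ρ / Real.log T + σ / Real.log T) / (σ / Real.log T) = (ρ + σ) / σ := by field_simp
  have hms : MeasurableSet {y : ℝ | |(y - T) / Δ| ≤ K * √(Real.log T)} :=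
    measurableSet_le (by fun_prop) measurable_const
  set r := ρ / Real.log T with hr
  set r' := σ / Real.log T with hr'
  set F₁ : ℝ := (1 + ε₁) * T ^ (-β) * Real.exp (κ * ρ / 2) with hF₁
  have hF₁0 : 0 ≤ F₁ := by positivity
  set N : Set ℝ := {y : ℝ | |(y - T) / Δ| ≤ K * √(Real.log T)} with hN
  have hpt : ∀ y ∈ N, (⨆ z ∈ Metric.closedBall (0 : ℂ) r,
      ENNReal.ofReal (‖riemannZeta (((1 / 2 : ℝ) : ℂ) + y * I + z)‖ ^ β * wt T Δ y)) ≤
      ENNReal.ofReal F₁ * ⨆ z ∈ Metric.closedBall (0 : ℂ) r,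
        ENNReal.ofReal (‖GW β T Δ (((1 / 2 : ℝ) : ℂ) + y * I + z)‖ ^ β) := by
    intro y hy
    refine iSup₂_le fun z hz => ?_
    refine le_trans ?_ (mul_le_mul' le_rfl (le_iSup₂ (f := fun z (_ : z ∈ Metric.closedBall (0 : ℂ) r) =>
      ENNReal.ofReal (‖GW β T Δ (((1 / 2 : ℝ) : ℂ) + y * I + z)‖ ^ β)) z hz))
    rw [← ENNReal.ofReal_mul hF₁0]
    apply ENNReal.ofReal_le_ofReal
    exact near_pt hβ hε₁ hη hη4 hη1 hκ hρ hK hΔ hT3 hTe hTη h2 hr hr16 hBB2 hBB3 hy hz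
  refine (setLIntegral_mono' hms hpt).trans ?_
  refine (setLIntegral_le_lintegral _ _).trans ?_
  rw [lintegral_const_mul' _ _ ENNReal.ofReal_ne_top]
  refine (mul_le_mul' le_rfl (hG T Δ hTT2 hΔ hBB1 h2 r r' hr0 hr'0 hrr)).trans ?_
  rw [← ENNReal.ofReal_mul hF₁0]
  apply ENNReal.ofReal_le_ofReal
  have hEE : Real.exp (κ * ρ / 2) * Real.exp ((β + κ / 4) * (r + r') * Real.log T) ≤
      Real.exp ((β + κ) * (ρ + σ)) := by
    rw [← Real.exp_add, mul_assoc (β + κ / 4), hrrL]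
    apply Real.exp_le_exp.mpr
    have := mul_pos hκ hρ
    have := mul_pos hκ hσ
    linarith
  rw [hrrq]
  have hX : 0 ≤ T ^ (-β) * PB β T Δ (1 / 2) := by positivity
  calc F₁ * (((ρ + σ) / σ) ^ 2 * ((1 + ε₁) * Real.exp ((β + κ / 4) * (r + r') * Real.log T) *
        PB β T Δ (1 / 2)))
      = ((ρ + σ) / σ) ^ 2 * ((1 + ε₁) * (1 + ε₁)) *
        (Real.exp (κ * ρ / 2) * Real.exp ((β + κ / 4) * (r + r') * Real.log T)) *
        (T ^ (-β) * PB β T Δ (1 / 2)) := by rw [hF₁]; ring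
    _ ≤ _ := mul_le_mul_of_nonneg_right (mul_le_mul_of_nonneg_left hEE (by positivity)) hX

/-- suprema of zeta over small discs centred on the critical line, in mean of order `β` -/
theorem sup_zeta {β κ ε : ℝ} (hβ : 0 < β) (hκ : 0 < κ) (hε : 0 < ε) : ∃ B T₀ : ℝ, 1 ≤ B ∧ 200 ≤ T₀ ∧
    ∀ T Δ : ℝ, T₀ ≤ T → 0 < Δ → B ≤ Δ ^ 2 * Real.log T → Δ ≤ T / Real.log T →
    ∀ ρ σ : ℝ, 0 < ρ → 0 < σ → ρ ≤ Real.log T / 16 → ρ + σ ≤ Real.log T / 8 →
    ∫⁻ y : ℝ, ⨆ z ∈ Metric.closedBall (0 : ℂ) (ρ / Real.log T),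
        ENNReal.ofReal (‖riemannZeta (((1 / 2 : ℝ) : ℂ) + y * I + z)‖ ^ β * wt T Δ y) ≤
      ENNReal.ofReal ((1 + ε) * ((ρ + σ) / σ) ^ 2 * Real.exp ((β + κ) * (ρ + σ)) *
        JB β T Δ (1 / 2)) := by
  set ε₁ : ℝ := min 1 (ε / 10) with hε₁
  have hε₁0 : 0 < ε₁ := by positivity
  have hε₁1 : ε₁ ≤ 1 := min_le_left _ _
  have hε₁5 : ε₁ ≤ ε / 10 := min_le_right _ _
  obtain ⟨n, hn⟩ := exists_nat_ge β
  obtain ⟨T₁, hT₁⟩ := PB_le_JB hβ hε₁0
  obtain ⟨B, T₂, hB₁, hT₂, hG⟩ := near_sup (K := √(2 * (3 * n + 5))) hβ hκ hε₁0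
    (Real.sqrt_pos.mpr (by positivity))
  obtain ⟨T₃, hT₃⟩ := far_sup hβ hε₁0 hn
  refine ⟨B, max T₂ (max T₁ T₃), hB₁, hT₂.trans (le_max_left _ _),
    fun T Δ hT hΔ hB h2 ρ σ hρ hσ hρ16 hρσ => ?_⟩
  have hTT2 : T₂ ≤ T := (le_max_left _ _).trans hT
  have hTT1 : T₁ ≤ T := (le_max_left _ _).trans ((le_max_right _ _).trans hT)
  have hTT3 : T₃ ≤ T := (le_max_right _ _).trans ((le_max_right _ _).trans hT)
  have hT3 : 3 ≤ T := by linarith
  have hT0 : 0 < T := by linarith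
  have hlog := log_ge_one hT3
  have hL0 : 0 < Real.log T := by linarith
  have h1 : 1 ≤ Δ ^ 2 * Real.log T := hB₁.trans hB
  have hΔT : Δ ≤ T := h2.trans (div_le_self hT0.le hlog)
  have hPJ := hT₁ T Δ hTT1 hΔ h1 h2
  have hJ0 := JB_nonneg β T Δ (1 / 2)
  have hPpos := PB_pos hβ hΔ T (x := 1 / 2) (by norm_num) (by norm_num)
  have hr16 : ρ / Real.log T ≤ 1 / 16 := by rw [div_le_iff₀ hL0]; linarith
  have hms : MeasurableSet {y : ℝ | |(y - T) / Δ| ≤ √(2 * (3 * n + 5)) * √(Real.log T)} :=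
    measurableSet_le (by fun_prop) measurable_const
  have hnear := hG T Δ hTT2 hΔ hB h2 ρ σ hρ hσ hρ16 hρσ
  have hfar := hT₃ T Δ hTT3 hT3 hΔ h1 hΔT _ hr16
  rw [← lintegral_add_compl _ hms]
  refine (add_le_add hnear hfar).trans ?_
  rw [← ENNReal.ofReal_add (by positivity) (by positivity)]
  apply ENNReal.ofReal_le_ofReal
  have hTP : T ^ (-β) * PB β T Δ (1 / 2) ≤ (1 + ε₁) * JB β T Δ (1 / 2) := by
    calc T ^ (-β) * PB β T Δ (1 / 2) ≤ T ^ (-β) * ((1 + ε₁) * T ^ β * JB β T Δ (1 / 2)) :=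
          mul_le_mul_of_nonneg_left hPJ (by positivity)
      _ = (T ^ (-β) * T ^ β) * ((1 + ε₁) * JB β T Δ (1 / 2)) := by ring
      _ = _ := by rw [← Real.rpow_add hT0, neg_add_cancel, Real.rpow_zero, one_mul]
  have hE1 : 1 ≤ Real.exp ((β + κ) * (ρ + σ)) := Real.one_le_exp (by positivity)
  set E := Real.exp ((β + κ) * (ρ + σ)) with hE
  set X := T ^ (-β) * PB β T Δ (1 / 2) with hX
  have hX0 : 0 ≤ X := by positivity
  set A : ℝ := ((ρ + σ) / σ) ^ 2 with hA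
  have hA1 : 1 ≤ A := by
    rw [hA]
    apply one_le_pow₀
    rw [one_le_div hσ]
    linarith
  have hAE : 1 ≤ A * E := one_le_mul_of_one_le_of_one_le hA1 hE1
  have hAE0 : 0 ≤ A * E := by linarith
  set J := JB β T Δ (1 / 2) with hJ
  have h20 : A * ((1 + ε₁) * (1 + ε₁)) * E * X + ε₁ * X ≤
      (((1 + ε₁) * (1 + ε₁) + ε₁) * (A * E)) * X := by
    have : ε₁ * X ≤ ε₁ * (A * E) * X := by
      refine mul_le_mul_of_nonneg_right ?_ hX0
      exact le_mul_of_one_le_right hε₁0.le hAE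
    linarith
  have h21 : (((1 + ε₁) * (1 + ε₁) + ε₁) * (A * E)) * X ≤
      (((1 + ε₁) * (1 + ε₁) + ε₁) * (A * E)) * ((1 + ε₁) * J) :=
    mul_le_mul_of_nonneg_left hTP (by positivity)
  have h22 : ((1 + ε₁) * (1 + ε₁) + ε₁) * (1 + ε₁) ≤ 1 + ε := by
    have h10 : ε₁ * ε₁ ≤ ε₁ := by nlinarith
    have h11 : ε₁ * ε₁ * ε₁ ≤ ε₁ := by nlinarith
    linarith
  have h23 : (((1 + ε₁) * (1 + ε₁) + ε₁) * (1 + ε₁)) * ((A * E) * J) ≤ (1 + ε) * ((A * E) * J) :=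
    mul_le_mul_of_nonneg_right h22 (mul_nonneg hAE0 hJ0)
  calc _ ≤ _ := h20
    _ ≤ _ := h21
    _ = (((1 + ε₁) * (1 + ε₁) + ε₁) * (1 + ε₁)) * ((A * E) * J) := by ring
    _ ≤ _ := h23
    _ = _ := by ring

end

end Run7.h563.LS
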