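import Pool.Agent.Run7.h563.LS.E

set_option autoImplicit false

/-!
# Clusters of zeros and the moments of zeta
-/

namespace Run7.h563.LS

open Complex MeasureTheory Filter Topology Set Q97.RB Q97.MM

noncomputable section

/-- clusters of zeros, final form with free radii -/
theorem cluster_zeta {β κ ε : ℝ} (hβ : 0 < β) (hκ : 0 < κ) (hε : 0 < ε) : ∃ B T₀ : ℝ, 1 ≤ B ∧ 200 ≤ T₀ ∧
    ∀ T Δ : ℝ, T₀ ≤ T → 0 < Δ → B ≤ Δ ^ 2 * Real.log T → Δ ≤ T / (2 * Real.log T) →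
    0 < JB β T Δ (1 / 2) ∧
    ∀ δ r : ℝ, 0 < δ → δ ≤ r → r ≤ 1 / 8 → ∀ (m : ℕ) (S : Set ℝ), MeasurableSet S →
    (∀ y ∈ S, m ≤ zeroCount (((1 / 2 : ℝ) : ℂ) + y * I) δ) →
    ∫ y in S, ‖riemannZeta (((1 / 2 : ℝ) : ℂ) + y * I)‖ ^ β * wt T Δ y ≤
      (1 + ε) * Real.exp ((β + κ) * r * Real.log T) * (δ / r) ^ (β * m) * JB β T Δ (1 / 2) := by
  set ε₁ : ℝ := min 1 (ε / 3) with hε₁
  have hε₁0 : 0 < ε₁ := by positivity
  have hε₁1 : ε₁ ≤ 1 := min_le_left _ _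
  have hε₁3 : ε₁ ≤ ε / 3 := min_le_right _ _
  obtain ⟨B, T₁, hB, hT₁, hG⟩ := cluster_GW hβ hκ hε₁0
  obtain ⟨T₂, hT₂⟩ := transfer hβ hε₁0
  obtain ⟨T₃, hT₃⟩ := PB_le_JB hβ hε₁0
  refine ⟨B, max T₁ (max T₂ T₃), hB, hT₁.trans (le_max_left _ _), fun T Δ hT hΔ hBΔ hΔT => ?_⟩
  have hTT1 : T₁ ≤ T := (le_max_left _ _).trans hT
  have hTT2 : T₂ ≤ T := (le_max_left _ _).trans ((le_max_right _ _).trans hT)
  have hTT3 : T₃ ≤ T := (le_max_right _ _).trans ((le_max_right _ _).trans hT)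
  have hT3 : 3 ≤ T := by linarith
  have hT0 : 0 < T := by linarith
  have hlog := log_ge_one hT3
  have hL0 : 0 < Real.log T := by linarith
  have h1 : 1 ≤ Δ ^ 2 * Real.log T := hB.trans hBΔ
  have hΔT' : Δ ≤ T / Real.log T := hΔT.trans (by gcongr; linarith)
  have hs2 : √2 ≤ 2 := by
    rw [Real.sqrt_le_left (by norm_num)]
    norm_num
  have hs20 : 0 < √2 := by positivity
  have hΔ2T : √2 * Δ ≤ T / Real.log T := by
    calc √2 * Δ ≤ 2 * Δ := by gcongr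
      _ ≤ 2 * (T / (2 * Real.log T)) := by gcongr
      _ = T / Real.log T := by field_simp
  have hB2 : B ≤ (√2 * Δ) ^ 2 * Real.log T := by
    rw [mul_pow, Real.sq_sqrt (by norm_num)]
    nlinarith
  have hP := PB_pos hβ hΔ T (x := 1 / 2) (by norm_num) (by norm_num)
  have hPJ := hT₃ T Δ hTT3 hΔ h1 hΔT'
  have hJ : 0 < JB β T Δ (1 / 2) := by
    by_contra hcon
    push Not at hcon
    have : (1 + ε₁) * T ^ β * JB β T Δ (1 / 2) ≤ 0 :=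
      mul_nonpos_of_nonneg_of_nonpos (by positivity) hcon
    linarith
  refine ⟨hJ, fun δ r hδ hδr hr m S hS hm => ?_⟩
  have hr0 : 0 < r := by linarith
  set Q : ℝ := (1 + ε₁) * Real.exp ((β + κ) * r * Real.log T) * (δ / r) ^ (β * m) with hQ
  have hQ0 : 0 ≤ Q := by positivity
  have a1 := hG T Δ hTT1 hΔ hBΔ hΔT' δ r hδ hδr hr m S hS hm
  have a2 := hG T (√2 * Δ) hTT1 (mul_pos hs20 hΔ) hB2 hΔ2T δ r hδ hδr hr m S hS hm
  refine (hT₂ T Δ hTT2 hΔ h1 hΔT S Q hS hQ0 a1 a2).trans ?_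
  have h5 : (1 + ε₁) * (1 + ε₁) ≤ 1 + ε := by nlinarith
  have h6 : 0 ≤ Real.exp ((β + κ) * r * Real.log T) * (δ / r) ^ (β * m) * JB β T Δ (1 / 2) := by
    positivity
  calc (1 + ε₁) * Q * JB β T Δ (1 / 2) = ((1 + ε₁) * (1 + ε₁)) *
        (Real.exp ((β + κ) * r * Real.log T) * (δ / r) ^ (β * m) * JB β T Δ (1 / 2)) := by
        rw [hQ]; ring
    _ ≤ (1 + ε) * (Real.exp ((β + κ) * r * Real.log T) * (δ / r) ^ (β * m) * JB β T Δ (1 / 2)) :=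
        mul_le_mul_of_nonneg_right h5 h6
    _ = _ := by ring

end

end Run7.h563.LS
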