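import Pool.Agent.Run7.h563.LS.F

set_option autoImplicit false

/-!
# Moments of the derivatives
-/

namespace Run7.h563.LS

open Complex MeasureTheory Filter Topology Set Q97.RB Q97.MM

noncomputable section

theorem half_disc_ne {y : ℝ} {z : ℂ} {r : ℝ} (hr : r ≤ 1 / 16)
    (hz : z ∈ Metric.closedBall (((1 / 2 : ℝ) : ℂ) + y * I) r) : z ≠ 1 := by
  rintro rfl
  rw [Metric.mem_closedBall, dist_eq_norm] at hz
  have h1 := (Complex.abs_re_le_norm _).trans hz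
  simp at h1
  norm_num at h1
  linarith

/-- Cauchy's estimate -/
theorem deriv_pt {β T Δ : ℝ} (hβ : 0 < β) (k : ℕ) (y : ℝ) {r : ℝ} (hr0 : 0 < r) (hr : r ≤ 1 / 16) :
    ENNReal.ofReal (‖iteratedDeriv k riemannZeta (((1 / 2 : ℝ) : ℂ) + y * I)‖ ^ β * wt T Δ y) ≤
      ENNReal.ofReal ((k.factorial / r ^ k) ^ β) * ⨆ z ∈ Metric.closedBall (0 : ℂ) r,
        ENNReal.ofReal (‖riemannZeta (((1 / 2 : ℝ) : ℂ) + y * I + z)‖ ^ β * wt T Δ y) := by
  set s : ℂ := ((1 / 2 : ℝ) : ℂ) + y * I with hs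
  have hd : DifferentiableOn ℂ riemannZeta (Metric.closedBall s r) := fun z hz =>
    (differentiableAt_riemannZeta (half_disc_ne hr hz)).differentiableWithinAt
  obtain ⟨z0, hz0, hmax⟩ := (isCompact_closedBall s r).exists_isMaxOn
    ⟨s, Metric.mem_closedBall_self hr0.le⟩ hd.continuousOn.norm
  have hC := Complex.norm_iteratedDeriv_le_of_forall_mem_sphere_norm_le k hr0
    (f := riemannZeta) (c := s) (C := ‖riemannZeta z0‖)
    (DifferentiableOn.diffContOnCl (by rw [closure_ball s hr0.ne']; exact hd))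
    (fun z hz => hmax (Metric.sphere_subset_closedBall hz))
  have hz1 : z0 - s ∈ Metric.closedBall (0 : ℂ) r := by
    rw [Metric.mem_closedBall, dist_zero_right, ← dist_eq_norm]
    exact hz0
  have h1 : ENNReal.ofReal (‖riemannZeta (s + (z0 - s))‖ ^ β * wt T Δ y) ≤
      ⨆ z ∈ Metric.closedBall (0 : ℂ) r,
        ENNReal.ofReal (‖riemannZeta (s + z)‖ ^ β * wt T Δ y) :=
    le_iSup₂ (f := fun z (_ : z ∈ Metric.closedBall (0 : ℂ) r) =>
      ENNReal.ofReal (‖riemannZeta (s + z)‖ ^ β * wt T Δ y)) (z0 - s) hz1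
  refine le_trans ?_ (mul_le_mul' le_rfl h1)
  rw [add_sub_cancel, ← ENNReal.ofReal_mul (by positivity)]
  apply ENNReal.ofReal_le_ofReal
  have hw := wt_pos T Δ y
  calc ‖iteratedDeriv k riemannZeta s‖ ^ β * wt T Δ y
      ≤ (k.factorial * ‖riemannZeta z0‖ / r ^ k) ^ β * wt T Δ y :=
        mul_le_mul_of_nonneg_right (Real.rpow_le_rpow (norm_nonneg _) hC hβ.le) hw.le
    _ = (k.factorial / r ^ k * ‖riemannZeta z0‖) ^ β * wt T Δ y := by
        congr 2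
        ring
    _ = _ := by
        rw [Real.mul_rpow (by positivity) (norm_nonneg _)]
        ring

/-- the moments of the derivatives by the moment of zeta -/
theorem deriv_lint {β κ ε : ℝ} (hβ : 0 < β) (hκ : 0 < κ) (hε : 0 < ε) : ∃ B T₀ : ℝ, 1 ≤ B ∧ 200 ≤ T₀ ∧
    ∀ T Δ : ℝ, T₀ ≤ T → 0 < Δ → B ≤ Δ ^ 2 * Real.log T → Δ ≤ T / Real.log T →
    ∀ ρ σ : ℝ, 0 < ρ → 0 < σ → ρ ≤ Real.log T / 16 → ρ + σ ≤ Real.log T / 8 → ∀ k : ℕ,
    ∫⁻ y : ℝ, ENNReal.ofReal (‖iteratedDeriv k riemannZeta (((1 / 2 : ℝ) : ℂ) + y * I)‖ ^ β *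
      wt T Δ y) ≤
      ENNReal.ofReal ((k.factorial * Real.log T ^ k / ρ ^ k) ^ β * ((1 + ε) * ((ρ + σ) / σ) ^ 2 *
        Real.exp ((β + κ) * (ρ + σ)) * JB β T Δ (1 / 2))) := by
  obtain ⟨B, T₀, hB, hT₀, h⟩ := sup_zeta hβ hκ hε
  refine ⟨B, T₀, hB, hT₀, fun T Δ hT hΔ hBΔ hΔT ρ σ hρ hσ h16 h8 k => ?_⟩
  have hT3 : 3 ≤ T := by linarith
  have hlog := log_ge_one hT3
  have hL0 : 0 < Real.log T := by linarith
  have hr0 : 0 < ρ / Real.log T := by positivity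
  have hr16 : ρ / Real.log T ≤ 1 / 16 := by rw [div_le_iff₀ hL0]; linarith
  refine (lintegral_mono fun y => deriv_pt hβ k y hr0 hr16).trans ?_
  rw [lintegral_const_mul' _ _ ENNReal.ofReal_ne_top]
  refine (mul_le_mul' le_rfl (h T Δ hT hΔ hBΔ hΔT ρ σ hρ hσ h16 h8)).trans ?_
  rw [← ENNReal.ofReal_mul (by positivity)]
  apply ENNReal.ofReal_le_ofReal
  have : (k.factorial : ℝ) / (ρ / Real.log T) ^ k = k.factorial * Real.log T ^ k / ρ ^ k := by
    rw [div_pow]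
    field_simp
  rw [this]

end

end Run7.h563.LS
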