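import Pool.Agent.Run7.h563.LS.H
import Pool.Agent.Run7.h563.LS.G

set_option autoImplicit false

/-!
# The laws of the normalised derivatives under the moment measures
-/

namespace Run7.h563.LS

open Complex MeasureTheory Filter Topology Set Q97.RB Q97.MM

noncomputable section

/-- the point `1/2 + i t` -/
def sp (t : ℝ) : ℂ := ((1 / 2 : ℝ) : ℂ) + t * I

theorem sp_ne (t : ℝ) : sp t ≠ 1 := ne_one_of_re (by norm_num) t

/-- the derivatives of zeta at `1/2 + i t`, divided by the value and by the powers of `L` -/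
def XN (L t : ℝ) (k : ℕ) : ℂ :=
  iteratedDeriv k riemannZeta (sp t) / (riemannZeta (sp t) * (L : ℂ) ^ k)

theorem zeta_measurable : Measurable riemannZeta := by
  refine measurable_of_continuousOn_compl_singleton 1 fun z hz => ?_
  exact (differentiableAt_riemannZeta hz).continuousAt.continuousWithinAt

theorem iter_measurable (k : ℕ) : Measurable (iteratedDeriv k riemannZeta) := by
  rcases k with _ | k
  · rw [iteratedDeriv_zero]; exact zeta_measurable
  · rw [iteratedDeriv_succ]; exact measurable_deriv _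

theorem sp_cont : Continuous sp := by unfold sp; fun_prop

theorem XN_meas (L : ℝ) : Measurable (XN L) := by
  rw [measurable_pi_iff]
  intro k
  unfold XN
  exact ((iter_measurable k).comp sp_cont.measurable).div
    ((zeta_measurable.comp sp_cont.measurable).mul_const _)

/-- the density of the moment measure -/
def dn (β T Δ t : ℝ) : ℝ := ‖riemannZeta (sp t)‖ ^ β * wt T Δ t / JB β T Δ (1 / 2)

theorem dn_nonneg (β T Δ t : ℝ) : 0 ≤ dn β T Δ t :=
  div_nonneg (mul_nonneg (by positivity) (wt_pos _ _ _).le) (JB_nonneg _ _ _ _)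

theorem zs_cont : Continuous (fun t : ℝ => riemannZeta (sp t)) := zeta_line_cont (by norm_num)

theorem dn_cont {β : ℝ} (hβ : 0 < β) (T Δ : ℝ) : Continuous (dn β T Δ) := by
  have h1 : Continuous (wt T Δ) := by unfold wt; fun_prop
  exact ((zs_cont.norm.rpow_const fun _ => Or.inr hβ.le).mul h1).div_const _

/-- the moment measure -/
def PM (β T Δ : ℝ) : Measure ℝ := volume.withDensity fun t => ENNReal.ofReal (dn β T Δ t)

theorem dn_integrable {β T Δ : ℝ} (hβ : 0 < β) (hΔ : 0 < Δ) (hT : 0 ≤ T) (hΔT : Δ ≤ T) :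
    Integrable (dn β T Δ) :=
  (JB_integrable hβ hΔ hT hΔT (x := 1 / 2) (by norm_num) (by norm_num)).div_const _

theorem dn_integral {β T Δ : ℝ} (hJ : 0 < JB β T Δ (1 / 2)) : ∫ t, dn β T Δ t = 1 := by
  unfold dn
  rw [integral_div]
  exact div_self hJ.ne'

theorem PM_prob {β T Δ : ℝ} (hβ : 0 < β) (hΔ : 0 < Δ) (hT : 0 ≤ T) (hΔT : Δ ≤ T)
    (hJ : 0 < JB β T Δ (1 / 2)) : IsProbabilityMeasure (PM β T Δ) := by
  constructor
  unfold PM
  rw [withDensity_apply _ MeasurableSet.univ, setLIntegral_univ,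
    ← ofReal_integral_eq_lintegral_ofReal (dn_integrable hβ hΔ hT hΔT)
      (Eventually.of_forall fun t => dn_nonneg _ _ _ _), dn_integral hJ, ENNReal.ofReal_one]

/-- moments of the normalised derivatives -/
theorem EX {β T Δ : ℝ} (hβ : 0 < β) (hL : 0 < Real.log T) (hJ : 0 < JB β T Δ (1 / 2)) {k : ℕ} {M : ℝ}
    (h : ∫⁻ y : ℝ, ENNReal.ofReal (‖iteratedDeriv k riemannZeta (((1 / 2 : ℝ) : ℂ) + y * I)‖ ^ β *
      wt T Δ y) ≤ ENNReal.ofReal ((Real.log T ^ k) ^ β * M * JB β T Δ (1 / 2))) :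
    ∫⁻ t, ENNReal.ofReal (‖XN (Real.log T) t k‖ ^ β) ∂(PM β T Δ) ≤ ENNReal.ofReal M := by
  have hm : Measurable (fun t => ENNReal.ofReal (‖XN (Real.log T) t k‖ ^ β)) :=
    (((measurable_pi_iff.mp (XN_meas (Real.log T)) k).norm).pow_const β).ennreal_ofReal
  have hd : Measurable (fun t => ENNReal.ofReal (dn β T Δ t)) := (dn_cont hβ T Δ).measurable.ennreal_ofReal
  unfold PM
  rw [lintegral_withDensity_eq_lintegral_mul _ hd hm]
  set c : ℝ := ((Real.log T ^ k) ^ β * JB β T Δ (1 / 2))⁻¹ with hc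
  have hLk : 0 < (Real.log T ^ k) ^ β := by positivity
  have hc0 : 0 < c := by positivity
  have hpt : ∀ t : ℝ, ((fun t => ENNReal.ofReal (dn β T Δ t)) *
      fun t => ENNReal.ofReal (‖XN (Real.log T) t k‖ ^ β)) t ≤
      ENNReal.ofReal c * ENNReal.ofReal (‖iteratedDeriv k riemannZeta (((1 / 2 : ℝ) : ℂ) + t * I)‖ ^ β *
      wt T Δ t) := by
    intro t
    rw [Pi.mul_apply, ← ENNReal.ofReal_mul (dn_nonneg _ _ _ _), ← ENNReal.ofReal_mul hc0.le]
    apply ENNReal.ofReal_le_ofReal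
    have hw := wt_pos T Δ t
    unfold dn XN
    rcases eq_or_ne (riemannZeta (sp t)) 0 with h0 | h0
    · rw [h0, norm_zero, Real.zero_rpow hβ.ne']
      simp only [zero_mul, zero_div]
      positivity
    · have hz : 0 < ‖riemannZeta (sp t)‖ := norm_pos_iff.mpr h0
      have e : ‖iteratedDeriv k riemannZeta (sp t) / (riemannZeta (sp t) * ((Real.log T : ℝ) : ℂ) ^ k)‖ ^ β =
          ‖iteratedDeriv k riemannZeta (sp t)‖ ^ β / (‖riemannZeta (sp t)‖ ^ β * (Real.log T ^ k) ^ β) := by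
        rw [norm_div, norm_mul, norm_pow, Complex.norm_real, Real.norm_of_nonneg hL.le,
          Real.div_rpow (norm_nonneg _) (by positivity), Real.mul_rpow (norm_nonneg _) (by positivity)]
      rw [e, hc]
      have hzb : 0 < ‖riemannZeta (sp t)‖ ^ β := by positivity
      apply le_of_eq
      unfold sp at hzb ⊢
      field_simp
  refine (lintegral_mono hpt).trans ?_
  rw [lintegral_const_mul' _ _ ENNReal.ofReal_ne_top]
  refine (mul_le_mul' le_rfl h).trans ?_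
  rw [← ENNReal.ofReal_mul hc0.le]
  apply ENNReal.ofReal_le_ofReal
  apply le_of_eq
  rw [hc]
  field_simp

/-- the constant in the moments of the normalised derivatives -/
def MC (β κ ε ρ σ : ℝ) (k : ℕ) : ℝ :=
  (k.factorial / ρ ^ k) ^ β * ((1 + ε) * ((ρ + σ) / σ) ^ 2 * Real.exp ((β + κ) * (ρ + σ)))

theorem EX' {β κ ε : ℝ} (hβ : 0 < β) (hκ : 0 < κ) (hε : 0 < ε) : ∃ B T₀ : ℝ, 1 ≤ B ∧ 200 ≤ T₀ ∧
    ∀ T Δ : ℝ, T₀ ≤ T → 0 < Δ → B ≤ Δ ^ 2 * Real.log T → Δ ≤ T / (2 * Real.log T) →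
    0 < JB β T Δ (1 / 2) ∧ ∀ ρ σ : ℝ, 0 < ρ → 0 < σ → ρ ≤ Real.log T / 16 →
    ρ + σ ≤ Real.log T / 8 → ∀ k : ℕ,
    ∫⁻ t, ENNReal.ofReal (‖XN (Real.log T) t k‖ ^ β) ∂(PM β T Δ) ≤
      ENNReal.ofReal (MC β κ ε ρ σ k) := by
  obtain ⟨B₁, T₁, hB₁, hT₁, h₁⟩ := cluster_zeta hβ hκ hε
  obtain ⟨B₂, T₂, hB₂, hT₂, h₂⟩ := deriv_lint hβ hκ hε
  refine ⟨max B₁ B₂, max T₁ T₂, hB₁.trans (le_max_left _ _), hT₁.trans (le_max_left _ _),
    fun T Δ hT hΔ hB hΔT => ?_⟩
  have hTT1 : T₁ ≤ T := (le_max_left _ _).trans hT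
  have hT3 : 3 ≤ T := by linarith
  have hT0 : 0 < T := by linarith
  have hlog := log_ge_one hT3
  have hL0 : 0 < Real.log T := by linarith
  have hJ := (h₁ T Δ hTT1 hΔ ((le_max_left _ _).trans hB) hΔT).1
  have hΔT' : Δ ≤ T / Real.log T := hΔT.trans (by gcongr; linarith)
  refine ⟨hJ, fun ρ σ hρ hσ h16 h8 k => EX hβ hL0 hJ ?_⟩
  refine (h₂ T Δ ((le_max_right _ _).trans hT) hΔ ((le_max_right _ _).trans hB) hΔT' ρ σ hρ hσ h16 h8 k).trans
    (ENNReal.ofReal_le_ofReal (le_of_eq ?_))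
  unfold MC
  have e : (k.factorial : ℝ) * Real.log T ^ k / ρ ^ k = Real.log T ^ k * (k.factorial / ρ ^ k) := by ring
  rw [e, Real.mul_rpow (by positivity) (by positivity)]
  ring

/-- Markov's inequality -/
theorem markov {β T Δ : ℝ} (hβ : 0 < β) {k : ℕ} {C M : ℝ} (hM : 0 < M)
    (h : ∫⁻ t, ENNReal.ofReal (‖XN (Real.log T) t k‖ ^ β) ∂(PM β T Δ) ≤ ENNReal.ofReal C) :
    PM β T Δ {t | M < ‖XN (Real.log T) t k‖} ≤ ENNReal.ofReal (C / M ^ β) := by
  have hm : Measurable (fun t => ENNReal.ofReal (‖XN (Real.log T) t k‖ ^ β)) :=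
    (((measurable_pi_iff.mp (XN_meas (Real.log T)) k).norm).pow_const β).ennreal_ofReal
  have hMβ : 0 < M ^ β := Real.rpow_pos_of_pos hM _
  have h1 := mul_meas_ge_le_lintegral hm (μ := PM β T Δ) (ENNReal.ofReal (M ^ β))
  have h2 : {t | M < ‖XN (Real.log T) t k‖} ⊆
      {t | ENNReal.ofReal (M ^ β) ≤ ENNReal.ofReal (‖XN (Real.log T) t k‖ ^ β)} := by
    intro t ht
    have ht' : M < ‖XN (Real.log T) t k‖ := ht
    exact ENNReal.ofReal_le_ofReal (Real.rpow_le_rpow hM.le ht'.le hβ.le)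
  have h3 := (mul_le_mul' le_rfl (measure_mono h2)).trans (h1.trans h)
  rw [ENNReal.ofReal_div_of_pos hMβ, ENNReal.le_div_iff_mul_le (Or.inl (by
    rw [ne_eq, ENNReal.ofReal_eq_zero]; push Not; exact hMβ)) (Or.inl ENNReal.ofReal_ne_top), mul_comm]
  exact h3

/-- the law of the normalised derivatives -/
def law (β T Δ : ℝ) : Measure (ℕ → ℂ) := (PM β T Δ).map (XN (Real.log T))

/-- boxes -/
def box (M : ℕ → ℝ) : Set (ℕ → ℂ) := {x | ∀ k, ‖x k‖ ≤ M k}

theorem box_compact (M : ℕ → ℝ) : IsCompact (box M) := by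
  have : box M = Set.pi Set.univ (fun k => Metric.closedBall (0 : ℂ) (M k)) := by
    ext x
    simp [box]
  rw [this]
  exact isCompact_univ_pi fun k => isCompact_closedBall _ _

theorem law_box {β T Δ : ℝ} (hβ : 0 < β) {C : ℕ → ℝ} (hC : ∀ k, 0 ≤ C k)
    (h : ∀ k, ∫⁻ t, ENNReal.ofReal (‖XN (Real.log T) t k‖ ^ β) ∂(PM β T Δ) ≤ ENNReal.ofReal (C k))
    {δ : ℝ} (hδ : 0 < δ) :
    law β T Δ (box fun k => ((C k + 1) * 2 ^ (k + 1) / δ) ^ (1 / β))ᶜ ≤ ENNReal.ofReal δ := by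
  set M : ℕ → ℝ := fun k => ((C k + 1) * 2 ^ (k + 1) / δ) ^ (1 / β) with hM
  have hM0 : ∀ k, 0 < M k := fun k => by
    have := hC k
    rw [hM]
    positivity
  unfold law
  rw [Measure.map_apply (XN_meas _) (box_compact M).measurableSet.compl]
  have h1 : XN (Real.log T) ⁻¹' (box M)ᶜ = ⋃ k, {t | M k < ‖XN (Real.log T) t k‖} := by
    ext t
    simp [box]
  rw [h1]
  refine (measure_iUnion_le _).trans ?_
  have h2 : ∀ k, PM β T Δ {t | M k < ‖XN (Real.log T) t k‖} ≤ ENNReal.ofReal (δ * (1 / 2) ^ (k + 1)) := by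
    intro k
    refine (markov hβ (hM0 k) (h k)).trans (ENNReal.ofReal_le_ofReal ?_)
    have h3 : M k ^ β = (C k + 1) * 2 ^ (k + 1) / δ := by
      have := hC k
      rw [hM]
      simp only
      rw [← Real.rpow_mul (by positivity), one_div_mul_cancel hβ.ne', Real.rpow_one]
    have hCk := hC k
    rw [h3, div_le_iff₀ (by positivity)]
    have : δ * (1 / 2) ^ (k + 1) * ((C k + 1) * 2 ^ (k + 1) / δ) = C k + 1 := by
      have h4 : ((1 : ℝ) / 2) ^ (k + 1) * 2 ^ (k + 1) = 1 := by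
        rw [← mul_pow]; norm_num
      calc δ * (1 / 2) ^ (k + 1) * ((C k + 1) * 2 ^ (k + 1) / δ) =
            (δ / δ) * (((1 : ℝ) / 2) ^ (k + 1) * 2 ^ (k + 1)) * (C k + 1) := by ring
        _ = C k + 1 := by rw [h4, div_self hδ.ne']; ring
    rw [this]
    linarith
  refine (ENNReal.tsum_le_tsum h2).trans ?_
  rw [← ENNReal.ofReal_tsum_of_nonneg (fun k => by positivity)]
  · apply ENNReal.ofReal_le_ofReal
    rw [tsum_mul_left]
    have h5 : ∑' k : ℕ, ((1 : ℝ) / 2) ^ (k + 1) = 1 := by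
      have := tsum_geometric_two
      simp_rw [pow_succ]
      rw [tsum_mul_right, this]
      norm_num
    rw [h5, mul_one]
  · have h6 : Summable (fun k : ℕ => ((1 : ℝ) / 2) ^ (k + 1)) := by
      simp_rw [pow_succ]
      exact summable_geometric_two.mul_right _
    exact h6.mul_left δ

/-- compactness of the laws -/
theorem subseq {β : ℝ} (hβ : 0 < β) {T Δ : ℕ → ℝ} {C : ℕ → ℝ} (hC : ∀ k, 0 ≤ C k)
    (hp : ∀ j, IsProbabilityMeasure (PM β (T j) (Δ j)))
    (h : ∀ j k, ∫⁻ t, ENNReal.ofReal (‖XN (Real.log (T j)) t k‖ ^ β) ∂(PM β (T j) (Δ j)) ≤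
      ENNReal.ofReal (C k)) :
    ∃ φ : ℕ → ℕ, StrictMono φ ∧ ∃ ν : Measure (ℕ → ℂ), IsProbabilityMeasure ν ∧
      ∀ F : BoundedContinuousFunction (ℕ → ℂ) ℝ,
        Tendsto (fun j => ∫ x, F x ∂(law β (T (φ j)) (Δ (φ j)))) atTop (𝓝 (∫ x, F x ∂ν)) := by
  have hlp : ∀ j, IsProbabilityMeasure (law β (T j) (Δ j)) := fun j => by
    have := hp j
    exact Measure.isProbabilityMeasure_map (XN_meas _).aemeasurable
  set μ : ℕ → ProbabilityMeasure (ℕ → ℂ) := fun j => ⟨law β (T j) (Δ j), hlp j⟩ with hμ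
  have hcomp : IsCompact (closure (Set.range μ)) := by
    refine isCompact_closure_of_isTightMeasureSet ?_
    rw [isTightMeasureSet_iff_exists_isCompact_measure_compl_le]
    intro ε hε
    obtain ⟨δ, hδ, hδε⟩ : ∃ δ : ℝ, 0 < δ ∧ ENNReal.ofReal δ ≤ ε := by
      rcases eq_or_ne ε ⊤ with rfl | hne
      · exact ⟨1, one_pos, le_top⟩
      · exact ⟨ε.toReal, ENNReal.toReal_pos hε.ne' hne, by rw [ENNReal.ofReal_toReal hne]⟩
    refine ⟨box fun k => ((C k + 1) * 2 ^ (k + 1) / δ) ^ (1 / β), box_compact _, ?_⟩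
    rintro _ ⟨_, ⟨j, rfl⟩, rfl⟩
    exact (law_box hβ hC (h j) hδ).trans hδε
  obtain ⟨ν, -, φ, hφ, hlim⟩ := hcomp.tendsto_subseq (fun j => subset_closure (Set.mem_range_self j) :
    ∀ j, μ j ∈ closure (Set.range μ))
  refine ⟨φ, hφ, ν, inferInstance, fun F => ?_⟩
  exact (ProbabilityMeasure.tendsto_iff_forall_integral_tendsto.mp hlim) F

end

end Run7.h563.LS
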