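import Pool.Agent.Run7.h563.LS.I
import Pool.Agent.Q97.MM.XXb

set_option autoImplicit false

/-!
# The functional equation of the normalised derivatives
-/

namespace Run7.h563.LS

open Complex MeasureTheory Filter Topology Set Q97.RB Q97.MM H345 H345.Chi

noncomputable section

/-- the factor of the functional equation near a point of the critical line -/
theorem XX_near {T t : ℝ} (hT : 200 ≤ T) (ht : |t - T| ≤ T / 2) {w : ℂ} (hw : ‖w‖ ≤ 1 / Real.log T) :
    ‖XX (sp t + w) / XX (sp t) - cexp (w * Real.log T)‖ ≤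
      4 / Real.log T * Real.exp (4 / Real.log T + 1) := by
  have hT3 : 3 ≤ T := by linarith
  have hT0 : 0 < T := by linarith
  have hlog := log_ge_one hT3
  set L := Real.log T with hL
  have hL0 : 0 < L := by linarith
  have hL5 : 5 ≤ L := by
    rw [hL, Real.le_log_iff_exp_le hT0]
    have h1 : Real.exp 5 = Real.exp 1 ^ 5 := by rw [← Real.exp_nat_mul]; norm_num
    have h2 : Real.exp 1 ^ 5 ≤ (2.72 : ℝ) ^ 5 :=
      pow_le_pow_left₀ (Real.exp_pos _).le (by linarith [Real.exp_one_lt_d9]) 5
    rw [h1]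
    refine h2.trans ?_
    norm_num
    linarith
  have hw5 : ‖w‖ ≤ 1 / 5 := hw.trans (by
    rw [div_le_div_iff₀ hL0 (by norm_num)]; linarith)
  have hre := abs_le.mp ((Complex.abs_re_le_norm w).trans hw5)
  have him := abs_le.mp ((Complex.abs_im_le_norm w).trans hw5)
  have ht' := abs_le.mp ht
  set s := sp t with hs
  have hsre : s.re = 1 / 2 := by rw [hs, sp]; simp
  have hsim : s.im = t := by rw [hs, sp]; simp
  have hXs : XX s ≠ 0 := XX_ne (by rw [hsre]; norm_num) (by rw [hsim]; linarith)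
  have hpt : ∀ τ : ℝ, τ ∈ Icc (0 : ℝ) 1 → 0 < (s + τ * w).re ∧ (s + τ * w).re ≤ 4 ∧
      T / 2 - 1 ≤ (s + τ * w).im ∧ (s + τ * w).im ≤ 3 / 2 * T + 1 := by
    intro τ hτ
    have e1 : (s + τ * w).re = 1 / 2 + τ * w.re := by simp [hsre]
    have e2 : (s + τ * w).im = t + τ * w.im := by simp [hsim]
    rw [e1, e2]
    have a1 : |τ * w.re| ≤ 1 / 5 := by
      rw [abs_mul, abs_of_nonneg hτ.1]
      have : |w.re| ≤ 1 / 5 := abs_le.mpr hre
      nlinarith [hτ.2, abs_nonneg w.re]
    have a2 : |τ * w.im| ≤ 1 / 5 := by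
      rw [abs_mul, abs_of_nonneg hτ.1]
      have : |w.im| ≤ 1 / 5 := abs_le.mpr him
      nlinarith [hτ.2, abs_nonneg w.im]
    have a1' := abs_le.mp a1
    have a2' := abs_le.mp a2
    refine ⟨by linarith, by linarith, by linarith, by linarith⟩
  set G : ℝ → ℂ := fun τ => XX (s + τ * w) / XX s * cexp (-(τ * (w * L))) with hG
  set g : ℝ → ℂ := fun τ => w * (L2 (s + τ * w) - L) with hg
  have hGd : ∀ τ ∈ Icc (0 : ℝ) 1, HasDerivAt G (G τ * g τ) τ := by
    intro τ hτ
    obtain ⟨h0, h4, h1, h2⟩ := hpt τ hτ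
    have d0 : HasDerivAt (fun z : ℂ => s + z * w) w (τ : ℂ) := by
      simpa using ((hasDerivAt_id (τ : ℂ)).mul_const w).const_add s
    have d1 : HasDerivAt (fun z : ℂ => XX (s + z * w)) (XX (s + τ * w) * L2 (s + τ * w) * w) (τ : ℂ) :=
      HasDerivAt.comp (h₂ := XX) (h := fun z : ℂ => s + z * w) (τ : ℂ)
        (hasDerivAt_XX h0 (by linarith)) d0
    have d2 : HasDerivAt (fun z : ℂ => cexp (-(z * (w * L)))) (cexp (-(τ * (w * L))) * -(w * L)) (τ : ℂ) := by
      have : HasDerivAt (fun z : ℂ => -(z * (w * L))) (-(w * L)) (τ : ℂ) := by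
        simpa using ((hasDerivAt_id (τ : ℂ)).mul_const (w * (L : ℂ))).fun_neg
      exact this.cexp
    have d3 : HasDerivAt (fun z : ℂ => XX (s + z * w) / XX s * cexp (-(z * (w * L))))
        (XX (s + τ * w) * L2 (s + τ * w) * w / XX s * cexp (-(τ * (w * L))) +
          XX (s + τ * w) / XX s * (cexp (-(τ * (w * L))) * -(w * L))) (τ : ℂ) :=
      (d1.div_const (XX s)).mul d2
    have d4 := d3.comp_ofReal
    have e6 : XX (s + τ * w) * L2 (s + τ * w) * w / XX s * cexp (-(τ * (w * L))) +
          XX (s + τ * w) / XX s * (cexp (-(τ * (w * L))) * -(w * L)) = G τ * g τ := by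
      simp only [hG, hg]
      ring
    rw [e6] at d4
    exact d4
  have hgb : ∀ τ ∈ Icc (0 : ℝ) 1, ‖g τ‖ ≤ 4 / L := by
    intro τ hτ
    obtain ⟨h0, h4, h1, h2⟩ := hpt τ hτ
    have b1 := L2_close h0 h4 (by linarith)
    have him0 : 0 < (s + τ * w).im := by linarith
    set v := (s + τ * w).im with hv
    have b2 : 14 / v ≤ 1 := by rw [div_le_one him0]; linarith
    have b3 : |Real.log (v / (2 * Real.pi)) - L| ≤ 3 := by
      have hpi := Real.pi_pos
      have hpi3 := Real.pi_gt_three
      have hpi4 := Real.pi_lt_four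
      have e3 : Real.log (v / (2 * Real.pi)) - L = Real.log (v / (2 * Real.pi) / T) := by
        rw [Real.log_div (by positivity) hT0.ne', hL]
      rw [e3, abs_le]
      constructor
      · rw [Real.le_log_iff_exp_le (by positivity), le_div_iff₀ hT0, le_div_iff₀ (by positivity)]
        have hexp : Real.exp (-3) ≤ 1 / 19 := by
          rw [Real.exp_neg, inv_eq_one_div]
          apply one_div_le_one_div_of_le (by norm_num)
          have h5 : Real.exp 3 = Real.exp 1 ^ 3 := by rw [← Real.exp_nat_mul]; norm_num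
          rw [h5]
          have h6 : (2.7 : ℝ) ^ 3 ≤ Real.exp 1 ^ 3 :=
            pow_le_pow_left₀ (by norm_num) (by linarith [Real.exp_one_gt_d9]) 3
          refine le_trans ?_ h6
          norm_num
        have h7 : Real.exp (-3) * T * (2 * Real.pi) ≤ 1 / 19 * T * (2 * 4) := by gcongr
        linarith
      · have h8 : v / (2 * Real.pi) / T ≤ 1 := by
          rw [div_le_one hT0, div_le_iff₀ (by positivity)]
          nlinarith
        have h9 := Real.log_le_log (by positivity) h8
        rw [Real.log_one] at h9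
        linarith
    have b4 : ‖L2 (s + τ * w) - L‖ ≤ 4 := by
      have e4 : L2 (s + τ * w) - L = (L2 (s + τ * w) - (Real.log (v / (2 * Real.pi)) : ℂ)) +
          ((Real.log (v / (2 * Real.pi)) - L : ℝ) : ℂ) := by push_cast; ring
      rw [e4]
      refine (norm_add_le _ _).trans ?_
      rw [Complex.norm_real, Real.norm_eq_abs]
      linarith
    simp only [hg]
    rw [norm_mul]
    calc ‖w‖ * ‖L2 (s + τ * w) - L‖ ≤ (1 / L) * 4 := by gcongr
      _ = _ := by ring
  have hG0 : G 0 = 1 := by
    simp [hG, div_self hXs]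
  have hGn : ∀ τ ∈ Icc (0 : ℝ) 1, ‖G τ‖ ≤ Real.exp (4 / L) := by
    intro τ hτ
    refine (gron hGd hgb (by rw [hG0]; simp) hτ).trans (Real.exp_le_exp.mpr ?_)
    have : 0 ≤ 4 / L := by positivity
    nlinarith [hτ.2]
  have hdiff : ‖G 1 - G 0‖ ≤ 4 / L * Real.exp (4 / L) := by
    refine norm_image_sub_le_of_norm_deriv_le_segment_01' (f' := fun τ => G τ * g τ)
      (fun τ hτ => (hGd τ hτ).hasDerivWithinAt) (fun τ hτ => ?_)
    have hτ' : τ ∈ Icc (0 : ℝ) 1 := Ico_subset_Icc_self hτ
    rw [norm_mul, mul_comm]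
    exact mul_le_mul (hgb τ hτ') (hGn τ hτ') (norm_nonneg _) (by positivity)
  have e5 : XX (s + w) / XX s - cexp (w * L) = (G 1 - G 0) * cexp (w * L) := by
    rw [hG0]
    simp only [hG, ofReal_one, one_mul]
    rw [sub_mul, mul_assoc, ← Complex.exp_add, neg_add_cancel, Complex.exp_zero, mul_one, one_mul]
  rw [e5, norm_mul, Complex.norm_exp]
  have hre2 : (w * (L : ℂ)).re ≤ 1 := by
    rw [Complex.re_mul_ofReal]
    have h10 := (Complex.re_le_norm w).trans hw
    calc w.re * L ≤ (1 / L) * L := mul_le_mul_of_nonneg_right h10 hL0.le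
      _ = 1 := by field_simp
  calc ‖G 1 - G 0‖ * Real.exp (w * (L : ℂ)).re ≤ (4 / L * Real.exp (4 / L)) * Real.exp 1 := by
        gcongr
    _ = _ := by rw [mul_assoc, ← Real.exp_add]

/-- the coefficients in the functional equation -/
def bb (L t : ℝ) (i : ℕ) : ℂ := iteratedDeriv i XX (sp t) / (XX (sp t) * (L : ℂ) ^ i)

theorem XX_diffOn : DifferentiableOn ℂ XX {s : ℂ | 0 < s.re ∧ 1 < s.im} := fun _ hs =>
  (hasDerivAt_XX hs.1 hs.2.le).differentiableAt.differentiableWithinAt

theorem XX_open : IsOpen {s : ℂ | 0 < s.re ∧ 1 < s.im} :=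
  (isOpen_lt continuous_const Complex.continuous_re).inter
    (isOpen_lt continuous_const Complex.continuous_im)

theorem bb_close {T t : ℝ} (hT : 200 ≤ T) (ht : |t - T| ≤ T / 2) (i : ℕ) :
    ‖bb (Real.log T) t i - 1‖ ≤ i.factorial * (4 / Real.log T * Real.exp (4 / Real.log T + 1)) := by
  have hT3 : 3 ≤ T := by linarith
  have hT0 : 0 < T := by linarith
  have hlog := log_ge_one hT3
  set L := Real.log T with hL
  have hL0 : 0 < L := by linarith
  have hLc : (L : ℂ) ≠ 0 := by exact_mod_cast hL0.ne'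
  have ht' := abs_le.mp ht
  have hsre : (sp t).re = 1 / 2 := by rw [sp]; simp
  have hsim : (sp t).im = t := by rw [sp]; simp
  have hXs : XX (sp t) ≠ 0 := XX_ne (by rw [hsre]; norm_num) (by rw [hsim]; linarith)
  set D := 4 / L * Real.exp (4 / L + 1) with hD
  have hL5 : 5 ≤ L := by
    rw [hL, Real.le_log_iff_exp_le hT0]
    have h1 : Real.exp 5 = Real.exp 1 ^ 5 := by rw [← Real.exp_nat_mul]; norm_num
    have h2 : Real.exp 1 ^ 5 ≤ (2.72 : ℝ) ^ 5 :=
      pow_le_pow_left₀ (Real.exp_pos _).le (by linarith [Real.exp_one_lt_d9]) 5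
    rw [h1]
    refine h2.trans ?_
    norm_num
    linarith
  have hball : ∀ z ∈ Metric.closedBall (sp t) (1 / L), z ∈ {s : ℂ | 0 < s.re ∧ 1 < s.im} := by
    intro z hz
    rw [Metric.mem_closedBall, dist_eq_norm] at hz
    have hz5 : ‖z - sp t‖ ≤ 1 / 5 := hz.trans (by
      rw [div_le_div_iff₀ hL0 (by norm_num)]; linarith)
    have h1 := abs_le.mp ((Complex.abs_re_le_norm _).trans hz5)
    have h2 := abs_le.mp ((Complex.abs_im_le_norm _).trans hz5)
    rw [Complex.sub_re, hsre] at h1
    rw [Complex.sub_im, hsim] at h2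
    exact ⟨by linarith, by linarith⟩
  -- the function of the point
  set h : ℂ → ℂ := fun z => XX z / XX (sp t) - cexp ((z - sp t) * L) with hh
  have hhd : DifferentiableOn ℂ h (Metric.closedBall (sp t) (1 / L)) := by
    intro z hz
    have h1 : DifferentiableAt ℂ XX z := (hasDerivAt_XX (hball z hz).1 (hball z hz).2.le).differentiableAt
    have h2 : DifferentiableAt ℂ (fun z => cexp ((z - sp t) * L)) z := by fun_prop
    exact ((h1.div_const _).sub h2).differentiableWithinAt
  have hr0 : 0 < 1 / L := by positivity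
  have hC := Complex.norm_iteratedDeriv_le_of_forall_mem_sphere_norm_le i hr0
    (f := h) (c := sp t) (C := D)
    (DifferentiableOn.diffContOnCl (by rw [closure_ball _ hr0.ne']; exact hhd))
    (fun z hz => by
      have hz' : ‖z - sp t‖ ≤ 1 / L := by
        rw [mem_sphere_iff_norm] at hz
        exact hz.le
      have := XX_near hT ht hz'
      rw [add_sub_cancel] at this
      exact this)
  have hXa : ContDiffAt ℂ i XX (sp t) :=
    (XX_diffOn.analyticAt (XX_open.mem_nhds (hball _ (Metric.mem_closedBall_self hr0.le)))).contDiffAt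
  have e1 : iteratedDeriv i h (sp t) = iteratedDeriv i XX (sp t) / XX (sp t) - (L : ℂ) ^ i := by
    have h3 : ContDiffAt ℂ i (fun z => XX z / XX (sp t)) (sp t) := hXa.div_const _
    have h4 : ContDiffAt ℂ i (fun z => cexp ((z - sp t) * L)) (sp t) := by fun_prop
    have h5 := iteratedDeriv_sub h3 h4
    have h6 : h = (fun z => XX z / XX (sp t)) - fun z => cexp ((z - sp t) * L) := rfl
    rw [h6, h5, iteratedDeriv_div_const]
    congr 1
    have h7 : (fun z => cexp ((z - sp t) * L)) = fun z => (fun u => cexp ((L : ℂ) * u)) (z - sp t) := by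
      funext z
      simp only
      congr 1
      ring
    have h8 := congrFun (iteratedDeriv_comp_sub_const i (fun u => cexp ((L : ℂ) * u)) (sp t)) (sp t)
    rw [h7, h8]
    simp only [sub_self]
    rw [iteratedDeriv_comp_const_mul (f := cexp) (by fun_prop) (L : ℂ)]
    simp [iteratedDeriv_eq_iterate, Complex.iter_deriv_exp]
  rw [e1] at hC
  have e2 : bb L t i - 1 = (iteratedDeriv i XX (sp t) / XX (sp t) - (L : ℂ) ^ i) / (L : ℂ) ^ i := by
    unfold bb
    field_simp
  rw [e2, norm_div, norm_pow, Complex.norm_real, Real.norm_of_nonneg hL0.le, div_le_iff₀ (by positivity)]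
  refine hC.trans (le_of_eq ?_)
  rw [one_div, inv_pow]
  field_simp

theorem iter_conj (f : ℂ → ℂ) (k : ℕ) :
    iteratedDeriv k ((starRingEnd ℂ) ∘ f ∘ (starRingEnd ℂ)) =
      (starRingEnd ℂ) ∘ iteratedDeriv k f ∘ (starRingEnd ℂ) := by
  induction k with
  | zero => simp only [iteratedDeriv_zero]
  | succ k ih => rw [iteratedDeriv_succ, ih, deriv_conj_conj, iteratedDeriv_succ]

/-- the functional equation of the normalised derivatives -/
theorem fe_XN {L t : ℝ} (hL : L ≠ 0) (ht : 2 ≤ t) (hz : riemannZeta (sp t) ≠ 0) (k : ℕ) :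
    (-1) ^ k * XN L t k = (starRingEnd ℂ) (∑ i ∈ Finset.range (k + 1),
      (k.choose i : ℂ) * bb L t i * XN L t (k - i)) := by
  have hsre : (sp t).re = 1 / 2 := by rw [sp]; simp
  have hsim : (sp t).im = t := by rw [sp]; simp
  have hLc : (L : ℂ) ≠ 0 := by exact_mod_cast hL
  have hXs : XX (sp t) ≠ 0 := XX_ne (by rw [hsre]; norm_num) (by rw [hsim]; linarith)
  have hconj : (starRingEnd ℂ) (sp t) = 1 - sp t := by
    rw [sp, map_add, map_mul, Complex.conj_ofReal, Complex.conj_ofReal, Complex.conj_I]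
    push_cast
    ring
  set C : ℂ → ℂ := (fun w => XX (sp t + w)) * fun w => riemannZeta (sp t + w) with hC
  -- the identity near the origin
  have hid : (fun w => riemannZeta (sp t - w)) =ᶠ[𝓝 0]
      (starRingEnd ℂ) ∘ C ∘ (starRingEnd ℂ) := by
    filter_upwards [Metric.ball_mem_nhds (0 : ℂ) one_pos] with w hw
    rw [Metric.mem_ball, dist_zero_right] at hw
    have him := abs_lt.mp ((Complex.abs_im_le_norm w).trans_lt hw)
    set s' : ℂ := sp t + (starRingEnd ℂ) w with hs'
    have him' : s'.im = t - w.im := by rw [hs']; simp [hsim]; ring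
    have h1 : sp t - w = 1 - (starRingEnd ℂ) s' := by
      rw [hs', map_add, Complex.conj_conj, hconj]
      ring
    have h3 := zeta_fe ((starRingEnd ℂ) s') (by
      intro m hm
      have := congrArg Complex.im hm
      rw [Complex.conj_im, him'] at this
      simp at this
      linarith) (by
      intro hm
      have := congrArg Complex.im hm
      rw [Complex.conj_im, him'] at this
      simp at this
      linarith)
    rw [h1, h3, XX_conj, riemannZeta_conj]
    simp only [Function.comp, hC, Pi.mul_apply]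
    rw [map_mul]
  have h4 := hid.iteratedDeriv_eq k
  rw [iter_conj, iteratedDeriv_comp_const_sub] at h4
  simp only [Function.comp, sub_zero, map_zero, smul_eq_mul] at h4
  have hXa : ContDiffAt ℂ k XX (sp t) :=
    (XX_diffOn.analyticAt (XX_open.mem_nhds ⟨by rw [hsre]; norm_num, by rw [hsim]; linarith⟩)).contDiffAt
  have hZa : ContDiffAt ℂ k riemannZeta (sp t) := by
    have hd : DifferentiableOn ℂ riemannZeta {z : ℂ | z ≠ 1} := fun z hz =>
      (differentiableAt_riemannZeta hz).differentiableWithinAt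
    exact (hd.analyticAt (isOpen_ne.mem_nhds (sp_ne t))).contDiffAt
  have hadd : ContDiffAt ℂ k (fun w : ℂ => sp t + w) 0 := by fun_prop
  have hX1 : ContDiffAt ℂ k (fun w => XX (sp t + w)) 0 :=
    ContDiffAt.comp (g := XX) (f := fun w : ℂ => sp t + w) (0 : ℂ) (by simpa using hXa) hadd
  have hZ1 : ContDiffAt ℂ k (fun w => riemannZeta (sp t + w)) 0 :=
    ContDiffAt.comp (g := riemannZeta) (f := fun w : ℂ => sp t + w) (0 : ℂ) (by simpa using hZa) hadd
  have h5 := iteratedDeriv_mul hX1 hZ1
  rw [← hC] at h5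
  have h6 : ∀ i, iteratedDeriv i (fun w => XX (sp t + w)) 0 = iteratedDeriv i XX (sp t) := fun i => by
    rw [iteratedDeriv_comp_const_add]; simp
  have h7 : ∀ i, iteratedDeriv i (fun w => riemannZeta (sp t + w)) 0 =
      iteratedDeriv i riemannZeta (sp t) := fun i => by
    rw [iteratedDeriv_comp_const_add]; simp
  simp only [h6, h7] at h5
  have h8 : riemannZeta (sp t) = (starRingEnd ℂ) (XX (sp t) * riemannZeta (sp t)) := by
    have h9 := hid.eq_of_nhds
    simp only [sub_zero, Function.comp, map_zero, hC, Pi.mul_apply, add_zero] at h9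
    exact h9
  -- division
  have hz' : XX (sp t) * riemannZeta (sp t) ≠ 0 := mul_ne_zero hXs hz
  have e1 : (-1) ^ k * XN L t k = ((-1) ^ k * iteratedDeriv k riemannZeta (sp t)) /
      (riemannZeta (sp t) * (L : ℂ) ^ k) := by
    unfold XN; ring
  have e2 : ∑ i ∈ Finset.range (k + 1), (k.choose i : ℂ) * bb L t i * XN L t (k - i) =
      iteratedDeriv k C 0 / ((XX (sp t) * riemannZeta (sp t)) * (L : ℂ) ^ k) := by
    rw [h5, Finset.sum_div]
    refine Finset.sum_congr rfl fun i hi => ?_
    have hik : i ≤ k := by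
      have := Finset.mem_range.mp hi
      omega
    have e3 : (L : ℂ) ^ k = (L : ℂ) ^ i * (L : ℂ) ^ (k - i) := by
      rw [← pow_add]; congr 1; omega
    unfold bb XN
    rw [e3]
    field_simp
  rw [e1, e2, map_div₀, map_mul, ← h8, ← h4, map_pow, Complex.conj_ofReal]

end

end Run7.h563.LS
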