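import Pool.Agent.Run7.h563.LS.J

set_option autoImplicit false

/-!
# Compactness of laws on sequences with bounded moments of a real order
-/

namespace Run7.h563.LS

open Complex MeasureTheory Filter Topology Set

noncomputable section

theorem gen_markov {P : Measure ℝ} {Z : ℝ → ℕ → ℂ} (hZ : Measurable Z) {β : ℝ} (hβ : 0 < β) {k : ℕ}
    {C M : ℝ} (hM : 0 < M)
    (h : ∫⁻ t, ENNReal.ofReal (‖Z t k‖ ^ β) ∂P ≤ ENNReal.ofReal C) :
    P {t | M < ‖Z t k‖} ≤ ENNReal.ofReal (C / M ^ β) := by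
  have hm : Measurable (fun t => ENNReal.ofReal (‖Z t k‖ ^ β)) :=
    (((measurable_pi_iff.mp hZ k).norm).pow_const β).ennreal_ofReal
  have hMβ : 0 < M ^ β := Real.rpow_pos_of_pos hM _
  have h1 := mul_meas_ge_le_lintegral hm (μ := P) (ENNReal.ofReal (M ^ β))
  have h2 : {t | M < ‖Z t k‖} ⊆
      {t | ENNReal.ofReal (M ^ β) ≤ ENNReal.ofReal (‖Z t k‖ ^ β)} := by
    intro t ht
    have ht' : M < ‖Z t k‖ := ht
    exact ENNReal.ofReal_le_ofReal (Real.rpow_le_rpow hM.le ht'.le hβ.le)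
  have h3 := (mul_le_mul' le_rfl (measure_mono h2)).trans (h1.trans h)
  rw [ENNReal.ofReal_div_of_pos hMβ, ENNReal.le_div_iff_mul_le (Or.inl (by
    rw [ne_eq, ENNReal.ofReal_eq_zero]; push Not; exact hMβ)) (Or.inl ENNReal.ofReal_ne_top), mul_comm]
  exact h3

theorem gen_box {P : Measure ℝ} {Z : ℝ → ℕ → ℂ} (hZ : Measurable Z) {β : ℝ} (hβ : 0 < β)
    {C : ℕ → ℝ} (hC : ∀ k, 0 ≤ C k)
    (h : ∀ k, ∫⁻ t, ENNReal.ofReal (‖Z t k‖ ^ β) ∂P ≤ ENNReal.ofReal (C k))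
    {δ : ℝ} (hδ : 0 < δ) :
    P.map Z (box fun k => ((C k + 1) * 2 ^ (k + 1) / δ) ^ (1 / β))ᶜ ≤ ENNReal.ofReal δ := by
  set M : ℕ → ℝ := fun k => ((C k + 1) * 2 ^ (k + 1) / δ) ^ (1 / β) with hM
  have hM0 : ∀ k, 0 < M k := fun k => by
    have := hC k
    rw [hM]
    positivity
  rw [Measure.map_apply hZ (box_compact M).measurableSet.compl]
  have h1 : Z ⁻¹' (box M)ᶜ = ⋃ k, {t | M k < ‖Z t k‖} := by
    ext t
    simp [box]
  rw [h1]
  refine (measure_iUnion_le _).trans ?_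
  have h2 : ∀ k, P {t | M k < ‖Z t k‖} ≤ ENNReal.ofReal (δ * (1 / 2) ^ (k + 1)) := by
    intro k
    refine (gen_markov hZ hβ (hM0 k) (h k)).trans (ENNReal.ofReal_le_ofReal ?_)
    have h3 : M k ^ β = (C k + 1) * 2 ^ (k + 1) / δ := by
      have := hC k
      rw [hM]
      simp only
      rw [← Real.rpow_mul (by positivity), one_div_mul_cancel hβ.ne', Real.rpow_one]
    have hCk := hC k
    rw [h3, div_le_iff₀ (by positivity)]
    have : δ * (1 / 2) ^ (k + 1) * ((C k + 1) * 2 ^ (k + 1) / δ) = C k + 1 := by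
      have h4 : ((1 : ℝ) / 2) ^ (k + 1) * 2 ^ (k + 1) = 1 := by
        rw [← mul_pow]; norm_num
      calc δ * (1 / 2) ^ (k + 1) * ((C k + 1) * 2 ^ (k + 1) / δ) =
            (δ / δ) * (((1 : ℝ) / 2) ^ (k + 1) * 2 ^ (k + 1)) * (C k + 1) := by ring
        _ = C k + 1 := by rw [h4, div_self hδ.ne']; ring
    rw [this]
    linarith
  refine (ENNReal.tsum_le_tsum h2).trans ?_
  rw [← ENNReal.ofReal_tsum_of_nonneg (fun k => by positivity)]
  · apply ENNReal.ofReal_le_ofReal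
    rw [tsum_mul_left]
    have h5 : ∑' k : ℕ, ((1 : ℝ) / 2) ^ (k + 1) = 1 := by
      have := tsum_geometric_two
      simp_rw [pow_succ]
      rw [tsum_mul_right, this]
      norm_num
    rw [h5, mul_one]
  · have h6 : Summable (fun k : ℕ => ((1 : ℝ) / 2) ^ (k + 1)) := by
      simp_rw [pow_succ]
      exact summable_geometric_two.mul_right _
    exact h6.mul_left δ

/-- compactness of laws on sequences with bounded moments -/
theorem gen_subseq {β : ℝ} (hβ : 0 < β) {P : ℕ → Measure ℝ} {Z : ℕ → ℝ → ℕ → ℂ}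
    (hZ : ∀ j, Measurable (Z j)) {C : ℕ → ℝ} (hC : ∀ k, 0 ≤ C k)
    (hp : ∀ j, IsProbabilityMeasure (P j))
    (h : ∀ j k, ∫⁻ t, ENNReal.ofReal (‖Z j t k‖ ^ β) ∂(P j) ≤ ENNReal.ofReal (C k)) :
    ∃ φ : ℕ → ℕ, StrictMono φ ∧ ∃ ν : Measure (ℕ → ℂ), IsProbabilityMeasure ν ∧
      ∀ F : BoundedContinuousFunction (ℕ → ℂ) ℝ,
        Tendsto (fun j => ∫ t, F (Z (φ j) t) ∂(P (φ j))) atTop (𝓝 (∫ x, F x ∂ν)) := by
  have hlp : ∀ j, IsProbabilityMeasure ((P j).map (Z j)) := fun j => by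
    have := hp j
    exact Measure.isProbabilityMeasure_map (hZ j).aemeasurable
  set μ : ℕ → ProbabilityMeasure (ℕ → ℂ) := fun j => ⟨(P j).map (Z j), hlp j⟩ with hμ
  have hcomp : IsCompact (closure (Set.range μ)) := by
    refine isCompact_closure_of_isTightMeasureSet ?_
    rw [isTightMeasureSet_iff_exists_isCompact_measure_compl_le]
    intro ε hε
    obtain ⟨δ, hδ, hδε⟩ : ∃ δ : ℝ, 0 < δ ∧ ENNReal.ofReal δ ≤ ε := by
      rcases eq_or_ne ε ⊤ with rfl | hne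
      · exact ⟨1, one_pos, le_top⟩
      · exact ⟨ε.toReal, ENNReal.toReal_pos hε.ne' hne, by rw [ENNReal.ofReal_toReal hne]⟩
    refine ⟨box fun k => ((C k + 1) * 2 ^ (k + 1) / δ) ^ (1 / β), box_compact _, ?_⟩
    rintro _ ⟨_, ⟨j, rfl⟩, rfl⟩
    exact (gen_box (hZ j) hβ hC (h j) hδ).trans hδε
  obtain ⟨ν, -, φ, hφ, hlim⟩ := hcomp.tendsto_subseq (fun j => subset_closure (Set.mem_range_self j) :
    ∀ j, μ j ∈ closure (Set.range μ))
  refine ⟨φ, hφ, ν, inferInstance, fun F => ?_⟩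
  have h1 := (ProbabilityMeasure.tendsto_iff_forall_integral_tendsto.mp hlim) F
  refine h1.congr fun j => ?_
  have h2 : ∫ x, F x ∂((P (φ j)).map (Z (φ j))) = ∫ t, F (Z (φ j) t) ∂(P (φ j)) :=
    integral_map (hZ _).aemeasurable F.continuous.aestronglyMeasurable
  exact h2

/-- lower semicontinuity of moments under convergence of laws -/
theorem moment_fatou {β : ℝ} (hβ : 0 < β) {P : ℕ → Measure ℝ} {Z : ℕ → ℝ → ℕ → ℂ}
    (hZ : ∀ j, Measurable (Z j)) (hp : ∀ j, IsProbabilityMeasure (P j))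
    {ν : Measure (ℕ → ℂ)} [IsProbabilityMeasure ν]
    (hlim : ∀ F : BoundedContinuousFunction (ℕ → ℂ) ℝ,
      Tendsto (fun j => ∫ t, F (Z j t) ∂(P j)) atTop (𝓝 (∫ x, F x ∂ν)))
    {g : (ℕ → ℂ) → ℂ} (hg : Continuous g) {C : ℝ} (hC : 0 ≤ C)
    (h : ∀ᶠ j in atTop, ∫⁻ t, ENNReal.ofReal (‖g (Z j t)‖ ^ β) ∂(P j) ≤ ENNReal.ofReal C) :
    ∫⁻ x, ENNReal.ofReal (‖g x‖ ^ β) ∂ν ≤ ENNReal.ofReal C := by
  have hcont : Continuous fun x => ‖g x‖ ^ β := hg.norm.rpow_const fun _ => Or.inr hβ.le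
  -- truncation
  have hM : ∀ M : ℕ, ∫⁻ x, ENNReal.ofReal (min (‖g x‖ ^ β) M) ∂ν ≤ ENNReal.ofReal C := by
    intro M
    have hcM : Continuous fun x => min (‖g x‖ ^ β) (M : ℝ) := hcont.min continuous_const
    set F : BoundedContinuousFunction (ℕ → ℂ) ℝ := BoundedContinuousFunction.ofNormedAddCommGroup
      (fun x => min (‖g x‖ ^ β) (M : ℝ)) hcM M (fun x => by
        rw [Real.norm_of_nonneg (by positivity)]
        exact min_le_right _ _) with hF
    have hFv : ∀ x, F x = min (‖g x‖ ^ β) (M : ℝ) := fun x => rfl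
    have h1 : ∀ᶠ j in atTop, ∫ t, F (Z j t) ∂(P j) ≤ C := by
      filter_upwards [h] with j hj
      have hpj := hp j
      have hFm : AEStronglyMeasurable (fun t => F (Z j t)) (P j) :=
        (F.continuous.measurable.comp (hZ j)).aestronglyMeasurable
      have hF0 : 0 ≤ᵐ[P j] fun t => F (Z j t) := Eventually.of_forall fun t => by
        show 0 ≤ F (Z j t)
        rw [hFv]; positivity
      rw [integral_eq_lintegral_of_nonneg_ae hF0 hFm]
      refine ENNReal.toReal_le_of_le_ofReal hC (le_trans (lintegral_mono fun t => ?_) hj)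
      rw [hFv]
      exact ENNReal.ofReal_le_ofReal (min_le_left _ _)
    have h2 := le_of_tendsto (hlim F) h1
    have h3 := ofReal_integral_eq_lintegral_ofReal (F.integrable ν) (Eventually.of_forall fun x => by
      show 0 ≤ F x
      rw [hFv]; positivity)
    have h4 : ∫⁻ x, ENNReal.ofReal (min (‖g x‖ ^ β) (M : ℝ)) ∂ν = ∫⁻ x, ENNReal.ofReal (F x) ∂ν := by
      refine lintegral_congr fun x => by rw [hFv]
    rw [h4, ← h3]
    exact ENNReal.ofReal_le_ofReal h2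
  -- monotone convergence
  have hsup : ∀ x, ⨆ M : ℕ, ENNReal.ofReal (min (‖g x‖ ^ β) M) = ENNReal.ofReal (‖g x‖ ^ β) := by
    intro x
    refine le_antisymm (iSup_le fun M => ENNReal.ofReal_le_ofReal (min_le_left _ _)) ?_
    obtain ⟨M, hM'⟩ := exists_nat_ge (‖g x‖ ^ β)
    refine le_iSup_of_le M (ENNReal.ofReal_le_ofReal (le_min le_rfl hM'))
  calc ∫⁻ x, ENNReal.ofReal (‖g x‖ ^ β) ∂ν
      = ∫⁻ x, ⨆ M : ℕ, ENNReal.ofReal (min (‖g x‖ ^ β) M) ∂ν := by simp_rw [hsup]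
    _ = ⨆ M : ℕ, ∫⁻ x, ENNReal.ofReal (min (‖g x‖ ^ β) M) ∂ν := by
        refine lintegral_iSup (fun M => (hcont.min continuous_const).measurable.ennreal_ofReal) ?_
        intro a b hab x
        exact ENNReal.ofReal_le_ofReal (min_le_min le_rfl (by exact_mod_cast hab))
    _ ≤ ENNReal.ofReal C := iSup_le hM

end

end Run7.h563.LS
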