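import Pool.Agent.Run7.h563.LS.K

set_option autoImplicit false

/-!
# Moving the base point by a distance of the order of the mean spacing
-/

namespace Run7.h563.LS

open Complex MeasureTheory Filter Topology Set Q97.RB Q97.MM

noncomputable section

theorem zeta_diff_ball (t : ℝ) {r : ℝ} (hr : r ≤ 1 / 4) :
    DifferentiableOn ℂ riemannZeta (Metric.ball (sp t) r) := fun z hz => by
  have h0 : z ≠ 1 := by
    rintro rfl
    rw [Metric.mem_ball, dist_eq_norm] at hz
    have h1 := Complex.abs_re_le_norm (1 - sp t)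
    have h2 : (1 - sp t).re = 1 / 2 := by rw [sp]; simp; norm_num
    rw [h2, abs_of_pos (by norm_num)] at h1
    linarith
  exact (differentiableAt_riemannZeta h0).differentiableWithinAt

theorem iter_diff_ball (t : ℝ) {r : ℝ} (hr : r ≤ 1 / 4) (k : ℕ) :
    DifferentiableOn ℂ (iteratedDeriv k riemannZeta) (Metric.ball (sp t) r) := by
  induction k with
  | zero => rw [iteratedDeriv_zero]; exact zeta_diff_ball t hr
  | succ k ih => rw [iteratedDeriv_succ]; exact ih.deriv Metric.isOpen_ball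

theorem iter_iter (f : ℂ → ℂ) (m k : ℕ) :
    iteratedDeriv m (iteratedDeriv k f) = iteratedDeriv (k + m) f := by
  rw [iteratedDeriv_eq_iterate, iteratedDeriv_eq_iterate, iteratedDeriv_eq_iterate, add_comm k m,
    Function.iterate_add_apply]

theorem cauchy_n {r S t : ℝ} (hr0 : 0 < r) (hr : r ≤ 1 / 16)
    (hS : ∀ z ∈ Metric.closedBall (0 : ℂ) r, ‖riemannZeta (sp t + z)‖ ≤ S) (n : ℕ) :
    ‖iteratedDeriv n riemannZeta (sp t)‖ ≤ n.factorial * S / r ^ n := by
  refine Complex.norm_iteratedDeriv_le_of_forall_mem_sphere_norm_le n hr0 ?_ fun z hz => ?_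
  · apply DifferentiableOn.diffContOnCl
    rw [closure_ball _ hr0.ne']
    refine (zeta_diff_ball t (r := 1 / 4) le_rfl).mono fun z hz => ?_
    rw [Metric.mem_closedBall] at hz
    rw [Metric.mem_ball]
    linarith
  · have := hS (z - sp t) (by
      rw [Metric.mem_closedBall, dist_zero_right]
      rw [mem_sphere_iff_norm] at hz
      exact hz.le)
    rw [add_sub_cancel] at this
    exact this

theorem fact_le (m k : ℕ) : ((m + k).factorial : ℝ) ≤ 2 ^ (m + k) * (m.factorial * k.factorial) := by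
  have h1 := Nat.add_choose_mul_factorial_mul_factorial m k
  have h2 : ((m + k).choose k : ℝ) ≤ 2 ^ (m + k) := by
    exact_mod_cast Nat.choose_le_two_pow _ _
  have h3 : ((m + k).factorial : ℝ) = (m + k).choose k * (m.factorial * k.factorial) := by
    rw [← h1]
    push_cast
    ring
  rw [h3]
  exact mul_le_mul_of_nonneg_right h2 (by positivity)

/-- Taylor's formula at a microscopic distance -/
theorem rem_bd {L h ρ S t : ℝ} (hL : 0 < L) (hρ : 2 ≤ ρ) (hρh : 4 * |h| ≤ ρ) (hr : ρ / L ≤ 1 / 16)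
    (hS : ∀ z ∈ Metric.closedBall (0 : ℂ) (ρ / L), ‖riemannZeta (sp t + z)‖ ≤ S) (k N : ℕ) :
    ‖iteratedDeriv k riemannZeta (sp (t + h / L)) -
      ∑ m ∈ Finset.range N, iteratedDeriv (k + m) riemannZeta (sp t) * (((h / L : ℝ) : ℂ) * I) ^ m /
        m.factorial‖ ≤ 2 * k.factorial * (1 / 2) ^ N * L ^ k * S := by
  have hρ0 : 0 < ρ := by linarith
  have hr0 : 0 < ρ / L := by positivity
  have hS0 : 0 ≤ S := (norm_nonneg _).trans (hS 0 (Metric.mem_closedBall_self hr0.le))
  have hz : sp (t + h / L) - sp t = ((h / L : ℝ) : ℂ) * I := by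
    unfold sp
    push_cast
    ring
  have hzn : ‖((h / L : ℝ) : ℂ) * I‖ = |h| / L := by
    rw [norm_mul, Complex.norm_I, mul_one, Complex.norm_real, Real.norm_eq_abs, abs_div,
      abs_of_pos hL]
  have hmem : sp (t + h / L) ∈ Metric.ball (sp t) (1 / 4) := by
    rw [Metric.mem_ball, dist_eq_norm, hz, hzn]
    have : |h| / L ≤ ρ / L := by gcongr; linarith [abs_nonneg h]
    linarith
  have hsum := hasSum_taylorSeries_on_ball (iter_diff_ball t le_rfl k) hmem
  rw [hz] at hsum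
  have htail := (hasSum_nat_add_iff' N).mpr hsum
  have hb : ∀ m : ℕ, ‖((m + N).factorial : ℂ)⁻¹ • (((h / L : ℝ) : ℂ) * I) ^ (m + N) •
      iteratedDeriv (m + N) (iteratedDeriv k riemannZeta) (sp t)‖ ≤
      (k.factorial * L ^ k * S * (1 / 2) ^ N) * (1 / 2) ^ m := by
    intro m
    obtain ⟨n, hn⟩ : ∃ n, n = m + N := ⟨_, rfl⟩
    rw [← hn, norm_smul, norm_smul, norm_inv, norm_pow, hzn, Complex.norm_natCast, iter_iter]
    have h1 := cauchy_n hr0 hr hS (k + n)
    have h2 : ((k + n).factorial : ℝ) ≤ 2 ^ (k + n) * (k.factorial * n.factorial) := fact_le k n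
    have hn0 : (0 : ℝ) < n.factorial := by positivity
    calc (n.factorial : ℝ)⁻¹ * ((|h| / L) ^ n * ‖iteratedDeriv (k + n) riemannZeta (sp t)‖)
        ≤ (n.factorial : ℝ)⁻¹ * ((|h| / L) ^ n * ((2 ^ (k + n) * (k.factorial * n.factorial)) * S /
          (ρ / L) ^ (k + n))) := by
          refine mul_le_mul_of_nonneg_left (mul_le_mul_of_nonneg_left (h1.trans ?_) (by positivity))
            (by positivity)
          gcongr
      _ = (k.factorial * L ^ k * S) * ((2 / ρ) ^ k * (2 * |h| / ρ) ^ n) := by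
          rw [div_pow, div_pow, div_pow, div_pow, mul_pow, pow_add 2 k n, pow_add ρ k n,
            pow_add L k n]
          field_simp
      _ ≤ (k.factorial * L ^ k * S) * (1 * (1 / 2) ^ n) := by
          refine mul_le_mul_of_nonneg_left ?_ (by positivity)
          refine mul_le_mul ?_ ?_ (by positivity) (by positivity)
          · exact pow_le_one₀ (by positivity) (by rw [div_le_one hρ0]; exact hρ)
          · refine pow_le_pow_left₀ (by positivity) ?_ n
            rw [div_le_div_iff₀ hρ0 (by norm_num)]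
            linarith
      _ = _ := by rw [hn, pow_add]; ring
  have hg : HasSum (fun m : ℕ => (k.factorial * L ^ k * S * (1 / 2) ^ N) * (1 / 2 : ℝ) ^ m)
      ((k.factorial * L ^ k * S * (1 / 2) ^ N) * 2) := hasSum_geometric_two.mul_left _
  have h3 := tsum_of_norm_bounded hg hb
  rw [htail.tsum_eq] at h3
  have h4 : ∑ m ∈ Finset.range N, iteratedDeriv (k + m) riemannZeta (sp t) * (((h / L : ℝ) : ℂ) * I) ^ m /
        m.factorial = ∑ i ∈ Finset.range N, (i.factorial : ℂ)⁻¹ • (((h / L : ℝ) : ℂ) * I) ^ i •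
        iteratedDeriv i (iteratedDeriv k riemannZeta) (sp t) := by
    refine Finset.sum_congr rfl fun i _ => ?_
    rw [iter_iter, smul_eq_mul, smul_eq_mul]
    ring
  rw [h4]
  refine h3.trans (le_of_eq ?_)
  ring

/-- the normalised derivatives at the moved point, relative to the value at the old one -/
def YN (L h t : ℝ) (k : ℕ) : ℂ :=
  iteratedDeriv k riemannZeta (sp (t + h / L)) / (riemannZeta (sp t) * (L : ℂ) ^ k)

/-- partial sums of the Taylor series at `i h` -/
def DN (h : ℝ) (N : ℕ) (x : ℕ → ℂ) (k : ℕ) : ℂ :=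
  ∑ m ∈ Finset.range N, x (k + m) * ((h : ℂ) * I) ^ m / m.factorial

theorem YN_meas (L h : ℝ) : Measurable (YN L h) := by
  rw [measurable_pi_iff]
  intro k
  unfold YN
  have h1 : Measurable fun t : ℝ => sp (t + h / L) := sp_cont.measurable.comp (by fun_prop)
  exact ((iter_measurable k).comp h1).div ((zeta_measurable.comp sp_cont.measurable).mul_const _)

theorem YN_sub (L h t : ℝ) (k N : ℕ) : YN L h t k - DN h N (XN L t) k =
    (iteratedDeriv k riemannZeta (sp (t + h / L)) -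
      ∑ m ∈ Finset.range N, iteratedDeriv (k + m) riemannZeta (sp t) * (((h / L : ℝ) : ℂ) * I) ^ m /
        m.factorial) / (riemannZeta (sp t) * (L : ℂ) ^ k) := by
  unfold YN DN XN
  rw [sub_div, Finset.sum_div]
  congr 1
  refine Finset.sum_congr rfl fun m _ => ?_
  push_cast
  rw [pow_add, mul_pow, mul_pow, div_pow]
  ring

theorem XN_move {L h t : ℝ} (hz : riemannZeta (sp t) ≠ 0) (k : ℕ) :
    XN L (t + h / L) k = YN L h t k / YN L h t 0 := by
  unfold XN YN
  rw [iteratedDeriv_zero, pow_zero, mul_one]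
  rcases eq_or_ne (riemannZeta (sp (t + h / L))) 0 with h0 | h0
  · rw [h0]; simp
  · field_simp

/-- the maximum is attained -/
theorem max_att (t : ℝ) {r : ℝ} (hr0 : 0 ≤ r) (hr : r ≤ 1 / 16) :
    ∃ z₀ ∈ Metric.closedBall (0 : ℂ) r, ∀ z ∈ Metric.closedBall (0 : ℂ) r,
      ‖riemannZeta (sp t + z)‖ ≤ ‖riemannZeta (sp t + z₀)‖ := by
  have hc : ContinuousOn (fun z => ‖riemannZeta (sp t + z)‖) (Metric.closedBall (0 : ℂ) r) := by
    refine ContinuousOn.norm ?_
    refine (zeta_diff_ball t (r := 1 / 4) le_rfl).continuousOn.comp (by fun_prop) fun z hz => ?_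
    rw [Metric.mem_closedBall, dist_zero_right] at hz
    rw [Metric.mem_ball, dist_eq_norm, add_sub_cancel_left]
    linarith
  obtain ⟨z₀, hz₀, hmax⟩ := (isCompact_closedBall (0 : ℂ) r).exists_isMaxOn
    ⟨0, Metric.mem_closedBall_self hr0⟩ hc
  exact ⟨z₀, hz₀, fun z hz => hmax hz⟩

/-- the constant in the comparison of the two families of derivatives -/
def MY (β h : ℝ) (k N : ℕ) : ℝ :=
  (2 * k.factorial * (1 / 2) ^ N) ^ β * (2 * (4 * |h| + 3) ^ 2 * Real.exp ((β + 1) * (4 * |h| + 3)))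

theorem MY_nonneg (β h : ℝ) (k N : ℕ) : 0 ≤ MY β h k N := by unfold MY; positivity

theorem EY {β : ℝ} (hβ : 0 < β) (h : ℝ) : ∃ B T₀ : ℝ, 1 ≤ B ∧ 200 ≤ T₀ ∧
    ∀ T Δ : ℝ, T₀ ≤ T → 0 < Δ → B ≤ Δ ^ 2 * Real.log T → Δ ≤ T / (2 * Real.log T) →
    0 < JB β T Δ (1 / 2) ∧ ∀ k N : ℕ,
    ∫⁻ t, ENNReal.ofReal (‖YN (Real.log T) h t k - DN h N (XN (Real.log T) t) k‖ ^ β) ∂(PM β T Δ) ≤
      ENNReal.ofReal (MY β h k N) := by
  obtain ⟨B₁, T₁, hB₁, hT₁, h₁⟩ := EX' (β := β) (κ := 1) (ε := 1) hβ one_pos one_pos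
  obtain ⟨B₂, T₂, hB₂, hT₂, h₂⟩ := sup_zeta (β := β) (κ := 1) (ε := 1) hβ one_pos one_pos
  set ρ : ℝ := 4 * |h| + 2 with hρ
  have hρ2 : 2 ≤ ρ := by rw [hρ]; linarith [abs_nonneg h]
  have hρ0 : 0 < ρ := by linarith
  refine ⟨max B₁ B₂, max (max T₁ T₂) (Real.exp (16 * ρ)), hB₁.trans (le_max_left _ _),
    hT₁.trans ((le_max_left _ _).trans (le_max_left _ _)), fun T Δ hT hΔ hB hΔT => ?_⟩
  have hTT1 : T₁ ≤ T := (le_max_left _ _).trans ((le_max_left _ _).trans hT)
  have hTT2 : T₂ ≤ T := (le_max_right _ _).trans ((le_max_left _ _).trans hT)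
  have hTe : Real.exp (16 * ρ) ≤ T := (le_max_right _ _).trans hT
  have hT3 : 3 ≤ T := by linarith
  have hT0 : 0 < T := by linarith
  have hlog := log_ge_one hT3
  have hL0 : 0 < Real.log T := by linarith
  have hL16 : 16 * ρ ≤ Real.log T := (Real.le_log_iff_exp_le hT0).mpr hTe
  have hJ := (h₁ T Δ hTT1 hΔ ((le_max_left _ _).trans hB) hΔT).1
  refine ⟨hJ, fun k N => ?_⟩
  have hΔT' : Δ ≤ T / Real.log T := hΔT.trans (by gcongr; linarith)
  have h3 := h₂ T Δ hTT2 hΔ ((le_max_right _ _).trans hB) hΔT' ρ 1 hρ0 one_pos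
    (by rw [le_div_iff₀ (by norm_num)]; linarith) (by rw [le_div_iff₀ (by norm_num)]; linarith)
  set L := Real.log T with hL
  have hr0 : 0 < ρ / L := by positivity
  have hr16 : ρ / L ≤ 1 / 16 := by rw [div_le_iff₀ hL0]; linarith
  have hm : Measurable (fun t => ENNReal.ofReal (‖YN L h t k - DN h N (XN L t) k‖ ^ β)) := by
    have h4 : Measurable fun t => DN h N (XN L t) k := by
      unfold DN
      refine Finset.measurable_sum _ fun m _ => ?_
      exact (((measurable_pi_iff.mp (XN_meas L) (k + m)).mul_const _)).div_const _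
    exact ((((measurable_pi_iff.mp (YN_meas L h) k).sub h4).norm).pow_const β).ennreal_ofReal
  have hd : Measurable (fun t => ENNReal.ofReal (dn β T Δ t)) := (dn_cont hβ T Δ).measurable.ennreal_ofReal
  unfold PM
  rw [lintegral_withDensity_eq_lintegral_mul _ hd hm]
  set c : ℝ := (2 * k.factorial * (1 / 2) ^ N) ^ β * (JB β T Δ (1 / 2))⁻¹ with hc
  have hc0 : 0 ≤ c := by positivity
  have hpt : ∀ t : ℝ, ((fun t => ENNReal.ofReal (dn β T Δ t)) *
      fun t => ENNReal.ofReal (‖YN L h t k - DN h N (XN L t) k‖ ^ β)) t ≤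
      ENNReal.ofReal c * ⨆ z ∈ Metric.closedBall (0 : ℂ) (ρ / L),
        ENNReal.ofReal (‖riemannZeta (((1 / 2 : ℝ) : ℂ) + t * I + z)‖ ^ β * wt T Δ t) := by
    intro t
    obtain ⟨z₀, hz₀, hmax⟩ := max_att t hr0.le hr16
    refine le_trans ?_ (mul_le_mul' le_rfl (le_iSup₂ (f := fun z (_ : z ∈ Metric.closedBall (0 : ℂ) (ρ / L)) =>
      ENNReal.ofReal (‖riemannZeta (((1 / 2 : ℝ) : ℂ) + t * I + z)‖ ^ β * wt T Δ t)) z₀ hz₀))
    rw [Pi.mul_apply, ← ENNReal.ofReal_mul (dn_nonneg _ _ _ _), ← ENNReal.ofReal_mul hc0]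
    apply ENNReal.ofReal_le_ofReal
    have hw := wt_pos T Δ t
    have hrem := rem_bd (h := h) hL0 hρ2 (by rw [hρ]; linarith) hr16 hmax k N
    rw [YN_sub]
    set R := iteratedDeriv k riemannZeta (sp (t + h / L)) -
      ∑ m ∈ Finset.range N, iteratedDeriv (k + m) riemannZeta (sp t) * (((h / L : ℝ) : ℂ) * I) ^ m /
        m.factorial with hR
    have hsp : ((1 / 2 : ℝ) : ℂ) + t * I + z₀ = sp t + z₀ := rfl
    rw [hsp]
    set S := ‖riemannZeta (sp t + z₀)‖ with hS
    have hS0 : 0 ≤ S := norm_nonneg _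
    unfold dn
    rcases eq_or_ne (riemannZeta (sp t)) 0 with h0 | h0
    · rw [h0, norm_zero, Real.zero_rpow hβ.ne']
      simp only [zero_mul, zero_div]
      positivity
    · have hz : 0 < ‖riemannZeta (sp t)‖ := norm_pos_iff.mpr h0
      have hzb : 0 < ‖riemannZeta (sp t)‖ ^ β := by positivity
      have hRb : ‖R / (riemannZeta (sp t) * (L : ℂ) ^ k)‖ ≤
          2 * k.factorial * (1 / 2) ^ N * S / ‖riemannZeta (sp t)‖ := by
        rw [norm_div, norm_mul, norm_pow, Complex.norm_real, Real.norm_of_nonneg hL0.le]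
        rw [div_le_div_iff₀ (by positivity) hz]
        calc ‖R‖ * ‖riemannZeta (sp t)‖ ≤ (2 * k.factorial * (1 / 2) ^ N * L ^ k * S) *
              ‖riemannZeta (sp t)‖ := by gcongr
          _ = _ := by ring
      have hRb2 : ‖R / (riemannZeta (sp t) * (L : ℂ) ^ k)‖ ^ β ≤
          (2 * k.factorial * (1 / 2) ^ N) ^ β * S ^ β / ‖riemannZeta (sp t)‖ ^ β := by
        refine (Real.rpow_le_rpow (norm_nonneg _) hRb hβ.le).trans (le_of_eq ?_)
        rw [Real.div_rpow (by positivity) hz.le, Real.mul_rpow (by positivity) hS0]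
      calc ‖riemannZeta (sp t)‖ ^ β * wt T Δ t / JB β T Δ (1 / 2) *
            ‖R / (riemannZeta (sp t) * (L : ℂ) ^ k)‖ ^ β
          ≤ ‖riemannZeta (sp t)‖ ^ β * wt T Δ t / JB β T Δ (1 / 2) *
            ((2 * k.factorial * (1 / 2) ^ N) ^ β * S ^ β / ‖riemannZeta (sp t)‖ ^ β) :=
            mul_le_mul_of_nonneg_left hRb2 (by positivity)
        _ = c * (S ^ β * wt T Δ t) := by
            rw [hc]
            field_simp
  refine (lintegral_mono hpt).trans ?_
  rw [lintegral_const_mul' _ _ ENNReal.ofReal_ne_top]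
  refine (mul_le_mul' le_rfl h3).trans ?_
  rw [← ENNReal.ofReal_mul hc0]
  apply ENNReal.ofReal_le_ofReal
  apply le_of_eq
  have e1 : ρ + 1 = 4 * |h| + 3 := by rw [hρ]; ring
  unfold MY
  rw [hc, e1, div_one]
  field_simp
  ring

end

end Run7.h563.LS
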