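import Pool.Agent.Run7.h563.LS.L

set_option autoImplicit false

/-!
# Moving the base point: the moment measures are nearly invariant
-/

namespace Run7.h563.LS

open Complex MeasureTheory Filter Topology Set Q97.RB Q97.MM

noncomputable section

theorem shift_ineq {β ε : ℝ} (hβ : 0 < β) (hε : 0 < ε) (h : ℝ) : ∃ B T₀ : ℝ, 1 ≤ B ∧ 200 ≤ T₀ ∧
    ∀ T Δ : ℝ, T₀ ≤ T → 0 < Δ → B ≤ Δ ^ 2 * Real.log T → Δ ≤ T / (2 * Real.log T) →
    ∀ G : ℝ → ℝ, Measurable G → (∀ t, 0 ≤ G t) → (∀ t, G t ≤ 1) →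
    ∫⁻ t : ℝ, ENNReal.ofReal (‖riemannZeta (sp (t + h / Real.log T))‖ ^ β * G (t + h / Real.log T) *
        wt T Δ t) ≤
      ENNReal.ofReal (1 + ε) * (∫⁻ t : ℝ, ENNReal.ofReal (‖riemannZeta (sp t)‖ ^ β * G t * wt T Δ t)) +
      ENNReal.ofReal (ε * JB β T Δ (1 / 2)) := by
  set ε₁ : ℝ := min 1 (ε / 2) with hε₁
  have hε₁0 : 0 < ε₁ := by positivity
  have hε₁1 : ε₁ ≤ 1 := min_le_left _ _
  have hε₁2 : ε₁ ≤ ε / 2 := min_le_right _ _
  obtain ⟨n, hn⟩ := exists_nat_ge β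
  obtain ⟨T₁, hT₁⟩ := PB_le_JB hβ hε₁0
  obtain ⟨T₃, hT₃⟩ := far_sup hβ hε₁0 hn
  set K : ℝ := √(2 * (3 * n + 5)) with hK
  have hK0 : 0 < K := Real.sqrt_pos.mpr (by positivity)
  set ρ : ℝ := |h| + 1 with hρ
  have hρ0 : 0 < ρ := by positivity
  set κ : ℝ := 2 * Real.log (1 + ε) / ρ with hκ
  have hlog0 : 0 < Real.log (1 + ε) := Real.log_pos (by linarith)
  have hκ0 : 0 < κ := by positivity
  have hκρ : Real.exp (κ * ρ / 2) = 1 + ε := by
    have : κ * ρ / 2 = Real.log (1 + ε) := by rw [hκ]; field_simp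
    rw [this, Real.exp_log (by linarith)]
  refine ⟨max 1 (max ((8 * K / κ) ^ 2) (1 / (4 * κ))),
    max (max T₁ T₃) (max 200 (Real.exp (16 * ρ))), le_max_left _ _,
    (le_max_left _ _).trans (le_max_right _ _), fun T Δ hT hΔ hB hΔT G hG hG0 hG1 => ?_⟩
  have hTT1 : T₁ ≤ T := (le_max_left _ _).trans ((le_max_left _ _).trans hT)
  have hTT3 : T₃ ≤ T := (le_max_right _ _).trans ((le_max_left _ _).trans hT)
  have hT200 : 200 ≤ T := (le_max_left _ _).trans ((le_max_right _ _).trans hT)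
  have hTe : Real.exp (16 * ρ) ≤ T := (le_max_right _ _).trans ((le_max_right _ _).trans hT)
  have hB1 : 1 ≤ Δ ^ 2 * Real.log T := (le_max_left _ _).trans hB
  have hB2 : (8 * K / κ) ^ 2 ≤ Δ ^ 2 * Real.log T := (le_max_left _ _).trans ((le_max_right _ _).trans hB)
  have hB3 : 1 / (4 * κ) ≤ Δ ^ 2 * Real.log T := (le_max_right _ _).trans ((le_max_right _ _).trans hB)
  have hT3 : 3 ≤ T := by linarith
  have hT0 : 0 < T := by linarith
  have hlog := log_ge_one hT3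
  have hL0 : 0 < Real.log T := by linarith
  have hL16 : 16 * ρ ≤ Real.log T := (Real.le_log_iff_exp_le hT0).mpr hTe
  have hΔT' : Δ ≤ T / Real.log T := hΔT.trans (by gcongr; linarith)
  have hΔT'' : Δ ≤ T := hΔT'.trans (div_le_self hT0.le hlog)
  have hPJ := hT₁ T Δ hTT1 hΔ hB1 hΔT'
  set L := Real.log T with hL
  have hr16 : ρ / L ≤ 1 / 16 := by rw [div_le_iff₀ hL0]; linarith
  have hfar := hT₃ T Δ hTT3 hT3 hΔ hB1 hΔT'' (ρ / L) hr16
  have hJ0 := JB_nonneg β T Δ (1 / 2)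
  have hh : |h / L| ≤ ρ / L := by
    rw [abs_div, abs_of_pos hL0]
    exact div_le_div_of_nonneg_right (by rw [hρ]; linarith) hL0.le
  set N : Set ℝ := {y : ℝ | |(y - T) / Δ| ≤ K * √L} with hN
  have hms : MeasurableSet N := measurableSet_le (by fun_prop) measurable_const
  rw [← lintegral_add_compl _ hms]
  refine add_le_add ?_ ?_
  · have hpt : ∀ t ∈ N, ENNReal.ofReal (‖riemannZeta (sp (t + h / L))‖ ^ β * G (t + h / L) * wt T Δ t) ≤
        ENNReal.ofReal (1 + ε) * ENNReal.ofReal (‖riemannZeta (sp (t + h / L))‖ ^ β * G (t + h / L) *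
          wt T Δ (t + h / L)) := by
      intro t ht
      rw [← ENNReal.ofReal_mul (by positivity)]
      apply ENNReal.ofReal_le_ofReal
      have h1 := wt_shift hκ0 hρ0 hK0 hΔ hL0 rfl hr16 hB2 hB3 ht hh
      rw [hκρ] at h1
      have h2 : 0 ≤ ‖riemannZeta (sp (t + h / L))‖ ^ β * G (t + h / L) :=
        mul_nonneg (by positivity) (hG0 _)
      calc _ ≤ ‖riemannZeta (sp (t + h / L))‖ ^ β * G (t + h / L) * ((1 + ε) * wt T Δ (t + h / L)) :=
            mul_le_mul_of_nonneg_left h1 h2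
        _ = _ := by ring
    refine (setLIntegral_mono' hms hpt).trans ?_
    refine (setLIntegral_le_lintegral _ _).trans ?_
    rw [lintegral_const_mul' _ _ ENNReal.ofReal_ne_top]
    refine le_of_eq ?_
    congr 1
    exact lintegral_add_right_eq_self (μ := volume)
      (fun t => ENNReal.ofReal (‖riemannZeta (sp t)‖ ^ β * G t * wt T Δ t)) (h / L)
  · have hpt : ∀ t : ℝ, ENNReal.ofReal (‖riemannZeta (sp (t + h / L))‖ ^ β * G (t + h / L) * wt T Δ t) ≤
        ⨆ z ∈ Metric.closedBall (0 : ℂ) (ρ / L),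
        ENNReal.ofReal (‖riemannZeta (((1 / 2 : ℝ) : ℂ) + t * I + z)‖ ^ β * wt T Δ t) := by
      intro t
      have hmem : ((h / L : ℝ) : ℂ) * I ∈ Metric.closedBall (0 : ℂ) (ρ / L) := by
        rw [Metric.mem_closedBall, dist_zero_right, norm_mul, Complex.norm_I, mul_one,
          Complex.norm_real, Real.norm_eq_abs]
        exact hh
      refine le_trans ?_ (le_iSup₂ (f := fun z (_ : z ∈ Metric.closedBall (0 : ℂ) (ρ / L)) =>
        ENNReal.ofReal (‖riemannZeta (((1 / 2 : ℝ) : ℂ) + t * I + z)‖ ^ β * wt T Δ t)) _ hmem)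
      apply ENNReal.ofReal_le_ofReal
      have e1 : ((1 / 2 : ℝ) : ℂ) + t * I + ((h / L : ℝ) : ℂ) * I = sp (t + h / L) := by
        unfold sp; push_cast; ring
      rw [e1]
      refine mul_le_mul_of_nonneg_right ?_ (wt_pos _ _ _).le
      exact mul_le_of_le_one_right (by positivity) (hG1 _)
    refine (lintegral_mono fun t => hpt t).trans (hfar.trans ?_)
    apply ENNReal.ofReal_le_ofReal
    have hTP : T ^ (-β) * PB β T Δ (1 / 2) ≤ (1 + ε₁) * JB β T Δ (1 / 2) := by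
      calc T ^ (-β) * PB β T Δ (1 / 2) ≤ T ^ (-β) * ((1 + ε₁) * T ^ β * JB β T Δ (1 / 2)) :=
            mul_le_mul_of_nonneg_left hPJ (by positivity)
        _ = (T ^ (-β) * T ^ β) * ((1 + ε₁) * JB β T Δ (1 / 2)) := by ring
        _ = _ := by rw [← Real.rpow_add hT0, neg_add_cancel, Real.rpow_zero, one_mul]
    calc ε₁ * (T ^ (-β) * PB β T Δ (1 / 2)) ≤ ε₁ * ((1 + ε₁) * JB β T Δ (1 / 2)) :=
          mul_le_mul_of_nonneg_left hTP hε₁0.le
      _ = (ε₁ * (1 + ε₁)) * JB β T Δ (1 / 2) := by ring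
      _ ≤ ε * JB β T Δ (1 / 2) := by
          refine mul_le_mul_of_nonneg_right ?_ hJ0
          nlinarith

end

end Run7.h563.LS
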