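import Pool.Agent.Run7.h563.LS.M

set_option autoImplicit false

/-!
# Limits of the laws of the normalised derivatives
-/

namespace Run7.h563.LS

open Complex MeasureTheory Filter Topology Set Q97.RB Q97.MM

noncomputable section

/-- windows: the centre tends to infinity, the width is long compared with the square root of the
mean spacing of the zeros and at most `T / (2 log T)` -/
structure Win (T Δ : ℕ → ℝ) : Prop where
  hT : Tendsto T atTop atTop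
  hΔ : ∀ i, 0 < Δ i
  hB : Tendsto (fun j => Δ j ^ 2 * Real.log (T j)) atTop atTop
  hΔT : ∀ᶠ j in atTop, Δ j ≤ T j / (2 * Real.log (T j))

theorem Win.sub {T Δ : ℕ → ℝ} (h : Win T Δ) {φ : ℕ → ℕ} (hφ : Tendsto φ atTop atTop) :
    Win (fun j => T (φ j)) (fun j => Δ (φ j)) :=
  ⟨h.hT.comp hφ, fun j => h.hΔ _, h.hB.comp hφ, hφ.eventually h.hΔT⟩

/-- convergence of the laws of the normalised derivatives -/
def Lim (β : ℝ) (T Δ : ℕ → ℝ) (ν : Measure (ℕ → ℂ)) : Prop :=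
  ∀ F : BoundedContinuousFunction (ℕ → ℂ) ℝ,
    Tendsto (fun j => ∫ t, F (XN (Real.log (T j)) t) ∂(PM β (T j) (Δ j))) atTop (𝓝 (∫ x, F x ∂ν))

theorem Lim.sub {β : ℝ} {T Δ : ℕ → ℝ} {ν : Measure (ℕ → ℂ)} (h : Lim β T Δ ν) {φ : ℕ → ℕ}
    (hφ : Tendsto φ atTop atTop) : Lim β (fun j => T (φ j)) (fun j => Δ (φ j)) ν :=
  fun F => (h F).comp hφ

theorem MC_nonneg {β κ ε ρ σ : ℝ} (hε : 0 ≤ ε) (hρ : 0 ≤ ρ) (k : ℕ) : 0 ≤ MC β κ ε ρ σ k := by
  unfold MC; positivity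

theorem Win.ev {T Δ : ℕ → ℝ} (h : Win T Δ) {B T₀ : ℝ} :
    ∀ᶠ j in atTop, T₀ ≤ T j ∧ 0 < Δ j ∧ B ≤ Δ j ^ 2 * Real.log (T j) ∧
      Δ j ≤ T j / (2 * Real.log (T j)) := by
  filter_upwards [h.hT.eventually_ge_atTop T₀, h.hB.eventually_ge_atTop B, h.hΔT] with j h1 h2 h3
  exact ⟨h1, h.hΔ j, h2, h3⟩

theorem Win.prob {β : ℝ} (hβ : 0 < β) {T Δ : ℕ → ℝ} (h : Win T Δ) :
    ∀ᶠ j in atTop, 0 < JB β (T j) (Δ j) (1 / 2) ∧ IsProbabilityMeasure (PM β (T j) (Δ j)) := by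
  obtain ⟨B, T₀, -, hT₀, h₁⟩ := EX' (β := β) (κ := 1) (ε := 1) hβ one_pos one_pos
  filter_upwards [h.ev (B := B) (T₀ := T₀)] with j hj
  obtain ⟨h1, h2, h3, h4⟩ := hj
  have hJ := (h₁ _ _ h1 h2 h3 h4).1
  have hT3 : 3 ≤ T j := by linarith
  have hlog := log_ge_one hT3
  refine ⟨hJ, PM_prob hβ h2 (by linarith) (h4.trans ?_) hJ⟩
  exact div_le_self (by linarith) (by linarith)

theorem Win.EX {β κ ε ρ σ : ℝ} (hβ : 0 < β) (hκ : 0 < κ) (hε : 0 < ε) (hρ : 0 < ρ) (hσ : 0 < σ)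
    {T Δ : ℕ → ℝ} (h : Win T Δ) :
    ∀ᶠ j in atTop, ∀ k : ℕ,
      ∫⁻ t, ENNReal.ofReal (‖XN (Real.log (T j)) t k‖ ^ β) ∂(PM β (T j) (Δ j)) ≤
        ENNReal.ofReal (MC β κ ε ρ σ k) := by
  obtain ⟨B, T₀, -, hT₀, h₁⟩ := EX' hβ hκ hε
  filter_upwards [h.ev (B := B) (T₀ := max T₀ (Real.exp (16 * (ρ + σ))))] with j hj
  obtain ⟨h1, h2, h3, h4⟩ := hj
  have hT0 : T₀ ≤ T j := (le_max_left _ _).trans h1
  have hTp : 0 < T j := by linarith
  have hL : 16 * (ρ + σ) ≤ Real.log (T j) :=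
    (Real.le_log_iff_exp_le hTp).mpr ((le_max_right _ _).trans h1)
  exact (h₁ _ _ hT0 h2 h3 h4).2 ρ σ hρ hσ (by linarith) (by linarith)

theorem exists_lim {β : ℝ} (hβ : 0 < β) {T Δ : ℕ → ℝ} (h : Win T Δ) :
    ∃ φ : ℕ → ℕ, StrictMono φ ∧ ∃ ν : Measure (ℕ → ℂ), IsProbabilityMeasure ν ∧
      Lim β (fun j => T (φ j)) (fun j => Δ (φ j)) ν := by
  obtain ⟨j₀, hj₀⟩ := eventually_atTop.mp
    ((h.prob hβ).and (h.EX (κ := 1) (ε := 1) (ρ := 1) (σ := 1) hβ one_pos one_pos one_pos one_pos))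
  obtain ⟨φ, hφ, ν, hν, hlim⟩ := gen_subseq hβ (P := fun j => PM β (T (j + j₀)) (Δ (j + j₀)))
    (Z := fun j => XN (Real.log (T (j + j₀)))) (fun j => XN_meas _)
    (C := MC β 1 1 1 1) (fun k => MC_nonneg zero_le_one zero_le_one k)
    (fun j => (hj₀ (j + j₀) (by omega)).1.2) (fun j k => (hj₀ (j + j₀) (by omega)).2 k)
  refine ⟨fun j => φ j + j₀, fun a b hab => ?_, ν, hν, hlim⟩
  have := hφ hab
  show φ a + j₀ < φ b + j₀
  omega

/-- the same with probability measures for all indices, for `moment_fatou` -/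
theorem lim_fatou {β : ℝ} (hβ : 0 < β) {T Δ : ℕ → ℝ} (h : Win T Δ) {ν : Measure (ℕ → ℂ)}
    [IsProbabilityMeasure ν] (hl : Lim β T Δ ν) {g : (ℕ → ℂ) → ℂ} (hg : Continuous g) {C : ℝ}
    (hC : 0 ≤ C)
    (hb : ∀ᶠ j in atTop, ∫⁻ t, ENNReal.ofReal (‖g (XN (Real.log (T j)) t)‖ ^ β) ∂(PM β (T j) (Δ j)) ≤
      ENNReal.ofReal C) :
    ∫⁻ x, ENNReal.ofReal (‖g x‖ ^ β) ∂ν ≤ ENNReal.ofReal C := by
  obtain ⟨j₀, hj₀⟩ := eventually_atTop.mp (h.prob hβ)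
  have hφ : Tendsto (fun j => j + j₀) atTop atTop := tendsto_add_atTop_nat j₀
  exact moment_fatou hβ (P := fun j => PM β (T (j + j₀)) (Δ (j + j₀)))
    (Z := fun j => XN (Real.log (T (j + j₀)))) (fun j => XN_meas _)
    (fun j => (hj₀ (j + j₀) (by omega)).2) (hl.sub hφ) hg hC (hφ.eventually hb)

theorem lim_zero {β : ℝ} (hβ : 0 < β) {T Δ : ℕ → ℝ} (h : Win T Δ) {ν : Measure (ℕ → ℂ)}
    [IsProbabilityMeasure ν] (hl : Lim β T Δ ν) : ∀ᵐ x ∂ν, x 0 = 1 := by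
  have h1 := lim_fatou hβ h hl (g := fun x => x 0 - 1) (by fun_prop) (le_refl (0 : ℝ))
    (Eventually.of_forall fun j => by
      set L := Real.log (T j) with hL
      have hm : Measurable (fun t => ENNReal.ofReal (‖XN L t 0 - 1‖ ^ β)) :=
        ((((measurable_pi_iff.mp (XN_meas L) 0).sub_const 1).norm).pow_const β).ennreal_ofReal
      have hd : Measurable (fun t => ENNReal.ofReal (dn β (T j) (Δ j) t)) :=
        (dn_cont hβ (T j) (Δ j)).measurable.ennreal_ofReal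
      unfold PM
      rw [lintegral_withDensity_eq_lintegral_mul _ hd hm]
      have : ∀ t : ℝ, ((fun t => ENNReal.ofReal (dn β (T j) (Δ j) t)) *
          fun t => ENNReal.ofReal (‖XN L t 0 - 1‖ ^ β)) t = 0 := by
        intro t
        rw [Pi.mul_apply]
        unfold dn XN
        rcases eq_or_ne (riemannZeta (sp t)) 0 with h0 | h0
        · rw [h0, norm_zero, Real.zero_rpow hβ.ne']
          simp
        · rw [iteratedDeriv_zero, pow_zero, mul_one, div_self h0, sub_self, norm_zero,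
            Real.zero_rpow hβ.ne']
          simp
      simp only [this, lintegral_zero]
      exact bot_le)
  rw [ENNReal.ofReal_zero, nonpos_iff_eq_zero] at h1
  have hm : Measurable (fun x : ℕ → ℂ => ENNReal.ofReal (‖x 0 - 1‖ ^ β)) := by fun_prop
  rw [lintegral_eq_zero_iff hm] at h1
  filter_upwards [h1] with x hx
  simp only [Pi.zero_apply, ENNReal.ofReal_eq_zero] at hx
  have h2 : ‖x 0 - 1‖ ^ β = 0 := le_antisymm hx (by positivity)
  have h3 := (Real.rpow_eq_zero_iff_of_nonneg (norm_nonneg _)).mp h2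
  exact sub_eq_zero.mp (norm_eq_zero.mp h3.1)

/-- moments of the coordinates under the limit law -/
theorem lim_moment {β : ℝ} (hβ : 0 < β) {T Δ : ℕ → ℝ} (h : Win T Δ) {ν : Measure (ℕ → ℂ)}
    [IsProbabilityMeasure ν] (hl : Lim β T Δ ν) {ρ σ : ℝ} (hρ : 0 < ρ) (hσ : 0 < σ) (k : ℕ) :
    ∫⁻ x, ENNReal.ofReal (‖x k‖ ^ β) ∂ν ≤ ENNReal.ofReal (MC β 0 0 ρ σ k) := by
  have h1 : ∀ n : ℕ, ∫⁻ x, ENNReal.ofReal (‖x k‖ ^ β) ∂ν ≤
      ENNReal.ofReal (MC β (1 / ((n : ℝ) + 1)) (1 / ((n : ℝ) + 1)) ρ σ k) := by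
    intro n
    have hn : (0 : ℝ) < 1 / ((n : ℝ) + 1) := by positivity
    refine lim_fatou hβ h hl (g := fun x => x k) (by fun_prop) (MC_nonneg hn.le hρ.le k) ?_
    filter_upwards [h.EX hβ hn hn hρ hσ] with j hj
    exact hj k
  have h2 : Tendsto (fun n : ℕ => ENNReal.ofReal (MC β (1 / ((n : ℝ) + 1)) (1 / ((n : ℝ) + 1)) ρ σ k))
      atTop (𝓝 (ENNReal.ofReal (MC β 0 0 ρ σ k))) := by
    refine (ENNReal.continuous_ofReal.tendsto _).comp ?_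
    have h3 : Continuous fun u : ℝ => MC β u u ρ σ k := by
      unfold MC
      fun_prop
    exact (h3.tendsto 0).comp tendsto_one_div_add_atTop_nhds_zero_nat
  exact ge_of_tendsto' h2 h1

end

end Run7.h563.LS
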