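import Pool.Agent.Run7.h563.LS.N

set_option autoImplicit false

/-!
# The functional equation in the limit
-/

namespace Run7.h563.LS

open Complex MeasureTheory Filter Topology Set Q97.RB Q97.MM

noncomputable section

theorem PM_ne {β : ℝ} (hβ : 0 < β) (T Δ : ℝ) : ∀ᵐ t ∂(PM β T Δ), riemannZeta (sp t) ≠ 0 := by
  unfold PM
  rw [ae_withDensity_iff (dn_cont hβ T Δ).measurable.ennreal_ofReal]
  refine Eventually.of_forall fun t ht h0 => ht ?_
  unfold dn
  rw [h0, norm_zero, Real.zero_rpow hβ.ne']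
  simp

theorem far_prob {β ε : ℝ} (hβ : 0 < β) (hε : 0 < ε) : ∃ T₀ : ℝ, 200 ≤ T₀ ∧ ∀ T Δ : ℝ, T₀ ≤ T → 0 < Δ →
    1 ≤ Δ ^ 2 * Real.log T → Δ ≤ T / Real.log T → 0 < JB β T Δ (1 / 2) →
    PM β T Δ {t | 1 / 2 * T < |t - T|} ≤ ENNReal.ofReal ε := by
  obtain ⟨n, hn⟩ := exists_nat_ge β
  set ε₁ : ℝ := min 1 (ε / (2 * 3 ^ β)) with hε₁
  have h3β : (0 : ℝ) < 3 ^ β := by positivity
  have hε₁0 : 0 < ε₁ := by positivity
  have hε₁1 : ε₁ ≤ 1 := min_le_left _ _
  have hε₁2 : ε₁ ≤ ε / (2 * 3 ^ β) := min_le_right _ _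
  obtain ⟨T₁, hT₁⟩ := PB_le_JB hβ hε₁0
  obtain ⟨T₂, hT₂⟩ := far_small hβ hε₁0 (show (0 : ℝ) < 1 / 2 by norm_num) n
  refine ⟨max 200 (max T₁ T₂), le_max_left _ _, fun T Δ hT hΔ h1 h2 hJ => ?_⟩
  have hT200 : 200 ≤ T := (le_max_left _ _).trans hT
  have hTT1 : T₁ ≤ T := (le_max_left _ _).trans ((le_max_right _ _).trans hT)
  have hTT2 : T₂ ≤ T := (le_max_right _ _).trans ((le_max_right _ _).trans hT)
  have hT0 : 0 < T := by linarith
  have hlog := log_ge_one (show 3 ≤ T by linarith)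
  have hΔT : Δ ≤ T := h2.trans (div_le_self hT0.le hlog)
  have ha := hT₁ T Δ hTT1 hΔ h1 h2
  have hb := hT₂ T Δ hTT2 hΔ h1 h2 (1 / 2) (by norm_num) (by norm_num)
  set S : Set ℝ := {t | 1 / 2 * T < |t - T|} with hS
  have hSm : MeasurableSet S := measurableSet_lt measurable_const (by fun_prop)
  have hPpos := PB_pos hβ hΔ T (x := 1 / 2) (by norm_num) (by norm_num)
  unfold PM
  rw [withDensity_apply _ hSm, ← ofReal_integral_eq_lintegral_ofReal
    (dn_integrable hβ hΔ hT0.le hΔT).integrableOn (Eventually.of_forall fun t => dn_nonneg _ _ _ _)]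
  apply ENNReal.ofReal_le_ofReal
  have hc : ∫ t in S, dn β T Δ t ≤ ∫ t in S, (3 ^ β / JB β T Δ (1 / 2)) *
      (‖Z1 (((1 / 2 : ℝ) : ℂ) + t * I)‖ ^ β * wt T Δ t) := by
    refine setIntegral_mono (dn_integrable hβ hΔ hT0.le hΔT).integrableOn
      ((PB_integrable hβ hΔ hT0.le hΔT (x := 1 / 2) (by norm_num) (by norm_num)).integrableOn.const_mul _) ?_
    intro t
    have hz := zeta_le_Z1 (w := ((1 / 2 : ℝ) : ℂ) + t * I) (by simp; norm_num)
    have hz2 := Real.rpow_le_rpow (norm_nonneg _) hz hβ.le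
    rw [Real.mul_rpow (by norm_num) (norm_nonneg _)] at hz2
    have hw := wt_pos T Δ t
    show ‖riemannZeta (((1 / 2 : ℝ) : ℂ) + t * I)‖ ^ β * wt T Δ t / JB β T Δ (1 / 2) ≤
      3 ^ β / JB β T Δ (1 / 2) * (‖Z1 (((1 / 2 : ℝ) : ℂ) + t * I)‖ ^ β * wt T Δ t)
    rw [div_mul_eq_mul_div]
    apply div_le_div_of_nonneg_right _ hJ.le
    rw [← mul_assoc]
    exact mul_le_mul_of_nonneg_right hz2 hw.le
  refine hc.trans ?_
  rw [integral_const_mul]
  have hTn : T ^ β ≤ T ^ n := by
    calc T ^ β ≤ T ^ (n : ℝ) := Real.rpow_le_rpow_of_exponent_le (by linarith) hn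
      _ = _ := Real.rpow_natCast _ _
  calc 3 ^ β / JB β T Δ (1 / 2) * ∫ t in S, ‖Z1 (((1 / 2 : ℝ) : ℂ) + t * I)‖ ^ β * wt T Δ t
      ≤ 3 ^ β / JB β T Δ (1 / 2) * (ε₁ * ((1 + ε₁) * T ^ β * JB β T Δ (1 / 2)) * (1 / T ^ n)) := by
        refine mul_le_mul_of_nonneg_left (hb.trans ?_) (by positivity)
        gcongr
    _ = 3 ^ β * ε₁ * (1 + ε₁) * (T ^ β / T ^ n) := by field_simp
    _ ≤ 3 ^ β * ε₁ * (1 + 1) * 1 := by
        gcongr
        rw [div_le_one (by positivity)]
        exact hTn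
    _ ≤ 3 ^ β * (ε / (2 * 3 ^ β)) * (1 + 1) * 1 := by gcongr
    _ = ε := by field_simp; norm_num

/-- the functional equation on the level of Taylor coefficients -/
def FE (k : ℕ) (x : ℕ → ℂ) : ℂ :=
  (-1) ^ k * x k - (starRingEnd ℂ) (∑ i ∈ Finset.range (k + 1), (k.choose i : ℂ) * x (k - i))

theorem FE_cont (k : ℕ) : Continuous (FE k) := by
  unfold FE
  refine Continuous.sub (by fun_prop) (Complex.continuous_conj.comp ?_)
  fun_prop

theorem FE_near {T t : ℝ} (hT : 200 ≤ T) (ht : |t - T| ≤ 1 / 2 * T) (hz : riemannZeta (sp t) ≠ 0)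
    {β : ℝ} (hβ : 0 < β) (k : ℕ) :
    ‖FE k (XN (Real.log T) t)‖ ^ β ≤
      (4 / Real.log T * Real.exp (4 / Real.log T + 1) * (k.factorial * 2 ^ k * (k + 1))) ^ β *
        ∑ i ∈ Finset.range (k + 1), ‖XN (Real.log T) t i‖ ^ β := by
  have ht' := abs_le.mp ht
  have hlog := log_ge_one (show 3 ≤ T by linarith)
  set L := Real.log T with hL
  have hL0 : 0 < L := by linarith
  have hfe := fe_XN (L := L) hL0.ne' (show 2 ≤ t by linarith) hz k
  set D := 4 / L * Real.exp (4 / L + 1) with hD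
  have hD0 : 0 < D := by positivity
  have h1 : FE k (XN L t) = (starRingEnd ℂ) (∑ i ∈ Finset.range (k + 1),
      (k.choose i : ℂ) * (bb L t i - 1) * XN L t (k - i)) := by
    unfold FE
    rw [hfe, ← map_sub, ← Finset.sum_sub_distrib]
    congr 1
    refine Finset.sum_congr rfl fun i _ => ?_
    ring
  rw [h1, RCLike.norm_conj]
  -- the largest term
  obtain ⟨i₀, hi₀, hmax⟩ := Finset.exists_max_image (Finset.range (k + 1)) (fun i => ‖XN L t i‖)
    ⟨0, Finset.mem_range.mpr (by omega)⟩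
  have h2 : ‖∑ i ∈ Finset.range (k + 1), (k.choose i : ℂ) * (bb L t i - 1) * XN L t (k - i)‖ ≤
      D * (k.factorial * 2 ^ k * (k + 1)) * ‖XN L t i₀‖ := by
    refine (norm_sum_le _ _).trans ?_
    have h3 : ∀ i ∈ Finset.range (k + 1), ‖(k.choose i : ℂ) * (bb L t i - 1) * XN L t (k - i)‖ ≤
        2 ^ k * (k.factorial * D) * ‖XN L t i₀‖ := by
      intro i hi
      have hik : i ≤ k := by have := Finset.mem_range.mp hi; omega
      rw [norm_mul, norm_mul, Complex.norm_natCast]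
      have h4 : (k.choose i : ℝ) ≤ 2 ^ k := by exact_mod_cast Nat.choose_le_two_pow _ _
      have h5 := bb_close hT (show |t - T| ≤ T / 2 by linarith) i
      have h6 : (i.factorial : ℝ) ≤ k.factorial := by exact_mod_cast Nat.factorial_le hik
      have h7 := hmax (k - i) (Finset.mem_range.mpr (by omega))
      have h8 : ‖bb L t i - 1‖ ≤ k.factorial * D := h5.trans (mul_le_mul_of_nonneg_right h6 hD0.le)
      gcongr
    refine (Finset.sum_le_sum h3).trans (le_of_eq ?_)
    rw [Finset.sum_const, Finset.card_range, nsmul_eq_mul]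
    push_cast
    ring
  refine (Real.rpow_le_rpow (norm_nonneg _) h2 hβ.le).trans ?_
  rw [Real.mul_rpow (by positivity) (norm_nonneg _)]
  refine mul_le_mul_of_nonneg_left ?_ (by positivity)
  exact Finset.single_le_sum (f := fun i => ‖XN L t i‖ ^ β) (fun i _ => by positivity) hi₀

theorem lim_FE {β : ℝ} (hβ : 0 < β) {T Δ : ℕ → ℝ} (h : Win T Δ) {ν : Measure (ℕ → ℂ)}
    [IsProbabilityMeasure ν] (hl : Lim β T Δ ν) (k : ℕ) : ∀ᵐ x ∂ν, FE k x = 0 := by
  have hcont : Continuous fun x => min (‖FE k x‖ ^ β) 1 :=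
    ((FE_cont k).norm.rpow_const fun _ => Or.inr hβ.le).min continuous_const
  set F : BoundedContinuousFunction (ℕ → ℂ) ℝ := BoundedContinuousFunction.ofNormedAddCommGroup
    (fun x => min (‖FE k x‖ ^ β) 1) hcont 1 (fun x => by
      rw [Real.norm_of_nonneg (by positivity)]
      exact min_le_right _ _) with hF
  have hFv : ∀ x, F x = min (‖FE k x‖ ^ β) 1 := fun x => rfl
  have hF0 : ∀ x, 0 ≤ F x := fun x => by rw [hFv]; positivity
  -- the constants
  set A : ℝ := ∑ i ∈ Finset.range (k + 1), MC β 1 1 1 1 i with hA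
  have hA0 : 0 ≤ A := Finset.sum_nonneg fun i _ => MC_nonneg zero_le_one zero_le_one i
  set q : ℝ → ℝ := fun L => (4 / L * Real.exp (4 / L + 1) * (k.factorial * 2 ^ k * (k + 1))) ^ β * A
    with hq
  have hqlim : Tendsto (fun j => q (Real.log (T j))) atTop (𝓝 0) := by
    have h1 : Tendsto (fun j => Real.log (T j)) atTop atTop := Real.tendsto_log_atTop.comp h.hT
    have h2 : Tendsto (fun L : ℝ => 4 / L) atTop (𝓝 0) := tendsto_const_nhds.div_atTop tendsto_id
    have h3 : Tendsto q atTop (𝓝 ((0 * Real.exp (0 + 1) * (k.factorial * 2 ^ k * (k + 1))) ^ β * A)) := by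
      refine Tendsto.mul_const _ ?_
      refine Tendsto.rpow_const ?_ (Or.inr hβ.le)
      exact (h2.mul ((Real.continuous_exp.tendsto _).comp (h2.add_const 1))).mul_const _
    rw [zero_mul, zero_mul, Real.zero_rpow hβ.ne', zero_mul] at h3
    exact h3.comp h1
  have hkey : ∀ δ : ℝ, 0 < δ → ∀ᶠ j in atTop, ∫ t, F (XN (Real.log (T j)) t) ∂(PM β (T j) (Δ j)) ≤ δ := by
    intro δ hδ
    obtain ⟨T₀, hT₀, hfar⟩ := far_prob (β := β) (ε := δ / 2) hβ (by positivity)
    filter_upwards [h.ev (B := 1) (T₀ := T₀), h.prob hβ,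
      h.EX (κ := 1) (ε := 1) (ρ := 1) (σ := 1) hβ one_pos one_pos one_pos one_pos,
      hqlim.eventually_le_const (show 0 < δ / 2 by positivity)] with j hj hpj hEj hqj
    obtain ⟨h1, h2, h3, h4⟩ := hj
    obtain ⟨hJ, hP⟩ := hpj
    have hT200 : 200 ≤ T j := by linarith
    have hlog := log_ge_one (show 3 ≤ T j by linarith)
    have hf := hfar (T j) (Δ j) h1 h2 h3 (h4.trans (by gcongr; linarith)) hJ
    set L := Real.log (T j) with hL
    set P := PM β (T j) (Δ j) with hPd
    have hZ := XN_meas L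
    have hFm : AEStronglyMeasurable (fun t => F (XN L t)) P :=
      (F.continuous.measurable.comp hZ).aestronglyMeasurable
    rw [integral_eq_lintegral_of_nonneg_ae (Eventually.of_forall fun t => hF0 _) hFm]
    refine ENNReal.toReal_le_of_le_ofReal hδ.le ?_
    set S : Set ℝ := {t | 1 / 2 * T j < |t - T j|} with hS
    have hSm : MeasurableSet S := measurableSet_lt measurable_const (by fun_prop)
    rw [← lintegral_add_compl _ hSm]
    have hδ2 : ENNReal.ofReal δ = ENNReal.ofReal (δ / 2) + ENNReal.ofReal (δ / 2) := by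
      rw [← ENNReal.ofReal_add (by positivity) (by positivity)]
      congr 1
      ring
    rw [hδ2]
    refine add_le_add ?_ ?_
    · calc ∫⁻ t in S, ENNReal.ofReal (F (XN L t)) ∂P ≤ ∫⁻ _ in S, 1 ∂P := by
            refine lintegral_mono fun t => ?_
            rw [hFv, ← ENNReal.ofReal_one]
            exact ENNReal.ofReal_le_ofReal (min_le_right _ _)
        _ = P S := by rw [setLIntegral_one]
        _ ≤ _ := hf
    · have hae : ∀ᵐ t ∂(P.restrict Sᶜ), ENNReal.ofReal (F (XN L t)) ≤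
          ENNReal.ofReal ((4 / L * Real.exp (4 / L + 1) * (k.factorial * 2 ^ k * (k + 1))) ^ β) *
          ∑ i ∈ Finset.range (k + 1), ENNReal.ofReal (‖XN L t i‖ ^ β) := by
        rw [ae_restrict_iff' hSm.compl]
        filter_upwards [PM_ne hβ (T j) (Δ j)] with t ht htS
        have htS' : |t - T j| ≤ 1 / 2 * T j := by
          have : ¬ (1 / 2 * T j < |t - T j|) := htS
          exact not_lt.mp this
        have hn := FE_near hT200 htS' ht hβ k
        rw [← ENNReal.ofReal_sum_of_nonneg (fun i _ => by positivity),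
          ← ENNReal.ofReal_mul (by positivity)]
        apply ENNReal.ofReal_le_ofReal
        rw [hFv]
        exact (min_le_left _ _).trans hn
      refine (lintegral_mono_ae hae).trans ?_
      refine (setLIntegral_le_lintegral _ _).trans ?_
      rw [lintegral_const_mul' _ _ ENNReal.ofReal_ne_top, lintegral_finsetSum]
      swap
      · intro i _
        exact (((measurable_pi_iff.mp hZ i).norm).pow_const β).ennreal_ofReal
      refine (mul_le_mul' le_rfl (Finset.sum_le_sum fun i _ => hEj i)).trans ?_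
      rw [← ENNReal.ofReal_sum_of_nonneg (fun i _ => MC_nonneg zero_le_one zero_le_one i),
        ← ENNReal.ofReal_mul (by positivity)]
      exact ENNReal.ofReal_le_ofReal hqj
  have h0 : ∫ x, F x ∂ν ≤ 0 := by
    refine le_of_forall_pos_le_add fun δ hδ => ?_
    rw [zero_add]
    exact le_of_tendsto (hl F) (hkey δ hδ)
  have h1 : ∫ x, F x ∂ν = 0 := le_antisymm h0 (integral_nonneg hF0)
  have h2 := (integral_eq_zero_iff_of_nonneg (fun x => hF0 x) (F.integrable ν)).mp h1
  filter_upwards [h2] with x hx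
  have h3 : min (‖FE k x‖ ^ β) 1 = 0 := hx
  have h4 : ‖FE k x‖ ^ β = 0 := by
    rcases min_choice (‖FE k x‖ ^ β) 1 with h5 | h5
    · rw [← h5]; exact h3
    · rw [h5] at h3
      exact absurd h3 one_ne_zero
  exact norm_eq_zero.mp ((Real.rpow_eq_zero_iff_of_nonneg (norm_nonneg _)).mp h4).1

end

end Run7.h563.LS
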