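import Pool.Agent.Run7.h563.LS.O

set_option autoImplicit false

/-!
# Growth of the Taylor coefficients in the limit
-/

namespace Run7.h563.LS

open Complex MeasureTheory Filter Topology Set Q97.RB Q97.MM

noncomputable section

theorem exp_le_pow {k : ℕ} (hk : 1 ≤ k) : Real.exp 1 * (k : ℝ) ^ (k + 1) ≤ ((k : ℝ) + 1) ^ (k + 1) := by
  have hk0 : (0 : ℝ) < k := by exact_mod_cast hk
  have h1 : 1 / ((k : ℝ) + 1) ≤ Real.log (((k : ℝ) + 1) / k) := by
    have := Real.one_sub_inv_le_log_of_pos (show 0 < ((k : ℝ) + 1) / k by positivity)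
    refine le_trans (le_of_eq ?_) this
    field_simp
    ring
  have h2 : (1 : ℝ) ≤ ((k + 1 : ℕ) : ℝ) * Real.log (((k : ℝ) + 1) / k) := by
    push_cast
    calc (1 : ℝ) = ((k : ℝ) + 1) * (1 / ((k : ℝ) + 1)) := by field_simp
      _ ≤ _ := mul_le_mul_of_nonneg_left h1 (by positivity)
  have h3 : Real.exp 1 ≤ (((k : ℝ) + 1) / k) ^ (k + 1) := by
    calc Real.exp 1 ≤ Real.exp (((k + 1 : ℕ) : ℝ) * Real.log (((k : ℝ) + 1) / k)) :=
          Real.exp_le_exp.mpr h2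
      _ = _ := by rw [Real.exp_nat_mul, Real.exp_log (by positivity)]
  rw [div_pow, le_div_iff₀ (by positivity)] at h3
  exact h3

theorem fact_up {k : ℕ} (hk : 1 ≤ k) :
    (k.factorial : ℝ) * Real.exp k ≤ Real.exp 1 * k * (k : ℝ) ^ k := by
  induction k, hk using Nat.le_induction with
  | base => simp
  | succ k hk ih =>
    have h1 := exp_le_pow hk
    rw [Nat.factorial_succ]
    push_cast
    rw [Real.exp_add]
    calc ((k : ℝ) + 1) * k.factorial * (Real.exp k * Real.exp 1)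
        = ((k : ℝ) + 1) * Real.exp 1 * (k.factorial * Real.exp k) := by ring
      _ ≤ ((k : ℝ) + 1) * Real.exp 1 * (Real.exp 1 * k * (k : ℝ) ^ k) :=
          mul_le_mul_of_nonneg_left ih (by positivity)
      _ = ((k : ℝ) + 1) * Real.exp 1 * (Real.exp 1 * (k : ℝ) ^ (k + 1)) := by ring
      _ ≤ ((k : ℝ) + 1) * Real.exp 1 * (((k : ℝ) + 1) ^ (k + 1)) :=
          mul_le_mul_of_nonneg_left h1 (by positivity)
      _ = _ := by ring

theorem MC_diag {β : ℝ} (hβ : 0 < β) {n : ℕ} (hn : β ≤ n) (k : ℕ) :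
    MC β 0 0 (k + 1 : ℕ) 1 (k + 1) ≤ Real.exp (2 * β) * ((k : ℝ) + 2) ^ (n + 2) := by
  have h1 := fact_up (Nat.succ_le_succ (Nat.zero_le k) : 1 ≤ k + 1)
  unfold MC
  set m : ℝ := ((k + 1 : ℕ) : ℝ) with hm
  have hm1 : 1 ≤ m := by rw [hm]; exact_mod_cast Nat.succ_le_succ (Nat.zero_le k)
  have hm0 : 0 < m := by linarith
  have hmk : m + 1 = (k : ℝ) + 2 := by rw [hm]; push_cast; ring
  have e1 : ((k + 1).factorial / m ^ (k + 1) : ℝ) ^ β * ((1 + 0) * ((m + 1) / 1) ^ 2 *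
      Real.exp ((β + 0) * (m + 1))) =
      ((k + 1).factorial * Real.exp m / m ^ (k + 1)) ^ β * (m + 1) ^ 2 * Real.exp β := by
    have e2 : ((k + 1).factorial * Real.exp m / m ^ (k + 1) : ℝ) ^ β =
        ((k + 1).factorial / m ^ (k + 1)) ^ β * Real.exp (β * m) := by
      rw [mul_div_right_comm, Real.mul_rpow (by positivity) (Real.exp_pos _).le, ← Real.exp_mul,
        mul_comm m β]
    rw [e2, add_zero, add_zero, one_mul, div_one, mul_add, Real.exp_add, mul_one]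
    ring
  rw [e1]
  have h2 : ((k + 1).factorial * Real.exp m / m ^ (k + 1) : ℝ) ≤ Real.exp 1 * m := by
    rw [div_le_iff₀ (by positivity)]
    exact h1
  have h3 : ((k + 1).factorial * Real.exp m / m ^ (k + 1) : ℝ) ^ β ≤ Real.exp β * (m + 1) ^ n := by
    calc ((k + 1).factorial * Real.exp m / m ^ (k + 1) : ℝ) ^ β ≤ (Real.exp 1 * m) ^ β :=
          Real.rpow_le_rpow (by positivity) h2 hβ.le
      _ = Real.exp β * m ^ β := by
          rw [Real.mul_rpow (Real.exp_pos _).le hm0.le, ← Real.exp_mul, one_mul]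
      _ ≤ Real.exp β * (m + 1) ^ n := by
          refine mul_le_mul_of_nonneg_left ?_ (Real.exp_pos _).le
          calc m ^ β ≤ (m + 1) ^ β := Real.rpow_le_rpow hm0.le (by linarith) hβ.le
            _ ≤ (m + 1) ^ (n : ℝ) := Real.rpow_le_rpow_of_exponent_le (by linarith) hn
            _ = _ := Real.rpow_natCast _ _
  calc ((k + 1).factorial * Real.exp m / m ^ (k + 1) : ℝ) ^ β * (m + 1) ^ 2 * Real.exp β
      ≤ (Real.exp β * (m + 1) ^ n) * (m + 1) ^ 2 * Real.exp β := by gcongr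
    _ = Real.exp (2 * β) * ((k : ℝ) + 2) ^ (n + 2) := by
        rw [hmk, two_mul, Real.exp_add, pow_add]
        ring

theorem sum_geo {r : ℝ} (hr0 : 0 < r) (hr1 : r < 1) (m : ℕ) :
    Summable fun k : ℕ => ((k : ℝ) + 2) ^ m * r ^ (k + 1) := by
  have h1 := (summable_nat_add_iff (f := fun k : ℕ => (k : ℝ) ^ m * r ^ k) 2).mpr
    (summable_pow_mul_geometric_of_norm_lt_one m (by rw [Real.norm_of_nonneg hr0.le]; exact hr1))
  have h2 := h1.mul_left r⁻¹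
  refine h2.congr fun k => ?_
  push_cast
  rw [show k + 2 = (k + 1) + 1 from rfl, pow_succ r (k + 1)]
  field_simp

theorem lim_growth_one {β : ℝ} (hβ : 0 < β) {ν : Measure (ℕ → ℂ)}
    (hm : ∀ ρ σ : ℝ, 0 < ρ → 0 < σ → ∀ k : ℕ,
      ∫⁻ x, ENNReal.ofReal (‖x k‖ ^ β) ∂ν ≤ ENNReal.ofReal (MC β 0 0 ρ σ k)) {b : ℝ} (hb : 1 < b) :
    ∀ᵐ x ∂ν, ∃ C : ℝ, ∀ k : ℕ, ‖x (k + 1)‖ ≤ C * b ^ (k + 1) := by
  obtain ⟨n, hn⟩ := exists_nat_ge β
  have hb0 : 0 < b := by linarith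
  set r : ℝ := b ^ (-β) with hr
  have hr0 : 0 < r := by positivity
  have hr1 : r < 1 := Real.rpow_lt_one_of_one_lt_of_neg hb (by linarith)
  have hmeas : ∀ k : ℕ, Measurable fun x : ℕ → ℂ => ENNReal.ofReal (‖x (k + 1)‖ ^ β) *
      ENNReal.ofReal (r ^ (k + 1)) := fun k => by fun_prop
  have h1 : ∫⁻ x, ∑' k : ℕ, ENNReal.ofReal (‖x (k + 1)‖ ^ β) * ENNReal.ofReal (r ^ (k + 1)) ∂ν ≠ ⊤ := by
    rw [lintegral_tsum fun k => (hmeas k).aemeasurable]
    have h2 : ∀ k : ℕ, ∫⁻ x, ENNReal.ofReal (‖x (k + 1)‖ ^ β) * ENNReal.ofReal (r ^ (k + 1)) ∂ν ≤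
        ENNReal.ofReal (Real.exp (2 * β) * (((k : ℝ) + 2) ^ (n + 2) * r ^ (k + 1))) := by
      intro k
      rw [lintegral_mul_const' _ _ ENNReal.ofReal_ne_top]
      refine (mul_le_mul' (hm (k + 1 : ℕ) 1 (by positivity) one_pos (k + 1)) le_rfl).trans ?_
      rw [← ENNReal.ofReal_mul (MC_nonneg le_rfl (by positivity) _)]
      apply ENNReal.ofReal_le_ofReal
      rw [← mul_assoc]
      exact mul_le_mul_of_nonneg_right (MC_diag hβ hn k) (by positivity)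
    refine ne_top_of_le_ne_top ?_ (ENNReal.tsum_le_tsum h2)
    rw [← ENNReal.ofReal_tsum_of_nonneg (fun k => by positivity)
      ((sum_geo hr0 hr1 (n + 2)).mul_left _)]
    exact ENNReal.ofReal_ne_top
  have h3 := ae_lt_top (Measurable.ennreal_tsum hmeas) h1
  filter_upwards [h3] with x hx
  set S := ∑' k : ℕ, ENNReal.ofReal (‖x (k + 1)‖ ^ β) * ENNReal.ofReal (r ^ (k + 1)) with hS
  refine ⟨S.toReal ^ (1 / β), fun k => ?_⟩
  have h4 : ENNReal.ofReal (‖x (k + 1)‖ ^ β) * ENNReal.ofReal (r ^ (k + 1)) ≤ S :=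
    ENNReal.le_tsum k
  rw [← ENNReal.ofReal_mul (by positivity), ENNReal.ofReal_le_iff_le_toReal hx.ne] at h4
  have h5 : ‖x (k + 1)‖ ^ β ≤ S.toReal * (b ^ (k + 1)) ^ β := by
    have e1 : r ^ (k + 1) * (b ^ (k + 1)) ^ β = 1 := by
      rw [hr, ← Real.rpow_natCast (b ^ (-β)), ← Real.rpow_mul hb0.le, ← Real.rpow_natCast b,
        ← Real.rpow_mul hb0.le, ← Real.rpow_add hb0]
      have : -β * ((k + 1 : ℕ) : ℝ) + ((k + 1 : ℕ) : ℝ) * β = 0 := by ring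
      rw [this, Real.rpow_zero]
    calc ‖x (k + 1)‖ ^ β = (‖x (k + 1)‖ ^ β * r ^ (k + 1)) * (b ^ (k + 1)) ^ β := by
          rw [mul_assoc, e1, mul_one]
      _ ≤ _ := mul_le_mul_of_nonneg_right h4 (by positivity)
  have h6 := Real.rpow_le_rpow (by positivity) h5 (show 0 ≤ 1 / β by positivity)
  rw [← Real.rpow_mul (norm_nonneg _), mul_one_div_cancel hβ.ne', Real.rpow_one,
    Real.mul_rpow ENNReal.toReal_nonneg (by positivity), ← Real.rpow_mul (by positivity),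
    mul_one_div_cancel hβ.ne', Real.rpow_one] at h6
  exact h6

/-- the Taylor coefficients grow at most like `(1 + ε)^k` -/
theorem lim_growth {β : ℝ} (hβ : 0 < β) {ν : Measure (ℕ → ℂ)}
    (hm : ∀ ρ σ : ℝ, 0 < ρ → 0 < σ → ∀ k : ℕ,
      ∫⁻ x, ENNReal.ofReal (‖x k‖ ^ β) ∂ν ≤ ENNReal.ofReal (MC β 0 0 ρ σ k)) :
    ∀ᵐ x ∂ν, ∀ b : ℝ, 1 < b → ∃ C : ℝ, ∀ k : ℕ, ‖x k‖ ≤ C * b ^ k := by
  have h1 : ∀ᵐ x ∂ν, ∀ m : ℕ, ∃ C : ℝ, ∀ k : ℕ, ‖x (k + 1)‖ ≤ C * (1 + 1 / ((m : ℝ) + 1)) ^ (k + 1) :=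
    ae_all_iff.mpr fun m => lim_growth_one hβ hm (by
      have : (0 : ℝ) < 1 / ((m : ℝ) + 1) := by positivity
      linarith)
  filter_upwards [h1] with x hx b hb
  obtain ⟨m, hm'⟩ := exists_nat_one_div_lt (show 0 < b - 1 by linarith)
  obtain ⟨C, hC⟩ := hx m
  refine ⟨max ‖x 0‖ (max C 0), fun k => ?_⟩
  have hb0 : 0 < b := by linarith
  rcases k with _ | k
  · simp
  · calc ‖x (k + 1)‖ ≤ C * (1 + 1 / ((m : ℝ) + 1)) ^ (k + 1) := hC k
      _ ≤ max C 0 * (1 + 1 / ((m : ℝ) + 1)) ^ (k + 1) :=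
          mul_le_mul_of_nonneg_right (le_max_left _ _) (by positivity)
      _ ≤ max C 0 * b ^ (k + 1) := by
          refine mul_le_mul_of_nonneg_left ?_ (le_max_right _ _)
          exact pow_le_pow_left₀ (by positivity) (by linarith) _
      _ ≤ _ := mul_le_mul_of_nonneg_right (le_max_right _ _) (by positivity)

end

end Run7.h563.LS
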