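import Pool.Agent.Run7.h563.LS.P

set_option autoImplicit false

/-!
# The Taylor shift on sequences
-/

namespace Run7.h563.LS

open Complex MeasureTheory Filter Topology Set

noncomputable section

/-- the derivatives at `i h` of the entire function with derivatives `x k` at zero -/
def DD (h : ℝ) (x : ℕ → ℂ) (k : ℕ) : ℂ := ∑' m : ℕ, x (k + m) * ((h : ℂ) * I) ^ m / m.factorial

/-- sequences of at most geometric growth -/
def Tame (x : ℕ → ℂ) : Prop := ∃ C : ℝ, ∀ k, ‖x k‖ ≤ C * 2 ^ k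

theorem norm_hI (h : ℝ) : ‖(h : ℂ) * I‖ = |h| := by
  rw [norm_mul, Complex.norm_I, mul_one, Complex.norm_real, Real.norm_eq_abs]

theorem term_bd {x : ℕ → ℂ} {C : ℝ} (hC : ∀ k, ‖x k‖ ≤ C * 2 ^ k) (h : ℝ) (k m : ℕ) :
    ‖x (k + m) * ((h : ℂ) * I) ^ m / m.factorial‖ ≤ C * 2 ^ k * ((2 * |h|) ^ m / m.factorial) := by
  rw [norm_div, norm_mul, norm_pow, norm_hI, Complex.norm_natCast]
  calc ‖x (k + m)‖ * |h| ^ m / m.factorial ≤ (C * 2 ^ (k + m)) * |h| ^ m / m.factorial := by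
        gcongr
        exact hC _
    _ = _ := by rw [pow_add, mul_pow]; ring

theorem summable_term {x : ℕ → ℂ} (hx : Tame x) (h : ℝ) (k : ℕ) :
    Summable fun m : ℕ => x (k + m) * ((h : ℂ) * I) ^ m / m.factorial := by
  obtain ⟨C, hC⟩ := hx
  exact Summable.of_norm_bounded ((Real.summable_pow_div_factorial (2 * |h|)).mul_left _)
    (term_bd hC h k)

theorem DN_tendsto {x : ℕ → ℂ} (hx : Tame x) (h : ℝ) (k : ℕ) :
    Tendsto (fun N => DN h N x k) atTop (𝓝 (DD h x k)) :=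
  (summable_term hx h k).hasSum.tendsto_sum_nat

theorem DD_bd {x : ℕ → ℂ} {C : ℝ} (hC : ∀ k, ‖x k‖ ≤ C * 2 ^ k) (h : ℝ) (k : ℕ) :
    ‖DD h x k‖ ≤ (C * Real.exp (2 * |h|)) * 2 ^ k := by
  have h1 : HasSum (fun m : ℕ => C * 2 ^ k * ((2 * |h|) ^ m / m.factorial))
      (C * 2 ^ k * Real.exp (2 * |h|)) := by
    have := (Real.summable_pow_div_factorial (2 * |h|)).hasSum
    rw [← congrFun (NormedSpace.exp_eq_tsum_div (𝔸 := ℝ)) (2 * |h|), ← Real.exp_eq_exp_ℝ] at this
    exact this.mul_left _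
  refine (tsum_of_norm_bounded h1 (term_bd hC h k)).trans (le_of_eq (by ring))

theorem DD_tame {x : ℕ → ℂ} (hx : Tame x) (h : ℝ) : Tame (DD h x) := by
  obtain ⟨C, hC⟩ := hx
  exact ⟨_, DD_bd hC h⟩

theorem DD_div (h : ℝ) (x : ℕ → ℂ) (c : ℂ) (k : ℕ) : DD h (fun m => x m / c) k = DD h x k / c := by
  unfold DD
  rw [← tsum_div_const]
  refine tsum_congr fun m => ?_
  ring

theorem DD_zero (x : ℕ → ℂ) (k : ℕ) : DD 0 x k = x k := by
  unfold DD
  rw [tsum_eq_single 0]
  · simp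
  · intro m hm
    simp [hm]

/-- the semigroup property -/
theorem DD_add {x : ℕ → ℂ} (hx : Tame x) (h h' : ℝ) (k : ℕ) :
    DD h' (DD h x) k = DD (h + h') x k := by
  obtain ⟨C, hC⟩ := hx
  have hC0 : 0 ≤ C := by
    have := (norm_nonneg _).trans (hC 0)
    simpa using this
  set F : ℕ × ℕ → ℂ := fun p => x (k + p.1 + p.2) * ((h : ℂ) * I) ^ p.2 / p.2.factorial *
    (((h' : ℂ) * I) ^ p.1 / p.1.factorial) with hF
  have hb : ∀ p : ℕ × ℕ, ‖F p‖ ≤ (C * 2 ^ k) * ((2 * |h'|) ^ p.1 / p.1.factorial *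
      ((2 * |h|) ^ p.2 / p.2.factorial)) := by
    intro p
    simp only [hF]
    have e0 : ‖((h' : ℂ) * I) ^ p.1 / p.1.factorial‖ = |h'| ^ p.1 / p.1.factorial := by
      rw [norm_div, norm_pow, norm_hI, Complex.norm_natCast]
    rw [norm_mul, e0]
    have h1 := term_bd hC h (k + p.1) p.2
    calc _ ≤ (C * 2 ^ (k + p.1) * ((2 * |h|) ^ p.2 / p.2.factorial)) * (|h'| ^ p.1 / p.1.factorial) :=
          mul_le_mul_of_nonneg_right h1 (by positivity)
      _ = _ := by rw [pow_add, mul_pow 2 |h'|]; ring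
  have hsum : Summable F := by
    refine Summable.of_norm_bounded (Summable.mul_left _ ?_) hb
    exact (Real.summable_pow_div_factorial (2 * |h'|)).mul_of_nonneg
      (Real.summable_pow_div_factorial (2 * |h|)) (fun m => by positivity) (fun m => by positivity)
  have e1 : DD h' (DD h x) k = ∑' p : ℕ × ℕ, F p := by
    rw [hsum.tsum_prod]
    unfold DD
    refine tsum_congr fun m => ?_
    rw [mul_div_assoc, ← tsum_mul_right]
  have e2 : ∑' p : ℕ × ℕ, F p = ∑' n : ℕ, ∑ p ∈ Finset.HasAntidiagonal.antidiagonal n, F p := by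
    rw [← Equiv.tsum_eq Finset.HasAntidiagonal.sigmaAntidiagonalEquivProd]
    have hs' : Summable (fun c => F (Finset.HasAntidiagonal.sigmaAntidiagonalEquivProd c)) :=
      (Equiv.summable_iff Finset.HasAntidiagonal.sigmaAntidiagonalEquivProd).mpr hsum
    rw [hs'.tsum_sigma' (fun n => (hasSum_fintype _).summable)]
    refine tsum_congr fun n => ?_
    rw [tsum_fintype]
    exact Finset.sum_coe_sort (Finset.HasAntidiagonal.antidiagonal n) (fun p => F p)
  rw [e1, e2]
  unfold DD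
  refine tsum_congr fun n => ?_
  have e3 : ((h + h' : ℝ) : ℂ) * I = (h' : ℂ) * I + (h : ℂ) * I := by push_cast; ring
  rw [e3, (Commute.all ((h' : ℂ) * I) ((h : ℂ) * I)).add_pow', Finset.mul_sum, Finset.sum_div]
  refine Finset.sum_congr rfl fun p hp => ?_
  have hpn : p.1 + p.2 = n := Finset.HasAntidiagonal.mem_antidiagonal.mp hp
  simp only [hF]
  rw [nsmul_eq_mul, add_assoc, hpn]
  have h1 : (n.factorial : ℂ) = n.choose p.1 * (p.1.factorial * p.2.factorial) := by
    have h2 := Nat.add_choose_mul_factorial_mul_factorial p.1 p.2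
    rw [hpn] at h2
    have h3 : n.choose p.2 = n.choose p.1 := by
      rw [← hpn, Nat.choose_symm_add]
    rw [h3] at h2
    rw [← h2]
    push_cast
    ring
  have hn0 : (n.choose p.1 : ℂ) ≠ 0 := by
    exact_mod_cast (Nat.choose_pos (by omega)).ne'
  have h10 : (p.1.factorial : ℂ) ≠ 0 := by exact_mod_cast (Nat.factorial_pos _).ne'
  have h20 : (p.2.factorial : ℂ) ≠ 0 := by exact_mod_cast (Nat.factorial_pos _).ne'
  rw [h1]
  field_simp

end

end Run7.h563.LS
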