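import Pool.Agent.Run7.h563.LS.Q

set_option autoImplicit false

/-!
# The inequality for moved base points in the limit
-/

namespace Run7.h563.LS

open Complex MeasureTheory Filter Topology Set Q97.RB Q97.MM

noncomputable section

/-- interleaving of two sequences -/
def IL (x y : ℕ → ℂ) (n : ℕ) : ℂ := if n % 2 = 0 then x (n / 2) else y (n / 2)

def evn (z : ℕ → ℂ) (k : ℕ) : ℂ := z (2 * k)

def odn (z : ℕ → ℂ) (k : ℕ) : ℂ := z (2 * k + 1)

theorem evn_IL (x y : ℕ → ℂ) : evn (IL x y) = x := by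
  funext k
  unfold evn IL
  rw [if_pos (by omega)]
  congr 1
  omega

theorem odn_IL (x y : ℕ → ℂ) : odn (IL x y) = y := by
  funext k
  unfold odn IL
  rw [if_neg (by omega)]
  congr 1
  omega

theorem evn_cont : Continuous evn := by unfold evn; fun_prop

theorem odn_cont : Continuous odn := by unfold odn; fun_prop

/-- regularised quotients -/
def QR (δ : ℝ) (z : ℕ → ℂ) (k : ℕ) : ℂ :=
  z k * (starRingEnd ℂ) (z 0) / ((max (‖z 0‖ ^ 2) (δ ^ 2) : ℝ) : ℂ)

theorem QR_cont {δ : ℝ} (hδ : 0 < δ) : Continuous (QR δ) := by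
  refine continuous_pi fun k => ?_
  unfold QR
  refine Continuous.div ?_ ?_ fun z => ?_
  · exact (continuous_apply k).mul (Complex.continuous_conj.comp (continuous_apply 0))
  · exact Complex.continuous_ofReal.comp (((continuous_apply 0).norm.pow 2).max continuous_const)
  · have : 0 < max (‖z 0‖ ^ 2) (δ ^ 2) := lt_max_of_lt_right (by positivity)
    exact_mod_cast this.ne'

theorem QR_eq {δ : ℝ} (hδ : 0 < δ) {z : ℕ → ℂ} (hz : δ ≤ ‖z 0‖) : QR δ z = fun k => z k / z 0 := by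
  funext k
  have h0 : z 0 ≠ 0 := by
    rintro h
    rw [h, norm_zero] at hz
    linarith
  have h1 : max (‖z 0‖ ^ 2) (δ ^ 2) = ‖z 0‖ ^ 2 := max_eq_left (by gcongr)
  unfold QR
  rw [h1]
  have h2 : ((‖z 0‖ ^ 2 : ℝ) : ℂ) = z 0 * (starRingEnd ℂ) (z 0) := by
    rw [Complex.mul_conj, Complex.normSq_eq_norm_sq]
  have h3 : (starRingEnd ℂ) (z 0) ≠ 0 := by
    rw [ne_eq, map_eq_zero]
    exact h0
  rw [h2]
  field_simp

/-- truncated powers -/
def cw (β : ℝ) (n : ℕ) (u : ℝ) : ℝ := min (u ^ β) n * min 1 (max 0 ((n + 1) * u - 1))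

theorem cw_cont {β : ℝ} (hβ : 0 < β) (n : ℕ) : Continuous (cw β n) := by
  unfold cw
  have h1 : Continuous fun u : ℝ => u ^ β := Real.continuous_rpow_const hβ.le
  exact (h1.min continuous_const).mul (continuous_const.min (continuous_const.max (by fun_prop)))

theorem cw_nonneg {β : ℝ} (n : ℕ) {u : ℝ} (hu : 0 ≤ u) : 0 ≤ cw β n u := by
  unfold cw
  exact mul_nonneg (le_min (by positivity) (by positivity)) (le_min zero_le_one (le_max_left _ _))

theorem cw_le {β : ℝ} (n : ℕ) {u : ℝ} (hu : 0 ≤ u) : cw β n u ≤ u ^ β := by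
  unfold cw
  calc min (u ^ β) n * min 1 (max 0 ((n + 1) * u - 1)) ≤ u ^ β * 1 :=
        mul_le_mul (min_le_left _ _) (min_le_left _ _) (le_min zero_le_one (le_max_left _ _))
          (by positivity)
    _ = _ := mul_one _

theorem cw_le_n {β : ℝ} (n : ℕ) {u : ℝ} (hu : 0 ≤ u) : cw β n u ≤ n := by
  unfold cw
  calc min (u ^ β) n * min 1 (max 0 ((n + 1) * u - 1)) ≤ n * 1 :=
        mul_le_mul (min_le_right _ _) (min_le_left _ _) (le_min zero_le_one (le_max_left _ _))
          (by positivity)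
    _ = _ := mul_one _

theorem cw_zero {β : ℝ} (n : ℕ) {u : ℝ} (hu : u ≤ 1 / ((n : ℝ) + 1)) : cw β n u = 0 := by
  unfold cw
  have h1 : ((n : ℝ) + 1) * u - 1 ≤ 0 := by
    rw [le_div_iff₀ (by positivity)] at hu
    linarith
  rw [max_eq_left h1, min_eq_right zero_le_one, mul_zero]

theorem cw_tendsto {β : ℝ} (hβ : 0 < β) {u : ℝ} (hu : 0 ≤ u) :
    Tendsto (fun n => cw β n u) atTop (𝓝 (u ^ β)) := by
  rcases hu.eq_or_lt with h0 | h0
  · rw [← h0, Real.zero_rpow hβ.ne']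
    refine tendsto_const_nhds.congr fun n => ?_
    rw [cw_zero n (by positivity)]
  · refine tendsto_const_nhds.congr' ?_
    obtain ⟨n₁, hn₁⟩ := exists_nat_ge (u ^ β)
    obtain ⟨n₂, hn₂⟩ := exists_nat_ge (2 / u)
    filter_upwards [eventually_ge_atTop (max n₁ n₂)] with n hn
    have h1 : (n₁ : ℝ) ≤ n := by exact_mod_cast (le_max_left _ _).trans hn
    have h2 : (n₂ : ℝ) ≤ n := by exact_mod_cast (le_max_right _ _).trans hn
    have h3 : 2 ≤ n * u := by
      rw [div_le_iff₀ h0] at hn₂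
      nlinarith
    unfold cw
    rw [min_eq_left (hn₁.trans h1), max_eq_right (by linarith), min_eq_left (by linarith), mul_one]

/-- the inequality before the limit -/
theorem pre_shift {β ε : ℝ} (hβ : 0 < β) (hε : 0 < ε) (s : ℝ) : ∃ B T₀ : ℝ, 1 ≤ B ∧ 200 ≤ T₀ ∧
    ∀ T Δ : ℝ, T₀ ≤ T → 0 < Δ → B ≤ Δ ^ 2 * Real.log T → Δ ≤ T / (2 * Real.log T) →
    0 < JB β T Δ (1 / 2) →
    ∀ G : (ℕ → ℂ) → ℝ, Measurable G → (∀ x, 0 ≤ G x) → (∀ x, G x ≤ 1) → ∀ n : ℕ,
    ∫⁻ t, ENNReal.ofReal (cw β n ‖YN (Real.log T) s t 0‖ *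
        G (QR (1 / ((n : ℝ) + 1)) (YN (Real.log T) s t))) ∂(PM β T Δ) ≤
      ENNReal.ofReal (1 + ε) * (∫⁻ t, ENNReal.ofReal (G (XN (Real.log T) t)) ∂(PM β T Δ)) +
      ENNReal.ofReal ε := by
  obtain ⟨B, T₀, hB, hT₀, h⟩ := shift_ineq hβ hε s
  refine ⟨B, T₀, hB, hT₀, fun T Δ hT hΔ hBΔ hΔT hJ G hG hG0 hG1 n => ?_⟩
  have hT3 : 3 ≤ T := by linarith
  have hlog := log_ge_one hT3
  have hL0 : 0 < Real.log T := by linarith
  have h1 := h T Δ hT hΔ hBΔ hΔT (fun t => G (XN (Real.log T) t)) (hG.comp (XN_meas _))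
    (fun t => hG0 _) (fun t => hG1 _)
  set L := Real.log T with hL
  set J := JB β T Δ (1 / 2) with hJd
  have hn1 : (0 : ℝ) < 1 / ((n : ℝ) + 1) := by positivity
  have hd : Measurable (fun t => ENNReal.ofReal (dn β T Δ t)) := (dn_cont hβ T Δ).measurable.ennreal_ofReal
  have hY0 : Measurable fun t => YN L s t 0 := measurable_pi_iff.mp (YN_meas L s) 0
  have hm1 : Measurable fun t => ENNReal.ofReal (cw β n ‖YN L s t 0‖ *
      G (QR (1 / ((n : ℝ) + 1)) (YN L s t))) :=
    (((cw_cont hβ n).measurable.comp hY0.norm).mul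
      (hG.comp ((QR_cont hn1).measurable.comp (YN_meas L s)))).ennreal_ofReal
  have hm2 : Measurable fun t => ENNReal.ofReal (G (XN L t)) := (hG.comp (XN_meas _)).ennreal_ofReal
  unfold PM
  rw [lintegral_withDensity_eq_lintegral_mul _ hd hm1, lintegral_withDensity_eq_lintegral_mul _ hd hm2]
  have hpt1 : ∀ t : ℝ, ((fun t => ENNReal.ofReal (dn β T Δ t)) *
      fun t => ENNReal.ofReal (cw β n ‖YN L s t 0‖ * G (QR (1 / ((n : ℝ) + 1)) (YN L s t)))) t ≤
      ENNReal.ofReal J⁻¹ * ENNReal.ofReal (‖riemannZeta (sp (t + s / L))‖ ^ β *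
        G (XN L (t + s / L)) * wt T Δ t) := by
    intro t
    rw [Pi.mul_apply, ← ENNReal.ofReal_mul (dn_nonneg _ _ _ _), ← ENNReal.ofReal_mul (by positivity)]
    apply ENNReal.ofReal_le_ofReal
    have hw := wt_pos T Δ t
    have hGX := hG0 (XN L (t + s / L))
    unfold dn
    rw [← hJd]
    rcases eq_or_ne (riemannZeta (sp t)) 0 with h0 | h0
    · rw [h0, norm_zero, Real.zero_rpow hβ.ne']
      simp only [zero_mul, zero_div]
      positivity
    · have hz : 0 < ‖riemannZeta (sp t)‖ := norm_pos_iff.mpr h0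
      have hzb : 0 < ‖riemannZeta (sp t)‖ ^ β := by positivity
      rcases le_or_gt ‖YN L s t 0‖ (1 / ((n : ℝ) + 1)) with h2 | h2
      · rw [cw_zero n h2]
        simp only [zero_mul, mul_zero]
        positivity
      · have e1 : QR (1 / ((n : ℝ) + 1)) (YN L s t) = XN L (t + s / L) := by
          rw [QR_eq hn1 h2.le]
          funext k
          rw [XN_move h0]
        have e2 : ‖YN L s t 0‖ ^ β = ‖riemannZeta (sp (t + s / L))‖ ^ β / ‖riemannZeta (sp t)‖ ^ β := by
          unfold YN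
          rw [iteratedDeriv_zero, pow_zero, mul_one, norm_div, Real.div_rpow (norm_nonneg _) (norm_nonneg _)]
        rw [e1]
        calc ‖riemannZeta (sp t)‖ ^ β * wt T Δ t / J * (cw β n ‖YN L s t 0‖ * G (XN L (t + s / L)))
            ≤ ‖riemannZeta (sp t)‖ ^ β * wt T Δ t / J * (‖YN L s t 0‖ ^ β * G (XN L (t + s / L))) :=
              mul_le_mul_of_nonneg_left (mul_le_mul_of_nonneg_right (cw_le n (norm_nonneg _)) hGX)
                (by positivity)
          _ = _ := by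
              rw [e2]
              field_simp
  have hpt2 : ∀ t : ℝ, ((fun t => ENNReal.ofReal (dn β T Δ t)) *
      fun t => ENNReal.ofReal (G (XN L t))) t =
      ENNReal.ofReal J⁻¹ * ENNReal.ofReal (‖riemannZeta (sp t)‖ ^ β * G (XN L t) * wt T Δ t) := by
    intro t
    rw [Pi.mul_apply, ← ENNReal.ofReal_mul (dn_nonneg _ _ _ _), ← ENNReal.ofReal_mul (by positivity)]
    congr 1
    unfold dn
    rw [← hJd]
    field_simp
  refine (lintegral_mono hpt1).trans ?_
  rw [lintegral_const_mul' _ _ ENNReal.ofReal_ne_top]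
  simp_rw [hpt2]
  rw [lintegral_const_mul' _ _ ENNReal.ofReal_ne_top]
  refine (mul_le_mul' le_rfl h1).trans (le_of_eq ?_)
  rw [mul_add, ← ENNReal.ofReal_mul (by positivity)]
  congr 1
  · ring
  · congr 1
    field_simp

end

end Run7.h563.LS
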