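import Pool.Agent.Run7.h563.LS.R

set_option autoImplicit false

/-!
# The inequality for moved base points in the limit, second part
-/

namespace Run7.h563.LS

open Complex MeasureTheory Filter Topology Set Q97.RB Q97.MM

noncomputable section

theorem IL_meas {f g : ℝ → ℕ → ℂ} (hf : Measurable f) (hg : Measurable g) :
    Measurable fun t => IL (f t) (g t) := by
  rw [measurable_pi_iff]
  intro n
  unfold IL
  by_cases hn : n % 2 = 0
  · simp only [hn, if_true]
    exact measurable_pi_iff.mp hf _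
  · simp only [hn, if_false]
    exact measurable_pi_iff.mp hg _

theorem Win.EY {β : ℝ} (hβ : 0 < β) (s : ℝ) {T Δ : ℕ → ℝ} (h : Win T Δ) :
    ∀ᶠ j in atTop, ∀ k N : ℕ,
      ∫⁻ t, ENNReal.ofReal (‖YN (Real.log (T j)) s t k - DN s N (XN (Real.log (T j)) t) k‖ ^ β)
        ∂(PM β (T j) (Δ j)) ≤ ENNReal.ofReal (MY β s k N) := by
  obtain ⟨B, T₀, -, hT₀, h₁⟩ := Run7.h563.LS.EY hβ s
  filter_upwards [h.ev (B := B) (T₀ := T₀)] with j hj
  obtain ⟨h1, h2, h3, h4⟩ := hj
  exact (h₁ _ _ h1 h2 h3 h4).2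

theorem MY_tendsto {β : ℝ} (hβ : 0 < β) (s : ℝ) (k : ℕ) : Tendsto (fun N => MY β s k N) atTop (𝓝 0) := by
  unfold MY
  have h1 : Tendsto (fun N : ℕ => 2 * (k.factorial : ℝ) * (1 / 2) ^ N) atTop (𝓝 (2 * k.factorial * 0)) :=
    (tendsto_pow_atTop_nhds_zero_of_lt_one (by norm_num) (by norm_num)).const_mul _
  rw [mul_zero] at h1
  have h2 := h1.rpow_const (p := β) (Or.inr hβ.le)
  rw [Real.zero_rpow hβ.ne'] at h2
  have h3 := h2.mul_const (2 * (4 * |s| + 3) ^ 2 * Real.exp ((β + 1) * (4 * |s| + 3)))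
  rw [zero_mul] at h3
  exact h3

/-- the coupled limit law -/
theorem joint {β : ℝ} (hβ : 0 < β) {T Δ : ℕ → ℝ} (h : Win T Δ) {ν : Measure (ℕ → ℂ)}
    [IsProbabilityMeasure ν] (hl : Lim β T Δ ν) (ht : ∀ᵐ x ∂ν, Tame x) (s : ℝ) :
    ∃ φ : ℕ → ℕ, Tendsto φ atTop atTop ∧ ∃ ν' : Measure (ℕ → ℂ), IsProbabilityMeasure ν' ∧
      ν'.map evn = ν ∧ (∀ᵐ z ∂ν', Tame (evn z)) ∧ (∀ᵐ z ∂ν', ∀ k, odn z k = DD s (evn z) k) ∧
      ∀ F : BoundedContinuousFunction (ℕ → ℂ) ℝ,
        Tendsto (fun j => ∫ t, F (YN (Real.log (T (φ j))) s t) ∂(PM β (T (φ j)) (Δ (φ j)))) atTop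
          (𝓝 (∫ z, F (odn z) ∂ν')) := by
  obtain ⟨j₀, hj₀⟩ := eventually_atTop.mp ((h.prob hβ).and
    ((h.EX (κ := 1) (ε := 1) (ρ := 1) (σ := 1) hβ one_pos one_pos one_pos one_pos).and (h.EY hβ s)))
  set C : ℕ → ℝ := fun n => if n % 2 = 0 then MC β 1 1 1 1 (n / 2) else MY β s (n / 2) 0 with hC
  have hC0 : ∀ n, 0 ≤ C n := by
    intro n
    simp only [hC]
    split_ifs
    · exact MC_nonneg zero_le_one zero_le_one _
    · exact MY_nonneg _ _ _ _
  obtain ⟨φ, hφ, ν', hν', hlim⟩ := gen_subseq hβ (P := fun j => PM β (T (j + j₀)) (Δ (j + j₀)))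
    (Z := fun j t => IL (XN (Real.log (T (j + j₀))) t) (YN (Real.log (T (j + j₀))) s t))
    (fun j => IL_meas (XN_meas _) (YN_meas _ _)) hC0
    (fun j => (hj₀ (j + j₀) (by omega)).1.2) (fun j n => by
      obtain ⟨-, hE, hY⟩ := hj₀ (j + j₀) (by omega)
      by_cases hn : n % 2 = 0
      · simp only [hC, IL, hn, if_true]
        exact hE (n / 2)
      · simp only [hC, IL, hn, if_false]
        have := hY (n / 2) 0
        simp only [DN, Finset.range_zero, Finset.sum_empty, sub_zero] at this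
        exact this)
  have hφ' : Tendsto (fun j => φ j + j₀) atTop atTop :=
    (tendsto_add_atTop_nat j₀).comp hφ.tendsto_atTop
  -- the first marginal
  have hmap : ν'.map evn = ν := by
    have : IsProbabilityMeasure (ν'.map evn) :=
      Measure.isProbabilityMeasure_map evn_cont.measurable.aemeasurable
    refine ext_of_forall_integral_eq_of_IsFiniteMeasure fun F => ?_
    rw [integral_map evn_cont.measurable.aemeasurable F.continuous.aestronglyMeasurable]
    have h1 := hlim (F.compContinuous ⟨evn, evn_cont⟩)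
    have h2 := (hl.sub hφ') F
    refine tendsto_nhds_unique h1 (h2.congr fun j => ?_)
    refine integral_congr_ae (Eventually.of_forall fun t => ?_)
    show F (XN _ t) = F (evn (IL _ _))
    rw [evn_IL]
  have htame : ∀ᵐ z ∂ν', Tame (evn z) := by
    have h1 : ∀ᵐ x ∂(ν'.map evn), Tame x := by rw [hmap]; exact ht
    exact ae_of_ae_map evn_cont.measurable.aemeasurable h1
  refine ⟨fun j => φ j + j₀, hφ', ν', hν', hmap, htame, ?_, fun F => ?_⟩
  · rw [ae_all_iff]
    intro k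
    have h1 : ∀ N : ℕ, ∫⁻ z, ENNReal.ofReal (‖odn z k - DN s N (evn z) k‖ ^ β) ∂ν' ≤
        ENNReal.ofReal (MY β s k N) := by
      intro N
      have hg : Continuous fun z : ℕ → ℂ => odn z k - DN s N (evn z) k := by
        unfold odn DN evn
        fun_prop
      refine moment_fatou hβ (P := fun j => PM β (T (φ j + j₀)) (Δ (φ j + j₀)))
        (Z := fun j t => IL (XN (Real.log (T (φ j + j₀))) t) (YN (Real.log (T (φ j + j₀))) s t))
        (fun j => IL_meas (XN_meas _) (YN_meas _ _)) (fun j => (hj₀ (φ j + j₀) (by omega)).1.2)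
        hlim hg (MY_nonneg _ _ _ _) (Eventually.of_forall fun j => ?_)
      have h2 := (hj₀ (φ j + j₀) (by omega)).2.2 k N
      refine le_trans (le_of_eq (lintegral_congr fun t => ?_)) h2
      rw [evn_IL, odn_IL]
    have hmeas : ∀ N : ℕ, Measurable fun z : ℕ → ℂ => ENNReal.ofReal (‖odn z k - DN s N (evn z) k‖ ^ β) := by
      intro N
      have hg : Continuous fun z : ℕ → ℂ => odn z k - DN s N (evn z) k := by
        unfold odn DN evn
        fun_prop
      exact (hg.norm.measurable.pow_const β).ennreal_ofReal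
    have h3 : ∫⁻ z, liminf (fun N : ℕ => ENNReal.ofReal (‖odn z k - DN s N (evn z) k‖ ^ β)) atTop ∂ν' ≤
        liminf (fun N => ∫⁻ z, ENNReal.ofReal (‖odn z k - DN s N (evn z) k‖ ^ β) ∂ν') atTop :=
      lintegral_liminf_le hmeas
    have h4 : liminf (fun N => ∫⁻ z, ENNReal.ofReal (‖odn z k - DN s N (evn z) k‖ ^ β) ∂ν') atTop ≤ 0 := by
      have h5 : Tendsto (fun N => ENNReal.ofReal (MY β s k N)) atTop (𝓝 0) := by
        have := (ENNReal.continuous_ofReal.tendsto 0).comp (MY_tendsto hβ s k)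
        rw [ENNReal.ofReal_zero] at this
        exact this
      rw [← h5.liminf_eq]
      exact liminf_le_liminf (Eventually.of_forall h1)
    have h6 := le_antisymm (h3.trans h4) bot_le
    rw [lintegral_eq_zero_iff (Measurable.liminf hmeas)] at h6
    filter_upwards [h6, htame] with z hz hzt
    have h7 : Tendsto (fun N => ENNReal.ofReal (‖odn z k - DN s N (evn z) k‖ ^ β)) atTop
        (𝓝 (ENNReal.ofReal (‖odn z k - DD s (evn z) k‖ ^ β))) := by
      refine (ENNReal.continuous_ofReal.tendsto _).comp ?_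
      exact ((tendsto_const_nhds.sub (DN_tendsto hzt s k)).norm).rpow_const (Or.inr hβ.le)
    have h8 : ENNReal.ofReal (‖odn z k - DD s (evn z) k‖ ^ β) = 0 := by
      rw [← h7.liminf_eq]
      exact hz
    rw [ENNReal.ofReal_eq_zero] at h8
    have h9 : ‖odn z k - DD s (evn z) k‖ ^ β = 0 := le_antisymm h8 (by positivity)
    exact sub_eq_zero.mp (norm_eq_zero.mp ((Real.rpow_eq_zero_iff_of_nonneg (norm_nonneg _)).mp h9).1)
  · have h1 := hlim (F.compContinuous ⟨odn, odn_cont⟩)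
    refine h1.congr fun j => ?_
    refine integral_congr_ae (Eventually.of_forall fun t => ?_)
    show F (odn (IL _ _)) = F (YN _ s t)
    rw [odn_IL]

/-- the inequality for the limit law -/
theorem lim_shift {β : ℝ} (hβ : 0 < β) {T Δ : ℕ → ℝ} (h : Win T Δ) {ν : Measure (ℕ → ℂ)}
    [IsProbabilityMeasure ν] (hl : Lim β T Δ ν) (ht : ∀ᵐ x ∂ν, Tame x) (s : ℝ)
    (G : BoundedContinuousFunction (ℕ → ℂ) ℝ) (hG0 : ∀ x, 0 ≤ G x) (hG1 : ∀ x, G x ≤ 1) :
    ∫⁻ x, ENNReal.ofReal (‖DD s x 0‖ ^ β * G (fun k => DD s x k / DD s x 0)) ∂ν ≤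
      ∫⁻ x, ENNReal.ofReal (G x) ∂ν := by
  obtain ⟨φ, hφ, ν', hν', hmap, htame, hodn, hlim⟩ := joint hβ h hl ht s
  have hW := h.sub hφ
  have hLφ := hl.sub hφ
  -- truncated functions
  have hn1 : ∀ n : ℕ, (0 : ℝ) < 1 / ((n : ℝ) + 1) := fun n => by positivity
  have hHc : ∀ n : ℕ, Continuous fun z : ℕ → ℂ => cw β n ‖z 0‖ * G (QR (1 / ((n : ℝ) + 1)) z) :=
    fun n => ((cw_cont hβ n).comp (continuous_apply 0).norm).mul (G.continuous.comp (QR_cont (hn1 n)))
  set H : ℕ → BoundedContinuousFunction (ℕ → ℂ) ℝ := fun n =>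
    BoundedContinuousFunction.ofNormedAddCommGroup
      (fun z => cw β n ‖z 0‖ * G (QR (1 / ((n : ℝ) + 1)) z)) (hHc n) n (fun z => by
        rw [Real.norm_of_nonneg (mul_nonneg (cw_nonneg n (norm_nonneg _)) (hG0 _))]
        calc _ ≤ (n : ℝ) * 1 := mul_le_mul (cw_le_n n (norm_nonneg _)) (hG1 _) (hG0 _) (by positivity)
          _ = n := mul_one _) with hH
  have hHv : ∀ n z, H n z = cw β n ‖z 0‖ * G (QR (1 / ((n : ℝ) + 1)) z) := fun n z => rfl
  have hH0 : ∀ n z, 0 ≤ H n z := fun n z => by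
    rw [hHv]; exact mul_nonneg (cw_nonneg n (norm_nonneg _)) (hG0 _)
  have key : ∀ n : ℕ, ∫ z, H n (odn z) ∂ν' ≤ ∫ x, G x ∂ν := by
    intro n
    refine le_of_forall_pos_le_add fun ε hε => ?_
    set ε₁ : ℝ := ε / 2 with hε₁
    have hε₁0 : 0 < ε₁ := by positivity
    obtain ⟨B, T₀, -, hT₀, hpre⟩ := pre_shift hβ hε₁0 s
    have h1 : ∀ᶠ j in atTop, ∫ t, H n (YN (Real.log (T (φ j))) s t) ∂(PM β (T (φ j)) (Δ (φ j))) ≤
        (1 + ε₁) * ∫ t, G (XN (Real.log (T (φ j))) t) ∂(PM β (T (φ j)) (Δ (φ j))) + ε₁ := by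
      filter_upwards [hW.ev (B := B) (T₀ := T₀), hW.prob hβ] with j hj hpj
      obtain ⟨a1, a2, a3, a4⟩ := hj
      obtain ⟨hJ, hP⟩ := hpj
      have h2 := hpre _ _ a1 a2 a3 a4 hJ G G.continuous.measurable hG0 hG1 n
      have hm1 : AEStronglyMeasurable (fun t => H n (YN (Real.log (T (φ j))) s t))
          (PM β (T (φ j)) (Δ (φ j))) :=
        ((H n).continuous.measurable.comp (YN_meas _ _)).aestronglyMeasurable
      have hm2 : AEStronglyMeasurable (fun t => G (XN (Real.log (T (φ j))) t))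
          (PM β (T (φ j)) (Δ (φ j))) :=
        (G.continuous.measurable.comp (XN_meas _)).aestronglyMeasurable
      have hi : Integrable (fun t => G (XN (Real.log (T (φ j))) t)) (PM β (T (φ j)) (Δ (φ j))) :=
        Integrable.of_bound hm2 1 (Eventually.of_forall fun t => by
          rw [Real.norm_of_nonneg (hG0 _)]; exact hG1 _)
      rw [integral_eq_lintegral_of_nonneg_ae (Eventually.of_forall fun t => hH0 n _) hm1]
      have hI0 : 0 ≤ ∫ t, G (XN (Real.log (T (φ j))) t) ∂(PM β (T (φ j)) (Δ (φ j))) :=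
        integral_nonneg fun t => hG0 _
      refine ENNReal.toReal_le_of_le_ofReal (by positivity) (h2.trans (le_of_eq ?_))
      rw [← ofReal_integral_eq_lintegral_ofReal hi (Eventually.of_forall fun t => hG0 _),
        ← ENNReal.ofReal_mul (by positivity), ← ENNReal.ofReal_add (by positivity) hε₁0.le]
    have h3 := le_of_tendsto_of_tendsto (hlim (H n)) (((hLφ G).const_mul (1 + ε₁)).add_const ε₁) h1
    have hG1' : ∫ x, G x ∂ν ≤ 1 := by
      calc ∫ x, G x ∂ν ≤ ∫ _, (1 : ℝ) ∂ν := integral_mono (G.integrable ν) (integrable_const 1) hG1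
        _ = 1 := by simp
    have : (1 + ε₁) * ∫ x, G x ∂ν + ε₁ ≤ ∫ x, G x ∂ν + ε := by
      have : ε₁ * ∫ x, G x ∂ν ≤ ε₁ * 1 := mul_le_mul_of_nonneg_left hG1' hε₁0.le
      rw [hε₁] at this ⊢
      linarith
    exact h3.trans this
  -- Fatou
  have hI : ∫⁻ x, ENNReal.ofReal (G x) ∂ν = ENNReal.ofReal (∫ x, G x ∂ν) :=
    (ofReal_integral_eq_lintegral_ofReal (G.integrable ν) (Eventually.of_forall hG0)).symm
  have hHm : ∀ n : ℕ, Measurable fun z : ℕ → ℂ => ENNReal.ofReal (H n (odn z)) := fun n =>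
    ((H n).continuous.measurable.comp odn_cont.measurable).ennreal_ofReal
  have hkey' : ∀ n : ℕ, ∫⁻ z, ENNReal.ofReal (H n (odn z)) ∂ν' ≤ ∫⁻ x, ENNReal.ofReal (G x) ∂ν := by
    intro n
    have h5 : Integrable (fun z => H n (odn z)) ν' :=
      ((H n).compContinuous ⟨odn, odn_cont⟩).integrable ν'
    rw [hI, ← ofReal_integral_eq_lintegral_ofReal h5 (Eventually.of_forall fun z => hH0 n _)]
    exact ENNReal.ofReal_le_ofReal (key n)
  have hfat : ∫⁻ z, ENNReal.ofReal (‖odn z 0‖ ^ β * G (fun k => odn z k / odn z 0)) ∂ν' ≤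
      ∫⁻ x, ENNReal.ofReal (G x) ∂ν := by
    calc ∫⁻ z, ENNReal.ofReal (‖odn z 0‖ ^ β * G (fun k => odn z k / odn z 0)) ∂ν'
        = ∫⁻ z, liminf (fun n => ENNReal.ofReal (H n (odn z))) atTop ∂ν' := by
          refine lintegral_congr fun z => ?_
          have h1 : Tendsto (fun n => ENNReal.ofReal (H n (odn z))) atTop
              (𝓝 (ENNReal.ofReal (‖odn z 0‖ ^ β * G (fun k => odn z k / odn z 0)))) := by
            refine (ENNReal.continuous_ofReal.tendsto _).comp ?_
            have h2 : Tendsto (fun n => cw β n ‖odn z 0‖ * G (fun k => odn z k / odn z 0)) atTop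
                (𝓝 (‖odn z 0‖ ^ β * G (fun k => odn z k / odn z 0))) :=
              (cw_tendsto hβ (norm_nonneg _)).mul_const _
            refine h2.congr fun n => ?_
            rw [hHv]
            rcases le_or_gt ‖odn z 0‖ (1 / ((n : ℝ) + 1)) with h3 | h3
            · rw [cw_zero n h3, zero_mul, zero_mul]
            · rw [QR_eq (hn1 n) h3.le]
          exact h1.liminf_eq.symm
      _ ≤ liminf (fun n => ∫⁻ z, ENNReal.ofReal (H n (odn z)) ∂ν') atTop := lintegral_liminf_le hHm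
      _ ≤ liminf (fun _ : ℕ => ∫⁻ x, ENNReal.ofReal (G x) ∂ν) atTop :=
          liminf_le_liminf (Eventually.of_forall hkey')
      _ = _ := by rw [liminf_const]
  -- back to the law of the first sequence
  have hae : AEMeasurable (fun x : ℕ → ℂ => ENNReal.ofReal (‖DD s x 0‖ ^ β *
      G (fun k => DD s x k / DD s x 0))) ν := by
    have hD : ∀ k, AEMeasurable (fun x => DD s x k) ν := fun k => by
      refine aemeasurable_of_tendsto_metrizable_ae atTop (f := fun N x => DN s N x k) (fun N => ?_) ?_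
      · unfold DN
        exact (Continuous.measurable (by fun_prop)).aemeasurable
      · filter_upwards [ht] with x hx
        exact DN_tendsto hx s k
    have hq : AEMeasurable (fun x => fun k => DD s x k / DD s x 0) ν :=
      aemeasurable_pi_lambda _ fun k => (hD k).div (hD 0)
    exact (((hD 0).norm.pow_const β).mul (G.continuous.measurable.comp_aemeasurable hq)).ennreal_ofReal
  have e1 : ∫⁻ x, ENNReal.ofReal (‖DD s x 0‖ ^ β * G (fun k => DD s x k / DD s x 0)) ∂ν =
      ∫⁻ z, ENNReal.ofReal (‖DD s (evn z) 0‖ ^ β * G (fun k => DD s (evn z) k / DD s (evn z) 0)) ∂ν' := by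
    have hae' := hae
    rw [← hmap] at hae'
    conv_lhs => rw [← hmap]
    rw [lintegral_map' hae' evn_cont.measurable.aemeasurable]
  rw [e1]
  refine le_trans (le_of_eq (lintegral_congr_ae ?_)) hfat
  filter_upwards [hodn] with z hz
  have e2 : odn z = DD s (evn z) := funext hz
  rw [e2]

end

end Run7.h563.LS
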