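import Pool.Agent.Run7.h563.LS.S

set_option autoImplicit false

/-!
# Invariance of the limit laws
-/

namespace Run7.h563.LS

open Complex MeasureTheory Filter Topology Set

noncomputable section

/-- the entire function with derivatives `x k` at zero -/
def ent (x : ℕ → ℂ) (z : ℂ) : ℂ := ∑' m : ℕ, x m * z ^ m / m.factorial

theorem ent_diff {x : ℕ → ℂ} (hx : Tame x) : Differentiable ℂ (ent x) := by
  obtain ⟨C, hC⟩ := hx
  intro z
  have hC0 : 0 ≤ C := by
    have := (norm_nonneg _).trans (hC 0)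
    simpa using this
  set R : ℝ := ‖z‖ + 1 with hR
  have hR0 : 0 < R := by positivity
  have h1 : DifferentiableOn ℂ (fun w : ℂ => ∑' m : ℕ, x m * w ^ m / m.factorial) (Metric.ball 0 R) := by
    refine differentiableOn_tsum_of_summable_norm
      (u := fun m : ℕ => C * ((2 * R) ^ m / m.factorial))
      ((Real.summable_pow_div_factorial (2 * R)).mul_left _) (fun m => ?_) Metric.isOpen_ball
      fun m w hw => ?_
    · fun_prop
    · rw [Metric.mem_ball, dist_zero_right] at hw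
      rw [norm_div, norm_mul, norm_pow, Complex.norm_natCast]
      calc ‖x m‖ * ‖w‖ ^ m / m.factorial ≤ (C * 2 ^ m) * R ^ m / m.factorial := by
            gcongr
            exact hC m
        _ = _ := by rw [mul_pow]; ring
  exact (h1 z (by rw [Metric.mem_ball, dist_zero_right]; linarith)).differentiableAt
    (Metric.isOpen_ball.mem_nhds (by rw [Metric.mem_ball, dist_zero_right]; linarith))

theorem DD_eq_ent (s : ℝ) (x : ℕ → ℂ) : DD s x 0 = ent x ((s : ℂ) * I) := by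
  unfold DD ent
  simp only [zero_add]

theorem zeros_null {x : ℕ → ℂ} (hx : Tame x) (h0 : x 0 = 1) : ∀ᵐ s : ℝ, DD s x 0 ≠ 0 := by
  have hg : AnalyticOnNhd ℝ (fun s : ℝ => ent x ((s : ℂ) * I)) Set.univ := by
    intro s _
    have h1 : AnalyticAt ℝ (ent x) ((s : ℂ) * I) :=
      ((ent_diff hx).analyticAt ((s : ℂ) * I)).restrictScalars
    have h2 : AnalyticAt ℝ (fun s : ℝ => (s : ℂ) * I) s :=
      (Complex.ofRealCLM.analyticAt s).mul analyticAt_const
    exact AnalyticAt.comp (g := ent x) (f := fun s : ℝ => (s : ℂ) * I) h1 h2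
  have h2 : (fun s : ℝ => ent x ((s : ℂ) * I)) 0 ≠ 0 := by
    show ent x (((0 : ℝ) : ℂ) * I) ≠ 0
    rw [← DD_eq_ent, DD_zero, h0]
    exact one_ne_zero
  have h3 := hg.preimage_zero_mem_codiscrete h2
  have h4 := ae_restrict_le_codiscreteWithin (μ := (volume : Measure ℝ)) MeasurableSet.univ h3
  rw [Measure.restrict_univ] at h4
  filter_upwards [h4] with s hs
  rw [DD_eq_ent]
  exact hs

theorem ae_ne {ν : Measure (ℕ → ℂ)} [IsProbabilityMeasure ν] (ht : ∀ᵐ x ∂ν, Tame x)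
    (h0 : ∀ᵐ x ∂ν, x 0 = 1) : ∀ᵐ s : ℝ, ∀ᵐ x ∂ν, DD s x 0 ≠ 0 := by
  set u : (ℕ → ℂ) × ℝ → ENNReal := fun p =>
    liminf (fun N => ENNReal.ofReal ‖DN p.2 N p.1 0‖) atTop with hu
  have hum : Measurable u := by
    refine Measurable.liminf fun N => ?_
    have : Continuous fun p : (ℕ → ℂ) × ℝ => DN p.2 N p.1 0 := by
      unfold DN
      fun_prop
    exact this.norm.measurable.ennreal_ofReal
  have hut : ∀ (x : ℕ → ℂ) (s : ℝ), Tame x → u (x, s) = ENNReal.ofReal ‖DD s x 0‖ := by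
    intro x s hx
    exact ((ENNReal.continuous_ofReal.tendsto _).comp (DN_tendsto hx s 0).norm).liminf_eq
  have hset : MeasurableSet {p : (ℕ → ℂ) × ℝ | u (p.1, p.2) ≠ 0} :=
    (measurableSet_eq_fun hum measurable_const).compl
  have h1 : ∀ᵐ x ∂ν, ∀ᵐ s : ℝ, u (x, s) ≠ 0 := by
    filter_upwards [ht, h0] with x hx hx0
    filter_upwards [zeros_null hx hx0] with s hs
    rw [hut x s hx, ne_eq, ENNReal.ofReal_eq_zero, not_le]
    exact norm_pos_iff.mpr hs
  have h2 := (Measure.ae_ae_comm (p := fun x s => u (x, s) ≠ 0) hset).mp h1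
  filter_upwards [h2] with s hs
  filter_upwards [hs, ht] with x hx hxt
  rw [hut x s hxt, ne_eq, ENNReal.ofReal_eq_zero, not_le] at hx
  exact norm_pos_iff.mp hx

theorem measure_le_of_bcf {μ ν : Measure (ℕ → ℂ)} [IsFiniteMeasure μ] [IsFiniteMeasure ν]
    (h : ∀ G : BoundedContinuousFunction (ℕ → ℂ) ℝ, (∀ x, 0 ≤ G x) → (∀ x, G x ≤ 1) →
      ∫⁻ x, ENNReal.ofReal (G x) ∂μ ≤ ∫⁻ x, ENNReal.ofReal (G x) ∂ν) : μ ≤ ν := by
  have hcl : ∀ F : Set (ℕ → ℂ), IsClosed F → μ F ≤ ν F := by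
    intro F hF
    have h1 : ∀ n, ∫⁻ x, (hF.apprSeq n x : ENNReal) ∂μ ≤ ∫⁻ x, (hF.apprSeq n x : ENNReal) ∂ν := by
      intro n
      have hc : Continuous fun x => ((hF.apprSeq n x : NNReal) : ℝ) :=
        NNReal.continuous_coe.comp (hF.apprSeq n).continuous
      have hle : ∀ x, ((hF.apprSeq n x : NNReal) : ℝ) ≤ 1 := fun x => by
        exact_mod_cast HasOuterApproxClosed.apprSeq_apply_le_one hF n x
      have h2 := h (BoundedContinuousFunction.ofNormedAddCommGroup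
        (fun x => ((hF.apprSeq n x : NNReal) : ℝ)) hc 1 (fun x => by
          rw [Real.norm_of_nonneg (NNReal.coe_nonneg _)]; exact hle x))
        (fun x => NNReal.coe_nonneg _) hle
      simpa using h2
    exact le_of_tendsto_of_tendsto' (HasOuterApproxClosed.tendsto_lintegral_apprSeq hF μ)
      (HasOuterApproxClosed.tendsto_lintegral_apprSeq hF ν) h1
  refine Measure.le_iff.mpr fun A hA => ?_
  rw [hA.measure_eq_iSup_isClosed_of_ne_top (measure_ne_top μ A)]
  exact iSup_le fun K => iSup_le fun hKA => iSup_le fun hK => (hcl K hK).trans (measure_mono hKA)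

/-- the moved sequence -/
def SS (s : ℝ) (x : ℕ → ℂ) (k : ℕ) : ℂ := DD s x k / DD s x 0

theorem DD_aem {ν : Measure (ℕ → ℂ)} (ht : ∀ᵐ x ∂ν, Tame x) (s : ℝ) (k : ℕ) :
    AEMeasurable (fun x => DD s x k) ν := by
  refine aemeasurable_of_tendsto_metrizable_ae atTop (f := fun N x => DN s N x k) (fun N => ?_) ?_
  · unfold DN
    exact (Continuous.measurable (by fun_prop)).aemeasurable
  · filter_upwards [ht] with x hx
    exact DN_tendsto hx s k

theorem SS_aem {ν : Measure (ℕ → ℂ)} (ht : ∀ᵐ x ∂ν, Tame x) (s : ℝ) : AEMeasurable (SS s) ν :=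
  aemeasurable_pi_lambda _ fun k => (DD_aem ht s k).div (DD_aem ht s 0)

theorem wS_aem {ν : Measure (ℕ → ℂ)} (ht : ∀ᵐ x ∂ν, Tame x) (β s : ℝ) :
    AEMeasurable (fun x => ENNReal.ofReal (‖DD s x 0‖ ^ β)) ν :=
  ((DD_aem ht s 0).norm.pow_const β).ennreal_ofReal

/-- the law of the moved sequence under the tilted measure -/
def MV (β s : ℝ) (ν : Measure (ℕ → ℂ)) : Measure (ℕ → ℂ) :=
  (ν.withDensity fun x => ENNReal.ofReal (‖DD s x 0‖ ^ β)).map (SS s)

theorem MV_lint {ν : Measure (ℕ → ℂ)} [IsFiniteMeasure ν] (ht : ∀ᵐ x ∂ν, Tame x) (β s : ℝ)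
    {g : (ℕ → ℂ) → ENNReal} (hg : AEMeasurable g (MV β s ν)) :
    ∫⁻ x, g x ∂(MV β s ν) = ∫⁻ x, ENNReal.ofReal (‖DD s x 0‖ ^ β) * g (SS s x) ∂ν := by
  have h1 : AEMeasurable (SS s) (ν.withDensity fun x => ENNReal.ofReal (‖DD s x 0‖ ^ β)) :=
    (SS_aem ht s).mono_ac (withDensity_absolutelyContinuous _ _)
  have h2 : AEMeasurable (fun x => g (SS s x)) (ν.withDensity fun x => ENNReal.ofReal (‖DD s x 0‖ ^ β)) :=
    hg.comp_aemeasurable h1
  unfold MV
  rw [lintegral_map' hg h1, lintegral_withDensity_eq_lintegral_mul₀' (wS_aem ht β s) h2]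
  rfl

end

end Run7.h563.LS
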