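import Pool.Agent.Run7.h563.LS.U

set_option autoImplicit false

/-!
# Invariance of the limit laws, second part
-/

namespace Run7.h563.LS

open Complex MeasureTheory Filter Topology Set

noncomputable section

section

variable {β : ℝ} {ν : Measure (ℕ → ℂ)} [IsProbabilityMeasure ν]
  (hβ : 0 < β) (ht : ∀ᵐ x ∂ν, Tame x) (h0 : ∀ᵐ x ∂ν, x 0 = 1)
  (hsh : ∀ (s : ℝ) (G : BoundedContinuousFunction (ℕ → ℂ) ℝ), (∀ x, 0 ≤ G x) → (∀ x, G x ≤ 1) →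
    ∫⁻ x, ENNReal.ofReal (‖DD s x 0‖ ^ β * G (fun k => DD s x k / DD s x 0)) ∂ν ≤
      ∫⁻ x, ENNReal.ofReal (G x) ∂ν)

include ht in
theorem MV_bcf (s : ℝ) (G : BoundedContinuousFunction (ℕ → ℂ) ℝ) :
    ∫⁻ x, ENNReal.ofReal (G x) ∂(MV β s ν) =
      ∫⁻ x, ENNReal.ofReal (‖DD s x 0‖ ^ β * G (fun k => DD s x k / DD s x 0)) ∂ν := by
  rw [MV_lint ht β s G.continuous.measurable.ennreal_ofReal.aemeasurable]
  refine lintegral_congr fun x => ?_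
  rw [← ENNReal.ofReal_mul (by positivity)]
  rfl

include ht hsh in
theorem MV_univ (s : ℝ) : MV β s ν Set.univ ≤ 1 := by
  have h1 := hsh s (BoundedContinuousFunction.const _ 1) (fun x => zero_le_one) (fun x => le_rfl)
  rw [← MV_bcf ht s] at h1
  simpa using h1

include ht hsh in
theorem MV_fin (s : ℝ) : IsFiniteMeasure (MV β s ν) :=
  ⟨(MV_univ ht hsh s).trans_lt ENNReal.one_lt_top⟩

include ht hsh in
theorem MV_le (s : ℝ) : MV β s ν ≤ ν := by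
  have := MV_fin ht hsh s
  refine measure_le_of_bcf fun G hG0 hG1 => ?_
  rw [MV_bcf ht s]
  exact hsh s G hG0 hG1

include ht in
theorem MV_mass (s : ℝ) : MV β s ν Set.univ = ∫⁻ x, ENNReal.ofReal (‖DD s x 0‖ ^ β) ∂ν := by
  rw [← lintegral_one, MV_lint ht β s aemeasurable_const]
  simp

include ht in
theorem DD_SS {x : ℕ → ℂ} (hx : Tame x) (a b : ℝ) : DD b (SS a x) 0 = DD (a + b) x 0 / DD a x 0 := by
  unfold SS
  rw [DD_div, DD_add hx]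

include hβ ht h0 hsh in
theorem mass_neg {s : ℝ} (hs : ∀ᵐ x ∂ν, DD s x 0 ≠ 0) : MV β (-s) ν = ν := by
  have hg := wS_aem ht β (-s)
  have h1 : ∫⁻ x, ENNReal.ofReal (‖DD (-s) x 0‖ ^ β) ∂(MV β s ν) ≤
      ∫⁻ x, ENNReal.ofReal (‖DD (-s) x 0‖ ^ β) ∂ν := lintegral_mono' (MV_le ht hsh s) le_rfl
  rw [MV_lint ht β s (hg.mono_measure (MV_le ht hsh s)), ← MV_mass ht (-s)] at h1
  have h2 : ∫⁻ x, ENNReal.ofReal (‖DD s x 0‖ ^ β) * ENNReal.ofReal (‖DD (-s) (SS s x) 0‖ ^ β) ∂ν = 1 := by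
    have h3 : ∀ᵐ x ∂ν, ENNReal.ofReal (‖DD s x 0‖ ^ β) * ENNReal.ofReal (‖DD (-s) (SS s x) 0‖ ^ β) = 1 := by
      filter_upwards [hs, ht, h0] with x hx hxt hx0
      have hn : 0 < ‖DD s x 0‖ := norm_pos_iff.mpr hx
      rw [DD_SS ht hxt, add_neg_cancel, DD_zero, hx0, ← ENNReal.ofReal_mul (by positivity), norm_div,
        norm_one, ← Real.mul_rpow (norm_nonneg _) (by positivity), mul_one_div_cancel hn.ne',
        Real.one_rpow, ENNReal.ofReal_one]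
    rw [lintegral_congr_ae h3]
    simp
  rw [h2] at h1
  have := MV_fin ht hsh (-s)
  exact Measure.eq_of_le_of_measure_univ_eq (MV_le ht hsh (-s))
    ((le_antisymm (MV_univ ht hsh (-s)) h1).trans measure_univ.symm)

include hβ ht h0 hsh in
/-- **Invariance.** -/
theorem MV_eq (s : ℝ) : MV β s ν = ν := by
  have h1 := ae_ne ht h0
  -- two good numbers with sum s
  have h2 : ∀ᵐ a : ℝ, ∀ᵐ x ∂ν, DD (-a) x 0 ≠ 0 :=
    (Measure.measurePreserving_neg (volume : Measure ℝ)).quasiMeasurePreserving.ae h1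
  have h3 : ∀ᵐ a : ℝ, ∀ᵐ x ∂ν, DD (a - s) x 0 ≠ 0 :=
    (measurePreserving_sub_right (volume : Measure ℝ) s).quasiMeasurePreserving.ae h1
  obtain ⟨a, ha1, ha2⟩ := (h2.and h3).exists
  have e1 : MV β a ν = ν := by
    have := mass_neg hβ ht h0 hsh ha1
    rwa [neg_neg] at this
  have e2 : MV β (s - a) ν = ν := by
    have := mass_neg hβ ht h0 hsh ha2
    rwa [neg_sub] at this
  have hm : 1 ≤ MV β s ν Set.univ := by
    calc (1 : ENNReal) = MV β (s - a) ν Set.univ := by rw [e2]; exact measure_univ.symm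
      _ = ∫⁻ x, ENNReal.ofReal (‖DD (s - a) x 0‖ ^ β) ∂ν := MV_mass ht (s - a)
      _ = ∫⁻ x, ENNReal.ofReal (‖DD (s - a) x 0‖ ^ β) ∂(MV β a ν) := by rw [e1]
      _ = ∫⁻ x, ENNReal.ofReal (‖DD a x 0‖ ^ β) * ENNReal.ofReal (‖DD (s - a) (SS a x) 0‖ ^ β) ∂ν := by
          rw [MV_lint ht β a (by rw [e1]; exact wS_aem ht β (s - a))]
      _ ≤ ∫⁻ x, ENNReal.ofReal (‖DD s x 0‖ ^ β) ∂ν := by
          refine lintegral_mono_ae ?_
          filter_upwards [ht] with x hxt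
          rw [DD_SS ht hxt, add_sub_cancel, ← ENNReal.ofReal_mul (by positivity), norm_div]
          apply ENNReal.ofReal_le_ofReal
          rcases eq_or_ne (DD a x 0) 0 with h4 | h4
          · rw [h4, norm_zero, Real.zero_rpow hβ.ne', zero_mul]
            positivity
          · have hn : 0 < ‖DD a x 0‖ := norm_pos_iff.mpr h4
            rw [← Real.mul_rpow (norm_nonneg _) (by positivity), mul_div_cancel₀ _ hn.ne']
      _ = MV β s ν Set.univ := (MV_mass ht s).symm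
  have := MV_fin ht hsh s
  exact Measure.eq_of_le_of_measure_univ_eq (MV_le ht hsh s)
    ((le_antisymm (MV_univ ht hsh s) hm).trans measure_univ.symm)

include hβ ht h0 hsh in
theorem invariance (s : ℝ) {g : (ℕ → ℂ) → ENNReal} (hg : Measurable g) :
    ∫⁻ x, ENNReal.ofReal (‖DD s x 0‖ ^ β) * g (SS s x) ∂ν = ∫⁻ x, g x ∂ν := by
  rw [← MV_lint ht β s hg.aemeasurable, MV_eq hβ ht h0 hsh s]

end

/-- **The limit theorem.** -/
theorem limit_laws {β : ℝ} (hβ : 0 < β) {T Δ : ℕ → ℝ} (h : Win T Δ) :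
    ∃ φ : ℕ → ℕ, StrictMono φ ∧ ∃ ν : Measure (ℕ → ℂ), IsProbabilityMeasure ν ∧
      Lim β (fun j => T (φ j)) (fun j => Δ (φ j)) ν ∧
      (∀ᵐ x ∂ν, x 0 = 1 ∧ (∀ b : ℝ, 1 < b → ∃ C : ℝ, ∀ k : ℕ, ‖x k‖ ≤ C * b ^ k) ∧
        ∀ k, FE k x = 0) ∧
      (∀ ρ σ : ℝ, 0 < ρ → 0 < σ → ∀ k : ℕ,
        ∫⁻ x, ENNReal.ofReal (‖x k‖ ^ β) ∂ν ≤ ENNReal.ofReal (MC β 0 0 ρ σ k)) ∧
      ∀ (s : ℝ) (g : (ℕ → ℂ) → ENNReal), Measurable g →
        ∫⁻ x, ENNReal.ofReal (‖DD s x 0‖ ^ β) * g (SS s x) ∂ν = ∫⁻ x, g x ∂ν := by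
  obtain ⟨φ, hφ, ν, hν, hl⟩ := exists_lim hβ h
  have hW := h.sub hφ.tendsto_atTop
  have hm : ∀ ρ σ : ℝ, 0 < ρ → 0 < σ → ∀ k : ℕ,
      ∫⁻ x, ENNReal.ofReal (‖x k‖ ^ β) ∂ν ≤ ENNReal.ofReal (MC β 0 0 ρ σ k) :=
    fun ρ σ hρ hσ k => lim_moment hβ hW hl hρ hσ k
  have hgr := lim_growth hβ hm
  have h0 := lim_zero hβ hW hl
  have hfe : ∀ᵐ x ∂ν, ∀ k, FE k x = 0 := ae_all_iff.mpr fun k => lim_FE hβ hW hl k
  have ht : ∀ᵐ x ∂ν, Tame x := by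
    filter_upwards [hgr] with x hx
    exact hx 2 one_lt_two
  refine ⟨φ, hφ, ν, hν, hl, ?_, hm, fun s g hg => ?_⟩
  · filter_upwards [h0, hgr, hfe] with x h1 h2 h3
    exact ⟨h1, h2, h3⟩
  · exact invariance hβ ht h0 (fun s G hG0 hG1 => lim_shift hβ hW hl ht s G hG0 hG1) s hg

end

end Run7.h563.LS
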