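import Pool.Agent.Run7.h563.LS.V

set_option autoImplicit false

/-!
# The entire function of a sequence
-/

namespace Run7.h563.LS

open Complex MeasureTheory Filter Topology Set

noncomputable section

theorem ent_deriv {x : ℕ → ℂ} (hx : Tame x) : deriv (ent x) = ent (fun m => x (m + 1)) := by
  obtain ⟨C, hC⟩ := hx
  have hC0 : 0 ≤ C := by
    have := (norm_nonneg _).trans (hC 0)
    simpa using this
  funext z
  set R : ℝ := ‖z‖ + 1 with hR
  have hR0 : 0 < R := by positivity
  have hz : z ∈ Metric.ball (0 : ℂ) R := by rw [Metric.mem_ball, dist_zero_right]; linarith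
  have h1 := hasSum_deriv_of_summable_norm
      (u := fun m : ℕ => C * ((2 * R) ^ m / m.factorial))
      (F := fun (m : ℕ) (w : ℂ) => x m * w ^ m / m.factorial) (U := Metric.ball 0 R)
      ((Real.summable_pow_div_factorial (2 * R)).mul_left _) (fun m => by fun_prop) Metric.isOpen_ball
      (fun m w hw => by
        rw [Metric.mem_ball, dist_zero_right] at hw
        rw [norm_div, norm_mul, norm_pow, Complex.norm_natCast]
        calc ‖x m‖ * ‖w‖ ^ m / m.factorial ≤ (C * 2 ^ m) * R ^ m / m.factorial := by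
              gcongr
              exact hC m
          _ = _ := by rw [mul_pow]; ring) hz
  have h2 : ∀ m : ℕ, deriv (fun w : ℂ => x m * w ^ m / m.factorial) z =
      x m * (m * z ^ (m - 1)) / m.factorial := by
    intro m
    simp [deriv_div_const]
  simp only [h2] at h1
  have h3 : deriv (ent x) z = ∑' m : ℕ, x m * (m * z ^ (m - 1)) / m.factorial := h1.tsum_eq.symm
  rw [h3, h1.summable.tsum_eq_zero_add]
  unfold ent
  simp only [Nat.cast_zero, zero_mul, mul_zero, zero_div, zero_add]
  refine tsum_congr fun m => ?_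
  rw [Nat.factorial_succ]
  push_cast
  have hm : (m.factorial : ℂ) ≠ 0 := by exact_mod_cast (Nat.factorial_pos m).ne'
  have hm1 : (m : ℂ) + 1 ≠ 0 := by exact_mod_cast Nat.succ_ne_zero m
  field_simp

theorem Tame.shift {x : ℕ → ℂ} (hx : Tame x) (k : ℕ) : Tame fun m => x (k + m) := by
  obtain ⟨C, hC⟩ := hx
  refine ⟨C * 2 ^ k, fun m => (hC _).trans (le_of_eq ?_)⟩
  rw [pow_add]; ring

theorem ent_iter {x : ℕ → ℂ} (hx : Tame x) (k : ℕ) :
    iteratedDeriv k (ent x) = ent (fun m => x (k + m)) := by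
  induction k with
  | zero => simp [iteratedDeriv_zero]
  | succ k ih =>
    rw [iteratedDeriv_succ, ih, ent_deriv (hx.shift k)]
    congr 1
    funext m
    congr 1
    ring

theorem DD_ent {x : ℕ → ℂ} (hx : Tame x) (s : ℝ) (k : ℕ) :
    DD s x k = iteratedDeriv k (ent x) ((s : ℂ) * I) := by
  rw [ent_iter hx]
  rfl

theorem ent_zero (x : ℕ → ℂ) : ent x 0 = x 0 := by
  have := DD_zero x 0
  rw [DD_eq_ent] at this
  simpa using this

/-- exponential type -/
theorem ent_type {x : ℕ → ℂ} {b C : ℝ} (hC : ∀ k, ‖x k‖ ≤ C * b ^ k) (z : ℂ) :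
    ‖ent x z‖ ≤ C * Real.exp (b * ‖z‖) := by
  have h1 : HasSum (fun m : ℕ => C * ((b * ‖z‖) ^ m / m.factorial)) (C * Real.exp (b * ‖z‖)) := by
    have := (Real.summable_pow_div_factorial (b * ‖z‖)).hasSum
    rw [← congrFun (NormedSpace.exp_eq_tsum_div (𝔸 := ℝ)) (b * ‖z‖), ← Real.exp_eq_exp_ℝ] at this
    exact this.mul_left _
  refine tsum_of_norm_bounded h1 fun m => ?_
  rw [norm_div, norm_mul, norm_pow, Complex.norm_natCast]
  calc ‖x m‖ * ‖z‖ ^ m / m.factorial ≤ (C * b ^ m) * ‖z‖ ^ m / m.factorial := by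
        gcongr
        exact hC m
    _ = _ := by rw [mul_pow]; ring

theorem sum_norm {x : ℕ → ℂ} (hx : Tame x) (z : ℂ) :
    Summable fun m : ℕ => ‖x m * z ^ m / m.factorial‖ := by
  obtain ⟨C, hC⟩ := hx
  refine Summable.of_nonneg_of_le (fun m => norm_nonneg _) (fun m => ?_)
    ((Real.summable_pow_div_factorial (2 * ‖z‖)).mul_left C)
  rw [norm_div, norm_mul, norm_pow, Complex.norm_natCast]
  calc ‖x m‖ * ‖z‖ ^ m / m.factorial ≤ (C * 2 ^ m) * ‖z‖ ^ m / m.factorial := by
        gcongr
        exact hC m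
    _ = _ := by rw [mul_pow]; ring

/-- the functional equation of the entire function -/
theorem ent_fe {x : ℕ → ℂ} (hx : Tame x) (hfe : ∀ k, FE k x = 0) (z : ℂ) :
    ent x (-z) = cexp z * (starRingEnd ℂ) (ent x ((starRingEnd ℂ) z)) := by
  have h1 : (starRingEnd ℂ) (ent x ((starRingEnd ℂ) z)) =
      ∑' m : ℕ, (starRingEnd ℂ) (x m) * z ^ m / m.factorial := by
    unfold ent
    rw [Complex.conj_tsum]
    refine tsum_congr fun m => ?_
    rw [map_div₀, map_mul, map_pow, Complex.conj_conj]
    simp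
  have h2 : cexp z = ∑' m : ℕ, z ^ m / m.factorial := by
    rw [Complex.exp_eq_exp_ℂ, NormedSpace.exp_eq_tsum_div]
  have hs1 : Summable fun m : ℕ => ‖z ^ m / (m.factorial : ℂ)‖ := by
    refine (Real.summable_pow_div_factorial ‖z‖).congr fun m => ?_
    rw [norm_div, norm_pow, Complex.norm_natCast]
  have hs2 : Summable fun m : ℕ => ‖(starRingEnd ℂ) (x m) * z ^ m / m.factorial‖ := by
    refine (sum_norm hx z).congr fun m => ?_
    rw [norm_div, norm_div, norm_mul, norm_mul, RCLike.norm_conj]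
  rw [h1, h2, tsum_mul_tsum_eq_tsum_sum_range_of_summable_norm hs1 hs2]
  unfold ent
  refine tsum_congr fun k => ?_
  have h3 := hfe k
  unfold FE at h3
  rw [sub_eq_zero, map_sum] at h3
  have h4 : x k * (-z) ^ k / k.factorial = ((-1) ^ k * x k) * z ^ k / k.factorial := by
    rw [neg_pow]; ring
  rw [h4, h3, Finset.sum_mul, Finset.sum_div]
  refine Finset.sum_congr rfl fun i hi => ?_
  have hik : i ≤ k := by have := Finset.mem_range.mp hi; omega
  rw [map_mul]
  have h5 : (starRingEnd ℂ) ((k.choose i : ℂ)) = (k.choose i : ℂ) := by simp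
  rw [h5]
  have h6 : (k.factorial : ℂ) = k.choose i * (i.factorial * (k - i).factorial) := by
    have := Nat.choose_mul_factorial_mul_factorial hik
    rw [← this]
    push_cast
    ring
  have h7 : z ^ k = z ^ i * z ^ (k - i) := by rw [← pow_add]; congr 1; omega
  have hc : (k.choose i : ℂ) ≠ 0 := by exact_mod_cast (Nat.choose_pos hik).ne'
  have hi0 : (i.factorial : ℂ) ≠ 0 := by exact_mod_cast (Nat.factorial_pos _).ne'
  have hki0 : ((k - i).factorial : ℂ) ≠ 0 := by exact_mod_cast (Nat.factorial_pos _).ne'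
  rw [h6, h7]
  field_simp

end

end Run7.h563.LS
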