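import Pool.Agent.Run7.h563.LS.W

set_option autoImplicit false

/-!
# Moving the window by a distance of the order of the mean spacing
-/

namespace Run7.h563.LS

open Complex MeasureTheory Filter Topology Set Q97.RB Q97.MM

noncomputable section

theorem wt_move (T Δ h t : ℝ) : wt T Δ (t - h) = wt (T + h) Δ t := by
  unfold wt
  congr 3
  ring

theorem JB_eq_sp (β T Δ : ℝ) : JB β T Δ (1 / 2) = ∫ t : ℝ, ‖riemannZeta (sp t)‖ ^ β * wt T Δ t := rfl

theorem JB_move (β T Δ h : ℝ) :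
    JB β (T + h) Δ (1 / 2) = ∫ t : ℝ, ‖riemannZeta (sp (t + h))‖ ^ β * wt T Δ t := by
  rw [JB_eq_sp, ← integral_add_right_eq_self (μ := volume)
    (fun t => ‖riemannZeta (sp t)‖ ^ β * wt (T + h) Δ t) h]
  refine integral_congr_ae (Eventually.of_forall fun t => ?_)
  show ‖riemannZeta (sp (t + h))‖ ^ β * wt (T + h) Δ (t + h) = _
  rw [← wt_move]
  congr 2
  ring

theorem JB_move_int {β T Δ h : ℝ} (hβ : 0 < β) (hΔ : 0 < Δ) (hT : Δ ≤ T + h) :
    Integrable fun t : ℝ => ‖riemannZeta (sp (t + h))‖ ^ β * wt T Δ t := by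
  have h1 := JB_integrable hβ hΔ (T := T + h) (by linarith) hT (x := 1 / 2) (by norm_num) (by norm_num)
  have h2 := h1.comp_add_right h
  refine h2.congr (Eventually.of_forall fun t => ?_)
  show ‖riemannZeta (sp (t + h))‖ ^ β * wt (T + h) Δ (t + h) = _
  rw [← wt_move]
  congr 2
  ring

theorem JB_shift_le {β ε : ℝ} (hβ : 0 < β) (hε : 0 < ε) (h : ℝ) : ∃ B T₀ : ℝ, 1 ≤ B ∧ 200 ≤ T₀ ∧
    ∀ T Δ : ℝ, T₀ ≤ T → 0 < Δ → B ≤ Δ ^ 2 * Real.log T → Δ ≤ T / (2 * Real.log T) →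
    Δ ≤ T + h / Real.log T ∧ Δ ≤ T ∧
    JB β (T + h / Real.log T) Δ (1 / 2) ≤ (1 + 2 * ε) * JB β T Δ (1 / 2) := by
  obtain ⟨B, T₀, hB, hT₀, hs⟩ := shift_ineq hβ hε h
  refine ⟨B, max T₀ (2 * |h|), hB, hT₀.trans (le_max_left _ _), fun T Δ hT hΔ hBΔ hΔT => ?_⟩
  have hTT : T₀ ≤ T := (le_max_left _ _).trans hT
  have hTh : 2 * |h| ≤ T := (le_max_right _ _).trans hT
  have hT3 : 3 ≤ T := by linarith
  have hT0 : 0 < T := by linarith
  have hlog := log_ge_one hT3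
  have hL0 : 0 < Real.log T := by linarith
  have hΔ2 : Δ ≤ T / 2 := hΔT.trans (by gcongr; linarith)
  have hhL : |h / Real.log T| ≤ |h| := by
    rw [abs_div, abs_of_pos hL0]
    exact div_le_self (abs_nonneg _) hlog
  have hm : Δ ≤ T + h / Real.log T := by
    have := neg_abs_le (h / Real.log T)
    linarith
  refine ⟨hm, by linarith, ?_⟩
  have h1 := hs T Δ hTT hΔ hBΔ hΔT (fun _ => 1) measurable_const (fun _ => zero_le_one) (fun _ => le_rfl)
  simp only [mul_one] at h1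
  have hJ0 := JB_nonneg β T Δ (1 / 2)
  have hi := JB_integrable hβ hΔ hT0.le (by linarith) (x := 1 / 2) (by norm_num) (by norm_num)
  have e1 : ∫⁻ t : ℝ, ENNReal.ofReal (‖riemannZeta (sp t)‖ ^ β * wt T Δ t) =
      ENNReal.ofReal (JB β T Δ (1 / 2)) :=
    (ofReal_integral_eq_lintegral_ofReal hi (Eventually.of_forall fun t =>
      mul_nonneg (by positivity) (wt_pos _ _ _).le)).symm
  have e2 : ∫⁻ t : ℝ, ENNReal.ofReal (‖riemannZeta (sp (t + h / Real.log T))‖ ^ β * wt T Δ t) =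
      ENNReal.ofReal (JB β (T + h / Real.log T) Δ (1 / 2)) := by
    rw [JB_move]
    exact (ofReal_integral_eq_lintegral_ofReal (JB_move_int hβ hΔ hm) (Eventually.of_forall fun t =>
      mul_nonneg (by positivity) (wt_pos _ _ _).le)).symm
  rw [e1, e2, ← ENNReal.ofReal_mul (by positivity), ← ENNReal.ofReal_add (by positivity) (by positivity)]
    at h1
  have h2 := (ENNReal.ofReal_le_ofReal_iff (by positivity)).mp h1
  linarith

/-- the squared relative distance of the window and of the moved window -/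
theorem wt_quad {T Δ : ℝ} (h t : ℝ) :
    (wt T Δ (t - h) - wt T Δ t) ^ 2 / wt T Δ t =
      Real.exp (2 * (h / Δ) ^ 2) * wt T Δ (t - 2 * h) - 2 * wt T Δ (t - h) + wt T Δ t := by
  have hw := wt_pos T Δ t
  have e1 : wt T Δ (t - h) ^ 2 / wt T Δ t = Real.exp (2 * (h / Δ) ^ 2) * wt T Δ (t - 2 * h) := by
    unfold wt
    rw [← Real.exp_nat_mul, ← Real.exp_sub, ← Real.exp_add]
    congr 1
    push_cast
    ring
  rw [← e1]
  field_simp
  ring

theorem wt_pair {T Δ : ℝ} (h t : ℝ) :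
    2 * Real.exp (-(h / Δ) ^ 2) * wt T Δ t ≤ wt T Δ (t - h) + wt T Δ (t + h) := by
  have e1 : (Real.exp (-(h / Δ) ^ 2) * wt T Δ t) ^ 2 = wt T Δ (t - h) * wt T Δ (t + h) := by
    unfold wt
    rw [mul_pow, ← Real.exp_nat_mul, ← Real.exp_nat_mul, ← Real.exp_add, ← Real.exp_add]
    congr 1
    push_cast
    ring
  have h1 := wt_pos T Δ (t - h)
  have h2 := wt_pos T Δ (t + h)
  have h3 : 0 < Real.exp (-(h / Δ) ^ 2) * wt T Δ t := mul_pos (Real.exp_pos _) (wt_pos _ _ _)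
  nlinarith [sq_nonneg (wt T Δ (t - h) - wt T Δ (t + h))]

theorem Win.delta {T Δ : ℕ → ℝ} (h : Win T Δ) (b : ℝ) :
    Tendsto (fun j => (b / Real.log (T j) / Δ j) ^ 2) atTop (𝓝 0) := by
  have h1 : Tendsto (fun j => b ^ 2 / (Δ j ^ 2 * Real.log (T j))) atTop (𝓝 0) :=
    tendsto_const_nhds.div_atTop h.hB
  refine squeeze_zero' (Eventually.of_forall fun j => sq_nonneg _) ?_ h1
  filter_upwards [h.hT.eventually_ge_atTop 3] with j hj
  have hlog := log_ge_one hj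
  have hΔ := h.hΔ j
  have hL0 : 0 < Real.log (T j) := by linarith
  rw [div_div, div_pow]
  refine div_le_div_of_nonneg_left (sq_nonneg b) (by positivity) ?_
  rw [mul_pow]
  nlinarith [mul_nonneg (sq_nonneg (Δ j)) (mul_nonneg hL0.le (show 0 ≤ Real.log (T j) - 1 by linarith))]

/-- the moment in the moved window -/
theorem Win.ratio {β : ℝ} (hβ : 0 < β) {T Δ : ℕ → ℝ} (h : Win T Δ) (b : ℝ) :
    Tendsto (fun j => JB β (T j + b / Real.log (T j)) (Δ j) (1 / 2) / JB β (T j) (Δ j) (1 / 2))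
      atTop (𝓝 1) := by
  rw [Metric.tendsto_atTop']
  intro ε hε
  set η : ℝ := ε / 8 with hη
  have hη0 : 0 < η := by positivity
  obtain ⟨B₁, T₁, -, hT₁, h₁⟩ := JB_shift_le hβ hη0 b
  obtain ⟨B₂, T₂, -, hT₂, h₂⟩ := JB_shift_le hβ hη0 (-b)
  have hδ := h.delta b
  have hexp : Tendsto (fun j => Real.exp (-(b / Real.log (T j) / Δ j) ^ 2)) atTop (𝓝 1) := by
    have := (Real.continuous_exp.tendsto _).comp hδ.neg
    rw [neg_zero, Real.exp_zero] at this
    exact this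
  have hev : ∀ᶠ j in atTop, |JB β (T j + b / Real.log (T j)) (Δ j) (1 / 2) /
      JB β (T j) (Δ j) (1 / 2) - 1| < ε := by
    filter_upwards [h.ev (B := B₁) (T₀ := T₁), h.ev (B := B₂) (T₀ := T₂), h.prob hβ,
      hexp.eventually_const_lt (show 1 - η < 1 by linarith)] with j hj1 hj2 hpj hej
    obtain ⟨a1, a2, a3, a4⟩ := hj1
    obtain ⟨b1, b2, b3, b4⟩ := hj2
    obtain ⟨c1, c2, c3⟩ := h₁ _ _ a1 a2 a3 a4
    obtain ⟨d1, d2, d3⟩ := h₂ _ _ b1 b2 b3 b4
    have hJ := hpj.1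
    set L := Real.log (T j) with hL
    set J := JB β (T j) (Δ j) (1 / 2) with hJd
    have hT0 : 0 < T j := by linarith
    -- lower bound
    have hlow : 2 * Real.exp (-(b / L / Δ j) ^ 2) * J ≤
        JB β (T j + b / L) (Δ j) (1 / 2) + JB β (T j + -b / L) (Δ j) (1 / 2) := by
      have i0 := JB_integrable hβ a2 hT0.le c2 (x := 1 / 2) (by norm_num) (by norm_num)
      have i1 : Integrable fun t : ℝ => ‖riemannZeta (sp t)‖ ^ β * wt (T j + b / L) (Δ j) t :=
        JB_integrable hβ a2 (by linarith) c1 (x := 1 / 2) (by norm_num) (by norm_num)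
      have i2 : Integrable fun t : ℝ => ‖riemannZeta (sp t)‖ ^ β * wt (T j + -b / L) (Δ j) t :=
        JB_integrable hβ a2 (by linarith) d1 (x := 1 / 2) (by norm_num) (by norm_num)
      rw [hJd, JB_eq_sp, JB_eq_sp, JB_eq_sp, ← integral_add i1 i2, ← integral_const_mul]
      refine integral_mono (i0.const_mul _) (i1.add i2) fun t => ?_
      have h5 := wt_pair (T := T j) (Δ := Δ j) (b / L) t
      have e1 : wt (T j + b / L) (Δ j) t = wt (T j) (Δ j) (t - b / L) := (wt_move _ _ _ _).symm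
      have e2 : wt (T j + -b / L) (Δ j) t = wt (T j) (Δ j) (t + b / L) := by
        rw [← wt_move]; congr 1; ring
      show 2 * Real.exp (-(b / L / Δ j) ^ 2) * (‖riemannZeta (sp t)‖ ^ β * wt (T j) (Δ j) t) ≤
        ‖riemannZeta (sp t)‖ ^ β * wt (T j + b / L) (Δ j) t +
        ‖riemannZeta (sp t)‖ ^ β * wt (T j + -b / L) (Δ j) t
      rw [e1, e2]
      have h6 : 0 ≤ ‖riemannZeta (sp t)‖ ^ β := by positivity
      nlinarith
    have hA := c3
    have hA' : JB β (T j + -b / L) (Δ j) (1 / 2) ≤ (1 + 2 * η) * J := d3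
    have hup : JB β (T j + b / L) (Δ j) (1 / 2) / J ≤ 1 + 2 * η := (div_le_iff₀ hJ).mpr hA
    have hlo : 1 - 4 * η ≤ JB β (T j + b / L) (Δ j) (1 / 2) / J := by
      rw [le_div_iff₀ hJ]
      nlinarith
    rw [abs_lt]
    constructor <;> linarith
  obtain ⟨N, hN⟩ := eventually_atTop.mp hev
  exact ⟨N, fun n hn => by rw [Real.dist_eq]; exact hN n hn.le⟩

/-- the quadratic distance tends to zero -/
theorem Win.quad {β : ℝ} (hβ : 0 < β) {T Δ : ℕ → ℝ} (h : Win T Δ) (b : ℝ) :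
    Tendsto (fun j => (∫ t : ℝ, ‖riemannZeta (sp t)‖ ^ β *
      ((wt (T j) (Δ j) (t - b / Real.log (T j)) - wt (T j) (Δ j) t) ^ 2 / wt (T j) (Δ j) t)) /
        JB β (T j) (Δ j) (1 / 2)) atTop (𝓝 0) := by
  have hδ := h.delta b
  have hexp : Tendsto (fun j => Real.exp (2 * (b / Real.log (T j) / Δ j) ^ 2)) atTop (𝓝 1) := by
    have := (Real.continuous_exp.tendsto _).comp (hδ.const_mul 2)
    rw [mul_zero, Real.exp_zero] at this
    exact this
  have h1 := ((hexp.mul (h.ratio hβ (2 * b))).sub ((h.ratio hβ b).const_mul 2)).add_const 1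
  have e0 : (1 : ℝ) * 1 - 2 * 1 + 1 = 0 := by norm_num
  rw [e0] at h1
  refine h1.congr' ?_
  obtain ⟨B₁, T₁, -, hT₁, h₁⟩ := JB_shift_le hβ one_pos b
  obtain ⟨B₂, T₂, -, hT₂, h₂⟩ := JB_shift_le hβ one_pos (2 * b)
  filter_upwards [h.ev (B := B₁) (T₀ := T₁), h.ev (B := B₂) (T₀ := T₂), h.prob hβ] with j hj1 hj2 hpj
  obtain ⟨a1, a2, a3, a4⟩ := hj1
  obtain ⟨b1, b2, b3, b4⟩ := hj2
  obtain ⟨c1, c2, c3⟩ := h₁ _ _ a1 a2 a3 a4
  obtain ⟨d1, d2, d3⟩ := h₂ _ _ b1 b2 b3 b4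
  have hJ := hpj.1
  set L := Real.log (T j) with hL
  set J := JB β (T j) (Δ j) (1 / 2) with hJd
  have hT0 : 0 < T j := by linarith
  have i0 : Integrable fun t : ℝ => ‖riemannZeta (sp t)‖ ^ β * wt (T j) (Δ j) t :=
    JB_integrable hβ a2 hT0.le c2 (x := 1 / 2) (by norm_num) (by norm_num)
  have i1 : Integrable fun t : ℝ => ‖riemannZeta (sp t)‖ ^ β * wt (T j + b / L) (Δ j) t :=
    JB_integrable hβ a2 (by linarith) c1 (x := 1 / 2) (by norm_num) (by norm_num)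
  have i2 : Integrable fun t : ℝ => ‖riemannZeta (sp t)‖ ^ β * wt (T j + 2 * b / L) (Δ j) t :=
    JB_integrable hβ a2 (by linarith) d1 (x := 1 / 2) (by norm_num) (by norm_num)
  have e1 : ∫ t : ℝ, ‖riemannZeta (sp t)‖ ^ β *
      ((wt (T j) (Δ j) (t - b / L) - wt (T j) (Δ j) t) ^ 2 / wt (T j) (Δ j) t) =
      Real.exp (2 * (b / L / Δ j) ^ 2) * JB β (T j + 2 * b / L) (Δ j) (1 / 2) -
        2 * JB β (T j + b / L) (Δ j) (1 / 2) + J := by
    have i3 : Integrable fun t : ℝ => Real.exp (2 * (b / L / Δ j) ^ 2) * (‖riemannZeta (sp t)‖ ^ β *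
        wt (T j + 2 * b / L) (Δ j) t) - 2 * (‖riemannZeta (sp t)‖ ^ β * wt (T j + b / L) (Δ j) t) :=
      (i2.const_mul _).sub (i1.const_mul _)
    rw [hJd, JB_eq_sp, JB_eq_sp, JB_eq_sp, ← integral_const_mul, ← integral_const_mul,
      ← integral_sub (i2.const_mul _) (i1.const_mul _), ← integral_add i3 i0]
    refine integral_congr_ae (Eventually.of_forall fun t => ?_)
    simp only
    rw [wt_quad]
    have e2 : wt (T j + b / L) (Δ j) t = wt (T j) (Δ j) (t - b / L) := (wt_move _ _ _ _).symm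
    have e3 : wt (T j + 2 * b / L) (Δ j) t = wt (T j) (Δ j) (t - 2 * (b / L)) := by
      rw [← wt_move]; congr 1; ring
    rw [e2, e3]
    ring
  rw [e1]
  field_simp

end

end Run7.h563.LS
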