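import Pool.Agent.Run7.h563.LS.Y

set_option autoImplicit false

/-!
# Convergence of shifted moments
-/

namespace Run7.h563.LS

open Complex MeasureTheory Filter Topology Set Q97.RB Q97.MM

noncomputable section

/-- truncated powers of complex numbers -/
def tau (k : ℕ) (M : ℝ) (u : ℂ) : ℂ := u ^ k * ((M / max M (‖u‖ ^ k) : ℝ) : ℂ)

theorem tau_cont (k : ℕ) {M : ℝ} (hM : 0 < M) : Continuous (tau k M) := by
  unfold tau
  refine (continuous_pow k).mul (Complex.continuous_ofReal.comp ?_)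
  refine continuous_const.div (continuous_const.max (continuous_norm.pow k)) fun u => ?_
  exact (lt_max_of_lt_left hM).ne'

theorem tau_bd (k : ℕ) {M : ℝ} (hM : 0 < M) (u : ℂ) : ‖tau k M u‖ ≤ M := by
  have h0 : 0 < max M (‖u‖ ^ k) := lt_max_of_lt_left hM
  unfold tau
  rw [norm_mul, norm_pow, Complex.norm_real, Real.norm_of_nonneg (by positivity), ← mul_div_assoc,
    div_le_iff₀ h0, mul_comm]
  exact mul_le_mul_of_nonneg_left (le_max_right _ _) hM.le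

theorem tau_close (k : ℕ) {M : ℝ} (hM : 0 < M) (u : ℂ) : ‖u ^ k - tau k M u‖ ≤ (‖u‖ ^ k) ^ 2 / M := by
  have h0 : 0 < max M (‖u‖ ^ k) := lt_max_of_lt_left hM
  have hu : 0 ≤ ‖u‖ ^ k := by positivity
  have e1 : u ^ k - tau k M u = u ^ k * ((1 - M / max M (‖u‖ ^ k) : ℝ) : ℂ) := by
    unfold tau
    push_cast
    ring
  have h1 : M / max M (‖u‖ ^ k) ≤ 1 := (div_le_one h0).mpr (le_max_left _ _)
  rw [e1, norm_mul, norm_pow, Complex.norm_real, Real.norm_of_nonneg (by linarith), sq, mul_div_assoc]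
  refine mul_le_mul_of_nonneg_left ?_ hu
  rcases le_total (‖u‖ ^ k) M with h2 | h2
  · rw [max_eq_left h2, div_self hM.ne', sub_self]
    positivity
  · rw [max_eq_right h2]
    have hup : 0 < ‖u‖ ^ k := hM.trans_le h2
    rw [le_div_iff₀ hM, sub_mul, div_mul_eq_mul_div, sub_le_iff_le_add]
    have : M * M / ‖u‖ ^ k + ‖u‖ ^ k - 1 * M = (M * M + ‖u‖ ^ k * ‖u‖ ^ k - M * ‖u‖ ^ k) / ‖u‖ ^ k := by
      field_simp
    nlinarith [show 0 ≤ M * M / ‖u‖ ^ k + ‖u‖ ^ k - 1 * M by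
      rw [this]
      apply div_nonneg _ hup.le
      nlinarith [sq_nonneg (M - ‖u‖ ^ k), mul_pos hM hup]]

theorem int_of_sq {α : Type*} [MeasurableSpace α] {μ : Measure α} {Y : α → ℂ} (hY : AEMeasurable Y μ)
    (k : ℕ) {C : ℝ} (hC0 : 0 ≤ C) (hC : ∫⁻ t, ENNReal.ofReal ((‖Y t‖ ^ k) ^ 2) ∂μ ≤ ENNReal.ofReal C) :
    Integrable (fun t => (‖Y t‖ ^ k) ^ 2) μ ∧ ∫ t, (‖Y t‖ ^ k) ^ 2 ∂μ ≤ C := by
  have hm : AEStronglyMeasurable (fun t => (‖Y t‖ ^ k) ^ 2) μ :=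
    ((hY.norm.pow_const k).pow_const 2).aestronglyMeasurable
  have h0 : 0 ≤ᵐ[μ] fun t => (‖Y t‖ ^ k) ^ 2 := Eventually.of_forall fun t => by
    show 0 ≤ (‖Y t‖ ^ k) ^ 2
    positivity
  refine ⟨⟨hm, ?_⟩, ?_⟩
  · rw [hasFiniteIntegral_iff_ofReal h0]
    exact hC.trans_lt ENNReal.ofReal_lt_top
  · rw [integral_eq_lintegral_of_nonneg_ae h0 hm]
    exact ENNReal.toReal_le_of_le_ofReal hC0 hC

theorem pow_int {α : Type*} [MeasurableSpace α] {μ : Measure α} [IsFiniteMeasure μ] {Y : α → ℂ}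
    (hY : AEMeasurable Y μ) (k : ℕ) (h : Integrable (fun t => (‖Y t‖ ^ k) ^ 2) μ) :
    Integrable (fun t => Y t ^ k) μ := by
  refine Integrable.mono' ((integrable_const (1 : ℝ)).add h) (hY.pow_const k).aestronglyMeasurable
    (Eventually.of_forall fun t => ?_)
  rw [norm_pow]
  show ‖Y t‖ ^ k ≤ 1 + (‖Y t‖ ^ k) ^ 2
  nlinarith [sq_nonneg (‖Y t‖ ^ k - 1), show 0 ≤ ‖Y t‖ ^ k by positivity]

theorem tau_err {α : Type*} [MeasurableSpace α] {μ : Measure α} [IsFiniteMeasure μ] {Y : α → ℂ}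
    (hY : AEMeasurable Y μ) (k : ℕ) {C M : ℝ} (hC0 : 0 ≤ C) (hM : 0 < M)
    (hC : ∫⁻ t, ENNReal.ofReal ((‖Y t‖ ^ k) ^ 2) ∂μ ≤ ENNReal.ofReal C) :
    ‖(∫ t, Y t ^ k ∂μ) - ∫ t, tau k M (Y t) ∂μ‖ ≤ C / M := by
  obtain ⟨h1, h2⟩ := int_of_sq hY k hC0 hC
  have hτ : Integrable (fun t => tau k M (Y t)) μ :=
    Integrable.of_bound ((tau_cont k hM).measurable.comp_aemeasurable hY).aestronglyMeasurable M
      (Eventually.of_forall fun t => tau_bd k hM _)
  rw [← integral_sub (pow_int hY k h1) hτ]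
  refine (norm_integral_le_of_norm_le (h1.div_const M) (Eventually.of_forall fun t =>
    tau_close k hM (Y t))).trans ?_
  rw [integral_div]
  gcongr

theorem trunc_conv {P : ℕ → Measure ℝ} {Y : ℕ → ℝ → ℂ} (hY : ∀ j, Measurable (Y j))
    (hp : ∀ᶠ j in atTop, IsProbabilityMeasure (P j)) {ν' : Measure (ℕ → ℂ)} [IsProbabilityMeasure ν']
    {y : (ℕ → ℂ) → ℂ} (hy : Measurable y) (k : ℕ) {C : ℝ} (hC0 : 0 ≤ C)
    (hC : ∀ᶠ j in atTop, ∫⁻ t, ENNReal.ofReal ((‖Y j t‖ ^ k) ^ 2) ∂(P j) ≤ ENNReal.ofReal C)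
    (hC' : ∫⁻ z, ENNReal.ofReal ((‖y z‖ ^ k) ^ 2) ∂ν' ≤ ENNReal.ofReal C)
    (hlim : ∀ F : BoundedContinuousFunction ℂ ℝ,
      Tendsto (fun j => ∫ t, F (Y j t) ∂(P j)) atTop (𝓝 (∫ z, F (y z) ∂ν'))) :
    Tendsto (fun j => ∫ t, Y j t ^ k ∂(P j)) atTop (𝓝 (∫ z, y z ^ k ∂ν')) := by
  -- truncated functions
  have htau : ∀ M : ℝ, 0 < M →
      Tendsto (fun j => ∫ t, tau k M (Y j t) ∂(P j)) atTop (𝓝 (∫ z, tau k M (y z) ∂ν')) := by
    intro M hM
    have hc := tau_cont k hM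
    set Fr : BoundedContinuousFunction ℂ ℝ := BoundedContinuousFunction.ofNormedAddCommGroup
      (fun u => (tau k M u).re) (Complex.continuous_re.comp hc) M (fun u =>
        (Complex.abs_re_le_norm _).trans (tau_bd k hM u)) with hFr
    set Fi : BoundedContinuousFunction ℂ ℝ := BoundedContinuousFunction.ofNormedAddCommGroup
      (fun u => (tau k M u).im) (Complex.continuous_im.comp hc) M (fun u =>
        (Complex.abs_im_le_norm _).trans (tau_bd k hM u)) with hFi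
    have h1 := ((Complex.continuous_ofReal.tendsto _).comp (hlim Fr)).add
      (((Complex.continuous_ofReal.tendsto _).comp (hlim Fi)).mul_const I)
    have e2 : ((∫ z, Fr (y z) ∂ν' : ℝ) : ℂ) + ((∫ z, Fi (y z) ∂ν' : ℝ) : ℂ) * I =
        ∫ z, tau k M (y z) ∂ν' := by
      have hi : Integrable (fun z => tau k M (y z)) ν' :=
        Integrable.of_bound (hc.measurable.comp hy).aestronglyMeasurable M
          (Eventually.of_forall fun t => tau_bd k hM _)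
      exact integral_re_add_im (𝕜 := ℂ) hi
    rw [e2] at h1
    refine h1.congr' ?_
    filter_upwards [hp] with j hj
    have hi : Integrable (fun t => tau k M (Y j t)) (P j) :=
      Integrable.of_bound (hc.measurable.comp (hY j)).aestronglyMeasurable M
        (Eventually.of_forall fun t => tau_bd k hM _)
    exact integral_re_add_im (𝕜 := ℂ) hi
  rw [Metric.tendsto_atTop']
  intro ε hε
  set M : ℝ := 4 * (C + 1) / ε with hM
  have hM0 : 0 < M := by positivity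
  have hCM : C / M ≤ ε / 4 := by
    rw [hM, div_le_div_iff₀ (by positivity) (by norm_num)]
    have : ε * (4 * (C + 1) / ε) = 4 * (C + 1) := by field_simp
    rw [this]
    linarith
  have hev : ∀ᶠ j in atTop, dist (∫ t, Y j t ^ k ∂(P j)) (∫ z, y z ^ k ∂ν') < ε := by
    filter_upwards [hp, hC, (Metric.tendsto_nhds.mp (htau M hM0)) (ε / 4) (by positivity)]
      with j hj hCj hτj
    have h1 := tau_err (hY j).aemeasurable k hC0 hM0 hCj
    have h2 := tau_err hy.aemeasurable k hC0 hM0 hC'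
    rw [dist_eq_norm] at hτj ⊢
    have e1 : (∫ t, Y j t ^ k ∂(P j)) - ∫ z, y z ^ k ∂ν' =
        ((∫ t, Y j t ^ k ∂(P j)) - ∫ t, tau k M (Y j t) ∂(P j)) +
        ((∫ t, tau k M (Y j t) ∂(P j)) - ∫ z, tau k M (y z) ∂ν') -
        ((∫ z, y z ^ k ∂ν') - ∫ z, tau k M (y z) ∂ν') := by ring
    rw [e1]
    refine (norm_sub_le _ _).trans_lt ?_
    have h3 := norm_add_le ((∫ t, Y j t ^ k ∂(P j)) - ∫ t, tau k M (Y j t) ∂(P j))
      ((∫ t, tau k M (Y j t) ∂(P j)) - ∫ z, tau k M (y z) ∂ν')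
    linarith
  obtain ⟨N, hN⟩ := eventually_atTop.mp hev
  exact ⟨N, fun n hn => hN n hn.le⟩

theorem rpow_two_mul (k : ℕ) {u : ℝ} (hu : 0 ≤ u) : u ^ (2 * (k : ℝ)) = (u ^ k) ^ 2 := by
  rw [← pow_mul, mul_comm k 2, ← Real.rpow_natCast]
  push_cast
  rfl

/-- convergence of the mean of the `k`-th power of the quotient -/
theorem conv_pow {k : ℕ} (hk : 1 ≤ k) {T Δ : ℕ → ℝ} (h : Win T Δ) {ν : Measure (ℕ → ℂ)}
    [IsProbabilityMeasure ν] (hl : Lim (2 * (k : ℝ)) T Δ ν) (ht : ∀ᵐ x ∂ν, Tame x)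
    (h0 : ∀ᵐ x ∂ν, x 0 = 1) (c : ℝ) :
    Tendsto (fun j => ∫ t, YN (Real.log (T j)) c t 0 ^ k ∂(PM (2 * (k : ℝ)) (T j) (Δ j))) atTop
      (𝓝 (∫ x, DD c x 0 ^ k ∂ν)) := by
  have hk0 : (0 : ℝ) < k := by exact_mod_cast hk
  have hβ : (0 : ℝ) < 2 * (k : ℝ) := by positivity
  refine tendsto_of_subseq_tendsto fun ns hns => ?_
  have hW := h.sub hns
  have hL := hl.sub hns
  obtain ⟨φ, hφ, ν', hν', hmap, htame, hodn, hlim⟩ := joint hβ hW hL ht c
  refine ⟨φ, ?_⟩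
  have hWφ := hW.sub hφ
  have hC0 : 0 ≤ MY (2 * (k : ℝ)) c 0 0 + 1 := by have := MY_nonneg (2 * (k : ℝ)) c 0 0; linarith
  have hmass : ∫⁻ x, ENNReal.ofReal (‖DD c x 0‖ ^ (2 * (k : ℝ))) ∂ν ≤ 1 := by
    rw [← MV_mass ht c]
    exact MV_univ ht (fun s G hG0 hG1 => lim_shift hβ h hl ht s G hG0 hG1) c
  have hmm : ∀ g : ℂ → ENNReal, Measurable g →
      ∫⁻ x, g (DD c x 0) ∂ν = ∫⁻ z, g (odn z 0) ∂ν' := by
    intro g hg
    have ha : AEMeasurable (fun x => g (DD c x 0)) (ν'.map evn) := by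
      rw [hmap]; exact hg.comp_aemeasurable (DD_aem ht c 0)
    conv_lhs => rw [← hmap]
    rw [lintegral_map' ha evn_cont.measurable.aemeasurable]
    refine lintegral_congr_ae ?_
    filter_upwards [hodn] with z hz
    rw [hz 0]
  have e1 : ∫ x, DD c x 0 ^ k ∂ν = ∫ z, odn z 0 ^ k ∂ν' := by
    have ha : AEStronglyMeasurable (fun x => DD c x 0 ^ k) (ν'.map evn) := by
      rw [hmap]; exact ((DD_aem ht c 0).pow_const k).aestronglyMeasurable
    conv_lhs => rw [← hmap]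
    rw [integral_map evn_cont.measurable.aemeasurable ha]
    refine integral_congr_ae ?_
    filter_upwards [hodn] with z hz
    rw [hz 0]
  rw [e1]
  refine trunc_conv (Y := fun j t => YN (Real.log (T (ns (φ j)))) c t 0)
    (y := fun z => odn z 0) (C := MY (2 * (k : ℝ)) c 0 0 + 1)
    (fun j => measurable_pi_iff.mp (YN_meas _ _) 0) ?_
    (measurable_pi_iff.mp odn_cont.measurable 0) k hC0 ?_ ?_ ?_
  · filter_upwards [hWφ.prob hβ] with j hj
    exact hj.2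
  · filter_upwards [hWφ.EY hβ c] with j hj
    have h1 := hj 0 0
    simp only [DN, Finset.range_zero, Finset.sum_empty, sub_zero] at h1
    refine le_trans (le_of_eq (lintegral_congr fun t => ?_))
      (h1.trans (ENNReal.ofReal_le_ofReal (by linarith)))
    rw [rpow_two_mul k (norm_nonneg _)]
  · have h2 : ∫⁻ z, ENNReal.ofReal ((‖odn z 0‖ ^ k) ^ 2) ∂ν' =
        ∫⁻ x, ENNReal.ofReal (‖DD c x 0‖ ^ (2 * (k : ℝ))) ∂ν := by
      rw [hmm (fun u => ENNReal.ofReal (‖u‖ ^ (2 * (k : ℝ)))) (by fun_prop)]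
      refine lintegral_congr fun z => ?_
      rw [rpow_two_mul k (norm_nonneg _)]
    rw [h2]
    refine hmass.trans ?_
    rw [← ENNReal.ofReal_one]
    exact ENNReal.ofReal_le_ofReal (by have := MY_nonneg (2 * (k : ℝ)) c 0 0; linarith)
  · intro F
    exact hlim (F.compContinuous ⟨fun z : ℕ → ℂ => z 0, continuous_apply 0⟩)

end

end Run7.h563.LS
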