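import Pool.Agent.Run7.h563.LS.Z

set_option autoImplicit false

/-!
# Convergence of shifted moments, second part
-/

namespace Run7.h563.LS

open Complex MeasureTheory Filter Topology Set Q97.RB Q97.MM

noncomputable section

/-- the shifted moment -/
def SM (k : ℕ) (T Δ h h' : ℝ) : ℂ :=
  ∫ t : ℝ, riemannZeta (sp (t + h)) ^ k * (starRingEnd ℂ) (riemannZeta (sp (t + h'))) ^ k * (wt T Δ t : ℂ)

theorem SM_move (k : ℕ) (T Δ h h' : ℝ) : SM k T Δ h h' =
    ∫ t : ℝ, riemannZeta (sp (t + (h - h'))) ^ k * (starRingEnd ℂ) (riemannZeta (sp t)) ^ k *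
      (wt T Δ (t - h') : ℂ) := by
  unfold SM
  rw [← integral_add_right_eq_self (μ := volume) (fun t : ℝ => riemannZeta (sp (t + (h - h'))) ^ k *
    (starRingEnd ℂ) (riemannZeta (sp t)) ^ k * (wt T Δ (t - h') : ℂ)) h']
  refine integral_congr_ae (Eventually.of_forall fun t => ?_)
  simp only
  have e1 : t + h' + (h - h') = t + h := by ring
  have e2 : t + h' - h' = t := by ring
  rw [e1, e2]

theorem mean_YN {k : ℕ} (hk : 1 ≤ k) (L T Δ c : ℝ) (hL : L = Real.log T) :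
    ∫ t, YN L c t 0 ^ k ∂(PM (2 * (k : ℝ)) T Δ) =
      (∫ t : ℝ, riemannZeta (sp (t + c / L)) ^ k * (starRingEnd ℂ) (riemannZeta (sp t)) ^ k *
        (wt T Δ t : ℂ)) / (JB (2 * (k : ℝ)) T Δ (1 / 2) : ℂ) := by
  have hk0 : (0 : ℝ) < k := by exact_mod_cast hk
  have hβ : (0 : ℝ) < 2 * (k : ℝ) := by positivity
  unfold PM
  rw [integral_withDensity_eq_integral_toReal_smul (dn_cont hβ T Δ).measurable.ennreal_ofReal
    (Eventually.of_forall fun t => ENNReal.ofReal_lt_top), ← integral_div]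
  refine integral_congr_ae (Eventually.of_forall fun t => ?_)
  simp only
  rw [ENNReal.toReal_ofReal (dn_nonneg _ _ _ _)]
  unfold YN dn
  rw [iteratedDeriv_zero, pow_zero, mul_one, Complex.real_smul]
  rcases eq_or_ne (riemannZeta (sp t)) 0 with h0 | h0
  · rw [h0, norm_zero, Real.zero_rpow hβ.ne', map_zero, zero_pow (by omega)]
    simp
  · have e1 : ((‖riemannZeta (sp t)‖ ^ (2 * (k : ℝ)) : ℝ) : ℂ) =
        riemannZeta (sp t) ^ k * (starRingEnd ℂ) (riemannZeta (sp t)) ^ k := by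
      rw [rpow_two_mul k (norm_nonneg _), ← pow_mul, mul_comm k 2, pow_mul, ← mul_pow,
        Complex.mul_conj, Complex.normSq_eq_norm_sq]
      push_cast
      rfl
    push_cast at e1 ⊢
    rw [e1, div_pow]
    field_simp

theorem quad_int {β T Δ h : ℝ} (hβ : 0 < β) (hΔ : 0 < Δ) (hT : 0 ≤ T) (c0 : Δ ≤ T) (c1 : Δ ≤ T + h)
    (c2 : Δ ≤ T + 2 * h) : Integrable fun t : ℝ => ‖riemannZeta (sp t)‖ ^ β *
      ((wt T Δ (t - h) - wt T Δ t) ^ 2 / wt T Δ t) := by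
  have i0 : Integrable fun t : ℝ => ‖riemannZeta (sp t)‖ ^ β * wt T Δ t :=
    JB_integrable hβ hΔ hT c0 (x := 1 / 2) (by norm_num) (by norm_num)
  have i1 : Integrable fun t : ℝ => ‖riemannZeta (sp t)‖ ^ β * wt (T + h) Δ t :=
    JB_integrable hβ hΔ (by linarith) c1 (x := 1 / 2) (by norm_num) (by norm_num)
  have i2 : Integrable fun t : ℝ => ‖riemannZeta (sp t)‖ ^ β * wt (T + 2 * h) Δ t :=
    JB_integrable hβ hΔ (by linarith) c2 (x := 1 / 2) (by norm_num) (by norm_num)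
  refine (((i2.const_mul (Real.exp (2 * (h / Δ) ^ 2))).sub (i1.const_mul 2)).add i0).congr
    (Eventually.of_forall fun t => ?_)
  simp only [Pi.add_apply, Pi.sub_apply]
  rw [wt_quad, ← wt_move, ← wt_move]
  ring

theorem close_pt {A B w d η : ℝ} (hw : 0 < w) (hη : 0 < η) :
    A * B * |d| ≤ η / 2 * (A ^ 2 * w) + 1 / (2 * η) * (B ^ 2 * (d ^ 2 / w)) := by
  have h1 : η / 2 * (A ^ 2 * w) + 1 / (2 * η) * (B ^ 2 * (d ^ 2 / w)) - A * B * |d| =
      1 / (2 * η * w) * (η * A * w - B * |d|) ^ 2 := by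
    rw [← sq_abs d]
    field_simp
    ring
  have h2 : 0 ≤ 1 / (2 * η * w) * (η * A * w - B * |d|) ^ 2 := by positivity
  linarith

theorem Win.close {k : ℕ} (hk : 1 ≤ k) {T Δ : ℕ → ℝ} (h : Win T Δ) (c b : ℝ) :
    Tendsto (fun j => (∫ t : ℝ, riemannZeta (sp (t + c / Real.log (T j))) ^ k *
      (starRingEnd ℂ) (riemannZeta (sp t)) ^ k *
      ((wt (T j) (Δ j) (t - b / Real.log (T j)) - wt (T j) (Δ j) t : ℝ) : ℂ)) /
        (JB (2 * (k : ℝ)) (T j) (Δ j) (1 / 2) : ℂ)) atTop (𝓝 0) := by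
  have hk0 : (0 : ℝ) < k := by exact_mod_cast hk
  have hβ : (0 : ℝ) < 2 * (k : ℝ) := by positivity
  set β : ℝ := 2 * (k : ℝ) with hβd
  rw [Metric.tendsto_atTop']
  intro ε hε
  set η : ℝ := ε / 4 with hη
  have hη0 : 0 < η := by positivity
  obtain ⟨B₁, T₁, -, hT₁, h₁⟩ := JB_shift_le hβ one_pos b
  obtain ⟨B₂, T₂, -, hT₂, h₂⟩ := JB_shift_le hβ one_pos (2 * b)
  obtain ⟨B₃, T₃, -, hT₃, h₃⟩ := JB_shift_le hβ one_pos c
  have hev : ∀ᶠ j in atTop, dist ((∫ t : ℝ, riemannZeta (sp (t + c / Real.log (T j))) ^ k *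
      (starRingEnd ℂ) (riemannZeta (sp t)) ^ k *
      ((wt (T j) (Δ j) (t - b / Real.log (T j)) - wt (T j) (Δ j) t : ℝ) : ℂ)) /
        (JB β (T j) (Δ j) (1 / 2) : ℂ)) 0 < ε := by
    filter_upwards [h.ev (B := B₁) (T₀ := T₁), h.ev (B := B₂) (T₀ := T₂), h.ev (B := B₃) (T₀ := T₃),
      h.prob hβ, (h.ratio hβ c).eventually_lt_const (show (1 : ℝ) < 2 by norm_num),
      (h.quad hβ b).eventually_lt_const (show (0 : ℝ) < η * ε by positivity)]
      with j hj1 hj2 hj3 hpj hrj hqj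
    obtain ⟨a1, a2, a3, a4⟩ := hj1
    obtain ⟨b1, b2, b3, b4⟩ := hj2
    obtain ⟨f1, f2, f3, f4⟩ := hj3
    obtain ⟨c1, c2, -⟩ := h₁ _ _ a1 a2 a3 a4
    obtain ⟨d1, d2, -⟩ := h₂ _ _ b1 b2 b3 b4
    obtain ⟨g1, g2, -⟩ := h₃ _ _ f1 f2 f3 f4
    have hJ := hpj.1
    set L := Real.log (T j) with hL
    set J := JB β (T j) (Δ j) (1 / 2) with hJd
    have hT0 : 0 < T j := by linarith
    have i1 : Integrable fun t : ℝ => ‖riemannZeta (sp (t + c / L))‖ ^ β * wt (T j) (Δ j) t :=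
      JB_move_int hβ a2 g1
    have i2 := quad_int (h := b / L) hβ a2 hT0.le c2 c1 (by
      have : T j + 2 * (b / L) = T j + 2 * b / L := by ring
      rw [this]; exact d1)
    rw [dist_zero_right, norm_div, Complex.norm_real, Real.norm_of_nonneg hJ.le, div_lt_iff₀ hJ]
    have hbd : ‖∫ t : ℝ, riemannZeta (sp (t + c / L)) ^ k *
        (starRingEnd ℂ) (riemannZeta (sp t)) ^ k *
        ((wt (T j) (Δ j) (t - b / L) - wt (T j) (Δ j) t : ℝ) : ℂ)‖ ≤
        ∫ t : ℝ, (η / 2 * (‖riemannZeta (sp (t + c / L))‖ ^ β * wt (T j) (Δ j) t) +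
          1 / (2 * η) * (‖riemannZeta (sp t)‖ ^ β *
            ((wt (T j) (Δ j) (t - b / L) - wt (T j) (Δ j) t) ^ 2 / wt (T j) (Δ j) t))) := by
      refine norm_integral_le_of_norm_le ((i1.const_mul _).add (i2.const_mul _))
        (Eventually.of_forall fun t => ?_)
      rw [norm_mul, norm_mul, norm_pow, norm_pow, RCLike.norm_conj, Complex.norm_real, Real.norm_eq_abs,
        hβd, rpow_two_mul k (norm_nonneg _), rpow_two_mul k (norm_nonneg _)]
      exact close_pt (wt_pos _ _ _) hη0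
    refine hbd.trans_lt ?_
    rw [integral_add (i1.const_mul _) (i2.const_mul _), integral_const_mul, integral_const_mul]
    have e1 : ∫ t : ℝ, ‖riemannZeta (sp (t + c / L))‖ ^ β * wt (T j) (Δ j) t =
        JB β (T j + c / L) (Δ j) (1 / 2) := (JB_move _ _ _ _).symm
    rw [e1]
    rw [div_lt_iff₀ hJ] at hrj hqj
    have h5 : η / 2 * JB β (T j + c / L) (Δ j) (1 / 2) ≤ η / 2 * (2 * J) :=
      mul_le_mul_of_nonneg_left hrj.le (by positivity)
    have h6 : 1 / (2 * η) * (∫ t : ℝ, ‖riemannZeta (sp t)‖ ^ β *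
        ((wt (T j) (Δ j) (t - b / L) - wt (T j) (Δ j) t) ^ 2 / wt (T j) (Δ j) t)) ≤
        1 / (2 * η) * (η * ε * J) := mul_le_mul_of_nonneg_left hqj.le (by positivity)
    have h7 : 1 / (2 * η) * (η * ε * J) = ε / 2 * J := by field_simp
    have h8 : η / 2 * (2 * J) = ε / 4 * J := by rw [hη]; ring
    have h9 : 0 < ε * J := by positivity
    linarith
  obtain ⟨N, hN⟩ := eventually_atTop.mp hev
  exact ⟨N, fun n hn => hN n hn.le⟩

theorem cross_int {k : ℕ} (hk : 1 ≤ k) {T Δ h g : ℝ} (hΔ : 0 < Δ) (hT : 0 ≤ T) (c0 : Δ ≤ T + g)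
    (c1 : Δ ≤ T + g + h) (hTg : 0 ≤ T + g) : Integrable fun t : ℝ => riemannZeta (sp (t + h)) ^ k *
      (starRingEnd ℂ) (riemannZeta (sp t)) ^ k * (wt T Δ (t - g) : ℂ) := by
  have hk0 : (0 : ℝ) < k := by exact_mod_cast hk
  have hβ : (0 : ℝ) < 2 * (k : ℝ) := by positivity
  have i0 : Integrable fun t : ℝ => ‖riemannZeta (sp t)‖ ^ (2 * (k : ℝ)) * wt (T + g) Δ t :=
    JB_integrable hβ hΔ hTg c0 (x := 1 / 2) (by norm_num) (by norm_num)
  have i1 : Integrable fun t : ℝ => ‖riemannZeta (sp (t + h))‖ ^ (2 * (k : ℝ)) * wt (T + g) Δ t :=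
    JB_move_int hβ hΔ c1
  have hc : Continuous fun t : ℝ => riemannZeta (sp (t + h)) ^ k *
      (starRingEnd ℂ) (riemannZeta (sp t)) ^ k * (wt T Δ (t - g) : ℂ) := by
    have h1 : Continuous fun t : ℝ => riemannZeta (sp (t + h)) := zs_cont.comp (by fun_prop)
    have h2 : Continuous (wt T Δ) := by unfold wt; fun_prop
    refine ((h1.pow k).mul ((Complex.continuous_conj.comp zs_cont).pow k)).mul ?_
    exact Complex.continuous_ofReal.comp (h2.comp (by fun_prop))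
  refine Integrable.mono' (i0.add i1) hc.aestronglyMeasurable (Eventually.of_forall fun t => ?_)
  have hw := wt_pos T Δ (t - g)
  rw [norm_mul, norm_mul, norm_pow, norm_pow, RCLike.norm_conj, Complex.norm_real,
    Real.norm_of_nonneg hw.le]
  show _ ≤ ‖riemannZeta (sp t)‖ ^ (2 * (k : ℝ)) * wt (T + g) Δ t +
    ‖riemannZeta (sp (t + h))‖ ^ (2 * (k : ℝ)) * wt (T + g) Δ t
  rw [← wt_move, rpow_two_mul k (norm_nonneg _), rpow_two_mul k (norm_nonneg _)]
  nlinarith [sq_nonneg (‖riemannZeta (sp (t + h))‖ ^ k - ‖riemannZeta (sp t)‖ ^ k),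
    mul_nonneg hw.le (sq_nonneg (‖riemannZeta (sp (t + h))‖ ^ k - ‖riemannZeta (sp t)‖ ^ k)),
    mul_nonneg hw.le (sq_nonneg (‖riemannZeta (sp (t + h))‖ ^ k)),
    mul_nonneg hw.le (sq_nonneg (‖riemannZeta (sp t)‖ ^ k))]

/-- **Convergence of the shifted moments.** -/
theorem shifted_lim {k : ℕ} (hk : 1 ≤ k) {T Δ : ℕ → ℝ} (h : Win T Δ) {ν : Measure (ℕ → ℂ)}
    [IsProbabilityMeasure ν] (hl : Lim (2 * (k : ℝ)) T Δ ν) (ht : ∀ᵐ x ∂ν, Tame x)
    (h0 : ∀ᵐ x ∂ν, x 0 = 1) (a b : ℝ) :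
    Tendsto (fun j => SM k (T j) (Δ j) (a / Real.log (T j)) (b / Real.log (T j)) /
      (JB (2 * (k : ℝ)) (T j) (Δ j) (1 / 2) : ℂ)) atTop (𝓝 (∫ x, DD (a - b) x 0 ^ k ∂ν)) := by
  have hk0 : (0 : ℝ) < k := by exact_mod_cast hk
  have hβ : (0 : ℝ) < 2 * (k : ℝ) := by positivity
  have h1 := (conv_pow hk h hl ht h0 (a - b)).add (h.close hk (a - b) b)
  rw [add_zero] at h1
  refine h1.congr' ?_
  obtain ⟨B₁, T₁, -, hT₁, h₁⟩ := JB_shift_le hβ one_pos b
  obtain ⟨B₂, T₂, -, hT₂, h₂⟩ := JB_shift_le hβ one_pos a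
  obtain ⟨B₃, T₃, -, hT₃, h₃⟩ := JB_shift_le hβ one_pos (a - b)
  filter_upwards [h.ev (B := B₁) (T₀ := T₁), h.ev (B := B₂) (T₀ := T₂), h.ev (B := B₃) (T₀ := T₃)]
    with j hj1 hj2 hj3
  obtain ⟨a1, a2, a3, a4⟩ := hj1
  obtain ⟨b1, b2, b3, b4⟩ := hj2
  obtain ⟨f1, f2, f3, f4⟩ := hj3
  obtain ⟨c1, c2, -⟩ := h₁ _ _ a1 a2 a3 a4
  obtain ⟨d1, d2, -⟩ := h₂ _ _ b1 b2 b3 b4
  obtain ⟨g1, g2, -⟩ := h₃ _ _ f1 f2 f3 f4
  set L := Real.log (T j) with hL
  have hT0 : 0 < T j := by linarith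
  have e0 : a / L - b / L = (a - b) / L := by ring
  rw [mean_YN hk L (T j) (Δ j) (a - b) hL, SM_move, e0, ← add_div]
  congr 1
  have i1 : Integrable fun t : ℝ => riemannZeta (sp (t + (a - b) / L)) ^ k *
      (starRingEnd ℂ) (riemannZeta (sp t)) ^ k * (wt (T j) (Δ j) t : ℂ) := by
    have := cross_int hk (T := T j) (Δ := Δ j) (h := (a - b) / L) (g := 0) a2 hT0.le
      (by linarith) (by linarith) (by linarith)
    simpa using this
  have i2 : Integrable fun t : ℝ => riemannZeta (sp (t + (a - b) / L)) ^ k *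
      (starRingEnd ℂ) (riemannZeta (sp t)) ^ k * (wt (T j) (Δ j) (t - b / L) : ℂ) :=
    cross_int hk a2 hT0.le c1 (by
      have : T j + b / L + (a - b) / L = T j + a / L := by ring
      rw [this]; exact d1) (by linarith)
  have i3 : Integrable fun t : ℝ => riemannZeta (sp (t + (a - b) / L)) ^ k *
      (starRingEnd ℂ) (riemannZeta (sp t)) ^ k *
      ((wt (T j) (Δ j) (t - b / L) - wt (T j) (Δ j) t : ℝ) : ℂ) := by
    refine (i2.sub i1).congr (Eventually.of_forall fun t => ?_)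
    simp only [Pi.sub_apply]
    push_cast
    ring
  rw [← integral_add i1 i3]
  refine integral_congr_ae (Eventually.of_forall fun t => ?_)
  simp only
  push_cast
  ring

end

end Run7.h563.LS
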