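import Pool.Agent.Run7.h563.LS.ZA

set_option autoImplicit false

/-!
# Values at complex points at a distance of the order of the mean spacing
-/

namespace Run7.h563.LS

open Complex MeasureTheory Filter Topology Set Q97.RB Q97.MM

noncomputable section

/-- the constant in the bounds by suprema -/
def SC (β ρ : ℝ) : ℝ := 2 * (ρ + 1) ^ 2 * Real.exp ((β + 1) * (ρ + 1))

theorem SC_pos {β ρ : ℝ} (hρ : 0 < ρ) : 0 < SC β ρ := by unfold SC; positivity

/-- functions bounded by the supremum of zeta near the point -/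
theorem PM_sup {β ρ : ℝ} (hβ : 0 < β) (hρ : 0 < ρ) : ∃ B T₀ : ℝ, 1 ≤ B ∧ 200 ≤ T₀ ∧
    ∀ T Δ : ℝ, T₀ ≤ T → 0 < Δ → B ≤ Δ ^ 2 * Real.log T → Δ ≤ T / (2 * Real.log T) →
    0 < JB β T Δ (1 / 2) ∧ 16 * ρ ≤ Real.log T ∧
    ∀ (R : ℝ → ℂ) (c : ℝ), Measurable R → 0 ≤ c →
      (∀ (t S : ℝ), riemannZeta (sp t) ≠ 0 → (∀ z ∈ Metric.closedBall (0 : ℂ) (ρ / Real.log T),
        ‖riemannZeta (sp t + z)‖ ≤ S) → ‖R t‖ ≤ c * S / ‖riemannZeta (sp t)‖) →
      ∫⁻ t, ENNReal.ofReal (‖R t‖ ^ β) ∂(PM β T Δ) ≤ ENNReal.ofReal (c ^ β * SC β ρ) := by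
  obtain ⟨B₁, T₁, hB₁, hT₁, h₁⟩ := EX' (β := β) (κ := 1) (ε := 1) hβ one_pos one_pos
  obtain ⟨B₂, T₂, hB₂, hT₂, h₂⟩ := sup_zeta (β := β) (κ := 1) (ε := 1) hβ one_pos one_pos
  refine ⟨max B₁ B₂, max (max T₁ T₂) (Real.exp (16 * (ρ + 1))), hB₁.trans (le_max_left _ _),
    hT₁.trans ((le_max_left _ _).trans (le_max_left _ _)), fun T Δ hT hΔ hB hΔT => ?_⟩
  have hTT1 : T₁ ≤ T := (le_max_left _ _).trans ((le_max_left _ _).trans hT)
  have hTT2 : T₂ ≤ T := (le_max_right _ _).trans ((le_max_left _ _).trans hT)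
  have hTe : Real.exp (16 * (ρ + 1)) ≤ T := (le_max_right _ _).trans hT
  have hT3 : 3 ≤ T := by linarith
  have hT0 : 0 < T := by linarith
  have hlog := log_ge_one hT3
  have hL0 : 0 < Real.log T := by linarith
  have hL16 : 16 * (ρ + 1) ≤ Real.log T := (Real.le_log_iff_exp_le hT0).mpr hTe
  have hJ := (h₁ T Δ hTT1 hΔ ((le_max_left _ _).trans hB) hΔT).1
  refine ⟨hJ, by linarith, fun R c hR hc0 hbd => ?_⟩
  have hΔT' : Δ ≤ T / Real.log T := hΔT.trans (by gcongr; linarith)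
  have h3 := h₂ T Δ hTT2 hΔ ((le_max_right _ _).trans hB) hΔT' ρ 1 hρ one_pos
    (by rw [le_div_iff₀ (by norm_num)]; linarith) (by rw [le_div_iff₀ (by norm_num)]; linarith)
  set L := Real.log T with hL
  have hr0 : 0 < ρ / L := by positivity
  have hr16 : ρ / L ≤ 1 / 16 := by rw [div_le_iff₀ hL0]; linarith
  have hm : Measurable (fun t => ENNReal.ofReal (‖R t‖ ^ β)) := (hR.norm.pow_const β).ennreal_ofReal
  have hd : Measurable (fun t => ENNReal.ofReal (dn β T Δ t)) := (dn_cont hβ T Δ).measurable.ennreal_ofReal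
  unfold PM
  rw [lintegral_withDensity_eq_lintegral_mul _ hd hm]
  set d : ℝ := c ^ β * (JB β T Δ (1 / 2))⁻¹ with hdd
  have hd0 : 0 ≤ d := by positivity
  have hpt : ∀ t : ℝ, ((fun t => ENNReal.ofReal (dn β T Δ t)) *
      fun t => ENNReal.ofReal (‖R t‖ ^ β)) t ≤
      ENNReal.ofReal d * ⨆ z ∈ Metric.closedBall (0 : ℂ) (ρ / L),
        ENNReal.ofReal (‖riemannZeta (((1 / 2 : ℝ) : ℂ) + t * I + z)‖ ^ β * wt T Δ t) := by
    intro t
    obtain ⟨z₀, hz₀, hmax⟩ := max_att t hr0.le hr16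
    refine le_trans ?_ (mul_le_mul' le_rfl (le_iSup₂ (f := fun z (_ : z ∈ Metric.closedBall (0 : ℂ) (ρ / L)) =>
      ENNReal.ofReal (‖riemannZeta (((1 / 2 : ℝ) : ℂ) + t * I + z)‖ ^ β * wt T Δ t)) z₀ hz₀))
    rw [Pi.mul_apply, ← ENNReal.ofReal_mul (dn_nonneg _ _ _ _), ← ENNReal.ofReal_mul hd0]
    apply ENNReal.ofReal_le_ofReal
    have hw := wt_pos T Δ t
    have hsp : ((1 / 2 : ℝ) : ℂ) + t * I + z₀ = sp t + z₀ := rfl
    rw [hsp]
    have hbd' := hbd t ‖riemannZeta (sp t + z₀)‖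
    set S := ‖riemannZeta (sp t + z₀)‖ with hS
    have hS0 : 0 ≤ S := norm_nonneg _
    unfold dn
    rcases eq_or_ne (riemannZeta (sp t)) 0 with h0 | h0
    · rw [h0, norm_zero, Real.zero_rpow hβ.ne']
      simp only [zero_mul, zero_div]
      positivity
    · have hz : 0 < ‖riemannZeta (sp t)‖ := norm_pos_iff.mpr h0
      have hzb : 0 < ‖riemannZeta (sp t)‖ ^ β := by positivity
      have hRb := hbd' h0 hmax
      have hRb2 : ‖R t‖ ^ β ≤ c ^ β * S ^ β / ‖riemannZeta (sp t)‖ ^ β := by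
        refine (Real.rpow_le_rpow (norm_nonneg _) hRb hβ.le).trans (le_of_eq ?_)
        rw [Real.div_rpow (by positivity) hz.le, Real.mul_rpow hc0 hS0]
      calc ‖riemannZeta (sp t)‖ ^ β * wt T Δ t / JB β T Δ (1 / 2) * ‖R t‖ ^ β
          ≤ ‖riemannZeta (sp t)‖ ^ β * wt T Δ t / JB β T Δ (1 / 2) *
            (c ^ β * S ^ β / ‖riemannZeta (sp t)‖ ^ β) :=
            mul_le_mul_of_nonneg_left hRb2 (by positivity)
        _ = d * (S ^ β * wt T Δ t) := by
            rw [hdd]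
            field_simp
  refine (lintegral_mono hpt).trans ?_
  rw [lintegral_const_mul' _ _ ENNReal.ofReal_ne_top]
  refine (mul_le_mul' le_rfl h3).trans ?_
  rw [← ENNReal.ofReal_mul hd0]
  apply ENNReal.ofReal_le_ofReal
  apply le_of_eq
  unfold SC
  rw [hdd, div_one]
  field_simp
  ring

/-- the value at a complex point near `1/2 + it`, relative to the value at `1/2 + it` -/
def YZ (L : ℝ) (z : ℂ) (t : ℝ) : ℂ := riemannZeta (sp t + z / L) / riemannZeta (sp t)

/-- partial sums of the Taylor series -/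
def DZ (z : ℂ) (N : ℕ) (x : ℕ → ℂ) : ℂ := ∑ m ∈ Finset.range N, x m * z ^ m / m.factorial

theorem YZ_meas (L : ℝ) (z : ℂ) : Measurable (YZ L z) := by
  unfold YZ
  exact (zeta_measurable.comp (sp_cont.measurable.add_const _)).div
    (zeta_measurable.comp sp_cont.measurable)

theorem DZ_cont (z : ℂ) (N : ℕ) : Continuous (DZ z N) := by unfold DZ; fun_prop

/-- Taylor's formula -/
theorem tayZ {L ρ S t : ℝ} {z : ℂ} (hL : 0 < L) (hρ : 0 < ρ) (hz : 2 * ‖z‖ ≤ ρ) (hr : ρ / L ≤ 1 / 16)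
    (hS : ∀ w ∈ Metric.closedBall (0 : ℂ) (ρ / L), ‖riemannZeta (sp t + w)‖ ≤ S) (N : ℕ) :
    ‖riemannZeta (sp t + z / L) - ∑ m ∈ Finset.range N, iteratedDeriv m riemannZeta (sp t) * (z / L) ^ m /
      m.factorial‖ ≤ 2 * (1 / 2) ^ N * S := by
  have hr0 : 0 < ρ / L := by positivity
  have hS0 : 0 ≤ S := (norm_nonneg _).trans (hS 0 (Metric.mem_closedBall_self hr0.le))
  have hzn : ‖z / (L : ℂ)‖ = ‖z‖ / L := by
    rw [norm_div, Complex.norm_real, Real.norm_of_nonneg hL.le]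
  have hsub : sp t + z / L - sp t = z / L := by ring
  have hmem : sp t + z / L ∈ Metric.ball (sp t) (1 / 4) := by
    rw [Metric.mem_ball, dist_eq_norm, hsub, hzn]
    have : ‖z‖ / L ≤ ρ / L := by gcongr; linarith [norm_nonneg z]
    linarith
  have hsum := hasSum_taylorSeries_on_ball (iter_diff_ball t le_rfl 0) hmem
  rw [hsub] at hsum
  have htail := (hasSum_nat_add_iff' N).mpr hsum
  have hb : ∀ m : ℕ, ‖((m + N).factorial : ℂ)⁻¹ • (z / (L : ℂ)) ^ (m + N) •
      iteratedDeriv (m + N) (iteratedDeriv 0 riemannZeta) (sp t)‖ ≤ (S * (1 / 2) ^ N) * (1 / 2) ^ m := by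
    intro m
    obtain ⟨n, hn⟩ : ∃ n, n = m + N := ⟨_, rfl⟩
    rw [← hn, norm_smul, norm_smul, norm_inv, norm_pow, hzn, Complex.norm_natCast, iter_iter, zero_add]
    have h1 := cauchy_n hr0 hr hS n
    have hn0 : (0 : ℝ) < n.factorial := by positivity
    calc (n.factorial : ℝ)⁻¹ * ((‖z‖ / L) ^ n * ‖iteratedDeriv n riemannZeta (sp t)‖)
        ≤ (n.factorial : ℝ)⁻¹ * ((‖z‖ / L) ^ n * (n.factorial * S / (ρ / L) ^ n)) := by gcongr
      _ = S * (‖z‖ / ρ) ^ n := by
          rw [div_pow, div_pow, div_pow]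
          field_simp
      _ ≤ S * (1 / 2) ^ n := by
          refine mul_le_mul_of_nonneg_left (pow_le_pow_left₀ (by positivity) ?_ n) hS0
          rw [div_le_div_iff₀ hρ (by norm_num)]
          linarith
      _ = _ := by rw [hn, pow_add]; ring
  have hg : HasSum (fun m : ℕ => (S * (1 / 2) ^ N) * (1 / 2 : ℝ) ^ m)
      ((S * (1 / 2) ^ N) * 2) := hasSum_geometric_two.mul_left _
  have h3 := tsum_of_norm_bounded hg hb
  rw [htail.tsum_eq, iteratedDeriv_zero] at h3
  have h4 : ∑ m ∈ Finset.range N, iteratedDeriv m riemannZeta (sp t) * (z / (L : ℂ)) ^ m / m.factorial =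
      ∑ i ∈ Finset.range N, (i.factorial : ℂ)⁻¹ • (z / (L : ℂ)) ^ i •
        iteratedDeriv i riemannZeta (sp t) := by
    refine Finset.sum_congr rfl fun i _ => ?_
    rw [smul_eq_mul, smul_eq_mul]
    ring
  rw [h4]
  refine h3.trans (le_of_eq ?_)
  ring

theorem YZ_sub (L : ℝ) (z : ℂ) (t : ℝ) (N : ℕ) : YZ L z t - DZ z N (XN L t) =
    (riemannZeta (sp t + z / L) - ∑ m ∈ Finset.range N, iteratedDeriv m riemannZeta (sp t) * (z / L) ^ m /
      m.factorial) / riemannZeta (sp t) := by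
  unfold YZ DZ XN
  rw [sub_div, Finset.sum_div]
  congr 1
  refine Finset.sum_congr rfl fun m _ => ?_
  rw [div_pow]
  ring

/-- the Lipschitz bound -/
theorem lipZ {L A S t : ℝ} {z w : ℂ} (hL : 0 < L) (hz : ‖z‖ ≤ A) (hw : ‖w‖ ≤ A)
    (hr : (A + 1) / L ≤ 1 / 16)
    (hS : ∀ u ∈ Metric.closedBall (0 : ℂ) ((A + 1) / L), ‖riemannZeta (sp t + u)‖ ≤ S) :
    ‖riemannZeta (sp t + z / L) - riemannZeta (sp t + w / L)‖ ≤ ‖z - w‖ * S := by
  have hnorm : ∀ v : ℂ, ‖v / (L : ℂ)‖ = ‖v‖ / L := fun v => by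
    rw [norm_div, Complex.norm_real, Real.norm_of_nonneg hL.le]
  have hAL : A / L ≤ 1 / 16 := le_trans (by gcongr; linarith) hr
  have h1L : 0 < 1 / L := by positivity
  have hd : ∀ u ∈ Metric.closedBall (0 : ℂ) (A / L),
      DifferentiableAt ℂ (fun u => riemannZeta (sp t + u)) u := by
    intro u hu
    rw [Metric.mem_closedBall, dist_zero_right] at hu
    have h1 : sp t + u ∈ Metric.ball (sp t) (1 / 4) := by
      rw [Metric.mem_ball, dist_eq_norm, add_sub_cancel_left]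
      linarith
    have h2 := (zeta_diff_ball t (r := 1 / 4) le_rfl).differentiableAt (Metric.isOpen_ball.mem_nhds h1)
    exact h2.comp u (by fun_prop)
  have hb : ∀ u ∈ Metric.closedBall (0 : ℂ) (A / L),
      ‖deriv (fun u => riemannZeta (sp t + u)) u‖ ≤ S * L := by
    intro u hu
    rw [Metric.mem_closedBall, dist_zero_right] at hu
    have h3 : ‖deriv (fun u => riemannZeta (sp t + u)) u‖ ≤ S / (1 / L) := by
      refine Complex.norm_deriv_le_of_forall_mem_sphere_norm_le h1L ?_ fun v hv => ?_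
      · apply DifferentiableOn.diffContOnCl
        rw [closure_ball _ h1L.ne']
        intro v hv
        rw [Metric.mem_closedBall, dist_eq_norm] at hv
        have hvn : ‖v‖ ≤ (A + 1) / L := by
          have : ‖v‖ ≤ ‖v - u‖ + ‖u‖ := by simpa using norm_add_le (v - u) u
          rw [add_div]; linarith
        have h1 : sp t + v ∈ Metric.ball (sp t) (1 / 4) := by
          rw [Metric.mem_ball, dist_eq_norm, add_sub_cancel_left]
          linarith
        have h2 := (zeta_diff_ball t (r := 1 / 4) le_rfl).differentiableAt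
          (Metric.isOpen_ball.mem_nhds h1)
        exact (h2.comp v (by fun_prop)).differentiableWithinAt
      · rw [mem_sphere_iff_norm] at hv
        refine hS v ?_
        rw [Metric.mem_closedBall, dist_zero_right]
        have : ‖v‖ ≤ ‖v - u‖ + ‖u‖ := by simpa using norm_add_le (v - u) u
        rw [add_div]; linarith
    rwa [div_div_eq_mul_div, div_one] at h3
  have h5 := (convex_closedBall (0 : ℂ) (A / L)).norm_image_sub_le_of_norm_deriv_le
    (f := fun u => riemannZeta (sp t + u)) (x := w / L) (y := z / L) hd hb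
    (by rw [Metric.mem_closedBall, dist_zero_right, hnorm]; gcongr)
    (by rw [Metric.mem_closedBall, dist_zero_right, hnorm]; gcongr)
  refine h5.trans (le_of_eq ?_)
  rw [← sub_div, hnorm]
  field_simp

end

end Run7.h563.LS
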