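import Pool.Agent.Run7.h563.LS.ZB

set_option autoImplicit false

/-!
# The limit functions do not vanish at fixed points
-/

namespace Run7.h563.LS

open Complex MeasureTheory Filter Topology Set Q97.RB Q97.MM

noncomputable section

theorem ent_DD {x : ℕ → ℂ} (hx : Tame x) (s : ℝ) (z : ℂ) : ent (DD s x) z = ent x ((s : ℂ) * I + z) := by
  rw [← Complex.taylorSeries_eq_of_entire' ((s : ℂ) * I) ((s : ℂ) * I + z) (ent_diff hx)]
  unfold ent
  refine tsum_congr fun k => ?_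
  rw [DD_ent hx]
  have e : (s : ℂ) * I + z - (s : ℂ) * I = z := by ring
  rw [e, div_eq_mul_inv]
  unfold ent
  ring

theorem ent_SS {x : ℕ → ℂ} (hx : Tame x) (s : ℝ) (z : ℂ) :
    ent (SS s x) z = ent x ((s : ℂ) * I + z) / DD s x 0 := by
  rw [← ent_DD hx]
  unfold ent SS
  rw [← tsum_div_const]
  refine tsum_congr fun k => ?_
  ring

theorem DZ_tendsto {x : ℕ → ℂ} (hx : Tame x) (z : ℂ) :
    Tendsto (fun N => DZ z N x) atTop (𝓝 (ent x z)) :=
  (sum_norm hx z).of_norm.hasSum.tendsto_sum_nat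

theorem ent_aem {ν : Measure (ℕ → ℂ)} (ht : ∀ᵐ x ∂ν, Tame x) (z : ℂ) :
    AEMeasurable (fun x => ent x z) ν := by
  refine aemeasurable_of_tendsto_metrizable_ae atTop (f := fun N x => DZ z N x) (fun N => ?_) ?_
  · exact (DZ_cont z N).measurable.aemeasurable
  · filter_upwards [ht] with x hx
    exact DZ_tendsto hx z

theorem zeros_null_z {x : ℕ → ℂ} (hx : Tame x) (h0 : x 0 = 1) (z : ℂ) :
    ∀ᵐ s : ℝ, ent x ((s : ℂ) * I + z) ≠ 0 := by
  have hg : AnalyticOnNhd ℝ (fun s : ℝ => ent x ((s : ℂ) * I + z)) Set.univ := by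
    intro s _
    have h1 : AnalyticAt ℝ (ent x) ((s : ℂ) * I + z) :=
      ((ent_diff hx).analyticAt ((s : ℂ) * I + z)).restrictScalars
    have h2 : AnalyticAt ℝ (fun s : ℝ => (s : ℂ) * I + z) s :=
      ((Complex.ofRealCLM.analyticAt s).mul analyticAt_const).add analyticAt_const
    exact AnalyticAt.comp (g := ent x) (f := fun s : ℝ => (s : ℂ) * I + z) h1 h2
  obtain ⟨s₀, hs₀⟩ : ∃ s₀ : ℝ, ent x ((s₀ : ℂ) * I + z) ≠ 0 := by
    by_contra hcon
    push Not at hcon
    have hA : AnalyticOnNhd ℂ (ent x) Set.univ := fun w _ => (ent_diff hx).analyticAt w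
    have hfreq : ∃ᶠ w in 𝓝[≠] z, ent x w = 0 := by
      have htend : Tendsto (fun n : ℕ => ((1 / ((n : ℝ) + 1) : ℝ) : ℂ) * I + z) atTop (𝓝[≠] z) := by
        refine tendsto_nhdsWithin_iff.mpr ⟨?_, Eventually.of_forall fun n => ?_⟩
        · have h1 : Tendsto (fun n : ℕ => ((1 / ((n : ℝ) + 1) : ℝ) : ℂ)) atTop (𝓝 ((0 : ℝ) : ℂ)) :=
            (Complex.continuous_ofReal.tendsto 0).comp tendsto_one_div_add_atTop_nhds_zero_nat
          have h2 := (h1.mul_const I).add_const z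
          simpa using h2
        · rw [Set.mem_compl_iff, Set.mem_singleton_iff, add_eq_right, mul_eq_zero]
          rintro (h | h)
          · have h3 : (0 : ℝ) < 1 / ((n : ℝ) + 1) := by positivity
            exact h3.ne' (by exact_mod_cast h)
          · exact Complex.I_ne_zero h
      exact htend.frequently (Eventually.of_forall fun n => hcon _).frequently
    have h5 := hA.eqOn_zero_of_preconnected_of_frequently_eq_zero isPreconnected_univ
      (Set.mem_univ z) hfreq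
    have h6 := h5 (Set.mem_univ (0 : ℂ))
    rw [ent_zero, h0] at h6
    exact one_ne_zero h6
  have h3 := hg.preimage_zero_mem_codiscrete hs₀
  have h4 := ae_restrict_le_codiscreteWithin (μ := (volume : Measure ℝ)) MeasurableSet.univ h3
  rw [Measure.restrict_univ] at h4
  filter_upwards [h4] with s hs
  exact hs

theorem ae_ne_z {ν : Measure (ℕ → ℂ)} [IsProbabilityMeasure ν] (ht : ∀ᵐ x ∂ν, Tame x)
    (h0 : ∀ᵐ x ∂ν, x 0 = 1) (z : ℂ) : ∀ᵐ s : ℝ, ∀ᵐ x ∂ν, ent x ((s : ℂ) * I + z) ≠ 0 := by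
  set u : (ℕ → ℂ) × ℝ → ENNReal := fun p =>
    liminf (fun N => ENNReal.ofReal ‖DZ ((p.2 : ℂ) * I + z) N p.1‖) atTop with hu
  have hum : Measurable u := by
    refine Measurable.liminf fun N => ?_
    have : Continuous fun p : (ℕ → ℂ) × ℝ => DZ ((p.2 : ℂ) * I + z) N p.1 := by
      unfold DZ
      fun_prop
    exact this.norm.measurable.ennreal_ofReal
  have hut : ∀ (x : ℕ → ℂ) (s : ℝ), Tame x → u (x, s) = ENNReal.ofReal ‖ent x ((s : ℂ) * I + z)‖ := by
    intro x s hx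
    exact ((ENNReal.continuous_ofReal.tendsto _).comp (DZ_tendsto hx _).norm).liminf_eq
  have hset : MeasurableSet {p : (ℕ → ℂ) × ℝ | u (p.1, p.2) ≠ 0} :=
    (measurableSet_eq_fun hum measurable_const).compl
  have h1 : ∀ᵐ x ∂ν, ∀ᵐ s : ℝ, u (x, s) ≠ 0 := by
    filter_upwards [ht, h0] with x hx hx0
    filter_upwards [zeros_null_z hx hx0 z] with s hs
    rw [hut x s hx, ne_eq, ENNReal.ofReal_eq_zero, not_le]
    exact norm_pos_iff.mpr hs
  have h2 := (Measure.ae_ae_comm (p := fun x s => u (x, s) ≠ 0) hset).mp h1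
  filter_upwards [h2] with s hs
  filter_upwards [hs, ht] with x hx hxt
  rw [hut x s hxt, ne_eq, ENNReal.ofReal_eq_zero, not_le] at hx
  exact norm_pos_iff.mp hx

/-- the limit functions do not vanish at a fixed point -/
theorem null_z {β : ℝ} {ν : Measure (ℕ → ℂ)} [IsProbabilityMeasure ν]
    (hβ : 0 < β) (ht : ∀ᵐ x ∂ν, Tame x) (h0 : ∀ᵐ x ∂ν, x 0 = 1)
    (hsh : ∀ (s : ℝ) (G : BoundedContinuousFunction (ℕ → ℂ) ℝ), (∀ x, 0 ≤ G x) → (∀ x, G x ≤ 1) →
      ∫⁻ x, ENNReal.ofReal (‖DD s x 0‖ ^ β * G (fun k => DD s x k / DD s x 0)) ∂ν ≤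
        ∫⁻ x, ENNReal.ofReal (G x) ∂ν) (z : ℂ) : ∀ᵐ x ∂ν, ent x z ≠ 0 := by
  obtain ⟨s, hs⟩ := (ae_ne_z ht h0 z).exists
  set g : (ℕ → ℂ) → ENNReal := fun x => Set.indicator {0} (fun _ => (1 : ENNReal)) (ent x z) with hg
  have hind : Measurable (Set.indicator ({0} : Set ℂ) (fun _ => (1 : ENNReal))) :=
    measurable_const.indicator (measurableSet_singleton 0)
  have hgm : AEMeasurable g ν := hind.comp_aemeasurable (ent_aem ht z)
  have hMV := MV_eq hβ ht h0 hsh s
  have h1 := MV_lint ht β s (g := g) (by rw [hMV]; exact hgm)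
  rw [hMV] at h1
  have h2 : ∫⁻ x, ENNReal.ofReal (‖DD s x 0‖ ^ β) * g (SS s x) ∂ν = 0 := by
    rw [← lintegral_zero (μ := ν)]
    refine lintegral_congr_ae ?_
    filter_upwards [hs, ht] with x hx hxt
    rcases eq_or_ne (DD s x 0) 0 with h3 | h3
    · rw [h3, norm_zero, Real.zero_rpow hβ.ne', ENNReal.ofReal_zero, zero_mul]
    · have h4 : ent (SS s x) z ≠ 0 := by
        rw [ent_SS hxt]
        exact div_ne_zero hx h3
      simp only [hg]
      rw [Set.indicator_of_notMem (by simpa using h4), mul_zero]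
  rw [h2, lintegral_eq_zero_iff' hgm] at h1
  filter_upwards [h1] with x hx
  intro h5
  simp only [hg, h5] at hx
  simp at hx

/-- a continuous function equal to one near zero -/
def bump (δ : ℝ) (u : ℂ) : ℝ := max 0 (min 1 (4 - ‖u‖ / δ))

theorem bump_cont (δ : ℝ) : Continuous (bump δ) := by unfold bump; fun_prop

theorem bump_nonneg (δ : ℝ) (u : ℂ) : 0 ≤ bump δ u := le_max_left _ _

theorem bump_le (δ : ℝ) (u : ℂ) : bump δ u ≤ 1 := max_le zero_le_one (min_le_left _ _)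

theorem bump_one {δ : ℝ} (hδ : 0 < δ) {u : ℂ} (hu : ‖u‖ ≤ 3 * δ) : bump δ u = 1 := by
  unfold bump
  have : ‖u‖ / δ ≤ 3 := by rwa [div_le_iff₀ hδ]
  rw [min_eq_left (by linarith), max_eq_right zero_le_one]

theorem bump_zero {δ : ℝ} (hδ : 0 < δ) {u : ℂ} (hu : 4 * δ ≤ ‖u‖) : bump δ u = 0 := by
  unfold bump
  have : 4 ≤ ‖u‖ / δ := by rwa [le_div_iff₀ hδ]
  rw [min_eq_right (by linarith), max_eq_left (by linarith)]

theorem bump_tendsto {u : ℂ} (hu : u ≠ 0) :
    Tendsto (fun n : ℕ => bump (1 / ((n : ℝ) + 1)) u) atTop (𝓝 0) := by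
  refine tendsto_const_nhds.congr' ?_
  have hn : 0 < ‖u‖ := norm_pos_iff.mpr hu
  obtain ⟨m, hm⟩ := exists_nat_ge (4 / ‖u‖)
  filter_upwards [eventually_ge_atTop m] with n hnm
  symm
  refine bump_zero (by positivity) ?_
  rw [div_le_iff₀ hn] at hm
  have h1 : (m : ℝ) ≤ n := by exact_mod_cast hnm
  rw [mul_one_div, div_le_iff₀ (by positivity)]
  nlinarith

/-- the limit of the bumps -/
theorem bump_lim {ν : Measure (ℕ → ℂ)} [IsProbabilityMeasure ν] (ht : ∀ᵐ x ∂ν, Tame x) (z : ℂ)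
    (hz : ∀ᵐ x ∂ν, ent x z ≠ 0) :
    Tendsto (fun n : ℕ => ∫ x, bump (1 / ((n : ℝ) + 1)) (ent x z) ∂ν) atTop (𝓝 0) := by
  have h1 := tendsto_integral_of_dominated_convergence (μ := ν)
    (F := fun (n : ℕ) x => bump (1 / ((n : ℝ) + 1)) (ent x z)) (f := fun _ => (0 : ℝ))
    (fun _ => (1 : ℝ)) (fun n => ((bump_cont _).measurable.comp_aemeasurable
      (ent_aem ht z)).aestronglyMeasurable) (integrable_const _)
    (fun n => Eventually.of_forall fun x => by
      rw [Real.norm_of_nonneg (bump_nonneg _ _)]; exact bump_le _ _)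
    (by filter_upwards [hz] with x hx; exact bump_tendsto hx)
  simpa using h1

theorem bump_N {ν : Measure (ℕ → ℂ)} [IsProbabilityMeasure ν] (ht : ∀ᵐ x ∂ν, Tame x) (δ : ℝ) (z : ℂ) :
    Tendsto (fun N : ℕ => ∫ x, bump δ (DZ z N x) ∂ν) atTop (𝓝 (∫ x, bump δ (ent x z) ∂ν)) :=
  tendsto_integral_of_dominated_convergence (μ := ν)
    (F := fun (N : ℕ) x => bump δ (DZ z N x)) (f := fun x => bump δ (ent x z))
    (fun _ => (1 : ℝ)) (fun n => ((bump_cont _).comp (DZ_cont z _)).aestronglyMeasurable)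
    (integrable_const _)
    (fun n => Eventually.of_forall fun x => by
      rw [Real.norm_of_nonneg (bump_nonneg _ _)]; exact bump_le _ _)
    (by filter_upwards [ht] with x hx; exact ((bump_cont δ).tendsto _).comp (DZ_tendsto hx z))

end

end Run7.h563.LS
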