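import Pool.Agent.Run7.h563.LS.ZC

set_option autoImplicit false

/-!
# Small values at nearby points are rare under the moment measures
-/

namespace Run7.h563.LS

open Complex MeasureTheory Filter Topology Set Q97.RB Q97.MM

noncomputable section

theorem markovR {β C δ : ℝ} {P : Measure ℝ} {R : ℝ → ℂ} (hR : Measurable R) (hβ : 0 < β) (hδ : 0 < δ)
    (h : ∫⁻ t, ENNReal.ofReal (‖R t‖ ^ β) ∂P ≤ ENNReal.ofReal C) :
    P {t | δ ≤ ‖R t‖} ≤ ENNReal.ofReal (C / δ ^ β) := by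
  have hm : Measurable (fun t => ENNReal.ofReal (‖R t‖ ^ β)) := (hR.norm.pow_const β).ennreal_ofReal
  have hMβ : 0 < δ ^ β := Real.rpow_pos_of_pos hδ _
  have h1 := mul_meas_ge_le_lintegral hm (μ := P) (ENNReal.ofReal (δ ^ β))
  have h2 : {t | δ ≤ ‖R t‖} ⊆ {t | ENNReal.ofReal (δ ^ β) ≤ ENNReal.ofReal (‖R t‖ ^ β)} := by
    intro t ht
    exact ENNReal.ofReal_le_ofReal (Real.rpow_le_rpow hδ.le ht hβ.le)
  have h3 := (mul_le_mul' le_rfl (measure_mono h2)).trans (h1.trans h)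
  rw [ENNReal.ofReal_div_of_pos hMβ, ENNReal.le_div_iff_mul_le (Or.inl (by
    rw [ne_eq, ENNReal.ofReal_eq_zero]; push Not; exact hMβ)) (Or.inl ENNReal.ofReal_ne_top), mul_comm]
  exact h3

theorem bump_meas_le {P : Measure ℝ} [IsProbabilityMeasure P] {D : ℝ → ℂ} (hD : Measurable D) {δ : ℝ}
    (hδ : 0 < δ) : P {t | ‖D t‖ ≤ 3 * δ} ≤ ENNReal.ofReal (∫ t, bump δ (D t) ∂P) := by
  have hi : Integrable (fun t => bump δ (D t)) P :=
    Integrable.of_bound ((bump_cont δ).measurable.comp hD).aestronglyMeasurable 1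
      (Eventually.of_forall fun t => by
        rw [Real.norm_of_nonneg (bump_nonneg _ _)]; exact bump_le _ _)
  rw [ofReal_integral_eq_lintegral_ofReal hi (Eventually.of_forall fun t => bump_nonneg _ _)]
  have hms : MeasurableSet {t | ‖D t‖ ≤ 3 * δ} := measurableSet_le hD.norm measurable_const
  rw [← lintegral_indicator_one hms]
  refine lintegral_mono fun t => ?_
  by_cases ht : t ∈ {t | ‖D t‖ ≤ 3 * δ}
  · rw [Set.indicator_of_mem ht, bump_one hδ ht]
    simp
  · rw [Set.indicator_of_notMem ht]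
    exact bot_le

/-- **Small values at nearby points are rare under the moment measures.** -/
theorem small_ball {β A η : ℝ} (hβ : 0 < β) (hA : 0 < A) (hη : 0 < η) : ∃ δ : ℝ, 0 < δ ∧
    ∃ B T₀ : ℝ, ∀ T Δ : ℝ, T₀ ≤ T → 0 < Δ → B ≤ Δ ^ 2 * Real.log T → Δ ≤ T / (2 * Real.log T) →
      ∀ z : ℂ, ‖z‖ ≤ A → PM β T Δ {t | ‖YZ (Real.log T) z t‖ < δ} ≤ ENNReal.ofReal η := by
  by_contra hcon
  push Not at hcon
  have hch := fun n : ℕ => hcon (1 / ((n : ℝ) + 1)) (by positivity) n n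
  choose T Δ h1 h2 h3 h4 z hz hlt using hch
  have hW : Win T Δ := ⟨tendsto_atTop_mono h1 tendsto_natCast_atTop_atTop, h2,
    tendsto_atTop_mono h3 tendsto_natCast_atTop_atTop, Eventually.of_forall h4⟩
  obtain ⟨z₀, hz₀, ψ, hψ, hzlim⟩ := (isCompact_closedBall (0 : ℂ) A).tendsto_subseq (x := z)
    (fun n => by rw [Metric.mem_closedBall, dist_zero_right]; exact hz n)
  obtain ⟨φ, hφ, ν, hν, hl, hx, -, -⟩ := limit_laws hβ (hW.sub hψ.tendsto_atTop)
  have hθ : Tendsto (fun j => ψ (φ j)) atTop atTop := hψ.tendsto_atTop.comp hφ.tendsto_atTop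
  obtain ⟨θ, hθd⟩ : ∃ θ : ℕ → ℕ, θ = fun j => ψ (φ j) := ⟨_, rfl⟩
  rw [← hθd] at hθ
  have hWθ : Win (fun j => T (θ j)) (fun j => Δ (θ j)) := hW.sub hθ
  have hl' : Lim β (fun j => T (θ j)) (fun j => Δ (θ j)) ν := by rw [hθd]; exact hl
  have hzθ : Tendsto (fun j => z (θ j)) atTop (𝓝 z₀) := by
    rw [hθd]; exact hzlim.comp hφ.tendsto_atTop
  have ht : ∀ᵐ x ∂ν, Tame x := by
    filter_upwards [hx] with x hx
    exact hx.2.1 2 one_lt_two
  have h0 : ∀ᵐ x ∂ν, x 0 = 1 := by filter_upwards [hx] with x hx; exact hx.1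
  have hnull : ∀ᵐ x ∂ν, ent x z₀ ≠ 0 :=
    null_z hβ ht h0 (fun s G hG0 hG1 => lim_shift hβ hWθ hl' ht s G hG0 hG1) z₀
  rw [Metric.mem_closedBall, dist_zero_right] at hz₀
  set ρ : ℝ := 2 * A + 1 with hρ
  have hρ0 : 0 < ρ := by positivity
  obtain ⟨B', T', -, hT', hsup⟩ := PM_sup (ρ := ρ) hβ hρ0
  have hSC := SC_pos (β := β) hρ0
  have key : ∀ δ : ℝ, 0 < δ → ∀ N : ℕ,
      η ≤ ∫ x, bump δ (DZ z₀ N x) ∂ν + (2 * (1 / 2) ^ N) ^ β * SC β ρ / δ ^ β := by
    intro δ hδ N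
    have hsmall : ∀ᶠ j in atTop, 1 / ((θ j : ℝ) + 1) < δ :=
      (tendsto_one_div_add_atTop_nhds_zero_nat.comp hθ).eventually_lt_const hδ
    have hev : ∀ᶠ j in atTop, η ≤ ∫ t, bump δ (DZ z₀ N (XN (Real.log (T (θ j))) t))
        ∂(PM β (T (θ j)) (Δ (θ j))) + (2 * (1 / 2) ^ N) ^ β * SC β ρ / δ ^ β +
        ‖z (θ j) - z₀‖ ^ β * SC β ρ / δ ^ β := by
      filter_upwards [hWθ.ev (B := B') (T₀ := T'), hWθ.prob hβ, hsmall] with j hj hpj hδj
      obtain ⟨a1, a2, a3, a4⟩ := hj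
      obtain ⟨-, hP⟩ := hpj
      obtain ⟨-, hL16, hR⟩ := hsup _ _ a1 a2 a3 a4
      set L := Real.log (T (θ j)) with hL
      have hL0 : 0 < L := by linarith
      have hr16 : ρ / L ≤ 1 / 16 := by rw [div_le_iff₀ hL0]; linarith
      have hXm : Measurable fun t => DZ z₀ N (XN L t) := (DZ_cont z₀ N).measurable.comp (XN_meas L)
      have hR1 := markovR (δ := δ) ((YZ_meas L z₀).sub hXm) hβ hδ
        (hR (fun t => YZ L z₀ t - DZ z₀ N (XN L t)) (2 * (1 / 2) ^ N) ((YZ_meas L z₀).sub hXm)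
          (by positivity) (fun t S hζ hS => by
            rw [YZ_sub, norm_div]
            exact div_le_div_of_nonneg_right (tayZ hL0 hρ0 (by rw [hρ]; linarith) hr16 hS N)
              (norm_nonneg _)))
      have hR2 := markovR (δ := δ) ((YZ_meas L (z (θ j))).sub (YZ_meas L z₀)) hβ hδ
        (hR (fun t => YZ L (z (θ j)) t - YZ L z₀ t) ‖z (θ j) - z₀‖
          ((YZ_meas L (z (θ j))).sub (YZ_meas L z₀))
          (norm_nonneg _) (fun t S hζ hS => by
            unfold YZ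
            rw [← sub_div, norm_div]
            refine div_le_div_of_nonneg_right (lipZ hL0 (hz _) hz₀ ?_ fun u hu => hS u ?_)
              (norm_nonneg _)
            · refine le_trans ?_ hr16
              gcongr
              rw [hρ]; linarith
            · refine Metric.closedBall_subset_closedBall ?_ hu
              gcongr
              rw [hρ]; linarith))
      have hR0 := bump_meas_le (P := PM β (T (θ j)) (Δ (θ j))) hXm hδ
      have hincl : {t | ‖YZ L (z (θ j)) t‖ < 1 / ((θ j : ℝ) + 1)} ⊆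
          ({t | ‖DZ z₀ N (XN L t)‖ ≤ 3 * δ} ∪ {t | δ ≤ ‖YZ L z₀ t - DZ z₀ N (XN L t)‖}) ∪
            {t | δ ≤ ‖YZ L (z (θ j)) t - YZ L z₀ t‖} := by
        intro t htt
        have htt' : ‖YZ L (z (θ j)) t‖ < 1 / ((θ j : ℝ) + 1) := htt
        by_contra hno
        simp only [Set.mem_union, Set.mem_setOf_eq, not_or, not_le] at hno
        obtain ⟨⟨n1, n2⟩, n3⟩ := hno
        have e : DZ z₀ N (XN L t) = YZ L (z (θ j)) t - (YZ L (z (θ j)) t - YZ L z₀ t) -
          (YZ L z₀ t - DZ z₀ N (XN L t)) := by ring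
        have := norm_sub_le (YZ L (z (θ j)) t - (YZ L (z (θ j)) t - YZ L z₀ t))
          (YZ L z₀ t - DZ z₀ N (XN L t))
        have h8 := norm_sub_le (YZ L (z (θ j)) t) (YZ L (z (θ j)) t - YZ L z₀ t)
        rw [← e] at this
        linarith
      have h9 := (hlt (θ j)).le.trans ((measure_mono hincl).trans
        ((measure_union_le _ _).trans (add_le_add ((measure_union_le _ _).trans
          (add_le_add hR0 hR1)) hR2)))
      have hb0 : 0 ≤ ∫ t, bump δ (DZ z₀ N (XN L t)) ∂(PM β (T (θ j)) (Δ (θ j))) :=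
        integral_nonneg fun t => bump_nonneg _ _
      rw [← ENNReal.ofReal_add hb0 (by positivity), ← ENNReal.ofReal_add (by positivity)
        (by positivity)] at h9
      exact (ENNReal.ofReal_le_ofReal_iff (by positivity)).mp h9
    have hF := hl' (BoundedContinuousFunction.ofNormedAddCommGroup (fun x => bump δ (DZ z₀ N x))
      ((bump_cont δ).comp (DZ_cont z₀ N)) 1 (fun x => by
        rw [Real.norm_of_nonneg (bump_nonneg _ _)]; exact bump_le _ _))
    have hz0 : Tendsto (fun j => ‖z (θ j) - z₀‖ ^ β * SC β ρ / δ ^ β) atTop (𝓝 0) := by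
      have h5 : Tendsto (fun j => ‖z (θ j) - z₀‖) atTop (𝓝 0) := by
        have := (hzθ.sub_const z₀).norm
        rwa [sub_self, norm_zero] at this
      have h6 := h5.rpow_const (p := β) (Or.inr hβ.le)
      rw [Real.zero_rpow hβ.ne'] at h6
      have h7 := (h6.mul_const (SC β ρ)).div_const (δ ^ β)
      rwa [zero_mul, zero_div] at h7
    have hlim := (hF.add_const ((2 * (1 / 2) ^ N) ^ β * SC β ρ / δ ^ β)).add hz0
    rw [add_zero] at hlim
    exact ge_of_tendsto hlim hev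
  have key2 : ∀ δ : ℝ, 0 < δ → η ≤ ∫ x, bump δ (ent x z₀) ∂ν := by
    intro δ hδ
    have h5 : Tendsto (fun N : ℕ => 2 * (1 / 2 : ℝ) ^ N) atTop (𝓝 0) := by
      have := (tendsto_pow_atTop_nhds_zero_of_lt_one (r := (1 / 2 : ℝ)) (by norm_num)
        (by norm_num)).const_mul 2
      rwa [mul_zero] at this
    have h6 := h5.rpow_const (p := β) (Or.inr hβ.le)
    rw [Real.zero_rpow hβ.ne'] at h6
    have h7 := (h6.mul_const (SC β ρ)).div_const (δ ^ β)
    rw [zero_mul, zero_div] at h7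
    have h8 := (bump_N ht δ z₀).add h7
    rw [add_zero] at h8
    exact ge_of_tendsto' h8 fun N => key δ hδ N
  have h9 := ge_of_tendsto' (bump_lim ht z₀ hnull) fun n => key2 (1 / ((n : ℝ) + 1)) (by positivity)
  linarith

end

end Run7.h563.LS
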