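import Pool.Agent.Run7.h563.LS.ZE

set_option autoImplicit false

/-!
# Products of values at nearby points
-/

namespace Run7.h563.LS

open Complex MeasureTheory Filter Topology Set Q97.RB Q97.MM

noncomputable section

theorem abs_int {β A T Δ : ℝ} (hβ : 0 < β) (hΔ : 0 < Δ) (hTA : 2 * A ≤ T)
    (hΔT : Δ ≤ T / 2) (hL1 : 1 ≤ Real.log T) (hL : 8 * A ≤ Real.log T) {z : ℂ} (hz : ‖z‖ ≤ A) :
    Integrable fun t : ℝ => ‖riemannZeta (sp t + z / Real.log T)‖ ^ β * wt T Δ t := by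
  set L := Real.log T with hLd
  have hL0 : 0 < L := by linarith
  have hre : |z.re| ≤ A := (Complex.abs_re_le_norm z).trans hz
  have him : |z.im| ≤ A := (Complex.abs_im_le_norm z).trans hz
  have hreL : |z.re / L| ≤ 1 / 8 := by
    rw [abs_div, abs_of_pos hL0, div_le_iff₀ hL0]; linarith
  have himL : |z.im / L| ≤ A := by
    rw [abs_div, abs_of_pos hL0]
    exact (div_le_self (abs_nonneg _) hL1).trans him
  obtain ⟨r1, r2⟩ := abs_le.mp hreL
  obtain ⟨i1, i2⟩ := abs_le.mp himL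
  have h1 := JB_integrable hβ hΔ (T := T + z.im / L) (x := 1 / 2 + z.re / L) (by linarith)
    (by linarith) (by linarith) (by linarith)
  have h2 := h1.comp_add_right (z.im / L)
  refine h2.congr (Eventually.of_forall fun t => ?_)
  show ‖riemannZeta (((1 / 2 + z.re / L : ℝ) : ℂ) + ((t + z.im / L : ℝ) : ℂ) * I)‖ ^ β *
    wt (T + z.im / L) Δ (t + z.im / L) = _
  have e1 : (((1 / 2 + z.re / L : ℝ) : ℂ) + ((t + z.im / L : ℝ) : ℂ) * I) = sp t + z / L := by
    unfold sp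
    conv_rhs => rw [← Complex.re_add_im z]
    push_cast
    ring
  have e2 : wt (T + z.im / L) Δ (t + z.im / L) = wt T Δ t := by
    rw [← wt_move]; congr 1; ring
  rw [e1, e2]

/-- the upper bound by the supremum -/
theorem abs_upper {β A : ℝ} (hβ : 0 < β) (hA : 0 < A) : ∃ B T₀ : ℝ, 1 ≤ B ∧ 200 ≤ T₀ ∧
    ∀ T Δ : ℝ, T₀ ≤ T → 0 < Δ → B ≤ Δ ^ 2 * Real.log T → Δ ≤ T / (2 * Real.log T) →
    ∀ z : ℂ, ‖z‖ ≤ A → ∫⁻ t : ℝ, ENNReal.ofReal (‖riemannZeta (sp t + z / Real.log T)‖ ^ β * wt T Δ t) ≤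
      ENNReal.ofReal (SC β A * JB β T Δ (1 / 2)) := by
  obtain ⟨B₂, T₂, hB₂, hT₂, h₂⟩ := sup_zeta (β := β) (κ := 1) (ε := 1) hβ one_pos one_pos
  refine ⟨B₂, max T₂ (Real.exp (16 * (A + 1))), hB₂, hT₂.trans (le_max_left _ _),
    fun T Δ hT hΔ hB hΔT z hz => ?_⟩
  have hTT2 : T₂ ≤ T := (le_max_left _ _).trans hT
  have hTe : Real.exp (16 * (A + 1)) ≤ T := (le_max_right _ _).trans hT
  have hT3 : 3 ≤ T := by linarith
  have hT0 : 0 < T := by linarith
  have hlog := log_ge_one hT3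
  have hL0 : 0 < Real.log T := by linarith
  have hL16 : 16 * (A + 1) ≤ Real.log T := (Real.le_log_iff_exp_le hT0).mpr hTe
  have hΔT' : Δ ≤ T / Real.log T := hΔT.trans (by gcongr; linarith)
  have h3 := h₂ T Δ hTT2 hΔ hB hΔT' A 1 hA one_pos
    (by rw [le_div_iff₀ (by norm_num)]; linarith) (by rw [le_div_iff₀ (by norm_num)]; linarith)
  refine (lintegral_mono fun t => ?_).trans (h3.trans (le_of_eq ?_))
  · exact le_iSup₂ (f := fun w (_ : w ∈ Metric.closedBall (0 : ℂ) (A / Real.log T)) =>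
      ENNReal.ofReal (‖riemannZeta (((1 / 2 : ℝ) : ℂ) + t * I + w)‖ ^ β * wt T Δ t)) (z / Real.log T)
      (by
        rw [Metric.mem_closedBall, dist_zero_right, norm_div, Complex.norm_real,
          Real.norm_of_nonneg hL0.le]
        gcongr)
  · unfold SC
    rw [div_one]
    congr 2
    ring

theorem prod_amgm {m : ℕ} {β : ℝ} (hβ : 0 < β) (p u : Fin m → ℝ) (hp : ∀ i, 0 ≤ p i)
    (hs : ∑ i, p i = β) (hu : ∀ i, 0 ≤ u i) : ∏ i, u i ^ p i ≤ ∑ i, p i / β * u i ^ β := by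
  have h1 := Real.geom_mean_le_arith_mean_weighted Finset.univ (fun i => p i / β) (fun i => u i ^ β)
    (fun i _ => div_nonneg (hp i) hβ.le) (by rw [← Finset.sum_div, hs, div_self hβ.ne'])
    (fun i _ => Real.rpow_nonneg (hu i) _)
  refine le_trans (le_of_eq ?_) h1
  refine Finset.prod_congr rfl fun i _ => ?_
  rw [← Real.rpow_mul (hu i)]
  congr 1
  field_simp

/-- the lower bound for the products, if the small values are rare -/
theorem prod_gen {β T Δ δ κ : ℝ} (hβ : 0 < β) (hT3 : 3 ≤ T) (hΔ : 0 < Δ)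
    (hΔT : Δ ≤ T / (2 * Real.log T)) (hJ : 0 < JB β T Δ (1 / 2)) (hδ0 : 0 < δ) (hκ0 : 0 ≤ κ)
    (hκ1 : κ ≤ 1) {m : ℕ} (p : Fin m → ℝ) (z : Fin m → ℂ) (hp : ∀ i, 0 ≤ p i) (hs : ∑ i, p i = β)
    (hsb : ∀ i, PM β T Δ {t | ‖YZ (Real.log T) (z i) t‖ < δ} ≤ ENNReal.ofReal (κ / ((m : ℝ) + 1))) :
    ENNReal.ofReal (δ ^ β * (1 - κ) * JB β T Δ (1 / 2)) ≤
      ∫⁻ t : ℝ, ENNReal.ofReal ((∏ i, ‖riemannZeta (sp t + z i / Real.log T)‖ ^ p i) * wt T Δ t) := by
  have hT0 : 0 < T := by linarith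
  have hlog := log_ge_one hT3
  have hL0 : 0 < Real.log T := by linarith
  have hP : IsProbabilityMeasure (PM β T Δ) :=
    PM_prob hβ hΔ hT0.le (hΔT.trans (div_le_self hT0.le (by linarith))) hJ
  set L := Real.log T with hL
  set J := JB β T Δ (1 / 2) with hJd
  have hκ' : 0 ≤ 1 - κ := by linarith
  -- the good set
  set G : Set ℝ := {t | ∀ i, δ ≤ ‖YZ L (z i) t‖} with hG
  have hGm : MeasurableSet G := by
    have : G = ⋂ i, {t | δ ≤ ‖YZ L (z i) t‖} := by ext t; simp [hG]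
    rw [this]
    exact MeasurableSet.iInter fun i => measurableSet_le measurable_const (YZ_meas L (z i)).norm
  have hGc : PM β T Δ Gᶜ ≤ ENNReal.ofReal κ := by
    have h3 : Gᶜ ⊆ ⋃ i ∈ (Finset.univ : Finset (Fin m)), {t | ‖YZ L (z i) t‖ < δ} := by
      intro t ht
      have ht' : ¬ ∀ i, δ ≤ ‖YZ L (z i) t‖ := ht
      push Not at ht'
      obtain ⟨i, hi⟩ := ht'
      simp only [Finset.mem_univ, Set.iUnion_true, Set.mem_iUnion]
      exact ⟨i, hi⟩
    calc PM β T Δ Gᶜ ≤ ∑ i : Fin m, PM β T Δ {t | ‖YZ L (z i) t‖ < δ} :=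
          (measure_mono h3).trans (measure_biUnion_finset_le _ _)
      _ ≤ ∑ _i : Fin m, ENNReal.ofReal (κ / ((m : ℝ) + 1)) := Finset.sum_le_sum fun i _ => hsb i
      _ = ENNReal.ofReal (m * (κ / ((m : ℝ) + 1))) := by
          rw [Finset.sum_const, Finset.card_univ, Fintype.card_fin, nsmul_eq_mul,
            ENNReal.ofReal_mul (by positivity), ENNReal.ofReal_natCast]
      _ ≤ ENNReal.ofReal κ := by
          apply ENNReal.ofReal_le_ofReal
          rw [← mul_div_assoc, div_le_iff₀ (by positivity)]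
          nlinarith
  have hGl : ENNReal.ofReal (1 - κ) ≤ PM β T Δ G := by
    have h4 := prob_add_prob_compl (μ := PM β T Δ) hGm
    have h5 : ENNReal.ofReal (1 - κ) + ENNReal.ofReal κ ≤ PM β T Δ G + ENNReal.ofReal κ := by
      rw [← ENNReal.ofReal_add hκ' hκ0]
      calc ENNReal.ofReal (1 - κ + κ) = 1 := by norm_num
        _ = PM β T Δ G + PM β T Δ Gᶜ := h4.symm
        _ ≤ _ := add_le_add le_rfl hGc
    exact (ENNReal.add_le_add_iff_right ENNReal.ofReal_ne_top).mp h5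
  -- the function
  set g : ℝ → ENNReal := fun t => ENNReal.ofReal (∏ i, ‖YZ L (z i) t‖ ^ p i) with hg
  have hgm : Measurable g :=
    (Finset.measurable_prod _ fun i _ => ((YZ_meas L (z i)).norm.pow_const (p i))).ennreal_ofReal
  have hd : Measurable (fun t => ENNReal.ofReal (dn β T Δ t)) := (dn_cont hβ T Δ).measurable.ennreal_ofReal
  have h6 : ENNReal.ofReal (δ ^ β * (1 - κ)) ≤ ∫⁻ t, g t ∂(PM β T Δ) := by
    calc ENNReal.ofReal (δ ^ β * (1 - κ)) = ENNReal.ofReal (δ ^ β) * ENNReal.ofReal (1 - κ) := by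
          rw [← ENNReal.ofReal_mul (by positivity)]
      _ ≤ ENNReal.ofReal (δ ^ β) * PM β T Δ G := by gcongr
      _ = ∫⁻ _t in G, ENNReal.ofReal (δ ^ β) ∂(PM β T Δ) := by rw [setLIntegral_const]
      _ ≤ ∫⁻ t in G, g t ∂(PM β T Δ) := by
          refine setLIntegral_mono' hGm fun t ht => ?_
          apply ENNReal.ofReal_le_ofReal
          rw [← hs, Real.rpow_sum_of_pos hδ0]
          refine Finset.prod_le_prod (fun i _ => by positivity) fun i _ => ?_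
          exact Real.rpow_le_rpow hδ0.le (ht i) (hp i)
      _ ≤ _ := setLIntegral_le_lintegral _ _
  have h7 : ENNReal.ofReal J * ∫⁻ t, g t ∂(PM β T Δ) ≤
      ∫⁻ t : ℝ, ENNReal.ofReal ((∏ i, ‖riemannZeta (sp t + z i / L)‖ ^ p i) * wt T Δ t) := by
    unfold PM
    rw [lintegral_withDensity_eq_lintegral_mul _ hd hgm, ← lintegral_const_mul' _ _ ENNReal.ofReal_ne_top]
    refine lintegral_mono fun t => ?_
    show ENNReal.ofReal J * (ENNReal.ofReal (dn β T Δ t) * ENNReal.ofReal (∏ i, ‖YZ L (z i) t‖ ^ p i)) ≤ _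
    rw [← ENNReal.ofReal_mul (dn_nonneg _ _ _ _), ← ENNReal.ofReal_mul hJ.le]
    apply ENNReal.ofReal_le_ofReal
    have hw := wt_pos T Δ t
    have hpr : 0 ≤ ∏ i, ‖riemannZeta (sp t + z i / L)‖ ^ p i :=
      Finset.prod_nonneg fun i _ => by positivity
    unfold dn
    rcases eq_or_ne (riemannZeta (sp t)) 0 with h0 | h0
    · rw [h0, norm_zero, Real.zero_rpow hβ.ne']
      simp only [zero_mul, zero_div, mul_zero]
      positivity
    · have hn : 0 < ‖riemannZeta (sp t)‖ := norm_pos_iff.mpr h0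
      have e1 : ∏ i, ‖YZ L (z i) t‖ ^ p i =
          (∏ i, ‖riemannZeta (sp t + z i / L)‖ ^ p i) / ‖riemannZeta (sp t)‖ ^ β := by
        unfold YZ
        rw [← hs, Real.rpow_sum_of_pos hn, ← Finset.prod_div_distrib]
        refine Finset.prod_congr rfl fun i _ => ?_
        rw [norm_div, Real.div_rpow (norm_nonneg _) (norm_nonneg _)]
      rw [e1, ← hJd]
      have hnb : 0 < ‖riemannZeta (sp t)‖ ^ β := by positivity
      apply le_of_eq
      field_simp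
  refine le_trans (le_of_eq ?_) ((mul_le_mul' le_rfl h6).trans h7)
  rw [← ENNReal.ofReal_mul hJ.le, mul_comm]

/-- the lower bound for the products -/
theorem prod_lower {β A : ℝ} (hβ : 0 < β) (hA : 0 < A) (m : ℕ) : ∃ c : ℝ, 0 < c ∧ ∃ B T₀ : ℝ,
    ∀ T Δ : ℝ, T₀ ≤ T → 0 < Δ → B ≤ Δ ^ 2 * Real.log T → Δ ≤ T / (2 * Real.log T) →
    ∀ (p : Fin m → ℝ) (z : Fin m → ℂ), (∀ i, 0 ≤ p i) → ∑ i, p i = β → (∀ i, ‖z i‖ ≤ A) →
    ENNReal.ofReal (c * JB β T Δ (1 / 2)) ≤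
      ∫⁻ t : ℝ, ENNReal.ofReal ((∏ i, ‖riemannZeta (sp t + z i / Real.log T)‖ ^ p i) * wt T Δ t) := by
  have hη0 : 0 < (1 / 2 : ℝ) / ((m : ℝ) + 1) := by positivity
  obtain ⟨δ₀, hδ₀, B₁, T₁, h₁⟩ := small_ball hβ hA hη0
  obtain ⟨B₂, T₂, -, hT₂, h₂⟩ := PM_sup (ρ := 1) hβ one_pos
  refine ⟨δ₀ ^ β * (1 - 1 / 2), by positivity, max B₁ B₂, max T₁ T₂, fun T Δ hT hΔ hB hΔT p z hp hs hz => ?_⟩
  have hT3 : 3 ≤ T := by have := (le_max_right T₁ T₂).trans hT; linarith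
  exact prod_gen hβ hT3 hΔ hΔT
    (h₂ T Δ ((le_max_right _ _).trans hT) hΔ ((le_max_right _ _).trans hB) hΔT).1 hδ₀ (by norm_num)
    (by norm_num) p z hp hs fun i =>
      h₁ T Δ ((le_max_left _ _).trans hT) hΔ ((le_max_left _ _).trans hB) hΔT (z i) (hz i)

theorem PM_zero {β : ℝ} (hβ : 0 < β) (T Δ : ℝ) : PM β T Δ {t | riemannZeta (sp t) = 0} = 0 := by
  have hms : MeasurableSet {t : ℝ | riemannZeta (sp t) = 0} :=
    (zeta_measurable.comp sp_cont.measurable) (measurableSet_singleton 0)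
  unfold PM
  rw [withDensity_apply _ hms]
  rw [setLIntegral_congr_fun hms (g := fun _ => (0 : ENNReal)) (fun t ht => ?_), lintegral_zero]
  have ht' : riemannZeta (sp t) = 0 := ht
  unfold dn
  rw [ht', norm_zero, Real.zero_rpow hβ.ne']
  simp

/-- near the origin -/
theorem near_origin {β ε : ℝ} (hβ : 0 < β) (hε : 0 < ε) : ∃ δ : ℝ, 0 < δ ∧ ∃ B T₀ : ℝ, 200 ≤ T₀ ∧
    ∀ T Δ : ℝ, T₀ ≤ T → 0 < Δ → B ≤ Δ ^ 2 * Real.log T → Δ ≤ T / (2 * Real.log T) →
    0 < JB β T Δ (1 / 2) ∧ ∀ z : ℂ, ‖z‖ ≤ δ →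
      PM β T Δ {t | ‖YZ (Real.log T) z t‖ < 1 - ε} ≤ ENNReal.ofReal ε ∧
      ∫⁻ t, ENNReal.ofReal (‖YZ (Real.log T) z t‖ ^ β) ∂(PM β T Δ) ≤ ENNReal.ofReal (1 + ε) := by
  obtain ⟨B, T₀, -, hT₀, h⟩ := PM_sup (ρ := 2) hβ two_pos
  have hSC := SC_pos (β := β) (ρ := 2) two_pos
  -- the size of the inner disc
  obtain ⟨θ, hθ0, hθ⟩ : ∃ θ : ℝ, 0 < θ ∧ (1 + θ) ^ β ≤ 1 + ε / 2 := by
    have h1 : Tendsto (fun θ : ℝ => (1 + θ) ^ β) (𝓝[>] 0) (𝓝 1) := by
      have h2 : ContinuousAt (fun θ : ℝ => (1 + θ) ^ β) 0 :=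
        (continuousAt_const.add continuousAt_id).rpow_const (Or.inr hβ.le)
      have h3 := h2.tendsto.mono_left (nhdsWithin_le_nhds (s := Set.Ioi 0))
      simpa using h3
    have h4 := (h1.eventually_le_const (show (1 : ℝ) < 1 + ε / 2 by linarith)).and
      (self_mem_nhdsWithin (a := (0 : ℝ)) (s := Set.Ioi 0))
    obtain ⟨θ, h5, h6⟩ := h4.exists
    exact ⟨θ, h6, h5⟩
  set C : ℝ := (1 + 1 / θ) ^ β with hC
  have hC0 : 0 < C := by positivity
  have hlim : Tendsto (fun δ : ℝ => δ ^ β * SC β 2) (𝓝[>] 0) (𝓝 0) := by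
    have h2 : ContinuousAt (fun δ : ℝ => δ ^ β * SC β 2) 0 :=
      (continuousAt_id.rpow_const (Or.inr hβ.le)).mul continuousAt_const
    have h3 := h2.tendsto.mono_left (nhdsWithin_le_nhds (s := Set.Ioi 0))
    simpa [Real.zero_rpow hβ.ne'] using h3
  obtain ⟨δ, ⟨hδ1, hδ2⟩, hδ3, hδ0⟩ := (((hlim.eventually_le_const
    (show (0 : ℝ) < ε * ε ^ β by positivity)).and (hlim.eventually_le_const
    (show (0 : ℝ) < ε / 2 / C by positivity))).and
    (((tendsto_id'.mpr (nhdsWithin_le_nhds (s := Set.Ioi (0 : ℝ)))).eventually_le_const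
      (show (0 : ℝ) < 1 by norm_num)).and (self_mem_nhdsWithin (a := (0 : ℝ)) (s := Set.Ioi 0)))).exists
  have hδ0' : 0 < δ := hδ0
  have hδ3' : δ ≤ 1 := hδ3
  refine ⟨δ, hδ0', B, T₀, hT₀, fun T Δ hT hΔ hB hΔT => ?_⟩
  obtain ⟨hJ, hL16, hR⟩ := h T Δ hT hΔ hB hΔT
  refine ⟨hJ, fun z hz => ?_⟩
  have hT3 : 3 ≤ T := by linarith
  have hT0 : 0 < T := by linarith
  have hlog := log_ge_one hT3
  have hP : IsProbabilityMeasure (PM β T Δ) :=
    PM_prob hβ hΔ hT0.le (hΔT.trans (div_le_self hT0.le (by linarith))) hJ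
  set L := Real.log T with hL
  have hL0 : 0 < L := by linarith
  have hr16 : 2 / L ≤ 1 / 16 := by rw [div_le_iff₀ hL0]; linarith
  have hRm : Measurable fun t => YZ L z t - YZ L 0 t := (YZ_meas L z).sub (YZ_meas L 0)
  have hm1 := hR (fun t => YZ L z t - YZ L 0 t) δ hRm hδ0'.le (fun t S hζ hS => by
    unfold YZ
    rw [← sub_div, norm_div]
    refine div_le_div_of_nonneg_right ?_ (norm_nonneg _)
    have h11 : (1 + 1 : ℝ) = 2 := by norm_num
    have hlz := lipZ (A := 1) (z := z) (w := 0) hL0 (hz.trans hδ3') (by rw [norm_zero]; exact zero_le_one)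
      (by rw [h11]; exact hr16) (fun u hu => hS u (by rw [h11] at hu; exact hu))
    rw [sub_zero] at hlz
    have hS0 : 0 ≤ S := (norm_nonneg _).trans (hS 0 (Metric.mem_closedBall_self (by positivity)))
    exact hlz.trans (mul_le_mul_of_nonneg_right hz hS0))
  have hY0 : ∀ t, riemannZeta (sp t) ≠ 0 → YZ L 0 t = 1 := by
    intro t h0
    unfold YZ
    rw [zero_div, add_zero, div_self h0]
  constructor
  · have hmk := markovR hRm hβ hε hm1
    have hincl : {t | ‖YZ L z t‖ < 1 - ε} ⊆ {t | ε ≤ ‖YZ L z t - YZ L 0 t‖} ∪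
        {t | riemannZeta (sp t) = 0} := by
      intro t ht
      have ht' : ‖YZ L z t‖ < 1 - ε := ht
      rcases eq_or_ne (riemannZeta (sp t)) 0 with h0 | h0
      · exact Or.inr h0
      · left
        show ε ≤ ‖YZ L z t - YZ L 0 t‖
        rw [hY0 t h0]
        have h2 := norm_sub_norm_le (1 : ℂ) (1 - YZ L z t)
        rw [norm_one, sub_sub_cancel, norm_sub_rev] at h2
        linarith
    refine (measure_mono hincl).trans ((measure_union_le _ _).trans ?_)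
    rw [PM_zero hβ, add_zero]
    refine hmk.trans (ENNReal.ofReal_le_ofReal ?_)
    rw [div_le_iff₀ (by positivity)]
    exact hδ1
  · have hae : ∀ᵐ t ∂(PM β T Δ), riemannZeta (sp t) ≠ 0 := by
      rw [ae_iff]
      simpa using PM_zero hβ T Δ
    have hpt : ∀ᵐ t ∂(PM β T Δ), ENNReal.ofReal (‖YZ L z t‖ ^ β) ≤
        ENNReal.ofReal (1 + ε / 2) + ENNReal.ofReal C * ENNReal.ofReal (‖YZ L z t - YZ L 0 t‖ ^ β) := by
      filter_upwards [hae] with t h0
      rw [hY0 t h0, ← ENNReal.ofReal_mul hC0.le, ← ENNReal.ofReal_add (by positivity) (by positivity)]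
      apply ENNReal.ofReal_le_ofReal
      have htri : ‖YZ L z t‖ ≤ 1 + ‖YZ L z t - 1‖ := by
        have := norm_add_le (1 : ℂ) (YZ L z t - 1)
        rwa [add_sub_cancel, norm_one] at this
      have hn0 : 0 ≤ ‖YZ L z t - 1‖ := norm_nonneg _
      rcases le_or_gt ‖YZ L z t - 1‖ θ with h5 | h5
      · have h6 : ‖YZ L z t‖ ^ β ≤ (1 + θ) ^ β :=
          Real.rpow_le_rpow (norm_nonneg _) (by linarith) hβ.le
        have h7 : 0 ≤ C * ‖YZ L z t - 1‖ ^ β := by positivity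
        linarith
      · have h6 : ‖YZ L z t‖ ≤ (1 + 1 / θ) * ‖YZ L z t - 1‖ := by
          have h8 : 1 ≤ 1 / θ * ‖YZ L z t - 1‖ := by
            rw [one_div, inv_mul_eq_div, le_div_iff₀ hθ0]
            linarith
          nlinarith
        have h7 : ‖YZ L z t‖ ^ β ≤ C * ‖YZ L z t - 1‖ ^ β := by
          rw [hC, ← Real.mul_rpow (by positivity) hn0]
          exact Real.rpow_le_rpow (norm_nonneg _) h6 hβ.le
        have : 0 ≤ ε := hε.le
        linarith
    refine (lintegral_mono_ae hpt).trans ?_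
    rw [lintegral_add_left measurable_const, lintegral_const, measure_univ, mul_one,
      lintegral_const_mul' _ _ ENNReal.ofReal_ne_top]
    refine (add_le_add le_rfl (mul_le_mul' le_rfl hm1)).trans ?_
    rw [← ENNReal.ofReal_mul hC0.le, ← ENNReal.ofReal_add (by positivity) (by positivity)]
    apply ENNReal.ofReal_le_ofReal
    have h9 : C * (δ ^ β * SC β 2) ≤ ε / 2 := by
      have := mul_le_mul_of_nonneg_left hδ2 hC0.le
      rwa [mul_div_cancel₀ _ hC0.ne'] at this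
    linarith

end

end Run7.h563.LS
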