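import Pool.Agent.Run7.h563.LS.ZF

set_option autoImplicit false

/-!
# Products of values at nearby points: final estimates
-/

namespace Run7.h563.LS

open Complex MeasureTheory Filter Topology Set Q97.RB Q97.MM

noncomputable section

theorem zeta_ae_ne {β T Δ : ℝ} (hβ : 0 < β) (hJ : 0 < JB β T Δ (1 / 2)) :
    ∀ᵐ t : ℝ, riemannZeta (sp t) ≠ 0 := by
  obtain ⟨t₀, ht₀⟩ : ∃ t : ℝ, riemannZeta (sp t) ≠ 0 := by
    by_contra hcon
    push Not at hcon
    have : JB β T Δ (1 / 2) = 0 := by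
      rw [JB_eq_sp, ← integral_zero ℝ ℝ]
      refine integral_congr_ae (Eventually.of_forall fun t => ?_)
      simp only
      rw [hcon t, norm_zero, Real.zero_rpow hβ.ne', zero_mul]
    linarith
  have hg : AnalyticOnNhd ℝ (fun t : ℝ => riemannZeta (sp t)) Set.univ := by
    intro t _
    have h1 : AnalyticAt ℝ riemannZeta (sp t) := by
      have h2 : DifferentiableOn ℂ riemannZeta {1}ᶜ := fun z hz =>
        (differentiableAt_riemannZeta hz).differentiableWithinAt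
      exact ((h2.analyticAt (isOpen_compl_singleton.mem_nhds (sp_ne t)))).restrictScalars
    have h2 : AnalyticAt ℝ sp t := by
      unfold sp
      exact analyticAt_const.add ((Complex.ofRealCLM.analyticAt t).mul analyticAt_const)
    exact AnalyticAt.comp (g := riemannZeta) (f := sp) h1 h2
  have h3 := hg.preimage_zero_mem_codiscrete ht₀
  have h4 := ae_restrict_le_codiscreteWithin (μ := (volume : Measure ℝ)) MeasurableSet.univ h3
  rw [Measure.restrict_univ] at h4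
  filter_upwards [h4] with t ht
  exact ht

theorem set_part {β T Δ η : ℝ} (hβ : 0 < β) (hΔ : 0 < Δ) (hT : 0 ≤ T) (hΔT : Δ ≤ T)
    (hJ : 0 < JB β T Δ (1 / 2)) (hη : 0 ≤ η) {S : Set ℝ} (hS : MeasurableSet S)
    (h : PM β T Δ S ≤ ENNReal.ofReal η) :
    ∫ t in S, ‖riemannZeta (sp t)‖ ^ β * wt T Δ t ≤ η * JB β T Δ (1 / 2) := by
  unfold PM at h
  rw [withDensity_apply _ hS, ← ofReal_integral_eq_lintegral_ofReal
    (dn_integrable hβ hΔ hT hΔT).integrableOn (Eventually.of_forall fun t => dn_nonneg _ _ _ _)] at h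
  have h1 := (ENNReal.ofReal_le_ofReal_iff hη).mp h
  unfold dn at h1
  rw [integral_div, div_le_iff₀ hJ] at h1
  exact h1

theorem nearby_sets {β A η : ℝ} (hβ : 0 < β) (hA : 0 < A) (hη : 0 < η) : ∃ δ : ℝ, 0 < δ ∧
    ∃ B T₀ : ℝ, 200 ≤ T₀ ∧
    ∀ T Δ : ℝ, T₀ ≤ T → 0 < Δ → B ≤ Δ ^ 2 * Real.log T → Δ ≤ T / (2 * Real.log T) →
      ∀ z : ℂ, ‖z‖ ≤ A →
      ∫ t in {t : ℝ | ‖riemannZeta (sp t + z / Real.log T)‖ < δ * ‖riemannZeta (sp t)‖},
        ‖riemannZeta (sp t)‖ ^ β * wt T Δ t ≤ η * JB β T Δ (1 / 2) ∧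
      ∫ t in {t : ℝ | ‖riemannZeta (sp t)‖ < δ * ‖riemannZeta (sp t + z / Real.log T)‖},
        ‖riemannZeta (sp t)‖ ^ β * wt T Δ t ≤ η * JB β T Δ (1 / 2) := by
  obtain ⟨δ₁, hδ₁, B₁, T₁, h₁⟩ := small_ball hβ hA hη
  obtain ⟨B₂, T₂, -, hT₂, h₂⟩ := PM_sup (ρ := A) hβ hA
  have hSC := SC_pos (β := β) hA
  set δ₂ : ℝ := (η / SC β A) ^ (1 / β) with hδ₂
  have hδ₂0 : 0 < δ₂ := by positivity
  set δ : ℝ := min δ₁ δ₂ with hδ
  have hδ0 : 0 < δ := lt_min hδ₁ hδ₂0
  have hδβ : SC β A * δ ^ β ≤ η := by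
    have h1 : δ ^ β ≤ δ₂ ^ β := Real.rpow_le_rpow hδ0.le (min_le_right _ _) hβ.le
    have h2 : δ₂ ^ β = η / SC β A := by
      rw [hδ₂, ← Real.rpow_mul (by positivity), one_div, inv_mul_cancel₀ hβ.ne', Real.rpow_one]
    rw [h2] at h1
    calc SC β A * δ ^ β ≤ SC β A * (η / SC β A) := mul_le_mul_of_nonneg_left h1 hSC.le
      _ = η := by field_simp
  refine ⟨δ, hδ0, max B₁ B₂, max T₁ T₂, hT₂.trans (le_max_right _ _), fun T Δ hT hΔ hB hΔT z hz => ?_⟩
  have hsb := h₁ T Δ ((le_max_left _ _).trans hT) hΔ ((le_max_left _ _).trans hB) hΔT z hz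
  obtain ⟨hJ, hL16, hR⟩ := h₂ T Δ ((le_max_right _ _).trans hT) hΔ ((le_max_right _ _).trans hB) hΔT
  have hT3 : 3 ≤ T := by have := (le_max_right T₁ T₂).trans hT; linarith
  have hT0 : 0 < T := by linarith
  have hlog := log_ge_one hT3
  have hL0 : 0 < Real.log T := by linarith
  have hΔT' : Δ ≤ T := hΔT.trans (div_le_self hT0.le (by linarith))
  set L := Real.log T with hL
  have hm1 : Measurable fun t : ℝ => riemannZeta (sp t + z / L) :=
    zeta_measurable.comp (sp_cont.measurable.add_const _)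
  have hm2 : Measurable fun t : ℝ => riemannZeta (sp t) := zeta_measurable.comp sp_cont.measurable
  constructor
  · refine set_part hβ hΔ hT0.le hΔT' hJ hη.le (measurableSet_lt hm1.norm (hm2.norm.const_mul δ)) ?_
    refine (measure_mono fun t ht => ?_).trans hsb
    have ht' : ‖riemannZeta (sp t + z / L)‖ < δ * ‖riemannZeta (sp t)‖ := ht
    have hn : 0 < ‖riemannZeta (sp t)‖ := by
      rcases (norm_nonneg (riemannZeta (sp t))).eq_or_lt with h0 | h0
      · rw [← h0, mul_zero] at ht'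
        exact absurd ht' (not_lt.mpr (norm_nonneg _))
      · exact h0
    show ‖YZ L z t‖ < δ₁
    unfold YZ
    rw [norm_div, div_lt_iff₀ hn]
    exact ht'.trans_le (mul_le_mul_of_nonneg_right (min_le_left _ _) hn.le)
  · refine set_part hβ hΔ hT0.le hΔT' hJ hη.le (measurableSet_lt hm2.norm (hm1.norm.const_mul δ)) ?_
    have hYb := hR (YZ L z) 1 (YZ_meas L z) zero_le_one (fun t S hζ hS => by
      unfold YZ
      rw [norm_div, one_mul]
      refine div_le_div_of_nonneg_right (hS _ ?_) (norm_nonneg _)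
      rw [Metric.mem_closedBall, dist_zero_right, norm_div, Complex.norm_real,
        Real.norm_of_nonneg hL0.le]
      gcongr)
    rw [Real.one_rpow, one_mul] at hYb
    have hmk := markovR (δ := 1 / δ) (YZ_meas L z) hβ (by positivity) hYb
    have hincl : {t : ℝ | ‖riemannZeta (sp t)‖ < δ * ‖riemannZeta (sp t + z / L)‖} ⊆
        {t | 1 / δ ≤ ‖YZ L z t‖} ∪ {t | riemannZeta (sp t) = 0} := by
      intro t ht
      have ht' : ‖riemannZeta (sp t)‖ < δ * ‖riemannZeta (sp t + z / L)‖ := ht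
      rcases eq_or_ne (riemannZeta (sp t)) 0 with h0 | h0
      · exact Or.inr h0
      · left
        have hn : 0 < ‖riemannZeta (sp t)‖ := norm_pos_iff.mpr h0
        show 1 / δ ≤ ‖YZ L z t‖
        unfold YZ
        rw [norm_div, le_div_iff₀ hn, one_div, inv_mul_le_iff₀ hδ0]
        exact ht'.le
    refine (measure_mono hincl).trans ((measure_union_le _ _).trans ?_)
    rw [PM_zero hβ, add_zero]
    refine hmk.trans (ENNReal.ofReal_le_ofReal (le_trans (le_of_eq ?_) hδβ))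
    rw [one_div, Real.inv_rpow hδ0.le, div_inv_eq_mul]

/-- the product moment is integrable -/
theorem prod_int {β A T Δ : ℝ} (hβ : 0 < β) (hΔ : 0 < Δ) (hTA : 2 * A ≤ T)
    (hΔT : Δ ≤ T / 2) (hL1 : 1 ≤ Real.log T) (hL : 8 * A ≤ Real.log T) {m : ℕ} (p : Fin m → ℝ)
    (z : Fin m → ℂ) (hp : ∀ i, 0 ≤ p i) (hs : ∑ i, p i = β) (hz : ∀ i, ‖z i‖ ≤ A) :
    Integrable (fun t : ℝ => (∏ i, ‖riemannZeta (sp t + z i / Real.log T)‖ ^ p i) * wt T Δ t) ∧
    ∫ t : ℝ, (∏ i, ‖riemannZeta (sp t + z i / Real.log T)‖ ^ p i) * wt T Δ t ≤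
      ∑ i, p i / β * ∫ t : ℝ, ‖riemannZeta (sp t + z i / Real.log T)‖ ^ β * wt T Δ t := by
  have hi : ∀ i, Integrable fun t : ℝ => ‖riemannZeta (sp t + z i / Real.log T)‖ ^ β * wt T Δ t :=
    fun i => abs_int hβ hΔ hTA hΔT hL1 hL (hz i)
  have hsum : Integrable fun t : ℝ => ∑ i, p i / β *
      (‖riemannZeta (sp t + z i / Real.log T)‖ ^ β * wt T Δ t) :=
    integrable_finset_sum _ fun i _ => (hi i).const_mul _
  have hm : Measurable (fun t : ℝ => (∏ i, ‖riemannZeta (sp t + z i / Real.log T)‖ ^ p i) * wt T Δ t) := by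
    have hw : Measurable (wt T Δ) := by unfold wt; fun_prop
    refine Measurable.mul (Finset.measurable_prod _ fun i _ => ?_) hw
    exact (zeta_measurable.comp (sp_cont.measurable.add_const _)).norm.pow_const _
  have hpt : ∀ t : ℝ, (∏ i, ‖riemannZeta (sp t + z i / Real.log T)‖ ^ p i) * wt T Δ t ≤
      ∑ i, p i / β * (‖riemannZeta (sp t + z i / Real.log T)‖ ^ β * wt T Δ t) := by
    intro t
    have h1 := prod_amgm hβ p (fun i => ‖riemannZeta (sp t + z i / Real.log T)‖) hp hs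
      (fun i => norm_nonneg _)
    have h2 := mul_le_mul_of_nonneg_right h1 (wt_pos T Δ t).le
    refine h2.trans (le_of_eq ?_)
    rw [Finset.sum_mul]
    refine Finset.sum_congr rfl fun i _ => ?_
    ring
  have hnn : ∀ t : ℝ, 0 ≤ (∏ i, ‖riemannZeta (sp t + z i / Real.log T)‖ ^ p i) * wt T Δ t :=
    fun t => mul_nonneg (Finset.prod_nonneg fun i _ => by positivity) (wt_pos T Δ t).le
  have hint : Integrable (fun t : ℝ => (∏ i, ‖riemannZeta (sp t + z i / Real.log T)‖ ^ p i) * wt T Δ t) :=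
    Integrable.mono' hsum hm.aestronglyMeasurable (Eventually.of_forall fun t => by
      rw [Real.norm_of_nonneg (hnn t)]; exact hpt t)
  refine ⟨hint, ?_⟩
  refine (integral_mono hint hsum hpt).trans (le_of_eq ?_)
  rw [integral_finset_sum _ fun i _ => (hi i).const_mul _]
  exact Finset.sum_congr rfl fun i _ => integral_const_mul _ _

theorem sum_le_of {m : ℕ} {β C : ℝ} (hβ : 0 < β) (p u : Fin m → ℝ) (hp : ∀ i, 0 ≤ p i)
    (hs : ∑ i, p i = β) (hu : ∀ i, u i ≤ C) : ∑ i, p i / β * u i ≤ C := by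
  calc ∑ i, p i / β * u i ≤ ∑ i, p i / β * C :=
        Finset.sum_le_sum fun i _ => mul_le_mul_of_nonneg_left (hu i) (div_nonneg (hp i) hβ.le)
    _ = C := by rw [← Finset.sum_mul, ← Finset.sum_div, hs, div_self hβ.ne', one_mul]

/-- **The order of magnitude of the products.** -/
theorem prod_order {β A ε : ℝ} (hβ : 0 < β) (hA : 0 < A) (hε : 0 < ε) (m : ℕ) : ∃ c : ℝ, 0 < c ∧
    ∃ B T₀ : ℝ, 200 ≤ T₀ ∧
    ∀ T Δ : ℝ, T₀ ≤ T → 0 < Δ → B ≤ Δ ^ 2 * Real.log T → Δ ≤ T / (2 * Real.log T) →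
    0 < JB β T Δ (1 / 2) ∧
    ∀ (p : Fin m → ℝ) (z : Fin m → ℂ), (∀ i, 0 ≤ p i) → ∑ i, p i = β → (∀ i, ‖z i‖ ≤ A) →
      c * JB β T Δ (1 / 2) ≤
        ∫ t : ℝ, (∏ i, ‖riemannZeta (sp t + z i / Real.log T)‖ ^ p i) * wt T Δ t ∧
      ∫ t : ℝ, (∏ i, ‖riemannZeta (sp t + z i / Real.log T)‖ ^ p i) * wt T Δ t ≤
        SC β A * JB β T Δ (1 / 2) ∧
      ((∀ i, (z i).re = 0) →
        ∫ t : ℝ, (∏ i, ‖riemannZeta (sp t + z i / Real.log T)‖ ^ p i) * wt T Δ t ≤
        (1 + ε) * JB β T Δ (1 / 2)) := by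
  obtain ⟨c, hc, B₁, T₁, h₁⟩ := prod_lower hβ hA m
  obtain ⟨B₂, T₂, -, hT₂, h₂⟩ := PM_sup (ρ := A) hβ hA
  obtain ⟨B₃, T₃, -, hT₃, h₃⟩ := abs_upper hβ hA
  obtain ⟨B₄, T₄, -, hT₄, h₄⟩ := JB_unif hβ hε hA.le
  have hSC := SC_pos (β := β) hA
  refine ⟨c, hc, max (max B₁ B₂) (max B₃ B₄), max (max T₁ T₂) (max (max T₃ T₄) (2 * A)),
    hT₂.trans ((le_max_right _ _).trans (le_max_left _ _)), fun T Δ hT hΔ hB hΔT => ?_⟩
  have hTT1 : T₁ ≤ T := ((le_max_left _ _).trans (le_max_left _ _)).trans hT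
  have hTT2 : T₂ ≤ T := ((le_max_right _ _).trans (le_max_left _ _)).trans hT
  have hTT3 : T₃ ≤ T := ((le_max_left _ _).trans ((le_max_left _ _).trans (le_max_right _ _))).trans hT
  have hTT4 : T₄ ≤ T := ((le_max_right _ _).trans ((le_max_left _ _).trans (le_max_right _ _))).trans hT
  have hTA : 2 * A ≤ T := ((le_max_right _ _).trans (le_max_right _ _)).trans hT
  have hBB1 := ((le_max_left B₁ B₂).trans (le_max_left _ (max B₃ B₄))).trans hB
  have hBB2 := ((le_max_right B₁ B₂).trans (le_max_left _ (max B₃ B₄))).trans hB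
  have hBB3 := ((le_max_left B₃ B₄).trans (le_max_right (max B₁ B₂) _)).trans hB
  have hBB4 := ((le_max_right B₃ B₄).trans (le_max_right (max B₁ B₂) _)).trans hB
  have hT3 : 3 ≤ T := by linarith
  have hT0 : 0 < T := by linarith
  have hlog := log_ge_one hT3
  have hL0 : 0 < Real.log T := by linarith
  obtain ⟨hJ, hL16, -⟩ := h₂ T Δ hTT2 hΔ hBB2 hΔT
  refine ⟨hJ, fun p z hp hs hz => ?_⟩
  have hΔ2 : Δ ≤ T / 2 := hΔT.trans (by gcongr; linarith)
  obtain ⟨hint, hle⟩ := prod_int hβ hΔ hTA hΔ2 hlog (by linarith) p z hp hs hz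
  have hlow := h₁ T Δ hTT1 hΔ hBB1 hΔT p z hp hs hz
  have hnn : ∀ t : ℝ, 0 ≤ (∏ i, ‖riemannZeta (sp t + z i / Real.log T)‖ ^ p i) * wt T Δ t :=
    fun t => mul_nonneg (Finset.prod_nonneg fun i _ => by positivity) (wt_pos T Δ t).le
  refine ⟨?_, ?_, fun hre => ?_⟩
  · rw [← ofReal_integral_eq_lintegral_ofReal hint (Eventually.of_forall hnn)] at hlow
    exact (ENNReal.ofReal_le_ofReal_iff (integral_nonneg hnn)).mp hlow
  · refine hle.trans (sum_le_of hβ p _ hp hs fun i => ?_)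
    have h5 := h₃ T Δ hTT3 hΔ hBB3 hΔT (z i) (hz i)
    have hi := abs_int hβ hΔ hTA hΔ2 hlog (by linarith) (hz i)
    rw [← ofReal_integral_eq_lintegral_ofReal hi (Eventually.of_forall fun t =>
      mul_nonneg (by positivity) (wt_pos T Δ t).le)] at h5
    exact (ENNReal.ofReal_le_ofReal_iff (by positivity)).mp h5
  · refine hle.trans (sum_le_of hβ p _ hp hs fun i => ?_)
    have him : |(z i).im| ≤ A := (Complex.abs_im_le_norm _).trans (hz i)
    have h6 := (h₄ T Δ hTT4 hΔ hBB4 hΔT (z i).im him).2.2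
    refine le_trans (le_of_eq ?_) h6
    rw [JB_move]
    refine integral_congr_ae (Eventually.of_forall fun t => ?_)
    simp only
    have e1 : sp t + z i / Real.log T = sp (t + (z i).im / Real.log T) := by
      unfold sp
      have : z i = ((z i).im : ℂ) * I := by
        apply Complex.ext <;> simp [hre i]
      conv_lhs => rw [this]
      push_cast
      ring
    rw [e1]

/-- **Continuity at the origin.** -/
theorem prod_cont {β ε : ℝ} (hβ : 0 < β) (hε : 0 < ε) (m : ℕ) : ∃ δ : ℝ, 0 < δ ∧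
    ∃ B T₀ : ℝ, 200 ≤ T₀ ∧
    ∀ T Δ : ℝ, T₀ ≤ T → 0 < Δ → B ≤ Δ ^ 2 * Real.log T → Δ ≤ T / (2 * Real.log T) →
    ∀ (p : Fin m → ℝ) (z : Fin m → ℂ), (∀ i, 0 ≤ p i) → ∑ i, p i = β → (∀ i, ‖z i‖ ≤ δ) →
      |(∫ t : ℝ, (∏ i, ‖riemannZeta (sp t + z i / Real.log T)‖ ^ p i) * wt T Δ t) -
        JB β T Δ (1 / 2)| ≤ ε * JB β T Δ (1 / 2) := by
  -- the small parameter
  obtain ⟨κ, hκ0, hκ1, hκε, hκb⟩ : ∃ κ : ℝ, 0 < κ ∧ κ < 1 ∧ κ ≤ ε ∧ 1 - ε ≤ (1 - κ) ^ β * (1 - κ) := by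
    have h1 : Tendsto (fun κ : ℝ => (1 - κ) ^ β * (1 - κ)) (𝓝[>] 0) (𝓝 1) := by
      have h2 : ContinuousAt (fun κ : ℝ => (1 - κ) ^ β * (1 - κ)) 0 :=
        ((continuousAt_const.sub continuousAt_id).rpow_const (Or.inr hβ.le)).mul
          (continuousAt_const.sub continuousAt_id)
      have h3 := h2.tendsto.mono_left (nhdsWithin_le_nhds (s := Set.Ioi 0))
      simpa using h3
    have hid : Tendsto (fun κ : ℝ => κ) (𝓝[>] 0) (𝓝 0) := nhdsWithin_le_nhds (s := Set.Ioi (0 : ℝ))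
    obtain ⟨κ, ⟨a1, a2⟩, a3, a4⟩ := (((h1.eventually_const_le (show (1 : ℝ) - ε < 1 by linarith)).and
      (self_mem_nhdsWithin (a := (0 : ℝ)) (s := Set.Ioi 0))).and
      ((hid.eventually_lt_const (show (0 : ℝ) < 1 by norm_num)).and
        (hid.eventually_le_const hε))).exists
    exact ⟨κ, a2, a3, a4, a1⟩
  have hκm : 0 < κ / ((m : ℝ) + 1) := by positivity
  have hκm' : κ / ((m : ℝ) + 1) ≤ κ := div_le_self hκ0.le (by linarith [(Nat.cast_nonneg m : (0:ℝ) ≤ m)])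
  obtain ⟨δ, hδ, B₁, T₁, hT₁, h₁⟩ := near_origin hβ hκm
  refine ⟨δ, hδ, B₁, max T₁ (Real.exp (8 * δ) + 2 * δ), hT₁.trans (le_max_left _ _),
    fun T Δ hT hΔ hB hΔT p z hp hs hz => ?_⟩
  have hTT1 : T₁ ≤ T := (le_max_left _ _).trans hT
  have hTe := (le_max_right _ _).trans hT
  have hexp := Real.exp_pos (8 * δ)
  have hTA : 2 * δ ≤ T := by linarith
  have hT3 : 3 ≤ T := by linarith
  have hT0 : 0 < T := by linarith
  have hlog := log_ge_one hT3
  have hL0 : 0 < Real.log T := by linarith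
  have hL8 : 8 * δ ≤ Real.log T := (Real.le_log_iff_exp_le hT0).mpr (by linarith)
  obtain ⟨hJ, hn⟩ := h₁ T Δ hTT1 hΔ hB hΔT
  have hΔ2 : Δ ≤ T / 2 := hΔT.trans (by gcongr; linarith)
  obtain ⟨hint, hle⟩ := prod_int hβ hΔ hTA hΔ2 hlog hL8 p z hp hs hz
  have hnn : ∀ t : ℝ, 0 ≤ (∏ i, ‖riemannZeta (sp t + z i / Real.log T)‖ ^ p i) * wt T Δ t :=
    fun t => mul_nonneg (Finset.prod_nonneg fun i _ => by positivity) (wt_pos T Δ t).le
  have hP : IsProbabilityMeasure (PM β T Δ) :=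
    PM_prob hβ hΔ hT0.le (hΔT.trans (div_le_self hT0.le (by linarith))) hJ
  set J := JB β T Δ (1 / 2) with hJd
  rw [abs_le]
  constructor
  · have h5 := prod_gen (κ := κ) (δ := 1 - κ) hβ hT3 hΔ hΔT hJ (by linarith) hκ0.le hκ1.le p z hp hs
      (fun i => by
        refine (measure_mono fun t ht => ?_).trans ((hn (z i) (hz i)).1)
        have ht' : ‖YZ (Real.log T) (z i) t‖ < 1 - κ := ht
        show ‖YZ (Real.log T) (z i) t‖ < 1 - κ / ((m : ℝ) + 1)
        linarith)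
    rw [← ofReal_integral_eq_lintegral_ofReal hint (Eventually.of_forall hnn)] at h5
    have h6 := (ENNReal.ofReal_le_ofReal_iff (integral_nonneg hnn)).mp h5
    have h7 := mul_le_mul_of_nonneg_right hκb hJ.le
    linarith
  · have h8 : ∀ i, ∫ t : ℝ, ‖riemannZeta (sp t + z i / Real.log T)‖ ^ β * wt T Δ t ≤ (1 + ε) * J := by
      intro i
      have hi := abs_int hβ hΔ hTA hΔ2 hlog hL8 (hz i)
      have h9 := (hn (z i) (hz i)).2
      have hd : Measurable (fun t => ENNReal.ofReal (dn β T Δ t)) :=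
        (dn_cont hβ T Δ).measurable.ennreal_ofReal
      have hm : Measurable fun t => ENNReal.ofReal (‖YZ (Real.log T) (z i) t‖ ^ β) :=
        ((YZ_meas _ _).norm.pow_const β).ennreal_ofReal
      unfold PM at h9
      rw [lintegral_withDensity_eq_lintegral_mul _ hd hm] at h9
      have h10 : ∫⁻ t : ℝ, ENNReal.ofReal (‖riemannZeta (sp t + z i / Real.log T)‖ ^ β * wt T Δ t) =
          ENNReal.ofReal J * ∫⁻ t : ℝ, ((fun t => ENNReal.ofReal (dn β T Δ t)) *
            fun t => ENNReal.ofReal (‖YZ (Real.log T) (z i) t‖ ^ β)) t := by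
        rw [← lintegral_const_mul' _ _ ENNReal.ofReal_ne_top]
        have hae : ∀ᵐ t : ℝ, riemannZeta (sp t) ≠ 0 := zeta_ae_ne hβ hJ
        refine lintegral_congr_ae ?_
        filter_upwards [hae] with t h0
        rw [Pi.mul_apply, ← ENNReal.ofReal_mul (dn_nonneg _ _ _ _), ← ENNReal.ofReal_mul hJ.le]
        congr 1
        have hnz : 0 < ‖riemannZeta (sp t)‖ := norm_pos_iff.mpr h0
        have hnb : 0 < ‖riemannZeta (sp t)‖ ^ β := by positivity
        unfold dn YZ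
        rw [norm_div, Real.div_rpow (norm_nonneg _) (norm_nonneg _), ← hJd]
        field_simp
      have h11 : ∫⁻ t : ℝ, ENNReal.ofReal (‖riemannZeta (sp t + z i / Real.log T)‖ ^ β * wt T Δ t) ≤
          ENNReal.ofReal ((1 + ε) * J) := by
        rw [h10]
        refine (mul_le_mul' le_rfl h9).trans ?_
        rw [← ENNReal.ofReal_mul hJ.le]
        apply ENNReal.ofReal_le_ofReal
        rw [mul_comm]
        exact mul_le_mul_of_nonneg_right (by linarith) hJ.le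
      rw [← ofReal_integral_eq_lintegral_ofReal hi (Eventually.of_forall fun t =>
        mul_nonneg (by positivity) (wt_pos T Δ t).le)] at h11
      exact (ENNReal.ofReal_le_ofReal_iff (by positivity)).mp h11
    have h12 := hle.trans (sum_le_of hβ p _ hp hs h8)
    linarith

end

end Run7.h563.LS
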