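import Pool.Agent.Run7.h563.LS.ZG

set_option autoImplicit false

/-!
# Jensen's inequality with a weight on the circle
-/

namespace Run7.h563.LS

open Complex MeasureTheory Filter Topology Set Q97.RB Q97.MM MeromorphicOn Real

noncomputable section

/-- Jensen's formula and the convexity of the exponential function, with a weight. -/
theorem jensen_w {F : ℂ → ℂ} (hF : Differentiable ℂ F) {c : ℂ} {r β : ℝ} (hr : 0 < r)
    (hβ : 0 < β) {g : ℂ → ℝ} (hg : Continuous g) :
    ‖F c‖ ^ β * Real.exp (β * NN F c r) ≤ Real.exp (circleAverage g c r) *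
      circleAverage (fun z => ‖F z‖ ^ β * Real.exp (-g z)) c r := by
  have hcont : Continuous (fun z => ‖F z‖ ^ β * Real.exp (-g z)) :=
    (hF.continuous.norm.rpow_const fun z => Or.inr hβ.le).mul (Real.continuous_exp.comp hg.neg)
  have hci : CircleIntegrable (fun z => ‖F z‖ ^ β * Real.exp (-g z)) c r := by
    refine Continuous.intervalIntegrable ?_ _ _
    exact hcont.comp (continuous_circleMap c r)
  have hgi : CircleIntegrable g c r := by
    refine Continuous.intervalIntegrable ?_ _ _
    exact hg.comp (continuous_circleMap c r)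
  by_cases hc : F c = 0
  · rw [hc, norm_zero, Real.zero_rpow hβ.ne', zero_mul, circleAverage_def]
    have : 0 ≤ ∫ θ in (0 : ℝ)..2 * π, (fun z => ‖F z‖ ^ β * Real.exp (-g z)) (circleMap c r θ) :=
      intervalIntegral.integral_nonneg (by positivity) fun θ _ => by positivity
    exact mul_nonneg (Real.exp_pos _).le (smul_nonneg (by positivity) this)
  · have hA : AnalyticOnNhd ℂ F Set.univ := fun z _ => hF.analyticAt z
    have hm : MeromorphicOn F (Metric.closedBall c |r|) := (hA.mono (subset_univ _)).meromorphicOn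
    have hm' : MeromorphicOn F (Metric.sphere c |r|) := (hA.mono (subset_univ _)).meromorphicOn
    have hJ := MeromorphicOn.circleAverage_log_norm hr.ne' hm
    have hcB : c ∈ Metric.closedBall c |r| := Metric.mem_closedBall_self (abs_nonneg r)
    have hd : divisor F (Metric.closedBall c |r|) c = 0 := by
      rw [MeromorphicOn.AnalyticOnNhd.divisor_apply (hA.mono (subset_univ _)) hcB,
        (hF.analyticAt c).analyticOrderAt_eq_zero.mpr hc]
      simp
    rw [hd, (hF.analyticAt c).meromorphicTrailingCoeffAt_of_ne_zero hc] at hJ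
    simp only [Int.cast_zero, zero_mul, add_zero] at hJ
    change circleAverage (Real.log ‖F ·‖) c r = NN F c r + Real.log ‖F c‖ at hJ
    set A := circleAverage g c r with hAd
    set m := β * (NN F c r + Real.log ‖F c‖) - A with hmdef
    have hlog : CircleIntegrable (Real.log ‖F ·‖) c r := hm'.circleIntegrable_log_norm
    have e1 : ‖F c‖ ^ β * Real.exp (β * NN F c r) = Real.exp A * Real.exp m := by
      rw [Real.rpow_def_of_pos (norm_pos_iff.mpr hc), ← Real.exp_add, ← Real.exp_add, hmdef]
      congr 1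
      ring
    have e2 : circleAverage (fun z => ‖F z‖ ^ β * Real.exp (-g z)) c r =
        circleAverage (fun z => Real.exp (β * Real.log ‖F z‖ - g z)) c r := by
      apply circleAverage_congr_codiscreteWithin _ hr.ne'
      filter_upwards [ne_zero_codiscrete hF hc (Metric.sphere c |r|)] with z hz
      rw [Real.rpow_def_of_pos (norm_pos_iff.mpr hz), mul_comm β, ← Real.exp_add]
      rfl
    have hci2 : CircleIntegrable (fun z => Real.exp (β * Real.log ‖F z‖ - g z)) c r := by
      refine hci.congr_codiscreteWithin ?_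
      filter_upwards [ne_zero_codiscrete hF hc (Metric.sphere c |r|)] with z hz
      rw [Real.rpow_def_of_pos (norm_pos_iff.mpr hz), mul_comm β, ← Real.exp_add]
      rfl
    have h2 : CircleIntegrable (fun z => β * Real.log ‖F z‖) c r := hlog.const_mul β
    have h3 : CircleIntegrable (fun z => β * Real.log ‖F z‖ - g z) c r := h2.sub hgi
    have hlin : CircleIntegrable (fun z => Real.exp m * ((1 - m) + (β * Real.log ‖F z‖ - g z))) c r := by
      have h4 : CircleIntegrable (fun z => (1 - m) + (β * Real.log ‖F z‖ - g z)) c r :=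
        (circleIntegrable_const (1 - m) c r).add h3
      exact h4.const_mul (Real.exp m)
    have e3 : circleAverage (fun z => Real.exp m * ((1 - m) + (β * Real.log ‖F z‖ - g z))) c r =
        Real.exp m := by
      have e4 : (fun z => Real.exp m * ((1 - m) + (β * Real.log ‖F z‖ - g z))) =
          fun z => Real.exp m • ((β • Real.log ‖F z‖ - g z) + (1 - m)) := by
        funext z
        rw [smul_eq_mul, smul_eq_mul]
        ring
      have h5 : CircleIntegrable (fun z => β • Real.log ‖F z‖) c r := hlog.const_smul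
      have h6 : CircleIntegrable (fun z => β • Real.log ‖F z‖ - g z) c r := h5.sub hgi
      rw [e4, circleAverage_fun_smul, circleAverage_fun_add h6 (circleIntegrable_const _ c r),
        circleAverage_fun_sub h5 hgi, circleAverage_fun_smul, circleAverage_const, hJ, smul_eq_mul,
        smul_eq_mul, ← hAd, hmdef]
      ring
    rw [e1, e2]
    refine mul_le_mul_of_nonneg_left ?_ (Real.exp_pos _).le
    rw [← e3]
    refine circleAverage_mono hlin hci2 fun z _ => ?_
    have h7 := Real.add_one_le_exp (β * Real.log ‖F z‖ - g z - m)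
    calc Real.exp m * ((1 - m) + (β * Real.log ‖F z‖ - g z)) ≤
        Real.exp m * Real.exp (β * Real.log ‖F z‖ - g z - m) := by
          refine mul_le_mul_of_nonneg_left ?_ (Real.exp_pos _).le
          linarith
      _ = Real.exp (β * Real.log ‖F z‖ - g z) := by
          rw [← Real.exp_add]
          congr 1
          ring

/-- the average of the weight -/
theorem weight_avg (lam : ℝ) (c : ℂ) {r : ℝ} (hr : 0 < r) :
    circleAverage (fun z => lam * max 0 (c.re - z.re)) c r = lam * r / π := by
  have hπ := Real.pi_pos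
  rw [circleAverage_def]
  have e1 : ∀ θ : ℝ, lam * max 0 (c.re - (circleMap c r θ).re) = lam * r * max 0 (-Real.cos θ) := by
    intro θ
    have : (circleMap c r θ).re = c.re + r * Real.cos θ := by
      rw [circleMap, Complex.exp_mul_I]
      simp [Complex.cos_ofReal_re]
    rw [this, mul_assoc]
    congr 1
    rw [← mul_zero r, show c.re - (c.re + r * Real.cos θ) = r * (-Real.cos θ) by ring, mul_zero]
    rcases le_total 0 (-Real.cos θ) with h | h
    · rw [max_eq_right h, max_eq_right (by positivity)]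
    · rw [max_eq_left h, max_eq_left (mul_nonpos_of_nonneg_of_nonpos hr.le h), mul_zero]
  simp only [e1]
  rw [intervalIntegral.integral_const_mul]
  have hc : Continuous fun θ : ℝ => max 0 (-Real.cos θ) := by fun_prop
  have i1 : IntervalIntegrable (fun θ : ℝ => max 0 (-Real.cos θ)) volume 0 (π / 2) :=
    hc.intervalIntegrable _ _
  have i2 : IntervalIntegrable (fun θ : ℝ => max 0 (-Real.cos θ)) volume (π / 2) (3 * π / 2) :=
    hc.intervalIntegrable _ _
  have i3 : IntervalIntegrable (fun θ : ℝ => max 0 (-Real.cos θ)) volume (3 * π / 2) (2 * π) :=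
    hc.intervalIntegrable _ _
  have hsplit : ∫ θ in (0 : ℝ)..2 * π, max 0 (-Real.cos θ) = 2 := by
    rw [← intervalIntegral.integral_add_adjacent_intervals (hc.intervalIntegrable 0 (3 * π / 2)) i3,
      ← intervalIntegral.integral_add_adjacent_intervals i1 i2]
    have a1 : ∫ θ in (0 : ℝ)..(π / 2), max 0 (-Real.cos θ) = 0 := by
      rw [intervalIntegral.integral_congr (g := fun _ => (0 : ℝ)) (fun θ hθ => ?_)]
      · simp
      · rw [Set.uIcc_of_le (by positivity)] at hθ
        exact max_eq_left (neg_nonpos.mpr (Real.cos_nonneg_of_neg_pi_div_two_le_of_le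
          (by linarith [hθ.1]) hθ.2))
    have a2 : ∫ θ in (π / 2)..(3 * π / 2), max 0 (-Real.cos θ) = 2 := by
      rw [intervalIntegral.integral_congr (g := fun θ => -Real.cos θ) (fun θ hθ => ?_)]
      · rw [intervalIntegral.integral_neg, integral_cos, Real.sin_pi_div_two]
        have : Real.sin (3 * π / 2) = -1 := by
          have : 3 * π / 2 = π / 2 + π := by ring
          rw [this, Real.sin_add_pi, Real.sin_pi_div_two]
        rw [this]
        norm_num
      · rw [Set.uIcc_of_le (by linarith)] at hθ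
        refine max_eq_right (neg_nonneg.mpr ?_)
        exact Real.cos_nonpos_of_pi_div_two_le_of_le hθ.1 (by linarith [hθ.2])
    have a3 : ∫ θ in (3 * π / 2)..(2 * π), max 0 (-Real.cos θ) = 0 := by
      rw [intervalIntegral.integral_congr (g := fun _ => (0 : ℝ)) (fun θ hθ => ?_)]
      · simp
      · rw [Set.uIcc_of_le (by linarith)] at hθ
        refine max_eq_left (neg_nonpos.mpr ?_)
        rw [← Real.cos_sub_two_pi]
        exact Real.cos_nonneg_of_neg_pi_div_two_le_of_le (by linarith [hθ.1]) (by linarith [hθ.2])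
    rw [a1, a2, a3]
    norm_num
  rw [hsplit, smul_eq_mul]
  field_simp

/-- the circle averages with the weight, integrated along the line -/
theorem circ_int_w {F : ℂ → ℂ} {α α' β : ℝ} (hF : Differentiable ℂ F) (hβ : 0 < β) (hG : Gd F α α')
    {x r : ℝ} (lam : ℝ) (hr : 0 < r) (h1 : α ≤ x - r) (h2 : x + r ≤ α') :
    ∫⁻ y : ℝ, ENNReal.ofReal (circleAverage (fun z => ‖F z‖ ^ β *
        Real.exp (-(lam * max 0 (x - z.re)))) (x + y * I) r) =
      ENNReal.ofReal ((2 * π)⁻¹) * ∫⁻ θ in Ioc 0 (2 * π),
        ENNReal.ofReal (Real.exp (-(lam * max 0 (-(r * Real.cos θ)))) * LI F β (x + r * Real.cos θ)) := by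
  have hFc := hF.continuous
  have hπ := Real.pi_pos
  have hcm : ∀ y θ : ℝ, circleMap ((x : ℂ) + y * I) r θ =
      ((x + r * Real.cos θ : ℝ) : ℂ) + ((y + r * Real.sin θ : ℝ) : ℂ) * I := by
    intro y θ
    rw [circleMap, Complex.exp_mul_I]
    push_cast
    ring
  have hre : ∀ y θ : ℝ, (circleMap ((x : ℂ) + y * I) r θ).re = x + r * Real.cos θ := by
    intro y θ
    rw [hcm, Complex.add_re, Complex.ofReal_re, Complex.mul_re, Complex.ofReal_re, Complex.I_re,
      Complex.ofReal_im, Complex.I_im]
    ring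
  have hc2 : Continuous (fun p : ℝ × ℝ => ‖F (circleMap ((x : ℂ) + p.1 * I) r p.2)‖ ^ β *
      Real.exp (-(lam * max 0 (x - (circleMap ((x : ℂ) + p.1 * I) r p.2).re)))) := by
    refine Continuous.mul (Continuous.rpow_const ?_ fun p => Or.inr hβ.le) ?_
    · simp only [hcm]
      fun_prop
    · simp only [hre]
      fun_prop
  have e1 : ∀ y : ℝ, ENNReal.ofReal (circleAverage (fun z => ‖F z‖ ^ β *
        Real.exp (-(lam * max 0 (x - z.re)))) (x + y * I) r) =
      ENNReal.ofReal ((2 * π)⁻¹) * ∫⁻ θ in Ioc 0 (2 * π),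
        ENNReal.ofReal (‖F (circleMap ((x : ℂ) + y * I) r θ)‖ ^ β *
          Real.exp (-(lam * max 0 (x - (circleMap ((x : ℂ) + y * I) r θ).re)))) := by
    intro y
    have hcy : Continuous (fun θ : ℝ => ‖F (circleMap ((x : ℂ) + y * I) r θ)‖ ^ β *
          Real.exp (-(lam * max 0 (x - (circleMap ((x : ℂ) + y * I) r θ).re)))) :=
      hc2.comp (continuous_const.prodMk continuous_id)
    rw [circleAverage_def, smul_eq_mul, ENNReal.ofReal_mul (by positivity),
      intervalIntegral.integral_of_le (by positivity), ofReal_integral_eq_lintegral_ofReal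
        (hcy.integrableOn_Ioc) (Eventually.of_forall fun θ => by positivity)]
  simp_rw [e1]
  have hm : Measurable (fun p : ℝ × ℝ =>
      ENNReal.ofReal (‖F (circleMap ((x : ℂ) + p.1 * I) r p.2)‖ ^ β *
      Real.exp (-(lam * max 0 (x - (circleMap ((x : ℂ) + p.1 * I) r p.2).re))))) :=
    hc2.measurable.ennreal_ofReal
  rw [lintegral_const_mul _ (Measurable.lintegral_prod_right hm),
    lintegral_lintegral_swap hm.aemeasurable]
  congr 1
  refine setLIntegral_congr_fun measurableSet_Ioc fun θ _ => ?_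
  have hcos := Real.neg_one_le_cos θ
  have hcos' := Real.cos_le_one θ
  have hsub : x - (x + r * Real.cos θ) = -(r * Real.cos θ) := by ring
  have e0 : (fun y : ℝ => ENNReal.ofReal (‖F (circleMap ((x : ℂ) + y * I) r θ)‖ ^ β *
      Real.exp (-(lam * max 0 (x - (circleMap ((x : ℂ) + y * I) r θ).re))))) = fun y : ℝ =>
      ENNReal.ofReal (Real.exp (-(lam * max 0 (-(r * Real.cos θ))))) *
        ENNReal.ofReal (‖F (((x + r * Real.cos θ : ℝ) : ℂ) + ((y + r * Real.sin θ : ℝ) : ℂ) * I)‖ ^ β) := by
    funext y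
    rw [hre, hcm, hsub, mul_comm, ENNReal.ofReal_mul (Real.exp_pos _).le]
  show ∫⁻ y : ℝ, ENNReal.ofReal (‖F (circleMap ((x : ℂ) + y * I) r θ)‖ ^ β *
      Real.exp (-(lam * max 0 (x - (circleMap ((x : ℂ) + y * I) r θ).re)))) = _
  rw [e0, lintegral_const_mul' _ _ ENNReal.ofReal_ne_top,
    lintegral_add_right_eq_self (fun y : ℝ =>
    ENNReal.ofReal (‖F (((x + r * Real.cos θ : ℝ) : ℂ) + (y : ℂ) * I)‖ ^ β)) (r * Real.sin θ),
    LI_lint hF hβ hG (by nlinarith) (by nlinarith), ← ENNReal.ofReal_mul (Real.exp_pos _).le]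

/-- the integrated form of Jensen's inequality around the critical line, sharp constant -/
theorem jensen_lint {β κ ε : ℝ} (hβ : 0 < β) (hκ : 0 < κ) (hε : 0 < ε) : ∃ B T₀ : ℝ, 1 ≤ B ∧ 200 ≤ T₀ ∧
    ∀ T Δ : ℝ, T₀ ≤ T → 0 < Δ → B ≤ Δ ^ 2 * Real.log T → Δ ≤ T / Real.log T →
    ∀ r : ℝ, 0 < r → r ≤ 1 / 8 →
    ∫⁻ y : ℝ, ENNReal.ofReal (‖GW β T Δ (((1 / 2 : ℝ) : ℂ) + y * I)‖ ^ β *
        Real.exp (β * NN (GW β T Δ) (((1 / 2 : ℝ) : ℂ) + y * I) r)) ≤
      ENNReal.ofReal ((1 + ε) * Real.exp ((β / π + κ) * r * Real.log T) * PB β T Δ (1 / 2)) := by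
  obtain ⟨B, T₀, hB1, hT₀, h⟩ := band hβ hκ hε
  refine ⟨B, T₀, hB1, hT₀, fun T Δ hT hΔ hB h2 r hr hr8 => ?_⟩
  obtain ⟨h3, h4⟩ := h T Δ hT hΔ hB h2
  have hT3 : 3 ≤ T := by linarith
  have hlog := log_ge_one hT3
  have hL0 : 0 < Real.log T := by linarith
  have hπ := Real.pi_pos
  set L := Real.log T with hL
  have hp1 := LI_pos hβ hΔ T (x := 1 / 2) (by norm_num) (by norm_num)
  set lam : ℝ := β * L with hlam
  have hstep : ∀ y : ℝ, ENNReal.ofReal (‖GW β T Δ (((1 / 2 : ℝ) : ℂ) + y * I)‖ ^ β *
        Real.exp (β * NN (GW β T Δ) (((1 / 2 : ℝ) : ℂ) + y * I) r)) ≤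
      ENNReal.ofReal (Real.exp (lam * r / π)) * ENNReal.ofReal (circleAverage (fun z =>
        ‖GW β T Δ z‖ ^ β * Real.exp (-(lam * max 0 ((1 / 2 : ℝ) - z.re)))) (((1 / 2 : ℝ) : ℂ) + y * I) r) := by
    intro y
    rw [← ENNReal.ofReal_mul (Real.exp_pos _).le]
    apply ENNReal.ofReal_le_ofReal
    have hre : ((((1 / 2 : ℝ) : ℂ) + y * I)).re = 1 / 2 := by simp
    have h5 := jensen_w (GW_diff β T Δ) (c := ((1 / 2 : ℝ) : ℂ) + y * I) hr hβ
      (g := fun z => lam * max 0 ((((1 / 2 : ℝ) : ℂ) + y * I).re - z.re)) (by fun_prop)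
    rw [weight_avg lam _ hr] at h5
    simp only [hre] at h5
    exact h5
  refine (lintegral_mono hstep).trans ?_
  rw [lintegral_const_mul' _ _ ENNReal.ofReal_ne_top,
    circ_int_w (GW_diff β T Δ) hβ (GW_gd hβ hΔ T) (x := 1 / 2) lam hr (by linarith) (by linarith),
    ← LI_half hβ hΔ]
  set M := (1 + ε) * Real.exp (κ * r * L) * LI (GW β T Δ) β (1 / 2) with hM
  have h6 : ∀ θ : ℝ, Real.exp (-(lam * max 0 (-(r * Real.cos θ)))) *
      LI (GW β T Δ) β (1 / 2 + r * Real.cos θ) ≤ M := by
    intro θ
    have h7 : |r * Real.cos θ| ≤ r := by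
      rw [abs_mul, abs_of_pos hr]
      have := Real.abs_cos_le_one θ
      nlinarith
    set x := r * Real.cos θ with hx
    rcases le_total 0 x with hx0 | hx0
    · rw [max_eq_left (by linarith), mul_zero, neg_zero, Real.exp_zero, one_mul]
      have hxr : x ≤ r := (le_abs_self x).trans h7
      refine (h3 x hx0 (by linarith)).trans ?_
      rw [hM]
      refine mul_le_mul_of_nonneg_right ?_ hp1.le
      have h8 : Real.exp (κ * x * L) ≤ Real.exp (κ * r * L) := by
        apply Real.exp_le_exp.mpr
        gcongr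
      have h9 := Real.exp_pos (κ * r * L)
      nlinarith
    · rw [max_eq_right (by linarith)]
      have h8 := h4 x (h7.trans hr8)
      rw [abs_of_nonpos hx0] at h8 h7
      calc Real.exp (-(lam * -x)) * LI (GW β T Δ) β (1 / 2 + x)
          ≤ Real.exp (-(lam * -x)) * ((1 + ε) * Real.exp ((β + κ) * -x * L) * LI (GW β T Δ) β (1 / 2)) :=
            mul_le_mul_of_nonneg_left h8 (Real.exp_pos _).le
        _ = (1 + ε) * Real.exp (κ * -x * L) * LI (GW β T Δ) β (1 / 2) := by
            have : Real.exp ((β + κ) * -x * L) = Real.exp (lam * -x) * Real.exp (κ * -x * L) := by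
              rw [← Real.exp_add, hlam]; congr 1; ring
            rw [this, Real.exp_neg]
            field_simp
        _ ≤ M := by
            rw [hM]
            refine mul_le_mul_of_nonneg_right (mul_le_mul_of_nonneg_left (Real.exp_le_exp.mpr ?_)
              (by positivity)) hp1.le
            gcongr
  calc ENNReal.ofReal (Real.exp (lam * r / π)) * (ENNReal.ofReal ((2 * π)⁻¹) *
        ∫⁻ θ in Ioc 0 (2 * π), ENNReal.ofReal (Real.exp (-(lam * max 0 (-(r * Real.cos θ)))) *
          LI (GW β T Δ) β (1 / 2 + r * Real.cos θ)))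
      ≤ ENNReal.ofReal (Real.exp (lam * r / π)) * (ENNReal.ofReal ((2 * π)⁻¹) *
        ∫⁻ _ in Ioc 0 (2 * π), ENNReal.ofReal M) := by
        gcongr with θ
        exact h6 θ
    _ = ENNReal.ofReal (Real.exp (lam * r / π) * M) := by
        rw [setLIntegral_const, Real.volume_Ioc, sub_zero, mul_comm (ENNReal.ofReal M), ← mul_assoc (ENNReal.ofReal ((2 * π)⁻¹)),
          ← ENNReal.ofReal_mul (by positivity), inv_mul_cancel₀ (by positivity), ENNReal.ofReal_one, one_mul,
          ENNReal.ofReal_mul (Real.exp_pos _).le]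
    _ = _ := by
        congr 1
        have : Real.exp ((β / π + κ) * r * L) = Real.exp (lam * r / π) * Real.exp (κ * r * L) := by
          rw [← Real.exp_add, hlam]; congr 1; field_simp
        rw [this, hM]
        ring

end

end Run7.h563.LS
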