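import Pool.Agent.Run7.h563.LS.ZH

set_option autoImplicit false

/-!
# Exponential moments of the number of nearby zeros under the moment measures
-/

namespace Run7.h563.LS

open Complex MeasureTheory Filter Topology Set Q97.RB Q97.MM MeromorphicOn Real

noncomputable section

/-- the logarithmic counting function of the zeros of zeta in a disc -/
def jsum (s : ℂ) (r : ℝ) : ℝ :=
  ∑ᶠ (ρ : ℂ) (_ : ρ ∈ Metric.closedBall s r), (analyticOrderNatAt riemannZeta ρ : ℝ) *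
    Real.log (r / ‖ρ - s‖)

theorem NN_eq {β T Δ : ℝ} {s : ℂ} {r : ℝ} (hr0 : 0 < r) (hr : r ≤ 1 / 8) (hs : s.re = 1 / 2) :
    NN (GW β T Δ) s r = jsum s r := by
  unfold NN jsum
  refine finsum_congr fun u => ?_
  have habs : |r| = r := abs_of_pos hr0
  classical
  rw [finsum_eq_if]
  by_cases hu : u ∈ Metric.closedBall s r
  · rw [if_pos hu, div_GW β T Δ (by rw [habs]; exact hu) (ne_one_ball hr hs hu), div_eq_mul_inv,
      norm_sub_rev]
  · rw [if_neg hu]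
    have : divisor (GW β T Δ) (Metric.closedBall s |r|) u = 0 := by
      refine Function.locallyFinsuppWithin.apply_eq_zero_of_notMem _ ?_
      rw [habs]; exact hu
    rw [this]
    simp

theorem jsum_nonneg {s : ℂ} {r : ℝ} (hr0 : 0 < r) (hr : r ≤ 1 / 8) (hs : s.re = 1 / 2) :
    0 ≤ jsum s r := by
  rw [← NN_eq (β := 1) (T := 0) (Δ := 1) hr0 hr hs]
  exact NN_nonneg (GW_diff 1 0 1) s hr0

theorem jensen_eq {F : ℂ → ℂ} (hF : Differentiable ℂ F) {c : ℂ} {r : ℝ} (hr : 0 < r) (hc : F c ≠ 0) :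
    circleAverage (Real.log ‖F ·‖) c r = NN F c r + Real.log ‖F c‖ := by
  have hA : AnalyticOnNhd ℂ F Set.univ := fun z _ => hF.analyticAt z
  have hm : MeromorphicOn F (Metric.closedBall c |r|) := (hA.mono (subset_univ _)).meromorphicOn
  have hJ := MeromorphicOn.circleAverage_log_norm hr.ne' hm
  have hcB : c ∈ Metric.closedBall c |r| := Metric.mem_closedBall_self (abs_nonneg r)
  have hd : divisor F (Metric.closedBall c |r|) c = 0 := by
    rw [MeromorphicOn.AnalyticOnNhd.divisor_apply (hA.mono (subset_univ _)) hcB,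
      (hF.analyticAt c).analyticOrderAt_eq_zero.mpr hc]
    simp
  rw [hd, (hF.analyticAt c).meromorphicTrailingCoeffAt_of_ne_zero hc] at hJ
  simp only [Int.cast_zero, zero_mul, add_zero] at hJ
  exact hJ

theorem sp_eq (y : ℝ) : ((1 / 2 : ℝ) : ℂ) + y * I = sp y := rfl

theorem jsum_aem {β T Δ r : ℝ} (hβ : 0 < β) (hJ : 0 < JB β T Δ (1 / 2)) (hr0 : 0 < r)
    (hr : r ≤ 1 / 8) : AEMeasurable fun y : ℝ => jsum (sp y) r := by
  set G := GW β T Δ with hG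
  have hGd : Differentiable ℂ G := GW_diff β T Δ
  have hGc := hGd.continuous
  have hm1 : Measurable fun p : ℝ × ℝ => Real.log ‖G (circleMap (sp p.1) r p.2)‖ := by
    refine Real.measurable_log.comp ?_
    refine Measurable.norm (Continuous.measurable (hGc.comp ?_))
    unfold circleMap
    have := sp_cont
    fun_prop
  have hm2 : Measurable fun y : ℝ => circleAverage (Real.log ‖G ·‖) (sp y) r := by
    have e : (fun y : ℝ => circleAverage (Real.log ‖G ·‖) (sp y) r) = fun y : ℝ =>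
        (2 * π)⁻¹ * ∫ θ in Ioc 0 (2 * π), Real.log ‖G (circleMap (sp y) r θ)‖ := by
      funext y
      rw [circleAverage_def, intervalIntegral.integral_of_le (by positivity), smul_eq_mul]
    rw [e]
    have h5 : Measurable fun y : ℝ => ∫ θ in Ioc 0 (2 * π), Real.log ‖G (circleMap (sp y) r θ)‖ :=
      (hm1.stronglyMeasurable.integral_prod_right').measurable
    exact h5.const_mul _
  have hm3 : Measurable fun y : ℝ => circleAverage (Real.log ‖G ·‖) (sp y) r - Real.log ‖G (sp y)‖ :=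
    hm2.sub (Real.measurable_log.comp (hGc.comp sp_cont).norm.measurable)
  refine ⟨_, hm3, ?_⟩
  filter_upwards [zeta_ae_ne hβ hJ] with y hy
  have hs : (sp y).re = 1 / 2 := by unfold sp; simp
  have hne : G (sp y) ≠ 0 := by
    rw [hG, GW, Z1_of_ne (sp_ne y)]
    exact mul_ne_zero (mul_ne_zero (sub_ne_zero.mpr (sp_ne y)) hy) (Complex.exp_ne_zero _)
  rw [jensen_eq hGd hr0 hne, NN_eq hr0 hr hs]
  ring

/-- from `(s - 1) ζ(s)` to zeta, pointwise -/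
theorem transfer_pt {β ε : ℝ} (hβ : 0 < β) (hε : 0 < ε) : ∃ T₀ : ℝ, ∀ T Δ : ℝ, T₀ ≤ T → 0 < Δ →
    1 ≤ Δ ^ 2 * Real.log T → Δ ≤ T / (2 * Real.log T) → ∃ a b : ℝ, 0 ≤ a ∧ 0 ≤ b ∧
    (∀ y : ℝ, ‖riemannZeta (sp y)‖ ^ β * wt T Δ y ≤ a * (‖Z1 (sp y)‖ ^ β * wt T Δ y) +
      b * (‖Z1 (sp y)‖ ^ β * wt T (√2 * Δ) y)) ∧
    a * PB β T Δ (1 / 2) + b * PB β T (√2 * Δ) (1 / 2) ≤ (1 + ε) * JB β T Δ (1 / 2) := by
  set ε₁ : ℝ := min 1 (ε / 5) with hε₁
  have hε₁0 : 0 < ε₁ := by positivity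
  have hε₁1 : ε₁ ≤ 1 := min_le_left _ _
  have hε₁5 : ε₁ ≤ ε / 5 := min_le_right _ _
  obtain ⟨η, hη, hη4, -, hη1⟩ := near_one (β := β) hε₁0
  obtain ⟨T₁, hT₁⟩ := PB_le_JB hβ hε₁0
  obtain ⟨n, hn⟩ := exists_nat_ge β
  obtain ⟨c, hc⟩ := PB_low hβ
  have hK0 := KK_nonneg (2 * n)
  set W : ℝ := 3 ^ β * (45 ^ n * 2 * (KK (2 * n) + 1)) * Real.exp c with hW
  have hW0 : 0 < W := by positivity
  have ht := tail_tendsto (2 * n + 4 + n) hη
  have hev : ∀ᶠ T : ℝ in atTop, (1 + T) ^ (2 * n + 4 + n) *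
      Real.exp (-((η * Real.log T) ^ 2 / 2)) < ε₁ / W :=
    ht.eventually (gt_mem_nhds (by positivity))
  obtain ⟨T₂, hT₂⟩ := eventually_atTop.mp hev
  refine ⟨max (max T₁ 3) T₂, fun T Δ hT hΔ h1 h2 => ?_⟩
  have hTT1 : T₁ ≤ T := (le_max_left _ _).trans ((le_max_left _ _).trans hT)
  have hT3 : 3 ≤ T := (le_max_right _ _).trans ((le_max_left _ _).trans hT)
  have hTT2 : T₂ ≤ T := (le_max_right _ _).trans hT
  have hT0 : 0 < T := by linarith
  have hlog := log_ge_one hT3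
  have hL0 : 0 < Real.log T := by linarith
  have h2' : Δ ≤ T / Real.log T := h2.trans (by gcongr; linarith)
  have hΔT : Δ ≤ T := h2'.trans (div_le_self hT0.le hlog)
  have hs2 : √2 ≤ 2 := by
    rw [Real.sqrt_le_left (by norm_num)]
    norm_num
  have hs20 : 0 < √2 := by positivity
  have hΔ2T : √2 * Δ ≤ T := by
    calc √2 * Δ ≤ 2 * Δ := by gcongr
      _ ≤ 2 * (T / (2 * Real.log T)) := by gcongr
      _ = T / Real.log T := by field_simp
      _ ≤ T := div_le_self hT0.le hlog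
  have hPJ := hT₁ T Δ hTT1 hΔ h1 h2'
  have hlow := hc T Δ hT3 hΔ hΔT h1
  have hE := hT₂ T hTT2
  rw [lt_div_iff₀ hW0] at hE
  have hJ0 := JB_nonneg β T Δ (1 / 2)
  have hPpos := PB_pos hβ hΔ T (x := 1 / 2) (by norm_num) (by norm_num)
  have hTη : 0 < (1 - 2 * η) * T := mul_pos (by linarith) hT0
  set E := Real.exp (-((η * Real.log T) ^ 2 / 2)) with hEd
  have hE0 : 0 < E := Real.exp_pos _
  have h8 := PB_crude hβ hn hT0.le (mul_pos hs20 hΔ) hΔ2T
  have h9 : PB β T (√2 * Δ) (1 / 2) ≤ (45 ^ n * 2 * (KK (2 * n) + 1)) * (1 + T) ^ (2 * n) * Δ := by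
    refine h8.trans ?_
    calc 45 ^ n * (1 + T) ^ (2 * n) * (√2 * Δ * KK (2 * n))
        ≤ 45 ^ n * (1 + T) ^ (2 * n) * (2 * Δ * (KK (2 * n) + 1)) := by
          gcongr
          linarith
      _ = _ := by ring
  have hTβ : T ^ β ≤ (1 + T) ^ n := by
    calc T ^ β ≤ (1 + T) ^ β := Real.rpow_le_rpow hT0.le (by linarith) hβ.le
      _ ≤ (1 + T) ^ (n : ℝ) := Real.rpow_le_rpow_of_exponent_le (by linarith) hn
      _ = _ := Real.rpow_natCast _ _
  have h10 : 3 ^ β * E * PB β T (√2 * Δ) (1 / 2) ≤ ε₁ * T ^ (-β) * PB β T Δ (1 / 2) := by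
    have h11 : Real.exp c * T ^ 4 * (Δ * Real.exp (-c) * (1 / T ^ 4)) = Δ := by
      rw [Real.exp_neg]
      field_simp
    have h12 : (1 + T) ^ (2 * n) * T ^ 4 * T ^ β ≤ (1 + T) ^ (2 * n + 4 + n) := by
      rw [pow_add, pow_add]
      gcongr
      linarith
    calc 3 ^ β * E * PB β T (√2 * Δ) (1 / 2)
        ≤ 3 ^ β * E * ((45 ^ n * 2 * (KK (2 * n) + 1)) * (1 + T) ^ (2 * n) * Δ) := by gcongr
      _ = ((1 + T) ^ (2 * n) * T ^ 4 * T ^ β) * E * W * T ^ (-β) *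
          (Δ * Real.exp (-c) * (1 / T ^ 4)) := by
          rw [hW, Real.rpow_neg hT0.le, Real.exp_neg]
          field_simp
      _ ≤ (1 + T) ^ (2 * n + 4 + n) * E * W * T ^ (-β) * PB β T Δ (1 / 2) := by gcongr
      _ ≤ _ := by gcongr
  refine ⟨(1 + ε₁) * T ^ (-β), 3 ^ β * E, by positivity, by positivity, fun y => ?_, ?_⟩
  · have hw1 := wt_pos T Δ y
    have hw2 := wt_pos T (√2 * Δ) y
    rcases le_or_gt |y - T| (η * T) with hy' | hy'
    · have hy2 := abs_le.mp hy'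
      have hyb : (1 - 2 * η) * T ≤ |(sp y).im| := by
        have e : (sp y).im = y := by unfold sp; simp
        rw [e]
        refine le_trans ?_ (le_abs_self y)
        nlinarith
      have h4 := zeta_near hTη hyb
      have h5 : ‖riemannZeta (sp y)‖ ^ β ≤ ((1 + ε₁) * T ^ (-β)) * ‖Z1 (sp y)‖ ^ β := by
        calc _ ≤ (‖Z1 (sp y)‖ / ((1 - 2 * η) * T)) ^ β := Real.rpow_le_rpow (norm_nonneg _) h4 hβ.le
          _ = ((1 - 2 * η) ^ (-β) * T ^ (-β)) * ‖Z1 (sp y)‖ ^ β := by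
              rw [Real.div_rpow (norm_nonneg _) hTη.le, Real.mul_rpow (by linarith) hT0.le,
                Real.rpow_neg (by linarith), Real.rpow_neg hT0.le]
              field_simp
          _ ≤ _ := by gcongr
      have h6 : 0 ≤ 3 ^ β * E * (‖Z1 (sp y)‖ ^ β * wt T (√2 * Δ) y) := by positivity
      have h7 := mul_le_mul_of_nonneg_right h5 hw1.le
      calc _ ≤ (1 + ε₁) * T ^ (-β) * ‖Z1 (sp y)‖ ^ β * wt T Δ y := h7
        _ ≤ _ := by linarith [mul_assoc ((1 + ε₁) * T ^ (-β)) (‖Z1 (sp y)‖ ^ β) (wt T Δ y)]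
    · have h4 := zeta_le_Z1 (w := sp y) (by unfold sp; simp; norm_num)
      have h5 : ‖riemannZeta (sp y)‖ ^ β ≤ 3 ^ β * ‖Z1 (sp y)‖ ^ β := by
        rw [← Real.mul_rpow (by norm_num) (norm_nonneg _)]
        exact Real.rpow_le_rpow (norm_nonneg _) h4 hβ.le
      have h6 : η * Real.log T ≤ |(y - T) / Δ| := by
        rw [abs_div, abs_of_pos hΔ, le_div_iff₀ hΔ]
        have h7 : Δ * Real.log T ≤ T := by rwa [le_div_iff₀ (by linarith)] at h2'
        nlinarith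
      have h8' := wt_two (T := T) (y := y) hΔ (by positivity) h6
      have h11 : 0 ≤ (1 + ε₁) * T ^ (-β) * (‖Z1 (sp y)‖ ^ β * wt T Δ y) := by positivity
      calc _ ≤ (3 ^ β * ‖Z1 (sp y)‖ ^ β) * (E * wt T (√2 * Δ) y) :=
            mul_le_mul h5 h8' hw1.le (by positivity)
        _ = 3 ^ β * E * (‖Z1 (sp y)‖ ^ β * wt T (√2 * Δ) y) := by ring
        _ ≤ _ := by linarith
  · have h12 : (1 + ε₁) * T ^ (-β) * PB β T Δ (1 / 2) ≤ (1 + ε₁) * (1 + ε₁) * JB β T Δ (1 / 2) := by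
      calc (1 + ε₁) * T ^ (-β) * PB β T Δ (1 / 2) ≤
          (1 + ε₁) * T ^ (-β) * ((1 + ε₁) * T ^ β * JB β T Δ (1 / 2)) :=
            mul_le_mul_of_nonneg_left hPJ (by positivity)
        _ = _ := by
            rw [Real.rpow_neg hT0.le]
            field_simp
    have h13 : 3 ^ β * E * PB β T (√2 * Δ) (1 / 2) ≤ ε₁ * (1 + ε₁) * JB β T Δ (1 / 2) := by
      calc _ ≤ ε₁ * T ^ (-β) * PB β T Δ (1 / 2) := h10
        _ ≤ ε₁ * T ^ (-β) * ((1 + ε₁) * T ^ β * JB β T Δ (1 / 2)) :=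
            mul_le_mul_of_nonneg_left hPJ (by positivity)
        _ = _ := by
            rw [Real.rpow_neg hT0.le]
            field_simp
    have hfin : (1 + ε₁) * (1 + ε₁) + ε₁ * (1 + ε₁) ≤ 1 + ε := by nlinarith
    calc _ ≤ (1 + ε₁) * (1 + ε₁) * JB β T Δ (1 / 2) + ε₁ * (1 + ε₁) * JB β T Δ (1 / 2) :=
          add_le_add h12 h13
      _ = ((1 + ε₁) * (1 + ε₁) + ε₁ * (1 + ε₁)) * JB β T Δ (1 / 2) := by ring
      _ ≤ _ := mul_le_mul_of_nonneg_right hfin hJ0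

/-- **Exponential moments of the number of nearby zeros.** -/
theorem exp_jsum {β κ ε : ℝ} (hβ : 0 < β) (hκ : 0 < κ) (hε : 0 < ε) : ∃ B T₀ : ℝ, 1 ≤ B ∧ 200 ≤ T₀ ∧
    ∀ T Δ : ℝ, T₀ ≤ T → 0 < Δ → B ≤ Δ ^ 2 * Real.log T → Δ ≤ T / (2 * Real.log T) →
    0 < JB β T Δ (1 / 2) ∧ ∀ r : ℝ, 0 < r → r ≤ 1 / 8 →
    AEMeasurable (fun y : ℝ => jsum (sp y) r) ∧
    ∫⁻ y : ℝ, ENNReal.ofReal (Real.exp (β * jsum (sp y) r) * (‖riemannZeta (sp y)‖ ^ β * wt T Δ y)) ≤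
      ENNReal.ofReal ((1 + ε) * Real.exp ((β / π + κ) * r * Real.log T) * JB β T Δ (1 / 2)) := by
  set ε₁ : ℝ := min 1 (ε / 3) with hε₁
  have hε₁0 : 0 < ε₁ := by positivity
  have hε₁1 : ε₁ ≤ 1 := min_le_left _ _
  have hε₁3 : ε₁ ≤ ε / 3 := min_le_right _ _
  obtain ⟨B, T₁, hB, hT₁, hG⟩ := jensen_lint hβ hκ hε₁0
  obtain ⟨T₂, hT₂⟩ := transfer_pt hβ hε₁0
  obtain ⟨T₃, hT₃⟩ := PB_le_JB hβ hε₁0
  refine ⟨B, max T₁ (max T₂ T₃), hB, hT₁.trans (le_max_left _ _), fun T Δ hT hΔ hBΔ hΔT => ?_⟩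
  have hTT1 : T₁ ≤ T := (le_max_left _ _).trans hT
  have hTT2 : T₂ ≤ T := (le_max_left _ _).trans ((le_max_right _ _).trans hT)
  have hTT3 : T₃ ≤ T := (le_max_right _ _).trans ((le_max_right _ _).trans hT)
  have hT3 : 3 ≤ T := by linarith
  have hT0 : 0 < T := by linarith
  have hlog := log_ge_one hT3
  have hL0 : 0 < Real.log T := by linarith
  have h1 : 1 ≤ Δ ^ 2 * Real.log T := hB.trans hBΔ
  have hΔT' : Δ ≤ T / Real.log T := hΔT.trans (by gcongr; linarith)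
  have hs2 : √2 ≤ 2 := by
    rw [Real.sqrt_le_left (by norm_num)]
    norm_num
  have hs20 : 0 < √2 := by positivity
  have hΔ2T : √2 * Δ ≤ T / Real.log T := by
    calc √2 * Δ ≤ 2 * Δ := by gcongr
      _ ≤ 2 * (T / (2 * Real.log T)) := by gcongr
      _ = T / Real.log T := by field_simp
  have hB2 : B ≤ (√2 * Δ) ^ 2 * Real.log T := by
    rw [mul_pow, Real.sq_sqrt (by norm_num)]
    nlinarith
  have hP := PB_pos hβ hΔ T (x := 1 / 2) (by norm_num) (by norm_num)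
  have hP2 := PB_pos hβ (mul_pos hs20 hΔ) T (x := 1 / 2) (by norm_num) (by norm_num)
  have hPJ := hT₃ T Δ hTT3 hΔ h1 hΔT'
  have hJ : 0 < JB β T Δ (1 / 2) := by
    by_contra hcon
    push Not at hcon
    have : (1 + ε₁) * T ^ β * JB β T Δ (1 / 2) ≤ 0 :=
      mul_nonpos_of_nonneg_of_nonpos (by positivity) hcon
    linarith
  refine ⟨hJ, fun r hr hr8 => ⟨jsum_aem hβ hJ hr hr8, ?_⟩⟩
  obtain ⟨a, b, ha, hb, hab, hsum⟩ := hT₂ T Δ hTT2 hΔ h1 hΔT
  set Q : ℝ := (1 + ε₁) * Real.exp ((β / π + κ) * r * Real.log T) with hQ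
  have hQ0 : 0 ≤ Q := by positivity
  have hGWp : ∀ (Δ' : ℝ), 0 < Δ' → ∀ y : ℝ, ‖GW β T Δ' (((1 / 2 : ℝ) : ℂ) + y * I)‖ ^ β *
      Real.exp (β * NN (GW β T Δ') (((1 / 2 : ℝ) : ℂ) + y * I) r) =
      Real.exp (β * jsum (sp y) r) * (‖Z1 (sp y)‖ ^ β * wt T Δ' y) := by
    intro Δ' hΔ' y
    have e1 := GW_pow hβ hΔ' T (1 / 2) y
    rw [sub_self, zero_pow two_ne_zero, zero_div, Real.exp_zero, one_mul] at e1
    rw [e1, NN_eq hr hr8 (by simp), sp_eq, mul_comm]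
  have a1 := hG T Δ hTT1 hΔ hBΔ hΔT' r hr hr8
  have a2 := hG T (√2 * Δ) hTT1 (mul_pos hs20 hΔ) hB2 hΔ2T r hr hr8
  simp only [hGWp Δ hΔ] at a1
  simp only [hGWp (√2 * Δ) (mul_pos hs20 hΔ)] at a2
  have hjm := jsum_aem hβ hJ hr hr8
  have hem : AEMeasurable fun y : ℝ => Real.exp (β * jsum (sp y) r) := (hjm.const_mul β).exp
  have hZm : ∀ Δ' : ℝ, AEMeasurable fun y : ℝ => ‖Z1 (sp y)‖ ^ β * wt T Δ' y := by
    intro Δ'
    have hw : Measurable (wt T Δ') := by unfold wt; fun_prop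
    exact (((Z1_differentiable.continuous.comp sp_cont).norm.measurable.pow_const β).mul hw).aemeasurable
  have hpt : ∀ y : ℝ, ENNReal.ofReal (Real.exp (β * jsum (sp y) r) *
      (‖riemannZeta (sp y)‖ ^ β * wt T Δ y)) ≤
      ENNReal.ofReal a * ENNReal.ofReal (Real.exp (β * jsum (sp y) r) *
        (‖Z1 (sp y)‖ ^ β * wt T Δ y)) +
      ENNReal.ofReal b * ENNReal.ofReal (Real.exp (β * jsum (sp y) r) *
        (‖Z1 (sp y)‖ ^ β * wt T (√2 * Δ) y)) := by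
    intro y
    have hw1 := wt_pos T Δ y
    have hw2 := wt_pos T (√2 * Δ) y
    rw [← ENNReal.ofReal_mul ha, ← ENNReal.ofReal_mul hb, ← ENNReal.ofReal_add (by positivity)
      (by positivity)]
    apply ENNReal.ofReal_le_ofReal
    have h5 := mul_le_mul_of_nonneg_left (hab y) (Real.exp_pos (β * jsum (sp y) r)).le
    refine h5.trans (le_of_eq ?_)
    ring
  have hmeas : AEMeasurable fun y : ℝ => ENNReal.ofReal a * ENNReal.ofReal
      (Real.exp (β * jsum (sp y) r) * (‖Z1 (sp y)‖ ^ β * wt T Δ y)) :=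
    (hem.mul (hZm Δ)).ennreal_ofReal.const_mul _
  refine (lintegral_mono hpt).trans ?_
  rw [lintegral_add_left' hmeas,
    lintegral_const_mul' _ _ ENNReal.ofReal_ne_top, lintegral_const_mul' _ _ ENNReal.ofReal_ne_top]
  refine (add_le_add (mul_le_mul' le_rfl a1) (mul_le_mul' le_rfl a2)).trans ?_
  rw [← ENNReal.ofReal_mul ha, ← ENNReal.ofReal_mul hb, ← ENNReal.ofReal_add (by positivity)
    (by positivity)]
  apply ENNReal.ofReal_le_ofReal
  have h5 : (1 + ε₁) * (1 + ε₁) ≤ 1 + ε := by nlinarith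
  have h6 : 0 ≤ Real.exp ((β / π + κ) * r * Real.log T) * JB β T Δ (1 / 2) := by positivity
  calc a * (Q * PB β T Δ (1 / 2)) + b * (Q * PB β T (√2 * Δ) (1 / 2))
      = Q * (a * PB β T Δ (1 / 2) + b * PB β T (√2 * Δ) (1 / 2)) := by ring
    _ ≤ Q * ((1 + ε₁) * JB β T Δ (1 / 2)) := mul_le_mul_of_nonneg_left hsum hQ0
    _ = ((1 + ε₁) * (1 + ε₁)) * (Real.exp ((β / π + κ) * r * Real.log T) * JB β T Δ (1 / 2)) := by
        rw [hQ]; ring
    _ ≤ (1 + ε) * (Real.exp ((β / π + κ) * r * Real.log T) * JB β T Δ (1 / 2)) :=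
        mul_le_mul_of_nonneg_right h5 h6
    _ = _ := by ring

end

end Run7.h563.LS
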