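import Pool.Agent.Run7.h563.LS.ZI

set_option autoImplicit false

/-!
# Consequences of the exponential moments of the number of nearby zeros
-/

namespace Run7.h563.LS

open Complex MeasureTheory Filter Topology Set Q97.RB Q97.MM Real

noncomputable section

theorem jsum_ge {s : ℂ} {δ r : ℝ} (hδ : 0 < δ) (hδr : δ ≤ r) (hr : r ≤ 1 / 8)
    (hs : s.re = 1 / 2) (hne : riemannZeta s ≠ 0) {m : ℕ} (hm : m ≤ zeroCount s δ) :
    (m : ℝ) * Real.log (r / δ) ≤ jsum s r := by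
  have hs1 : s ≠ 1 := by
    rintro rfl
    norm_num at hs
  have hG : GW 1 0 1 s ≠ 0 := by
    rw [GW, Z1_of_ne hs1]
    exact mul_ne_zero (mul_ne_zero (sub_ne_zero.mpr hs1) hne) (Complex.exp_ne_zero _)
  have h1 := NN_ge (β := 1) (T := 0) (Δ := 1) hδ hδr hr hs hG hm
  rwa [NN_eq (lt_of_lt_of_le hδ hδr) hr hs] at h1

/-- the exponential moment, with Bochner integrals -/
theorem exp_int {β ε : ℝ} (hβ : 0 < β) (hε : 0 < ε) : ∃ B T₀ : ℝ, 1 ≤ B ∧ 200 ≤ T₀ ∧
    ∀ T Δ : ℝ, T₀ ≤ T → 0 < Δ → B ≤ Δ ^ 2 * Real.log T → Δ ≤ T / (2 * Real.log T) →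
    0 < JB β T Δ (1 / 2) ∧ ∀ R : ℝ, 0 < R → R ≤ Real.log T / 8 →
    Integrable (fun y : ℝ => Real.exp (β * jsum (sp y) (R / Real.log T)) *
      (‖riemannZeta (sp y)‖ ^ β * wt T Δ y)) ∧
    ∫ y : ℝ, Real.exp (β * jsum (sp y) (R / Real.log T)) * (‖riemannZeta (sp y)‖ ^ β * wt T Δ y) ≤
      (1 + ε) * Real.exp ((1 + ε) * β * R / π) * JB β T Δ (1 / 2) := by
  have hπ := Real.pi_pos
  obtain ⟨B, T₀, hB, hT₀, h⟩ := exp_jsum (κ := β * ε / π) hβ (by positivity) hε
  refine ⟨B, T₀, hB, hT₀, fun T Δ hT hΔ hBΔ hΔT => ?_⟩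
  obtain ⟨hJ, h1⟩ := h T Δ hT hΔ hBΔ hΔT
  refine ⟨hJ, fun R hR hR8 => ?_⟩
  have hT3 : 3 ≤ T := by linarith
  have hlog := log_ge_one hT3
  have hL0 : 0 < Real.log T := by linarith
  have hr8 : R / Real.log T ≤ 1 / 8 := by rw [div_le_iff₀ hL0]; linarith
  obtain ⟨hjm, h2⟩ := h1 (R / Real.log T) (by positivity) hr8
  have e1 : (β / π + β * ε / π) * (R / Real.log T) * Real.log T = (1 + ε) * β * R / π := by
    field_simp
  rw [e1] at h2
  have hnn : ∀ y : ℝ, 0 ≤ Real.exp (β * jsum (sp y) (R / Real.log T)) *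
      (‖riemannZeta (sp y)‖ ^ β * wt T Δ y) := fun y => by
    have := wt_pos T Δ y
    positivity
  have hzm : AEMeasurable fun y : ℝ => ‖riemannZeta (sp y)‖ ^ β * wt T Δ y := by
    have hw : Measurable (wt T Δ) := by unfold wt; fun_prop
    exact (((zeta_measurable.comp sp_cont.measurable).norm.pow_const β).mul hw).aemeasurable
  have hm : AEStronglyMeasurable (fun y : ℝ => Real.exp (β * jsum (sp y) (R / Real.log T)) *
      (‖riemannZeta (sp y)‖ ^ β * wt T Δ y)) volume :=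
    (((hjm.const_mul β).exp).mul hzm).aestronglyMeasurable
  have hi : Integrable (fun y : ℝ => Real.exp (β * jsum (sp y) (R / Real.log T)) *
      (‖riemannZeta (sp y)‖ ^ β * wt T Δ y)) := by
    refine ⟨hm, ?_⟩
    rw [hasFiniteIntegral_iff_ofReal (Eventually.of_forall hnn)]
    exact h2.trans_lt ENNReal.ofReal_lt_top
  refine ⟨hi, ?_⟩
  rw [← ofReal_integral_eq_lintegral_ofReal hi (Eventually.of_forall hnn)] at h2
  exact (ENNReal.ofReal_le_ofReal_iff (by positivity)).mp h2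

/-- the mean of the counting function -/
theorem mean_jsum {β ε R : ℝ} (hβ : 0 < β) (hε : 0 < ε) (hR : 0 < R) : ∃ B T₀ : ℝ, 1 ≤ B ∧ 200 ≤ T₀ ∧
    ∀ T Δ : ℝ, T₀ ≤ T → 0 < Δ → B ≤ Δ ^ 2 * Real.log T → Δ ≤ T / (2 * Real.log T) →
    0 < JB β T Δ (1 / 2) ∧ R / Real.log T ≤ 1 / 8 ∧
    Integrable (fun y : ℝ => jsum (sp y) (R / Real.log T) * (‖riemannZeta (sp y)‖ ^ β * wt T Δ y)) ∧
    ∫ y : ℝ, jsum (sp y) (R / Real.log T) * (‖riemannZeta (sp y)‖ ^ β * wt T Δ y) ≤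
      (R / π + ε) * JB β T Δ (1 / 2) := by
  have hπ := Real.pi_pos
  -- the small parameter
  obtain ⟨ε₁, hε₁0, hε₁⟩ : ∃ ε₁ : ℝ, 0 < ε₁ ∧ (1 + ε₁) * Real.exp (ε₁ * β * R / π) ≤ 1 + β * ε := by
    have h1 : Tendsto (fun x : ℝ => (1 + x) * Real.exp (x * β * R / π)) (𝓝[>] 0) (𝓝 1) := by
      have h2 : ContinuousAt (fun x : ℝ => (1 + x) * Real.exp (x * β * R / π)) 0 := by fun_prop
      have h3 := h2.tendsto.mono_left (nhdsWithin_le_nhds (s := Set.Ioi 0))
      simpa using h3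
    have h4 := (h1.eventually_le_const (show (1 : ℝ) < 1 + β * ε by
      have : 0 < β * ε := by positivity
      linarith)).and (self_mem_nhdsWithin (a := (0 : ℝ)) (s := Set.Ioi 0))
    obtain ⟨x, h5, h6⟩ := h4.exists
    exact ⟨x, h6, h5⟩
  obtain ⟨B, T₀, hB, hT₀, h⟩ := exp_int hβ hε₁0
  refine ⟨B, max T₀ (Real.exp (8 * R)), hB, hT₀.trans (le_max_left _ _), fun T Δ hT hΔ hBΔ hΔT => ?_⟩
  have hTT : T₀ ≤ T := (le_max_left _ _).trans hT
  have hT3 : 3 ≤ T := by linarith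
  have hT0 : 0 < T := by linarith
  have hlog := log_ge_one hT3
  have hL0 : 0 < Real.log T := by linarith
  have hL8 : 8 * R ≤ Real.log T := (Real.le_log_iff_exp_le hT0).mpr ((le_max_right _ _).trans hT)
  obtain ⟨hJ, h1⟩ := h T Δ hTT hΔ hBΔ hΔT
  obtain ⟨hi, h2⟩ := h1 R hR (by linarith)
  have hr8 : R / Real.log T ≤ 1 / 8 := by rw [div_le_iff₀ hL0]; linarith
  have hΔ' : Δ ≤ T := hΔT.trans (div_le_self hT0.le (by linarith))
  have hj := JB_integrable hβ hΔ hT0.le hΔ' (x := 1 / 2) (by norm_num) (by norm_num)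
  have hj' : Integrable fun y : ℝ => ‖riemannZeta (sp y)‖ ^ β * wt T Δ y := hj
  have hjm := jsum_aem (Δ := Δ) (T := T) hβ hJ (r := R / Real.log T) (by positivity) hr8
  have hj0 : ∀ y, 0 ≤ jsum (sp y) (R / Real.log T) := fun y =>
    jsum_nonneg (by positivity) hr8 (by unfold sp; simp)
  have hw0 : ∀ y : ℝ, 0 ≤ ‖riemannZeta (sp y)‖ ^ β * wt T Δ y := fun y => by
    have := wt_pos T Δ y
    positivity
  have hzm : AEMeasurable fun y : ℝ => ‖riemannZeta (sp y)‖ ^ β * wt T Δ y := hj'.aemeasurable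
  set a : ℝ := R / π with ha
  have hpt : ∀ y : ℝ, jsum (sp y) (R / Real.log T) * (‖riemannZeta (sp y)‖ ^ β * wt T Δ y) ≤
      (a - 1 / β) * (‖riemannZeta (sp y)‖ ^ β * wt T Δ y) + 1 / β * Real.exp (-(β * a)) *
        (Real.exp (β * jsum (sp y) (R / Real.log T)) * (‖riemannZeta (sp y)‖ ^ β * wt T Δ y)) := by
    intro y
    set j := jsum (sp y) (R / Real.log T) with hjd
    have h3 := Real.add_one_le_exp (β * (j - a))
    have h4 : Real.exp (β * (j - a)) = Real.exp (-(β * a)) * Real.exp (β * j) := by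
      rw [← Real.exp_add]; congr 1; ring
    have h5 : j ≤ (a - 1 / β) + 1 / β * Real.exp (-(β * a)) * Real.exp (β * j) := by
      rw [h4] at h3
      have h6 : β * j ≤ β * ((a - 1 / β) + 1 / β * Real.exp (-(β * a)) * Real.exp (β * j)) := by
        have : β * ((a - 1 / β) + 1 / β * Real.exp (-(β * a)) * Real.exp (β * j)) =
            β * a - 1 + Real.exp (-(β * a)) * Real.exp (β * j) := by field_simp
        rw [this]
        linarith
      exact le_of_mul_le_mul_left h6 hβ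
    have h7 := mul_le_mul_of_nonneg_right h5 (hw0 y)
    refine h7.trans (le_of_eq ?_)
    ring
  have hi2 : Integrable (fun y : ℝ => (a - 1 / β) * (‖riemannZeta (sp y)‖ ^ β * wt T Δ y) +
      1 / β * Real.exp (-(β * a)) * (Real.exp (β * jsum (sp y) (R / Real.log T)) *
        (‖riemannZeta (sp y)‖ ^ β * wt T Δ y))) := (hj'.const_mul _).add (hi.const_mul _)
  have hint : Integrable (fun y : ℝ => jsum (sp y) (R / Real.log T) *
      (‖riemannZeta (sp y)‖ ^ β * wt T Δ y)) := by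
    refine Integrable.mono' hi2 (hjm.mul hzm).aestronglyMeasurable (Eventually.of_forall fun y => ?_)
    rw [Real.norm_of_nonneg (mul_nonneg (hj0 y) (hw0 y))]
    exact hpt y
  refine ⟨hJ, hr8, hint, (integral_mono hint hi2 hpt).trans ?_⟩
  rw [integral_add (hj'.const_mul _) (hi.const_mul _), integral_const_mul, integral_const_mul]
  have eJ : ∫ y : ℝ, ‖riemannZeta (sp y)‖ ^ β * wt T Δ y = JB β T Δ (1 / 2) := rfl
  rw [eJ]
  set J := JB β T Δ (1 / 2) with hJd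
  have h8 : 1 / β * Real.exp (-(β * a)) * ∫ y : ℝ, Real.exp (β * jsum (sp y) (R / Real.log T)) *
      (‖riemannZeta (sp y)‖ ^ β * wt T Δ y) ≤ 1 / β * ((1 + β * ε) * J) := by
    calc _ ≤ 1 / β * Real.exp (-(β * a)) * ((1 + ε₁) * Real.exp ((1 + ε₁) * β * R / π) * J) :=
          mul_le_mul_of_nonneg_left h2 (by positivity)
      _ = 1 / β * (((1 + ε₁) * Real.exp (ε₁ * β * R / π)) * J) := by
          have : Real.exp ((1 + ε₁) * β * R / π) = Real.exp (β * a) * Real.exp (ε₁ * β * R / π) := by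
            rw [← Real.exp_add, ha]; congr 1; ring
          rw [this, Real.exp_neg]
          field_simp
      _ ≤ _ := mul_le_mul_of_nonneg_left (mul_le_mul_of_nonneg_right hε₁ hJ.le) (by positivity)
  have h9 : (a - 1 / β) * J + 1 / β * ((1 + β * ε) * J) = (a + ε) * J := by
    field_simp
    ring
  linarith

/-- the mean of the number of zeros -/
theorem mean_count {β ε R : ℝ} (hβ : 0 < β) (hε : 0 < ε) (hR : 0 < R) : ∃ B T₀ : ℝ, 1 ≤ B ∧ 200 ≤ T₀ ∧
    ∀ T Δ : ℝ, T₀ ≤ T → 0 < Δ → B ≤ Δ ^ 2 * Real.log T → Δ ≤ T / (2 * Real.log T) →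
    ∫ y : ℝ, (zeroCount (sp y) (R / Real.log T) : ℝ) * (‖riemannZeta (sp y)‖ ^ β * wt T Δ y) ≤
      (Real.exp 1 * R / π + ε) * JB β T Δ (1 / 2) := by
  obtain ⟨B, T₀, hB, hT₀, h⟩ := mean_jsum (R := Real.exp 1 * R) hβ hε (by positivity)
  refine ⟨B, T₀, hB, hT₀, fun T Δ hT hΔ hBΔ hΔT => ?_⟩
  obtain ⟨hJ, hr8, hi, h1⟩ := h T Δ hT hΔ hBΔ hΔT
  have hT3 : 3 ≤ T := by linarith
  have hlog := log_ge_one hT3
  have hL0 : 0 < Real.log T := by linarith
  have he : 1 ≤ Real.exp 1 := Real.one_le_exp zero_le_one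
  refine le_trans (integral_mono_of_nonneg (Eventually.of_forall fun y => ?_) hi ?_) h1
  · have := wt_pos T Δ y
    positivity
  · filter_upwards [zeta_ae_ne hβ hJ] with y hy
    have hw : 0 ≤ ‖riemannZeta (sp y)‖ ^ β * wt T Δ y := by
      have := wt_pos T Δ y
      positivity
    refine mul_le_mul_of_nonneg_right ?_ hw
    have h2 := jsum_ge (s := sp y) (δ := R / Real.log T) (r := Real.exp 1 * R / Real.log T)
      (by positivity) (by gcongr; nlinarith) hr8 (by unfold sp; simp) hy (le_refl _)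
    have h3 : Real.exp 1 * R / Real.log T / (R / Real.log T) = Real.exp 1 := by field_simp
    rw [h3, Real.log_exp, mul_one] at h2
    exact h2

/-- clusters of zeros -/
theorem cluster_pi {β ε : ℝ} (hβ : 0 < β) (hε : 0 < ε) : ∃ B T₀ : ℝ, 1 ≤ B ∧ 200 ≤ T₀ ∧
    ∀ T Δ : ℝ, T₀ ≤ T → 0 < Δ → B ≤ Δ ^ 2 * Real.log T → Δ ≤ T / (2 * Real.log T) →
    ∀ (m : ℕ) (c : ℝ) (S : Set ℝ), MeasurableSet S → 0 < c → c ≤ π * m → π * m ≤ Real.log T / 8 →
      (∀ y ∈ S, m ≤ zeroCount (sp y) (c / Real.log T)) →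
      ∫ y in S, ‖riemannZeta (sp y)‖ ^ β * wt T Δ y ≤
        (1 + ε) * (Real.exp (1 + ε) * c / (π * m)) ^ (β * m) * JB β T Δ (1 / 2) := by
  have hπ := Real.pi_pos
  obtain ⟨B, T₀, hB, hT₀, h⟩ := exp_int hβ hε
  refine ⟨B, T₀, hB, hT₀, fun T Δ hT hΔ hBΔ hΔT m c S hS hc0 hcm hm8 hz => ?_⟩
  obtain ⟨hJ, h1⟩ := h T Δ hT hΔ hBΔ hΔT
  have hT3 : 3 ≤ T := by linarith
  have hT0 : 0 < T := by linarith
  have hlog := log_ge_one hT3
  have hL0 : 0 < Real.log T := by linarith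
  have hm0 : (0 : ℝ) < π * m := lt_of_lt_of_le hc0 hcm
  have hmm : (0 : ℝ) < m := pos_of_mul_pos_right hm0 hπ.le
  obtain ⟨hi, h2⟩ := h1 (π * m) hm0 hm8
  have hr8 : π * m / Real.log T ≤ 1 / 8 := by rw [div_le_iff₀ hL0]; linarith
  have hΔ' : Δ ≤ T := hΔT.trans (div_le_self hT0.le (by linarith))
  have hj : Integrable fun y : ℝ => ‖riemannZeta (sp y)‖ ^ β * wt T Δ y :=
    JB_integrable hβ hΔ hT0.le hΔ' (x := 1 / 2) (by norm_num) (by norm_num)
  set q : ℝ := (π * m / c) ^ (β * m) with hq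
  have hq0 : 0 < q := Real.rpow_pos_of_pos (by positivity) _
  have hpt : ∀ y ∈ S, q * (‖riemannZeta (sp y)‖ ^ β * wt T Δ y) ≤
      Real.exp (β * jsum (sp y) (π * m / Real.log T)) * (‖riemannZeta (sp y)‖ ^ β * wt T Δ y) := by
    intro y hy
    have hw := wt_pos T Δ y
    rcases eq_or_ne (riemannZeta (sp y)) 0 with h0 | h0
    · rw [h0, norm_zero, Real.zero_rpow hβ.ne', zero_mul, mul_zero, mul_zero]
    · refine mul_le_mul_of_nonneg_right ?_ (by positivity)
      have h4 := jsum_ge (s := sp y) (δ := c / Real.log T) (r := π * m / Real.log T)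
        (by positivity) (by gcongr) hr8 (by unfold sp; simp) h0 (hz y hy)
      have h3 : π * m / Real.log T / (c / Real.log T) = π * m / c := by field_simp
      rw [h3] at h4
      rw [hq, Real.rpow_def_of_pos (by positivity)]
      apply Real.exp_le_exp.mpr
      calc Real.log (π * m / c) * (β * m) = β * (m * Real.log (π * m / c)) := by ring
        _ ≤ _ := mul_le_mul_of_nonneg_left h4 hβ.le
  have h5 : q * ∫ y in S, ‖riemannZeta (sp y)‖ ^ β * wt T Δ y ≤
      (1 + ε) * Real.exp ((1 + ε) * β * (π * m) / π) * JB β T Δ (1 / 2) := by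
    rw [← integral_const_mul]
    refine (setIntegral_mono_on (hj.const_mul q).integrableOn hi.integrableOn hS hpt).trans ?_
    refine le_trans ?_ h2
    exact setIntegral_le_integral hi (Eventually.of_forall fun y => by
      have := wt_pos T Δ y
      show 0 ≤ _
      positivity)
  have h6 : ∫ y in S, ‖riemannZeta (sp y)‖ ^ β * wt T Δ y ≤
      q⁻¹ * ((1 + ε) * Real.exp ((1 + ε) * β * (π * m) / π) * JB β T Δ (1 / 2)) := by
    rw [inv_mul_eq_div, le_div_iff₀ hq0]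
    linarith
  refine h6.trans (le_of_eq ?_)
  have e1 : Real.exp ((1 + ε) * β * (π * m) / π) = Real.exp (1 + ε) ^ (β * m) := by
    rw [← Real.exp_mul]; congr 1; field_simp
  have e2 : q⁻¹ = (c / (π * m)) ^ (β * m) := by
    rw [hq, ← Real.inv_rpow (by positivity), inv_div]
  rw [e1, e2, mul_div_assoc, Real.mul_rpow (Real.exp_pos _).le (by positivity)]
  ring

end

end Run7.h563.LS
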