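import Mathlib

set_option autoImplicit false

/-!
# Entire functions of exponential type which are real and bounded on a line

`G` is entire, `‖G w‖ ≤ exp (σ |Re w|)`, so bounded by one on the imaginary axis. The inequality of Bernstein and Szegő,
and the comparison with the cosine of Duffin and Schaeffer.
-/

namespace Run7.h563.LS

open Complex Filter Topology Set Asymptotics ComplexConjugate

theorem exp_norm_mul (σ : ℝ) (w : ℂ) : ‖cexp (σ * w)‖ = Real.exp (σ * w.re) := by
  rw [Complex.norm_exp]; congr 1; simp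

/-- the comparison in the right half plane -/
theorem ell_cmp {σ : ℝ} (hσ : 0 < σ) {G : ℂ → ℂ} (hG : Differentiable ℂ G)
    (hb : ∀ w, ‖G w‖ ≤ Real.exp (σ * |w.re|)) (hr : ∀ x : ℝ, (G (x * I)).im = 0)
    {lam : ℂ} (hl : 1 < ‖lam‖) {w : ℂ} (hw : 0 ≤ w.re) :
    ‖G w - conj lam * cexp (-(σ * w))‖ ≤ ‖G w - lam * cexp (σ * w)‖ := by
  set P : ℂ → ℂ := fun w => G w - lam * cexp (σ * w) with hP
  set N : ℂ → ℂ := fun w => G w - conj lam * cexp (-(σ * w)) with hN
  have hPd : Differentiable ℂ P := hG.sub ((differentiable_const _).mul (by fun_prop))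
  have hNd : Differentiable ℂ N := hG.sub ((differentiable_const _).mul (by fun_prop))
  have hPlow : ∀ w : ℂ, 0 ≤ w.re → (‖lam‖ - 1) * Real.exp (σ * w.re) ≤ ‖P w‖ := by
    intro w hw
    have h1 := hb w
    rw [abs_of_nonneg hw] at h1
    have h2 : ‖lam * cexp (σ * w)‖ = ‖lam‖ * Real.exp (σ * w.re) := by rw [norm_mul, exp_norm_mul]
    have h3 := norm_sub_norm_le (lam * cexp (σ * w)) (G w)
    rw [norm_sub_rev, h2] at h3
    have h4 : P w = G w - lam * cexp (σ * w) := rfl
    rw [h4]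
    linarith
  have hPpos : ∀ w : ℂ, 0 ≤ w.re → 0 < ‖P w‖ := fun w hw =>
    lt_of_lt_of_le (mul_pos (by linarith) (Real.exp_pos _)) (hPlow w hw)
  have hNup : ∀ w : ℂ, 0 ≤ w.re → ‖N w‖ ≤ (1 + ‖lam‖) * Real.exp (σ * w.re) := by
    intro w hw
    have h1 := hb w
    rw [abs_of_nonneg hw] at h1
    have h2 : ‖conj lam * cexp (-(σ * w))‖ = ‖lam‖ * Real.exp (-(σ * w.re)) := by
      rw [norm_mul, Complex.norm_conj, Complex.norm_exp]
      congr 2
      simp
    have h3 : Real.exp (-(σ * w.re)) ≤ Real.exp (σ * w.re) := by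
      apply Real.exp_le_exp.mpr
      have : 0 ≤ σ * w.re := mul_nonneg hσ.le hw
      linarith
    have h5 := norm_sub_le (G w) (conj lam * cexp (-(σ * w)))
    rw [h2] at h5
    have h4 : N w = G w - conj lam * cexp (-(σ * w)) := rfl
    rw [h4]
    have h6 := mul_le_mul_of_nonneg_left h3 (norm_nonneg lam)
    linarith
  set q : ℂ → ℂ := fun w => N w / P w with hq
  have hqb : ∀ w : ℂ, 0 ≤ w.re → ‖q w‖ ≤ (1 + ‖lam‖) / (‖lam‖ - 1) := by
    intro w hw
    have h4 : q w = N w / P w := rfl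
    rw [h4, norm_div, div_le_div_iff₀ (hPpos w hw) (by linarith)]
    calc ‖N w‖ * (‖lam‖ - 1) ≤ ((1 + ‖lam‖) * Real.exp (σ * w.re)) * (‖lam‖ - 1) :=
          mul_le_mul_of_nonneg_right (hNup w hw) (by linarith)
      _ = (1 + ‖lam‖) * ((‖lam‖ - 1) * Real.exp (σ * w.re)) := by ring
      _ ≤ _ := mul_le_mul_of_nonneg_left (hPlow w hw) (by positivity)
  have hqd : DiffContOnCl ℂ q {z : ℂ | 0 < z.re} := by
    apply DifferentiableOn.diffContOnCl
    intro z hz
    rw [Complex.closure_setOfPred_lt_re] at hz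
    have hz' : 0 ≤ z.re := hz
    exact ((hNd z).div (hPd z) (norm_pos_iff.mp (hPpos z hz'))).differentiableWithinAt
  have key := PhragmenLindelof.right_half_plane_of_bounded_on_real (C := 1) (z := w) hqd
    ⟨0, by norm_num, 0, ?_⟩ ?_ ?_ hw
  · have h4 : q w = N w / P w := rfl
    rw [h4, norm_div, div_le_one (hPpos w hw)] at key
    exact key
  · refine IsBigO.of_bound ((1 + ‖lam‖) / (‖lam‖ - 1)) ?_
    rw [eventually_inf_principal]
    refine Eventually.of_forall fun z hz => ?_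
    have hz' : 0 < z.re := hz
    simp only [Real.rpow_zero, mul_one, Real.exp_zero, norm_one]
    exact hqb z hz'.le
  · refine isBoundedUnder_of_eventually_le (a := (1 + ‖lam‖) / (‖lam‖ - 1)) ?_
    filter_upwards [eventually_ge_atTop (0 : ℝ)] with x hx
    exact hqb x (by simpa using hx)
  · intro x
    have hre : ((x : ℂ) * I).re = 0 := by simp
    have h0 : 0 ≤ ((x : ℂ) * I).re := by rw [hre]
    have h1 : N (x * I) = conj (P (x * I)) := by
      have e1 : conj (G (x * I)) = G (x * I) := by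
        rw [Complex.conj_eq_iff_im]; exact hr x
      simp only [hN, hP, map_sub, map_mul, e1, ← Complex.exp_conj, Complex.conj_ofReal, Complex.conj_I]
      congr 2
      congr 1
      ring
    have h4 : q (x * I) = N (x * I) / P (x * I) := rfl
    rw [h4, norm_div, h1, Complex.norm_conj, div_self (hPpos _ h0).ne']

theorem deriv_nonneg_right {φ : ℝ → ℝ} {a : ℝ} (h : HasDerivAt φ a 0) (h0 : φ 0 = 0)
    (hp : ∀ y, 0 < y → 0 ≤ φ y) : 0 ≤ a := by
  have h1 := hasDerivAt_iff_tendsto_slope.mp h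
  have h2 := h1.mono_left (nhdsWithin_mono (0 : ℝ) (fun y (hy : y ∈ Ioi (0 : ℝ)) => (ne_of_gt hy : y ≠ 0)))
  refine ge_of_tendsto h2 ?_
  filter_upwards [self_mem_nhdsWithin] with y hy
  have hy' : 0 < y := hy
  rw [slope_def_field, h0, sub_zero, sub_zero]
  exact div_nonneg (hp y hy') hy'.le

/-- the inequality of Szegő, first form -/
theorem szego_dir {σ : ℝ} (hσ : 0 < σ) {G : ℂ → ℂ} (hG : Differentiable ℂ G)
    (hb : ∀ w, ‖G w‖ ≤ Real.exp (σ * |w.re|)) (hr : ∀ x : ℝ, (G (x * I)).im = 0) (x : ℝ)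
    {μ : ℂ} (hμ : 1 < ‖μ‖) :
    σ * (G (x * I)).re * μ.re + (deriv G (x * I)).im * μ.im ≤ σ * ‖μ‖ ^ 2 := by
  set lam : ℂ := μ * cexp (-(σ * (x * I))) with hlam
  have hnl : ‖lam‖ = ‖μ‖ := by
    rw [hlam, norm_mul, Complex.norm_exp]
    simp
  have hlam1 : lam * cexp (σ * (x * I)) = μ := by
    rw [hlam, mul_assoc, ← Complex.exp_add]; simp
  have hlam2 : conj lam * cexp (-(σ * (x * I))) = conj μ := by
    have e : conj (cexp (-(σ * (x * I)))) = cexp (σ * (x * I)) := by
      rw [← Complex.exp_conj]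
      congr 1
      simp
    rw [hlam, map_mul, e, mul_assoc, ← Complex.exp_add]
    simp
  set w : ℝ → ℂ := fun y => x * I + y with hw
  have hw0 : w 0 = x * I := by simp [hw]
  have hwd : HasDerivAt w 1 0 := by
    have : HasDerivAt (fun y : ℝ => (y : ℂ)) 1 0 := Complex.ofRealCLM.hasDerivAt (x := 0)
    simpa [hw] using this.const_add ((x : ℂ) * I)
  have hGd : HasDerivAt (fun y => G (w y)) (deriv G (x * I)) 0 := by
    have h1 : HasDerivAt G (deriv G (x * I)) (w 0) := by rw [hw0]; exact (hG _).hasDerivAt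
    have h2 := h1.comp (0 : ℝ) hwd
    rw [mul_one] at h2
    exact h2
  have hPd : HasDerivAt (fun y => G (w y) - lam * cexp (σ * w y)) (deriv G (x * I) - σ * μ) 0 := by
    have h1 : HasDerivAt (fun y => cexp (σ * w y)) (cexp (σ * w 0) * (σ * 1)) 0 :=
      (hwd.const_mul (σ : ℂ)).cexp
    refine (hGd.sub (h1.const_mul lam)).congr_deriv ?_
    rw [hw0, ← hlam1]
    ring
  have hNd : HasDerivAt (fun y => G (w y) - conj lam * cexp (-(σ * w y)))
      (deriv G (x * I) + σ * conj μ) 0 := by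
    have h1 : HasDerivAt (fun y => cexp (-(σ * w y))) (cexp (-(σ * w 0)) * (-(σ * 1))) 0 :=
      (hwd.const_mul (σ : ℂ)).neg.cexp
    refine (hGd.sub (h1.const_mul (conj lam))).congr_deriv ?_
    rw [hw0, ← hlam2]
    ring
  have hφ := (hPd.norm_sq).sub (hNd.norm_sq)
  have hg : G (x * I) = ((G (x * I)).re : ℂ) := by
    apply Complex.ext <;> simp [hr x]
  have key := deriv_nonneg_right hφ ?_ ?_
  · rw [hw0, hlam1, hlam2, Complex.inner, Complex.inner, hg] at key
    simp only [Complex.mul_re, Complex.sub_re, Complex.add_re, Complex.conj_re, Complex.conj_im,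
      Complex.sub_im, Complex.add_im, Complex.mul_im, Complex.ofReal_re, Complex.ofReal_im, map_sub,
      Complex.conj_ofReal, Complex.conj_conj] at key
    have hn : ‖μ‖ ^ 2 = μ.re * μ.re + μ.im * μ.im := by
      rw [← Complex.normSq_eq_norm_sq, Complex.normSq_apply]
    rw [hn]
    nlinarith [key]
  · simp only [Pi.sub_apply]
    rw [hw0, hlam1, hlam2]
    have e : G (x * I) - conj μ = conj (G (x * I) - μ) := by
      rw [map_sub]
      congr 1
      rw [eq_comm, Complex.conj_eq_iff_im]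
      exact hr x
    rw [e, Complex.norm_conj, sub_self]
  · intro y hy
    have h1 := ell_cmp hσ hG hb hr (lam := lam) (by rw [hnl]; exact hμ) (w := w y)
      (by simp [hw]; exact hy.le)
    simp only [Pi.sub_apply]
    have := pow_le_pow_left₀ (norm_nonneg _) h1 2
    linarith

/-- the inequality of Bernstein and Szegő -/
theorem szego {σ : ℝ} (hσ : 0 < σ) {G : ℂ → ℂ} (hG : Differentiable ℂ G)
    (hb : ∀ w, ‖G w‖ ≤ Real.exp (σ * |w.re|)) (hr : ∀ x : ℝ, (G (x * I)).im = 0) (x : ℝ) :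
    (σ * (G (x * I)).re) ^ 2 + (deriv G (x * I)).im ^ 2 ≤ σ ^ 2 := by
  set a := σ * (G (x * I)).re with ha
  set b := (deriv G (x * I)).im with hbd
  have h1 : ∀ u v r : ℝ, u ^ 2 + v ^ 2 = 1 → 1 < r → a * u + b * v ≤ σ * r := by
    intro u v r huv hr1
    set μ : ℂ := ⟨r * u, r * v⟩ with hμ
    have hn2 : ‖μ‖ ^ 2 = r ^ 2 := by
      rw [← Complex.normSq_eq_norm_sq, Complex.normSq_apply]
      show r * u * (r * u) + r * v * (r * v) = r ^ 2
      linear_combination r ^ 2 * huv
    have hn : ‖μ‖ = r := by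
      have h3 : ‖μ‖ = √(‖μ‖ ^ 2) := (Real.sqrt_sq (norm_nonneg _)).symm
      rw [h3, hn2, Real.sqrt_sq (by linarith)]
    have h2 := szego_dir hσ hG hb hr x (μ := μ) (by rw [hn]; exact hr1)
    rw [hn] at h2
    have e1 : μ.re = r * u := rfl
    have e2 : μ.im = r * v := rfl
    rw [e1, e2, ← ha, ← hbd] at h2
    have h4 : r * (a * u + b * v) ≤ r * (σ * r) := by linarith
    exact le_of_mul_le_mul_left h4 (by linarith)
  have h2 : ∀ u v : ℝ, u ^ 2 + v ^ 2 = 1 → a * u + b * v ≤ σ := by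
    intro u v huv
    refine le_of_forall_pos_le_add fun e he => ?_
    have h3 := h1 u v (1 + e / σ) huv (by have : 0 < e / σ := by positivity
                                          linarith)
    have e3 : σ * (1 + e / σ) = σ + e := by field_simp
    rw [e3] at h3
    exact h3
  by_cases h0 : a ^ 2 + b ^ 2 = 0
  · rw [h0]; positivity
  · have hpos : 0 < a ^ 2 + b ^ 2 := lt_of_le_of_ne (by positivity) (Ne.symm h0)
    set s := √(a ^ 2 + b ^ 2) with hs
    have hs0 : 0 < s := Real.sqrt_pos.mpr hpos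
    have hs2 : s ^ 2 = a ^ 2 + b ^ 2 := Real.sq_sqrt hpos.le
    have h3 := h2 (a / s) (b / s) (by rw [div_pow, div_pow, ← add_div, hs2, div_self h0])
    have e4 : a * (a / s) + b * (b / s) = s := by
      have : a * (a / s) + b * (b / s) = (a ^ 2 + b ^ 2) / s := by ring
      rw [this, ← hs2, pow_two, mul_div_assoc, div_self hs0.ne', mul_one]
    rw [e4] at h3
    rw [← hs2]
    exact pow_le_pow_left₀ hs0.le h3 2

/-- the comparison with the cosine, functions which are real on the imaginary axis -/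
theorem cos_real {σ : ℝ} (hσ : 0 < σ) {G : ℂ → ℂ} (hG : Differentiable ℂ G)
    (hb : ∀ w, ‖G w‖ ≤ Real.exp (σ * |w.re|)) (hr : ∀ x : ℝ, (G (x * I)).im = 0) (h1 : G 0 = 1)
    {x : ℝ} (hx : |x| < Real.pi / σ) : Real.cos (σ * x) ≤ (G (x * I)).re := by
  set g : ℝ → ℝ := fun x => (G (x * I)).re with hg
  have hgd : ∀ y : ℝ, HasDerivAt g (-(deriv G (y * I)).im) y := by
    intro y
    have h2 : HasDerivAt (fun y : ℝ => (y : ℂ) * I) I y := by
      simpa using (Complex.ofRealCLM.hasDerivAt (x := y)).mul_const I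
    have h3 := (hG ((y : ℂ) * I)).hasDerivAt.comp y h2
    have h4 := Complex.reCLM.hasFDerivAt.comp_hasDerivAt y h3
    refine h4.congr_deriv ?_
    simp
  have hsz : ∀ y : ℝ, (σ * g y) ^ 2 + (deriv G (y * I)).im ^ 2 ≤ σ ^ 2 := szego hσ hG hb hr
  have hgb : ∀ y : ℝ, g y ^ 2 ≤ 1 := by
    intro y
    have h2 := hsz y
    have h3 : σ ^ 2 * g y ^ 2 ≤ σ ^ 2 * 1 := by nlinarith [sq_nonneg (deriv G (y * I)).im]
    exact le_of_mul_le_mul_left h3 (by positivity)
  have hg0 : g 0 = 1 := by simp [hg, h1]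
  have hc : ∀ c : ℝ, 0 < c → c < 1 → Real.arccos c + σ * |x| ≤ Real.pi →
      Real.cos (Real.arccos c + σ * |x|) ≤ c * g x := by
    intro c hc0 hc1 hle
    have hlt : ∀ y, (c * g y) ^ 2 < 1 := by
      intro y
      have h2 := hgb y
      have h3 : (c * g y) ^ 2 ≤ c ^ 2 := by
        rw [mul_pow]
        nlinarith [sq_nonneg c]
      nlinarith
    have hne1 : ∀ y, c * g y ≠ -1 := fun y h => by
      have := hlt y
      rw [h] at this
      norm_num at this
    have hne2 : ∀ y, c * g y ≠ 1 := fun y h => by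
      have := hlt y
      rw [h] at this
      norm_num at this
    set θ : ℝ → ℝ := fun y => Real.arccos (c * g y) with hθ
    have hθd : ∀ y : ℝ, HasDerivAt θ (-(1 / √(1 - (c * g y) ^ 2)) * (c * (-(deriv G (y * I)).im))) y := by
      intro y
      exact HasDerivAt.comp (h₂ := Real.arccos) y (Real.hasDerivAt_arccos (hne1 y) (hne2 y))
        ((hgd y).const_mul c)
    have hbd : ∀ y : ℝ, ‖-(1 / √(1 - (c * g y) ^ 2)) * (c * (-(deriv G (y * I)).im))‖ ≤ σ := by
      intro y
      have h4 : 0 < 1 - (c * g y) ^ 2 := by have := hlt y; linarith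
      have h5 : 0 < √(1 - (c * g y) ^ 2) := Real.sqrt_pos.mpr h4
      have e1 : -(1 / √(1 - (c * g y) ^ 2)) * (c * (-(deriv G (y * I)).im)) =
          (c * (deriv G (y * I)).im) / √(1 - (c * g y) ^ 2) := by ring
      rw [e1, Real.norm_eq_abs, abs_div, abs_of_pos h5, div_le_iff₀ h5]
      have h6 : (c * (deriv G (y * I)).im) ^ 2 ≤ (σ * √(1 - (c * g y) ^ 2)) ^ 2 := by
        rw [mul_pow, mul_pow, Real.sq_sqrt h4.le]
        have h7 := hsz y
        have h8 := hgb y
        have hc2 : c ^ 2 ≤ 1 := by nlinarith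
        have h9 : c ^ 2 * (deriv G (y * I)).im ^ 2 ≤ c ^ 2 * (σ ^ 2 - (σ * g y) ^ 2) :=
          mul_le_mul_of_nonneg_left (by linarith) (by positivity)
        have h10 : c ^ 2 * (σ ^ 2 - (σ * g y) ^ 2) ≤ σ ^ 2 * (1 - (c * g y) ^ 2) := by
          have : σ ^ 2 * (1 - (c * g y) ^ 2) - c ^ 2 * (σ ^ 2 - (σ * g y) ^ 2) = σ ^ 2 * (1 - c ^ 2) := by
            ring
          have h11 : 0 ≤ σ ^ 2 * (1 - c ^ 2) := mul_nonneg (by positivity) (by linarith)
          linarith
        linarith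
      exact abs_le_of_sq_le_sq' h6 (by positivity) |> abs_le.mpr
    have h12 := Convex.norm_image_sub_le_of_norm_hasDerivWithin_le (𝕜 := ℝ) (f := θ) (C := σ) (s := univ)
      (x := 0) (y := x) (fun y _ => (hθd y).hasDerivWithinAt) (fun y _ => hbd y) convex_univ
      (mem_univ _) (mem_univ _)
    rw [sub_zero, Real.norm_eq_abs, Real.norm_eq_abs] at h12
    have hθ0 : θ 0 = Real.arccos c := by simp [hθ, hg0]
    have h13 : θ x ≤ Real.arccos c + σ * |x| := by
      have := (abs_le.mp h12).2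
      rw [hθ0] at this
      linarith
    have h14 : c * g x = Real.cos (θ x) := by
      have h15 := abs_le.mp (sq_le_one_iff_abs_le_one (c * g x) |>.mp (hlt x).le)
      rw [hθ, Real.cos_arccos h15.1 h15.2]
    rw [h14]
    exact Real.cos_le_cos_of_nonneg_of_le_pi (Real.arccos_nonneg _) hle h13
  -- the limit `c → 1`
  have hlim1 : Tendsto (fun c : ℝ => Real.cos (Real.arccos c + σ * |x|)) (𝓝[<] 1)
      (𝓝 (Real.cos (Real.arccos 1 + σ * |x|))) := by
    refine Tendsto.mono_left (Continuous.tendsto ?_ 1) nhdsWithin_le_nhds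
    exact Real.continuous_cos.comp (Real.continuous_arccos.add continuous_const)
  have hlim2 : Tendsto (fun c : ℝ => c * g x) (𝓝[<] 1) (𝓝 (1 * g x)) :=
    Tendsto.mono_left (Continuous.tendsto (by fun_prop) 1) nhdsWithin_le_nhds
  have hlim3 : Tendsto (fun c : ℝ => Real.arccos c + σ * |x|) (𝓝[<] 1)
      (𝓝 (Real.arccos 1 + σ * |x|)) :=
    Tendsto.mono_left (Continuous.tendsto (Real.continuous_arccos.add continuous_const) 1)
      nhdsWithin_le_nhds
  have hpi : Real.arccos 1 + σ * |x| < Real.pi := by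
    rw [Real.arccos_one, zero_add, mul_comm]
    rwa [lt_div_iff₀ hσ] at hx
  have hev : ∀ᶠ c : ℝ in 𝓝[<] 1, Real.cos (Real.arccos c + σ * |x|) ≤ c * g x := by
    have h2 : ∀ᶠ c : ℝ in 𝓝[<] 1, Real.arccos c + σ * |x| < Real.pi := hlim3.eventually_lt_const hpi
    have h3 : ∀ᶠ c : ℝ in 𝓝[<] 1, 0 < c :=
      (Tendsto.mono_left tendsto_id nhdsWithin_le_nhds).eventually_const_lt (by norm_num)
    filter_upwards [h2, h3, self_mem_nhdsWithin] with c hc2 hc3 hc4
    exact hc c hc3 hc4 hc2.le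
  have h16 := le_of_tendsto_of_tendsto hlim1 hlim2 hev
  rw [Real.arccos_one, zero_add, one_mul] at h16
  have h17 : Real.cos (σ * x) = Real.cos (σ * |x|) := by
    rcases abs_cases x with h | h
    · rw [h.1]
    · rw [h.1, mul_neg, Real.cos_neg]
  rw [h17]
  exact h16

/-- the symmetric part -/
noncomputable def symm (G : ℂ → ℂ) (w : ℂ) : ℂ := (G w + conj (G (-conj w))) / 2

theorem symm_diff {G : ℂ → ℂ} (hG : Differentiable ℂ G) : Differentiable ℂ (symm G) := by
  have h1 : Differentiable ℂ (fun w => G (-w)) := hG.comp differentiable_neg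
  have h2 : Differentiable ℂ (conj ∘ (fun w => G (-w)) ∘ conj) := by
    intro z
    exact differentiableAt_conj_conj_iff.mpr (h1 _)
  have h3 : symm G = fun w => (G w + (conj ∘ (fun w => G (-w)) ∘ conj) w) / 2 := rfl
  rw [h3]
  exact (hG.add h2).div_const 2

theorem symm_bd {σ : ℝ} {G : ℂ → ℂ} (hb : ∀ w, ‖G w‖ ≤ Real.exp (σ * |w.re|)) (w : ℂ) :
    ‖symm G w‖ ≤ Real.exp (σ * |w.re|) := by
  have h1 := hb w
  have h2 := hb (-conj w)
  have h3 := norm_add_le (G w) (conj (G (-conj w)))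
  rw [Complex.norm_conj] at h3
  have e : |(-conj w).re| = |w.re| := by simp
  rw [e] at h2
  unfold symm
  rw [norm_div, Complex.norm_ofNat]
  linarith

theorem symm_im (G : ℂ → ℂ) (x : ℝ) : symm G (x * I) = ((G (x * I)).re : ℂ) := by
  have e : -conj ((x : ℂ) * I) = x * I := by simp
  unfold symm
  rw [e, Complex.add_conj]
  push_cast
  ring

/-- the comparison with the cosine -/
theorem cos_exact {σ : ℝ} (hσ : 0 < σ) {G : ℂ → ℂ} (hG : Differentiable ℂ G)
    (hb : ∀ w, ‖G w‖ ≤ Real.exp (σ * |w.re|)) (h1 : G 0 = 1)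
    {x : ℝ} (hx : |x| ≤ Real.pi / σ) : Real.cos (σ * x) ≤ (G (x * I)).re := by
  have hs0 : symm G 0 = 1 := by
    have := symm_im G 0
    simp only [Complex.ofReal_zero, zero_mul] at this
    rw [this, h1]
    simp
  rcases hx.lt_or_eq with h | h
  · have h2 := cos_real hσ (symm_diff hG) (symm_bd hb) (fun x => by rw [symm_im]; simp) hs0 h
    rwa [symm_im, Complex.ofReal_re] at h2
  · have h3 : Real.cos (σ * x) = -1 := by
      have h17 : Real.cos (σ * x) = Real.cos (σ * |x|) := by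
        rcases abs_cases x with h | h
        · rw [h.1]
        · rw [h.1, mul_neg, Real.cos_neg]
      rw [h17, h, mul_div_cancel₀ _ hσ.ne', Real.cos_pi]
    rw [h3]
    have h4 := hb (x * I)
    have h5 := Complex.abs_re_le_norm (G (x * I))
    simp only [Complex.mul_re, Complex.ofReal_re, Complex.I_re, mul_zero, Complex.ofReal_im,
      Complex.I_im, mul_one, sub_self, abs_zero, Real.exp_zero] at h4
    exact (abs_le.mp (h5.trans h4)).1

/-- the inequality of Bernstein -/
theorem bern_exact {σ : ℝ} (hσ : 0 < σ) {G : ℂ → ℂ} (hG : Differentiable ℂ G)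
    (hb : ∀ w, ‖G w‖ ≤ Real.exp (σ * |w.re|)) : ‖deriv G 0‖ ≤ σ := by
  by_cases h0 : deriv G 0 = 0
  · rw [h0, norm_zero]; exact hσ.le
  set d := deriv G 0 with hd
  have hdn : 0 < ‖d‖ := norm_pos_iff.mpr h0
  -- rotate so that the derivative along the axis is real
  set c : ℂ := conj d / ‖d‖ * (-I) with hc
  have hcn : ‖c‖ = 1 := by
    rw [hc, norm_mul, norm_div, Complex.norm_conj, norm_neg, Complex.norm_I, Complex.norm_real,
      norm_norm, div_self hdn.ne', mul_one]
  have hcd : c * d = -I * ‖d‖ := by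
    rw [hc]
    have h2 : conj d * d = (‖d‖ : ℂ) ^ 2 := by
      rw [Complex.conj_mul']
    have h3 : (‖d‖ : ℂ) ≠ 0 := by exact_mod_cast hdn.ne'
    field_simp
    rw [h2]
  set H : ℂ → ℂ := fun w => c * G w with hH
  have hHd : Differentiable ℂ H := hG.const_mul c
  have hHb : ∀ w, ‖H w‖ ≤ Real.exp (σ * |w.re|) := fun w => by
    rw [hH]
    simp only
    rw [norm_mul, hcn, one_mul]
    exact hb w
  have h4 := szego hσ (symm_diff hHd) (symm_bd hHb) (fun x => by rw [symm_im]; simp) 0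
  have h5 : deriv (symm H) 0 = -I * ‖d‖ := by
    -- the derivative along the axis
    have h6 : HasDerivAt (fun y : ℝ => (y : ℂ) * I) I 0 := by
      simpa using (Complex.ofRealCLM.hasDerivAt (x := 0)).mul_const I
    have e0 : ((0 : ℝ) : ℂ) * I = 0 := by simp
    have h7 : HasDerivAt (fun y : ℝ => symm H (y * I)) (deriv (symm H) 0 * I) 0 := by
      have := ((symm_diff hHd) (((0 : ℝ) : ℂ) * I)).hasDerivAt.comp (0 : ℝ) h6
      rw [e0] at this
      exact this
    have h8 : HasDerivAt (fun y : ℝ => H (y * I)) (c * d * I) 0 := by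
      have := (hHd (((0 : ℝ) : ℂ) * I)).hasDerivAt.comp (0 : ℝ) h6
      rw [e0] at this
      have e1 : deriv H 0 = c * d := by rw [hH]; exact deriv_const_mul_field c
      rw [e1] at this
      exact this
    have h9 : HasDerivAt (fun y : ℝ => symm H (y * I)) ((‖d‖ : ℂ)) 0 := by
      have h10 := Complex.reCLM.hasFDerivAt.comp_hasDerivAt (0 : ℝ) h8
      have h11 := Complex.ofRealCLM.hasFDerivAt.comp_hasDerivAt (0 : ℝ) h10
      refine (h11.congr_deriv ?_).congr_of_eventuallyEq ?_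
      · rw [hcd]
        simp [mul_comm]
      · exact Eventually.of_forall fun y => symm_im H y
    have h12 := h7.unique h9
    have h13 : deriv (symm H) 0 * I * (-I) = ‖d‖ * (-I) := by rw [h12]
    rw [mul_assoc] at h13
    simp only [mul_neg, Complex.I_mul_I, neg_neg, mul_one] at h13
    rw [h13]
    ring
  have e0 : ((0 : ℝ) : ℂ) * I = 0 := by simp
  rw [e0, h5] at h4
  have h14 : (-I * (‖d‖ : ℂ)).im = -‖d‖ := by simp
  rw [h14] at h4
  have h15 : ‖d‖ ^ 2 ≤ σ ^ 2 := by nlinarith [sq_nonneg (σ * (symm H 0).re)]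
  exact abs_le_of_sq_le_sq' h15 hσ.le |>.2

end Run7.h563.LS
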