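import Pool.Agent.Run7.h563.LS.ZK
import Pool.Agent.Helper114.MontelSol

set_option autoImplicit false

/-!
# The same inequalities for functions on large discs
-/

namespace Run7.h563.LS

open Complex Filter Topology Set Asymptotics ComplexConjugate Metric

/-- the hypothesis on the disc of radius `n` -/
structure Near (σ : ℝ) (n : ℕ) (G : ℂ → ℂ) : Prop where
  diff : DifferentiableOn ℂ G (ball 0 n)
  bd : ∀ w ∈ ball (0 : ℂ) n, ‖G w‖ ≤ Real.exp (1 / n + σ * |w.re|)

theorem Near.mono {σ : ℝ} {n m : ℕ} {G : ℂ → ℂ} (h : Near σ m G) (hn : 0 < n) (hnm : n ≤ m) :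
    Near σ n G := by
  have h1 : (n : ℝ) ≤ m := by exact_mod_cast hnm
  have h0 : (0 : ℝ) < n := by exact_mod_cast hn
  refine ⟨h.diff.mono (ball_subset_ball h1), fun w hw => (h.bd w (ball_subset_ball h1 hw)).trans ?_⟩
  apply Real.exp_le_exp.mpr
  have : (1 : ℝ) / m ≤ 1 / n := one_div_le_one_div_of_le h0 h1
  linarith

theorem compact_seq {σ : ℝ} (hσ : 0 < σ) {G : ℕ → ℂ → ℂ} (h : ∀ n, Near σ (n + 1) (G n)) :
    ∃ Φ : ℂ → ℂ, Differentiable ℂ Φ ∧ (∀ w, ‖Φ w‖ ≤ Real.exp (σ * |w.re|)) ∧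
      ∀ R : ℕ, TendstoLocallyUniformlyOn G Φ (hyperfilter ℕ : Filter ℕ) (ball 0 R) := by
  classical
  have hyp : (hyperfilter ℕ : Filter ℕ) ≤ atTop := by
    rw [← Nat.cofinite_eq_atTop]; exact hyperfilter_le_cofinite
  have h1 : ∀ R : ℕ, ∃ Φ : ℂ → ℂ, DifferentiableOn ℂ Φ (ball 0 R) ∧
      TendstoLocallyUniformlyOn G Φ (hyperfilter ℕ : Filter ℕ) (ball 0 R) := by
    intro R
    set F : ℕ → ℂ → ℂ := fun n => if R ≤ n then G n else 0 with hF
    obtain ⟨Φ, hΦ, hlim⟩ := Pool.Agent.Helper114.Montel.montel (W := ball (0 : ℂ) R) isOpen_ball F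
      (fun n => by
        by_cases hn : R ≤ n
        · have e : F n = G n := by simp [hF, hn]
          rw [e]
          refine (h n).diff.mono (ball_subset_ball ?_)
          push_cast
          have : (R : ℝ) ≤ n := by exact_mod_cast hn
          linarith
        · have e : F n = 0 := by simp [hF, hn]
          rw [e]
          exact differentiableOn_const 0)
      (Real.exp (1 + σ * R)) (fun n z hz => by
        have hzR : ‖z‖ < R := by simpa using hz
        by_cases hn : R ≤ n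
        · have e : F n = G n := by simp [hF, hn]
          rw [e]
          have hRn : (R : ℝ) ≤ n := by exact_mod_cast hn
          refine ((h n).bd z ?_).trans (Real.exp_le_exp.mpr ?_)
          · rw [mem_ball_zero_iff]
            push_cast
            linarith
          · have h2 : (1 : ℝ) / ((n + 1 : ℕ) : ℝ) ≤ 1 := by
              rw [div_le_one (by positivity)]
              push_cast
              have : (0 : ℝ) ≤ n := by positivity
              linarith
            have h3 : σ * |z.re| ≤ σ * R :=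
              mul_le_mul_of_nonneg_left ((Complex.abs_re_le_norm z).trans hzR.le) hσ.le
            linarith
        · have e : F n = 0 := by simp [hF, hn]
          rw [e]
          simp only [Pi.zero_apply, norm_zero]
          positivity) (hyperfilter ℕ)
    refine ⟨Φ, hΦ, ?_⟩
    rw [Metric.tendstoLocallyUniformlyOn_iff] at hlim ⊢
    intro ε hε x hx
    obtain ⟨t, ht, h2⟩ := hlim ε hε x hx
    refine ⟨t, ht, ?_⟩
    filter_upwards [h2, hyp (eventually_ge_atTop R)] with n hn1 hn2 y hy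
    have e : F n = G n := by simp [hF, hn2]
    rw [← e]
    exact hn1 y hy
  choose Φ hΦd hΦ using h1
  have hex : ∀ z : ℂ, z ∈ ball (0 : ℂ) (⌊‖z‖⌋₊ + 1 : ℕ) := by
    intro z
    rw [mem_ball_zero_iff]
    push_cast
    exact Nat.lt_floor_add_one _
  set G' : ℂ → ℂ := fun z => Φ (⌊‖z‖⌋₊ + 1) z with hG'
  have hGt : ∀ z, Tendsto (fun n => G n z) (hyperfilter ℕ : Filter ℕ) (𝓝 (G' z)) := fun z =>
    (hΦ (⌊‖z‖⌋₊ + 1)).tendsto_at (hex z)
  have heq : ∀ R : ℕ, EqOn (Φ R) G' (ball 0 R) := fun R z hz =>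
    tendsto_nhds_unique ((hΦ R).tendsto_at hz) (hGt z)
  refine ⟨G', ?_, fun w => ?_, fun R => (hΦ R).congr_right (heq R)⟩
  · intro z
    have h2 := (hΦd (⌊‖z‖⌋₊ + 1)).differentiableAt (isOpen_ball.mem_nhds (hex z))
    refine h2.congr_of_eventuallyEq ?_
    filter_upwards [isOpen_ball.mem_nhds (hex z)] with y hy
    exact (heq _ hy).symm
  · have h3 : Tendsto (fun n : ℕ => Real.exp (1 / ((n + 1 : ℕ) : ℝ) + σ * |w.re|))
        (hyperfilter ℕ : Filter ℕ) (𝓝 (Real.exp (0 + σ * |w.re|))) := by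
      refine Tendsto.mono_left ?_ hyp
      refine (Real.continuous_exp.tendsto _).comp (Tendsto.add_const _ ?_)
      have := tendsto_one_div_add_atTop_nhds_zero_nat (𝕜 := ℝ)
      refine this.congr fun n => ?_
      push_cast
      rfl
    rw [zero_add] at h3
    refine le_of_tendsto_of_tendsto (hGt w).norm h3 ?_
    filter_upwards [hyp (eventually_ge_atTop (⌊‖w‖⌋₊ + 1))] with n hn
    refine (h n).bd w ?_
    have h4 := hex w
    rw [mem_ball_zero_iff] at h4 ⊢
    refine h4.trans_le ?_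
    have : ((⌊‖w‖⌋₊ + 1 : ℕ) : ℝ) ≤ n := by exact_mod_cast hn
    push_cast at this ⊢
    linarith

/-- the comparison with the cosine on a large disc -/
theorem fin_cos {σ ε : ℝ} (hσ : 0 < σ) (hε : 0 < ε) : ∃ n : ℕ, 0 < n ∧ ∀ G : ℂ → ℂ, Near σ n G → G 0 = 1 →
    ∀ x : ℝ, |x| ≤ Real.pi / σ → Real.cos (σ * x) - ε ≤ (G (x * I)).re := by
  by_contra hcon
  push Not at hcon
  have h1 : ∀ n : ℕ, ∃ G : ℂ → ℂ, Near σ (n + 1) G ∧ G 0 = 1 ∧ ∃ x : ℝ, |x| ≤ Real.pi / σ ∧
      (G (x * I)).re < Real.cos (σ * x) - ε := fun n => by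
    obtain ⟨G, hG, h0, x, hx, hlt⟩ := hcon (n + 1) n.succ_pos
    exact ⟨G, hG, h0, x, hx, hlt⟩
  choose G hG h0 x hx hlt using h1
  obtain ⟨Φ, hΦ, hΦb, hlim⟩ := compact_seq hσ hG
  obtain ⟨y, hy, hyl⟩ : ∃ y ∈ Icc (-(Real.pi / σ)) (Real.pi / σ),
      Tendsto x (hyperfilter ℕ : Filter ℕ) (𝓝 y) := by
    have hle : (((hyperfilter ℕ).map x : Ultrafilter ℝ) : Filter ℝ) ≤
        𝓟 (Icc (-(Real.pi / σ)) (Real.pi / σ)) := by
      rw [le_principal_iff, Ultrafilter.coe_map, Filter.mem_map]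
      exact Filter.mem_of_superset Filter.univ_mem fun n _ => abs_le.mp (hx n)
    exact isCompact_Icc.ultrafilter_le_nhds _ hle
  have hpt : ∀ z : ℂ, Tendsto (fun n => G n z) (hyperfilter ℕ : Filter ℕ) (𝓝 (Φ z)) := fun z =>
    (hlim (⌊‖z‖⌋₊ + 1)).tendsto_at (by
      rw [mem_ball_zero_iff]
      push_cast
      exact Nat.lt_floor_add_one _)
  have hΦ0 : Φ 0 = 1 := tendsto_nhds_unique (hpt 0) (by simp only [h0]; exact tendsto_const_nhds)
  have h2 := cos_exact hσ hΦ hΦb hΦ0 (x := y) (abs_le.mpr hy)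
  have h3 : Tendsto (fun n => G n (x n * I)) (hyperfilter ℕ : Filter ℕ) (𝓝 (Φ (y * I))) := by
    set R : ℕ := ⌊‖(y : ℂ) * I‖⌋₊ + 1 with hR
    have hmem : (y : ℂ) * I ∈ ball (0 : ℂ) R := by
      rw [mem_ball_zero_iff, hR]
      push_cast
      exact Nat.lt_floor_add_one _
    have hu := hlim R
    rw [tendstoLocallyUniformlyOn_iff_forall_isCompact isOpen_ball] at hu
    obtain ⟨K, hK, hyK, hKs⟩ : ∃ K : Set ℂ, IsCompact K ∧ K ∈ 𝓝 ((y : ℂ) * I) ∧ K ⊆ ball (0 : ℂ) R := by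
      obtain ⟨K, hK1, hK2, hK3⟩ := exists_compact_subset isOpen_ball hmem
      exact ⟨K, hK1, mem_interior_iff_mem_nhds.mp hK2, hK3⟩
    have hKu := hu K hKs hK
    have hxl : Tendsto (fun n => (x n : ℂ) * I) (hyperfilter ℕ : Filter ℕ) (𝓝 ((y : ℂ) * I)) :=
      ((Complex.continuous_ofReal.tendsto y).comp hyl).mul_const I
    rw [Metric.tendstoUniformlyOn_iff] at hKu
    rw [Metric.tendsto_nhds]
    intro e he
    have hc := (hΦ.continuous.tendsto ((y : ℂ) * I)).comp hxl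
    rw [Metric.tendsto_nhds] at hc
    filter_upwards [hKu (e / 2) (by linarith), hc (e / 2) (by linarith), hxl hyK] with n a1 a2 a3
    have b1 := a1 _ a3
    have b2 := dist_triangle (G n (x n * I)) (Φ (x n * I)) (Φ (y * I))
    rw [dist_comm] at b1
    simp only [Function.comp_apply] at a2
    linarith
  have h4 : Tendsto (fun n => (G n (x n * I)).re) (hyperfilter ℕ : Filter ℕ) (𝓝 (Φ (y * I)).re) :=
    (Complex.continuous_re.tendsto _).comp h3
  have h5 : Tendsto (fun n => Real.cos (σ * x n) - ε) (hyperfilter ℕ : Filter ℕ)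
      (𝓝 (Real.cos (σ * y) - ε)) :=
    ((Real.continuous_cos.tendsto _).comp (hyl.const_mul σ)).sub_const ε
  have h6 := le_of_tendsto_of_tendsto' h4 h5 fun n => (hlt n).le
  linarith

/-- the inequality of Bernstein on a large disc -/
theorem fin_bern {σ ε : ℝ} (hσ : 0 < σ) (hε : 0 < ε) : ∃ n : ℕ, 0 < n ∧ ∀ G : ℂ → ℂ, Near σ n G →
    ‖deriv G 0‖ ≤ σ + ε := by
  by_contra hcon
  push Not at hcon
  have h1 : ∀ n : ℕ, ∃ G : ℂ → ℂ, Near σ (n + 1) G ∧ σ + ε < ‖deriv G 0‖ := fun n => by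
    obtain ⟨G, hG, hlt⟩ := hcon (n + 1) n.succ_pos
    exact ⟨G, hG, hlt⟩
  choose G hG hlt using h1
  obtain ⟨Φ, hΦ, hΦb, hlim⟩ := compact_seq hσ hG
  have h2 := bern_exact hσ hΦ hΦb
  have h3 : Tendsto (fun n => deriv (G n) 0) (hyperfilter ℕ : Filter ℕ) (𝓝 (deriv Φ 0)) := by
    have := (hlim 1).deriv (Eventually.of_forall fun n => (hG n).diff.mono (ball_subset_ball (by
      push_cast; have : (0 : ℝ) ≤ n := by positivity
      linarith))) isOpen_ball
    exact this.tendsto_at (by simp)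
  have h6 := ge_of_tendsto' h3.norm fun n => (hlt n).le
  linarith

/-- the derivative at the maximum -/
theorem fin_im {σ ε : ℝ} (hσ : 0 < σ) (hε : 0 < ε) : ∃ n : ℕ, 0 < n ∧ ∀ G : ℂ → ℂ, Near σ n G → G 0 = 1 →
    |(deriv G 0).im| ≤ ε := by
  by_contra hcon
  push Not at hcon
  have h1 : ∀ n : ℕ, ∃ G : ℂ → ℂ, Near σ (n + 1) G ∧ G 0 = 1 ∧ ε < |(deriv G 0).im| := fun n => by
    obtain ⟨G, hG, h0, hlt⟩ := hcon (n + 1) n.succ_pos
    exact ⟨G, hG, h0, hlt⟩
  choose G hG h0 hlt using h1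
  obtain ⟨Φ, hΦ, hΦb, hlim⟩ := compact_seq hσ hG
  have h3 : Tendsto (fun n => deriv (G n) 0) (hyperfilter ℕ : Filter ℕ) (𝓝 (deriv Φ 0)) := by
    have := (hlim 1).deriv (Eventually.of_forall fun n => (hG n).diff.mono (ball_subset_ball (by
      push_cast; have : (0 : ℝ) ≤ n := by positivity
      linarith))) isOpen_ball
    exact this.tendsto_at (by simp)
  have hpt : Tendsto (fun n => G n 0) (hyperfilter ℕ : Filter ℕ) (𝓝 (Φ 0)) :=
    (hlim 1).tendsto_at (by simp)
  have hΦ0 : Φ 0 = 1 := tendsto_nhds_unique hpt (by simp only [h0]; exact tendsto_const_nhds)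
  have h4 : (deriv Φ 0).im = 0 := by
    have h6 : HasDerivAt (fun y : ℝ => (y : ℂ) * I) I 0 := by
      simpa using (Complex.ofRealCLM.hasDerivAt (x := 0)).mul_const I
    have e0 : ((0 : ℝ) : ℂ) * I = 0 := by simp
    have h8 : HasDerivAt (fun y : ℝ => Φ (y * I)) (deriv Φ 0 * I) 0 := by
      have := (hΦ (((0 : ℝ) : ℂ) * I)).hasDerivAt.comp (0 : ℝ) h6
      rw [e0] at this
      exact this
    have h10 := Complex.reCLM.hasFDerivAt.comp_hasDerivAt (0 : ℝ) h8
    have hmax : IsLocalMax (⇑Complex.reCLM ∘ fun y : ℝ => Φ (y * I)) 0 := by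
      refine Eventually.of_forall fun y => ?_
      simp only [Function.comp_apply, Complex.reCLM_apply, e0, hΦ0, Complex.one_re]
      refine (Complex.re_le_norm _).trans ((hΦb _).trans (le_of_eq ?_))
      simp
    have h11 := hmax.hasDerivAt_eq_zero h10
    simpa using h11
  have h7 : Tendsto (fun n => |(deriv (G n) 0).im|) (hyperfilter ℕ : Filter ℕ) (𝓝 |(deriv Φ 0).im|) :=
    (((Complex.continuous_im).tendsto _).comp h3).abs
  have h6 := ge_of_tendsto' h7 fun n => (hlt n).le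
  rw [h4, abs_zero] at h6
  linarith

end Run7.h563.LS
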