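import Pool.Agent.Run7.h563.LS.D

set_option autoImplicit false

/-!
# Suprema over discs with the exact exponential weight
-/

namespace Run7.h563.LS

open Complex MeasureTheory Filter Topology Set Q97.RB Q97.MM

noncomputable section

/-- the distance to the left of the line -/
def lf (z : ℂ) : ℝ := max 0 (-z.re)

theorem lf_cont : Continuous lf := by unfold lf; fun_prop

theorem lf_nonneg (z : ℂ) : 0 ≤ lf z := le_max_left _ _

theorem lf_near {z w : ℂ} {r : ℝ} (h : w ∈ Metric.ball z r) : lf w ≤ lf z + r := by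
  unfold lf
  rw [Metric.mem_ball, dist_eq_norm] at h
  have h1 := (Complex.abs_re_le_norm (w - z)).trans h.le
  rw [Complex.sub_re] at h1
  have h2 := abs_le.mp h1
  have hr : 0 ≤ r := (abs_nonneg _).trans h1
  refine max_le (by have := le_max_left 0 (-z.re); linarith) ?_
  have := le_max_right 0 (-z.re)
  linarith

theorem lf_div {L : ℝ} (hL : 0 < L) (w : ℂ) : lf (w / L) * L = lf w := by
  unfold lf
  rw [max_mul_of_nonneg _ _ hL.le, zero_mul]
  congr 1
  rw [Complex.div_ofReal_re, neg_mul, div_mul_cancel₀ _ hL.ne']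

/-- the mean value inequality with the weight -/
theorem area_dir {β Λ : ℝ} (hβ : 0 < β) (hΛ : 0 ≤ Λ) {g : ℂ → ℂ} (hg : Differentiable ℂ g) (s : ℂ) {r r' : ℝ}
    (hr : 0 < r') {z : ℂ} (hz : z ∈ Metric.closedBall (0 : ℂ) r) :
    ENNReal.ofReal (‖g (s + z)‖ ^ β * Real.exp (-(Λ * lf z))) ≤
      ENNReal.ofReal ((Real.pi * r' ^ 2)⁻¹ * Real.exp (Λ * r')) *
      ∫⁻ w in Metric.ball (0 : ℂ) (r + r'), ENNReal.ofReal (‖g (s + w)‖ ^ β * Real.exp (-(Λ * lf w))) := by
  have hpi := Real.pi_pos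
  have hgc0 : Continuous (fun w : ℂ => ‖g (s + w)‖ ^ β) :=
    ((hg.continuous.comp (by fun_prop : Continuous fun w : ℂ => s + w)).norm).rpow_const
      fun _ => Or.inr hβ.le
  have hlc := lf_cont
  have hgc : Continuous (fun w : ℂ => ‖g (s + w)‖ ^ β * Real.exp (-(Λ * lf w))) :=
    hgc0.mul (by fun_prop)
  have h1 := area hβ (g := fun w => g (s + w)) (hg.comp (by fun_prop)) z hr
  have hint : IntegrableOn (fun w : ℂ => ‖g (s + w)‖ ^ β * Real.exp (-(Λ * lf w)))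
      (Metric.ball (0 : ℂ) (r + r')) :=
    (hgc.continuousOn.integrableOn_compact (isCompact_closedBall (0 : ℂ) (r + r'))).mono_set
      Metric.ball_subset_closedBall
  have hsub : Metric.ball z r' ⊆ Metric.ball (0 : ℂ) (r + r') := by
    apply Metric.ball_subset_ball'
    rw [Metric.mem_closedBall] at hz
    linarith
  have hint0 : IntegrableOn (fun w : ℂ => ‖g (s + w)‖ ^ β) (Metric.ball z r') :=
    (hgc0.continuousOn.integrableOn_compact (isCompact_closedBall z r')).mono_set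
      Metric.ball_subset_closedBall
  have h2 : ∫ w in Metric.ball z r', ‖g (s + w)‖ ^ β * Real.exp (-(Λ * lf w)) ≤
      ∫ w in Metric.ball (0 : ℂ) (r + r'), ‖g (s + w)‖ ^ β * Real.exp (-(Λ * lf w)) :=
    setIntegral_mono_set hint (Filter.Eventually.of_forall fun w => by positivity) hsub.eventuallyLE
  have h3 : (∫ w in Metric.ball z r', ‖g (s + w)‖ ^ β) * Real.exp (-(Λ * lf z)) ≤
      Real.exp (Λ * r') * ∫ w in Metric.ball z r', ‖g (s + w)‖ ^ β * Real.exp (-(Λ * lf w)) := by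
    rw [← integral_mul_const, ← integral_const_mul]
    refine setIntegral_mono_on (hint0.mul_const _) ((hint.mono_set hsub).const_mul _)
      Metric.isOpen_ball.measurableSet fun w hw => ?_
    have h4 := lf_near hw
    have h5 : Real.exp (-(Λ * lf z)) ≤ Real.exp (Λ * r') * Real.exp (-(Λ * lf w)) := by
      rw [← Real.exp_add]
      apply Real.exp_le_exp.mpr
      have := mul_le_mul_of_nonneg_left h4 hΛ
      linarith
    calc ‖g (s + w)‖ ^ β * Real.exp (-(Λ * lf z)) ≤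
          ‖g (s + w)‖ ^ β * (Real.exp (Λ * r') * Real.exp (-(Λ * lf w))) :=
          mul_le_mul_of_nonneg_left h5 (by positivity)
      _ = _ := by ring
  rw [← ofReal_integral_eq_lintegral_ofReal hint (Filter.Eventually.of_forall fun w => by positivity),
    ← ENNReal.ofReal_mul (by positivity)]
  apply ENNReal.ofReal_le_ofReal
  have h6 : Real.pi * r' ^ 2 * (‖g (s + z)‖ ^ β * Real.exp (-(Λ * lf z))) ≤
      Real.exp (Λ * r') * ∫ w in Metric.ball (0 : ℂ) (r + r'), ‖g (s + w)‖ ^ β * Real.exp (-(Λ * lf w)) := by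
    calc Real.pi * r' ^ 2 * (‖g (s + z)‖ ^ β * Real.exp (-(Λ * lf z))) =
          (Real.pi * r' ^ 2 * ‖g (s + z)‖ ^ β) * Real.exp (-(Λ * lf z)) := by ring
      _ ≤ (∫ w in Metric.ball z r', ‖g (s + w)‖ ^ β) * Real.exp (-(Λ * lf z)) :=
          mul_le_mul_of_nonneg_right h1 (Real.exp_pos _).le
      _ ≤ _ := h3.trans (mul_le_mul_of_nonneg_left h2 (Real.exp_pos _).le)
  rw [mul_assoc, inv_mul_eq_div, le_div_iff₀ (by positivity), mul_comm (‖g (s + z)‖ ^ β * _)]
  exact h6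

/-- suprema over discs with the weight, in mean -/
theorem dir_sup {β κ ε : ℝ} (hβ : 0 < β) (hκ : 0 < κ) (hε : 0 < ε) : ∃ B T₀ : ℝ, 1 ≤ B ∧ 200 ≤ T₀ ∧
    ∀ T Δ : ℝ, T₀ ≤ T → 0 < Δ → B ≤ Δ ^ 2 * Real.log T → Δ ≤ T / Real.log T →
    ∀ r r' : ℝ, 0 < r → 0 < r' → r + r' ≤ 1 / 8 →
    ∫⁻ y : ℝ, ⨆ z ∈ Metric.closedBall (0 : ℂ) r,
        ENNReal.ofReal (‖GW β T Δ (((1 / 2 : ℝ) : ℂ) + y * I + z)‖ ^ β *
          Real.exp (-(β * Real.log T * lf z))) ≤
      ENNReal.ofReal (((r + r') / r') ^ 2 * ((1 + ε) * Real.exp (β * Real.log T * r') *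
        Real.exp (κ * (r + r') * Real.log T) * PB β T Δ (1 / 2))) := by
  obtain ⟨B, T₀, hB1, hT₀, h⟩ := band hβ hκ hε
  refine ⟨B, T₀, hB1, hT₀, fun T Δ hT hΔ hB h2 r r' hr hr' hr8 => ?_⟩
  obtain ⟨h3r, h3⟩ := h T Δ hT hΔ hB h2
  have hT3 : 3 ≤ T := by linarith
  have hlog := log_ge_one hT3
  have hL0 : 0 < Real.log T := by linarith
  have hpi := Real.pi_pos
  have hG := GW_diff β T Δ
  have hGc := hG.continuous
  have hp1 := LI_pos hβ hΔ T (x := 1 / 2) (by norm_num) (by norm_num)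
  rw [← LI_half hβ hΔ]
  set Λ := β * Real.log T with hΛ
  have hΛ0 : 0 < Λ := by positivity
  set M := (1 + ε) * Real.exp (κ * (r + r') * Real.log T) * LI (GW β T Δ) β (1 / 2) with hM
  set Cst : ℝ := (Real.pi * r' ^ 2)⁻¹ * Real.exp (Λ * r') with hCst
  have hstep1 : ∫⁻ y : ℝ, ⨆ z ∈ Metric.closedBall (0 : ℂ) r,
        ENNReal.ofReal (‖GW β T Δ (((1 / 2 : ℝ) : ℂ) + y * I + z)‖ ^ β * Real.exp (-(Λ * lf z))) ≤
      ∫⁻ y : ℝ, ENNReal.ofReal Cst *
        ∫⁻ w in Metric.ball (0 : ℂ) (r + r'),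
          ENNReal.ofReal (‖GW β T Δ (((1 / 2 : ℝ) : ℂ) + y * I + w)‖ ^ β * Real.exp (-(Λ * lf w))) :=
    lintegral_mono fun y => iSup₂_le fun z hz => area_dir hβ hΛ0.le hG _ hr' hz
  refine hstep1.trans ?_
  have hlc := lf_cont
  have hc2 : Continuous (fun p : ℝ × ℂ => ENNReal.ofReal (‖GW β T Δ (((1 / 2 : ℝ) : ℂ) + p.1 * I + p.2)‖ ^ β *
      Real.exp (-(Λ * lf p.2)))) := by
    refine ENNReal.continuous_ofReal.comp (Continuous.mul (Continuous.rpow_const ?_ fun p => Or.inr hβ.le) ?_)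
    · fun_prop
    · fun_prop
  rw [lintegral_const_mul _ (Measurable.lintegral_prod_right hc2.measurable),
    lintegral_lintegral_swap hc2.measurable.aemeasurable]
  have hin : ∀ w ∈ Metric.ball (0 : ℂ) (r + r'), ∫⁻ y : ℝ,
      ENNReal.ofReal (‖GW β T Δ (((1 / 2 : ℝ) : ℂ) + y * I + w)‖ ^ β * Real.exp (-(Λ * lf w))) ≤
        ENNReal.ofReal M := by
    intro w hw
    rw [Metric.mem_ball, dist_zero_right] at hw
    have hre : |w.re| ≤ r + r' := (Complex.abs_re_le_norm w).trans hw.le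
    have e1 : ∀ y : ℝ, ((1 / 2 : ℝ) : ℂ) + y * I + w =
        ((1 / 2 + w.re : ℝ) : ℂ) + ((y + w.im : ℝ) : ℂ) * I := by
      intro y
      nth_rewrite 1 [← Complex.re_add_im w]
      push_cast
      ring
    simp_rw [e1]
    have e2 : ∀ y : ℝ, ENNReal.ofReal (‖GW β T Δ (((1 / 2 + w.re : ℝ) : ℂ) + ((y + w.im : ℝ) : ℂ) * I)‖ ^ β *
        Real.exp (-(Λ * lf w))) = ENNReal.ofReal (‖GW β T Δ (((1 / 2 + w.re : ℝ) : ℂ) +
          ((y + w.im : ℝ) : ℂ) * I)‖ ^ β) * ENNReal.ofReal (Real.exp (-(Λ * lf w))) := fun y =>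
      ENNReal.ofReal_mul (by positivity)
    simp_rw [e2]
    rw [lintegral_mul_const' _ _ ENNReal.ofReal_ne_top,
      lintegral_add_right_eq_self (fun y : ℝ =>
      ENNReal.ofReal (‖GW β T Δ (((1 / 2 + w.re : ℝ) : ℂ) + (y : ℂ) * I)‖ ^ β)) w.im]
    have hre' := abs_le.mp hre
    rw [LI_lint hG hβ (GW_gd hβ hΔ T) (by linarith) (by linarith), ← ENNReal.ofReal_mul (by
      unfold LI
      exact integral_nonneg fun y => by positivity)]
    apply ENNReal.ofReal_le_ofReal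
    have hexpb : Real.exp (κ * |w.re| * Real.log T) ≤ Real.exp (κ * (r + r') * Real.log T) := by
      apply Real.exp_le_exp.mpr
      gcongr
    rcases le_or_gt 0 w.re with hw0 | hw0
    · have h4 := h3r w.re hw0 (by linarith)
      have e3 : lf w = 0 := max_eq_left (by linarith)
      rw [e3, mul_zero, neg_zero, Real.exp_zero, mul_one]
      rw [abs_of_nonneg hw0] at hexpb
      calc _ ≤ Real.exp (κ * w.re * Real.log T) * LI (GW β T Δ) β (1 / 2) := h4
        _ ≤ Real.exp (κ * (r + r') * Real.log T) * LI (GW β T Δ) β (1 / 2) :=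
            mul_le_mul_of_nonneg_right hexpb hp1.le
        _ ≤ (1 + ε) * (Real.exp (κ * (r + r') * Real.log T) * LI (GW β T Δ) β (1 / 2)) :=
            le_mul_of_one_le_left (by positivity) (by linarith)
        _ = M := by rw [hM]; ring
    · have h4 := h3 w.re (hre.trans (by linarith))
      have e3 : lf w = |w.re| := by
        unfold lf
        rw [abs_of_neg hw0]
        exact max_eq_right (by linarith)
      rw [e3]
      have e4 : Real.exp ((β + κ) * |w.re| * Real.log T) * Real.exp (-(Λ * |w.re|)) =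
          Real.exp (κ * |w.re| * Real.log T) := by
        rw [← Real.exp_add, hΛ]
        congr 1
        ring
      calc _ ≤ ((1 + ε) * Real.exp ((β + κ) * |w.re| * Real.log T) * LI (GW β T Δ) β (1 / 2)) *
              Real.exp (-(Λ * |w.re|)) := mul_le_mul_of_nonneg_right h4 (Real.exp_pos _).le
        _ = (1 + ε) * (Real.exp ((β + κ) * |w.re| * Real.log T) * Real.exp (-(Λ * |w.re|))) *
              LI (GW β T Δ) β (1 / 2) := by ring
        _ = (1 + ε) * Real.exp (κ * |w.re| * Real.log T) * LI (GW β T Δ) β (1 / 2) := by rw [e4]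
        _ ≤ M := by
            rw [hM]
            exact mul_le_mul_of_nonneg_right (mul_le_mul_of_nonneg_left hexpb (by linarith)) hp1.le
  calc ENNReal.ofReal Cst * ∫⁻ w in Metric.ball (0 : ℂ) (r + r'), ∫⁻ y : ℝ,
        ENNReal.ofReal (‖GW β T Δ (((1 / 2 : ℝ) : ℂ) + y * I + w)‖ ^ β * Real.exp (-(Λ * lf w)))
      ≤ ENNReal.ofReal Cst * ∫⁻ _ in Metric.ball (0 : ℂ) (r + r'), ENNReal.ofReal M :=
         mul_le_mul' le_rfl (setLIntegral_mono' Metric.isOpen_ball.measurableSet hin)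
    _ = ENNReal.ofReal (((r + r') / r') ^ 2 * ((1 + ε) * Real.exp (Λ * r') *
          Real.exp (κ * (r + r') * Real.log T) * LI (GW β T Δ) β (1 / 2))) := by
        rw [setLIntegral_const, Complex.volume_ball]
        have e2 : ENNReal.ofReal (r + r') ^ 2 * (NNReal.pi : ENNReal) =
            ENNReal.ofReal ((r + r') ^ 2 * Real.pi) := by
          rw [ENNReal.ofReal_mul (p := (r + r') ^ 2) (by positivity), ENNReal.ofReal_pow (by positivity)]
          congr 1
          rw [← NNReal.coe_real_pi, ENNReal.ofReal_coe_nnreal]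
        rw [e2, ← ENNReal.ofReal_mul' (by positivity), ← ENNReal.ofReal_mul (by positivity)]
        congr 1
        rw [hM, hCst]
        field_simp

/-- the exceptional set -/
def exc (β T Δ A δ : ℝ) : Set ℝ :=
  {y : ℝ | ∃ w : ℂ, ‖w‖ ≤ A ∧ Real.exp (2 * δ + lf w) * ‖GW β T Δ (((1 / 2 : ℝ) : ℂ) + y * I)‖ <
    ‖GW β T Δ (((1 / 2 : ℝ) : ℂ) + y * I + w / Real.log T)‖}

theorem exc_open (β T Δ A δ : ℝ) : IsOpen (exc β T Δ A δ) := by
  have hGc := (GW_diff β T Δ).continuous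
  have h : exc β T Δ A δ = ⋃ w ∈ Metric.closedBall (0 : ℂ) A,
      {y : ℝ | Real.exp (2 * δ + lf w) * ‖GW β T Δ (((1 / 2 : ℝ) : ℂ) + y * I)‖ <
        ‖GW β T Δ (((1 / 2 : ℝ) : ℂ) + y * I + w / Real.log T)‖} := by
    ext y
    simp only [exc, mem_ofPred_eq, mem_iUnion, Metric.mem_closedBall, dist_zero_right, exists_prop]
  rw [h]
  refine isOpen_biUnion fun w _ => isOpen_lt ?_ ?_
  · exact continuous_const.mul (hGc.comp (by fun_prop)).norm
  · exact (hGc.comp (by fun_prop)).norm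

theorem exc_GW {β A δ : ℝ} (hβ : 0 < β) (hA : 0 < A) (hδ : 0 < δ) : ∃ B T₀ : ℝ, 1 ≤ B ∧ 200 ≤ T₀ ∧
    ∀ T Δ : ℝ, T₀ ≤ T → 0 < Δ → B ≤ Δ ^ 2 * Real.log T → Δ ≤ T / Real.log T →
    ∫⁻ y in exc β T Δ A δ, ENNReal.ofReal (‖GW β T Δ (((1 / 2 : ℝ) : ℂ) + y * I)‖ ^ β) ≤
      ENNReal.ofReal (6 * ((A + δ) / δ) ^ 2 * Real.exp (-(β * δ)) * PB β T Δ (1 / 2)) := by
  obtain ⟨B, T₀, hB1, hT₀, h⟩ := dir_sup hβ (κ := 1 / (A + δ)) (by positivity) one_pos
  refine ⟨B, max T₀ (Real.exp (8 * (A + δ))), hB1, hT₀.trans (le_max_left _ _), fun T Δ hT hΔ hB h2 => ?_⟩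
  have hTT := (le_max_left _ _).trans hT
  have hTe := (le_max_right _ _).trans hT
  have hT3 : 3 ≤ T := by linarith
  have hT0 : 0 < T := by linarith
  have hlog := log_ge_one hT3
  have hL0 : 0 < Real.log T := by linarith
  have hL8 : 8 * (A + δ) ≤ Real.log T := (Real.le_log_iff_exp_le hT0).mpr hTe
  set L := Real.log T with hL
  have key := h T Δ hTT hΔ hB h2 (A / L) (δ / L) (by positivity) (by positivity) (by
    rw [← add_div, div_le_iff₀ hL0]; linarith)
  have hP := (PB_pos hβ hΔ T (x := 1 / 2) (by norm_num) (by norm_num)).le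
  have e1 : (A / L + δ / L) / (δ / L) = (A + δ) / δ := by field_simp
  have e2 : β * L * (δ / L) = β * δ := by field_simp
  have e3 : 1 / (A + δ) * (A / L + δ / L) * L = 1 := by field_simp
  rw [e1, e2, e3] at key
  have hpt : ∀ y ∈ exc β T Δ A δ, ENNReal.ofReal (‖GW β T Δ (((1 / 2 : ℝ) : ℂ) + y * I)‖ ^ β) ≤
      ENNReal.ofReal (Real.exp (-(2 * (β * δ)))) * ⨆ z ∈ Metric.closedBall (0 : ℂ) (A / L),
        ENNReal.ofReal (‖GW β T Δ (((1 / 2 : ℝ) : ℂ) + y * I + z)‖ ^ β * Real.exp (-(β * L * lf z))) := by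
    rintro y ⟨w, hw, hlt⟩
    rw [← hL] at hlt
    have hmem : w / (L : ℂ) ∈ Metric.closedBall (0 : ℂ) (A / L) := by
      rw [Metric.mem_closedBall, dist_zero_right, norm_div, Complex.norm_real, Real.norm_eq_abs,
        abs_of_pos hL0]
      exact div_le_div_of_nonneg_right hw hL0.le
    refine le_trans ?_ (mul_le_mul' le_rfl (le_iSup₂ (f := fun z (_ : z ∈ Metric.closedBall (0 : ℂ) (A / L)) =>
      ENNReal.ofReal (‖GW β T Δ (((1 / 2 : ℝ) : ℂ) + y * I + z)‖ ^ β * Real.exp (-(β * L * lf z))))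
      _ hmem))
    rw [← ENNReal.ofReal_mul (by positivity)]
    apply ENNReal.ofReal_le_ofReal
    have h5 := Real.rpow_le_rpow (by positivity) hlt.le hβ.le
    rw [Real.mul_rpow (Real.exp_pos _).le (norm_nonneg _), ← Real.exp_mul] at h5
    have e4 : β * L * lf (w / L) = β * lf w := by rw [mul_assoc, mul_comm L, lf_div hL0]
    rw [e4]
    have h6 := mul_le_mul_of_nonneg_left h5 (Real.exp_pos (-(2 * (β * δ)) + -(β * lf w))).le
    have e5 : Real.exp (-(2 * (β * δ)) + -(β * lf w)) * (Real.exp ((2 * δ + lf w) * β) *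
        ‖GW β T Δ (((1 / 2 : ℝ) : ℂ) + y * I)‖ ^ β) = ‖GW β T Δ (((1 / 2 : ℝ) : ℂ) + y * I)‖ ^ β := by
      rw [← mul_assoc, ← Real.exp_add]
      have : -(2 * (β * δ)) + -(β * lf w) + (2 * δ + lf w) * β = 0 := by ring
      rw [this, Real.exp_zero, one_mul]
    rw [e5, Real.exp_add] at h6
    linarith
  have hmeas := (exc_open β T Δ A δ).measurableSet
  calc ∫⁻ y in exc β T Δ A δ, ENNReal.ofReal (‖GW β T Δ (((1 / 2 : ℝ) : ℂ) + y * I)‖ ^ β)
      ≤ ∫⁻ y in exc β T Δ A δ, ENNReal.ofReal (Real.exp (-(2 * (β * δ)))) *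
        ⨆ z ∈ Metric.closedBall (0 : ℂ) (A / L),
        ENNReal.ofReal (‖GW β T Δ (((1 / 2 : ℝ) : ℂ) + y * I + z)‖ ^ β * Real.exp (-(β * L * lf z))) :=
        setLIntegral_mono' hmeas hpt
    _ ≤ ∫⁻ y : ℝ, ENNReal.ofReal (Real.exp (-(2 * (β * δ)))) *
        ⨆ z ∈ Metric.closedBall (0 : ℂ) (A / L),
        ENNReal.ofReal (‖GW β T Δ (((1 / 2 : ℝ) : ℂ) + y * I + z)‖ ^ β * Real.exp (-(β * L * lf z))) :=
        setLIntegral_le_lintegral _ _
    _ = ENNReal.ofReal (Real.exp (-(2 * (β * δ)))) * ∫⁻ y : ℝ, ⨆ z ∈ Metric.closedBall (0 : ℂ) (A / L),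
        ENNReal.ofReal (‖GW β T Δ (((1 / 2 : ℝ) : ℂ) + y * I + z)‖ ^ β * Real.exp (-(β * L * lf z))) :=
        lintegral_const_mul' _ _ ENNReal.ofReal_ne_top
    _ ≤ ENNReal.ofReal (Real.exp (-(2 * (β * δ)))) * ENNReal.ofReal (((A + δ) / δ) ^ 2 *
        ((1 + 1) * Real.exp (β * δ) * Real.exp 1 * PB β T Δ (1 / 2))) := mul_le_mul' le_rfl key
    _ ≤ _ := by
        rw [← ENNReal.ofReal_mul (by positivity)]
        apply ENNReal.ofReal_le_ofReal
        have e6 : Real.exp (-(2 * (β * δ))) * Real.exp (β * δ) = Real.exp (-(β * δ)) := by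
          rw [← Real.exp_add]; congr 1; ring
        have h7 : Real.exp 1 ≤ 3 := by have := Real.exp_one_lt_d9; linarith
        calc Real.exp (-(2 * (β * δ))) * (((A + δ) / δ) ^ 2 *
              ((1 + 1) * Real.exp (β * δ) * Real.exp 1 * PB β T Δ (1 / 2)))
            = (Real.exp (-(2 * (β * δ))) * Real.exp (β * δ)) * (2 * Real.exp 1 * ((A + δ) / δ) ^ 2 *
              PB β T Δ (1 / 2)) := by ring
          _ = Real.exp (-(β * δ)) * (2 * Real.exp 1 * ((A + δ) / δ) ^ 2 * PB β T Δ (1 / 2)) := by rw [e6]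
          _ ≤ Real.exp (-(β * δ)) * (2 * 3 * ((A + δ) / δ) ^ 2 * PB β T Δ (1 / 2)) := by gcongr
          _ = _ := by ring

end

end Run7.h563.LS
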