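import Pool.Agent.Run7.h563.LS.ZE
import Pool.Agent.Run7.h563.LS.ZM

set_option autoImplicit false

/-!
# The exceptional set in terms of zeta
-/

namespace Run7.h563.LS

open Complex MeasureTheory Filter Topology Set Q97.RB Q97.MM

noncomputable section

/-- the range of the near points -/
def KB (β : ℝ) : ℝ := √(2 * (3 * (⌈β⌉₊ : ℝ) + 5))

theorem KB_pos (β : ℝ) : 0 < KB β := Real.sqrt_pos.mpr (by positivity)

/-- the exceptional set: the bad points, the zeros and the points far from the centre -/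
def Sx (β T Δ A δ : ℝ) : Set ℝ :=
  (exc β T Δ A δ ∪ {y : ℝ | riemannZeta (sp y) = 0}) ∪ {y : ℝ | |(y - T) / Δ| ≤ KB β * √(Real.log T)}ᶜ

theorem zset_closed : IsClosed {y : ℝ | riemannZeta (sp y) = 0} := isClosed_eq zs_cont continuous_const

theorem Sx_meas (β T Δ A δ : ℝ) : MeasurableSet (Sx β T Δ A δ) :=
  ((exc_open β T Δ A δ).measurableSet.union zset_closed.measurableSet).union
    (measurableSet_le (by fun_prop) measurable_const).compl

/-- the part of the moment carried by the exceptional set -/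
theorem moment_exc {β A δ : ℝ} (hβ : 0 < β) (hA : 0 < A) (hδ : 0 < δ) : ∃ B T₀ : ℝ, 1 ≤ B ∧ 200 ≤ T₀ ∧
    ∀ T Δ : ℝ, T₀ ≤ T → 0 < Δ → B ≤ Δ ^ 2 * Real.log T → Δ ≤ T / Real.log T →
    ∫⁻ y in Sx β T Δ A δ, ENNReal.ofReal (‖riemannZeta (sp y)‖ ^ β * wt T Δ y) ≤
      ENNReal.ofReal ((48 * ((A + δ) / δ) ^ 2 + 2) * Real.exp (-(β * δ)) * JB β T Δ (1 / 2)) := by
  set n := ⌈β⌉₊ with hn
  have hnβ : β ≤ n := Nat.le_ceil β
  have hK := KB_pos β
  set K := KB β with hKd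
  obtain ⟨η, hη, hη4, -, hη1⟩ := near_one (β := β) one_pos
  obtain ⟨T₁, hT₁⟩ := PB_le_JB hβ one_pos
  obtain ⟨B, T₂, hB₁, hT₂, hG⟩ := exc_GW hβ hA hδ
  have he0 : 0 < Real.exp (-(β * δ)) := Real.exp_pos _
  obtain ⟨T₃, hT₃⟩ := far_sup hβ he0 hnβ
  refine ⟨max B (max ((8 * K / 1) ^ 2) (1 / (4 * 1))), max (max T₂ (Real.exp 16)) (max (max T₁ T₃)
    (max (Real.exp ((K / η) ^ 2)) (1 / η))), hB₁.trans (le_max_left _ _),
    hT₂.trans ((le_max_left _ _).trans (le_max_left _ _)), fun T Δ hT hΔ hB h2 => ?_⟩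
  have hTT2 : T₂ ≤ T := (le_max_left _ _).trans ((le_max_left _ _).trans hT)
  have hTT16 : Real.exp 16 ≤ T := (le_max_right _ _).trans ((le_max_left _ _).trans hT)
  have hTT1 : T₁ ≤ T := (le_max_left _ _).trans ((le_max_left _ _).trans ((le_max_right _ _).trans hT))
  have hTT3 : T₃ ≤ T := (le_max_right _ _).trans ((le_max_left _ _).trans ((le_max_right _ _).trans hT))
  have hTe : Real.exp ((K / η) ^ 2) ≤ T :=
    (le_max_left _ _).trans ((le_max_right _ _).trans ((le_max_right _ _).trans hT))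
  have hTη : 1 / η ≤ T := (le_max_right _ _).trans ((le_max_right _ _).trans ((le_max_right _ _).trans hT))
  have hT3 : 3 ≤ T := by linarith
  have hT0 : 0 < T := by linarith
  have hlog := log_ge_one hT3
  have hL0 : 0 < Real.log T := by linarith
  have hL16 : 16 ≤ Real.log T := (Real.le_log_iff_exp_le hT0).mpr hTT16
  have hBB : B ≤ Δ ^ 2 * Real.log T := (le_max_left _ _).trans hB
  have hB2 : (8 * K / 1) ^ 2 ≤ Δ ^ 2 * Real.log T := (le_max_left _ _).trans ((le_max_right _ _).trans hB)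
  have hB3 : 1 / (4 * 1) ≤ Δ ^ 2 * Real.log T := (le_max_right _ _).trans ((le_max_right _ _).trans hB)
  have h1 : 1 ≤ Δ ^ 2 * Real.log T := hB₁.trans hBB
  have hΔT : Δ ≤ T := h2.trans (div_le_self hT0.le hlog)
  have hPJ := hT₁ T Δ hTT1 hΔ h1 h2
  have hJ0 := JB_nonneg β T Δ (1 / 2)
  have hPpos := PB_pos hβ hΔ T (x := 1 / 2) (by norm_num) (by norm_num)
  have hexc := hG T Δ hTT2 hΔ hBB h2
  set N : Set ℝ := {y : ℝ | |(y - T) / Δ| ≤ K * √(Real.log T)} with hN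
  have hms : MeasurableSet N := measurableSet_le (by fun_prop) measurable_const
  have hfar := hT₃ T Δ hTT3 hT3 hΔ h1 hΔT (1 / 16) le_rfl
  have hEm := (exc_open β T Δ A δ).measurableSet
  have hZm := zset_closed.measurableSet
  set f : ℝ → ENNReal := fun y => ENNReal.ofReal (‖riemannZeta (sp y)‖ ^ β * wt T Δ y) with hf
  have hpt : ∀ y ∈ N, f y ≤ ENNReal.ofReal ((1 + 1) * T ^ (-β) * Real.exp (1 * 1 / 2)) *
      ENNReal.ofReal (‖GW β T Δ (((1 / 2 : ℝ) : ℂ) + y * I)‖ ^ β) := by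
    intro y hy
    have h3 := near_pt (r := 1 / Real.log T) (z := 0) hβ one_pos hη hη4 hη1 one_pos one_pos hK hΔ hT3 hTe
      hTη h2 rfl (by rw [div_le_iff₀ hL0]; linarith) hB2 hB3 hy (by
        rw [Metric.mem_closedBall, dist_self]; positivity)
    rw [add_zero] at h3
    rw [← ENNReal.ofReal_mul (by positivity)]
    exact ENNReal.ofReal_le_ofReal h3
  -- the three parts
  have hsub : Sx β T Δ A δ ⊆ (exc β T Δ A δ ∩ N) ∪ ({y : ℝ | riemannZeta (sp y) = 0} ∪ Nᶜ) := by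
    intro y hy
    rcases hy with (hy | hy) | hy
    · by_cases hyN : y ∈ N
      · exact Or.inl ⟨hy, hyN⟩
      · exact Or.inr (Or.inr hyN)
    · exact Or.inr (Or.inl hy)
    · exact Or.inr (Or.inr hy)
  have hE : Real.exp (1 * 1 / 2) ≤ 2 := by
    have h4 : Real.exp (1 * 1 / 2) * Real.exp (1 * 1 / 2) ≤ 3 := by
      rw [← Real.exp_add]
      have := Real.exp_one_lt_d9
      norm_num
      linarith
    nlinarith [Real.exp_pos (1 * 1 / 2 : ℝ)]
  set X := T ^ (-β) * PB β T Δ (1 / 2) with hX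
  have hX0 : 0 ≤ X := by positivity
  have hTP : X ≤ 2 * JB β T Δ (1 / 2) := by
    calc T ^ (-β) * PB β T Δ (1 / 2) ≤ T ^ (-β) * ((1 + 1) * T ^ β * JB β T Δ (1 / 2)) :=
          mul_le_mul_of_nonneg_left hPJ (by positivity)
      _ = (T ^ (-β) * T ^ β) * (2 * JB β T Δ (1 / 2)) := by ring
      _ = _ := by rw [← Real.rpow_add hT0, neg_add_cancel, Real.rpow_zero, one_mul]
  have p1 : ∫⁻ y in exc β T Δ A δ ∩ N, f y ≤
      ENNReal.ofReal (24 * ((A + δ) / δ) ^ 2 * Real.exp (-(β * δ)) * X) := by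
    calc ∫⁻ y in exc β T Δ A δ ∩ N, f y ≤ ∫⁻ y in exc β T Δ A δ ∩ N,
          ENNReal.ofReal ((1 + 1) * T ^ (-β) * Real.exp (1 * 1 / 2)) *
          ENNReal.ofReal (‖GW β T Δ (((1 / 2 : ℝ) : ℂ) + y * I)‖ ^ β) :=
          setLIntegral_mono' (hEm.inter hms) fun y hy => hpt y hy.2
      _ ≤ ∫⁻ y in exc β T Δ A δ, ENNReal.ofReal ((1 + 1) * T ^ (-β) * Real.exp (1 * 1 / 2)) *
          ENNReal.ofReal (‖GW β T Δ (((1 / 2 : ℝ) : ℂ) + y * I)‖ ^ β) :=
          lintegral_mono_set inter_subset_left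
      _ = ENNReal.ofReal ((1 + 1) * T ^ (-β) * Real.exp (1 * 1 / 2)) * ∫⁻ y in exc β T Δ A δ,
          ENNReal.ofReal (‖GW β T Δ (((1 / 2 : ℝ) : ℂ) + y * I)‖ ^ β) :=
          lintegral_const_mul' _ _ ENNReal.ofReal_ne_top
      _ ≤ ENNReal.ofReal ((1 + 1) * T ^ (-β) * Real.exp (1 * 1 / 2)) *
          ENNReal.ofReal (6 * ((A + δ) / δ) ^ 2 * Real.exp (-(β * δ)) * PB β T Δ (1 / 2)) :=
          mul_le_mul' le_rfl hexc
      _ ≤ _ := by
          rw [← ENNReal.ofReal_mul (by positivity)]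
          apply ENNReal.ofReal_le_ofReal
          calc (1 + 1) * T ^ (-β) * Real.exp (1 * 1 / 2) *
                (6 * ((A + δ) / δ) ^ 2 * Real.exp (-(β * δ)) * PB β T Δ (1 / 2))
              = Real.exp (1 * 1 / 2) * (12 * ((A + δ) / δ) ^ 2 * Real.exp (-(β * δ)) * X) := by
                rw [hX]; ring
            _ ≤ 2 * (12 * ((A + δ) / δ) ^ 2 * Real.exp (-(β * δ)) * X) :=
                mul_le_mul_of_nonneg_right hE (by positivity)
            _ = _ := by ring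
  have p2 : ∫⁻ y in {y : ℝ | riemannZeta (sp y) = 0}, f y = 0 := by
    rw [setLIntegral_eq_zero_iff hZm (by
      rw [hf]
      exact ((((zs_cont.norm.rpow_const fun _ => Or.inr hβ.le).mul (by unfold wt; fun_prop))).measurable).ennreal_ofReal)]
    refine Eventually.of_forall fun y hy => ?_
    have hy' : riemannZeta (sp y) = 0 := hy
    simp only [hf]
    rw [hy', norm_zero, Real.zero_rpow hβ.ne', zero_mul, ENNReal.ofReal_zero]
  have p3 : ∫⁻ y in Nᶜ, f y ≤ ENNReal.ofReal (Real.exp (-(β * δ)) * X) := by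
    refine le_trans (lintegral_mono fun y => ?_) hfar
    refine le_trans ?_ (le_iSup₂ (f := fun z (_ : z ∈ Metric.closedBall (0 : ℂ) (1 / 16)) =>
      ENNReal.ofReal (‖riemannZeta (((1 / 2 : ℝ) : ℂ) + y * I + z)‖ ^ β * wt T Δ y)) 0
      (by rw [Metric.mem_closedBall, dist_self]; norm_num))
    rw [add_zero]
    exact le_rfl
  calc ∫⁻ y in Sx β T Δ A δ, f y ≤ ∫⁻ y in (exc β T Δ A δ ∩ N) ∪ ({y : ℝ | riemannZeta (sp y) = 0} ∪ Nᶜ), f y :=
        lintegral_mono_set hsub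
    _ ≤ (∫⁻ y in exc β T Δ A δ ∩ N, f y) + ((∫⁻ y in {y : ℝ | riemannZeta (sp y) = 0}, f y) +
        ∫⁻ y in Nᶜ, f y) := (lintegral_union_le _ _ _).trans (add_le_add le_rfl (lintegral_union_le _ _ _))
    _ ≤ ENNReal.ofReal (24 * ((A + δ) / δ) ^ 2 * Real.exp (-(β * δ)) * X) + (0 +
        ENNReal.ofReal (Real.exp (-(β * δ)) * X)) := add_le_add p1 (add_le_add p2.le p3)
    _ ≤ _ := by
        rw [zero_add, ← ENNReal.ofReal_add (by positivity) (by positivity)]
        apply ENNReal.ofReal_le_ofReal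
        calc 24 * ((A + δ) / δ) ^ 2 * Real.exp (-(β * δ)) * X + Real.exp (-(β * δ)) * X
            = ((24 * ((A + δ) / δ) ^ 2 + 1) * Real.exp (-(β * δ))) * X := by ring
          _ ≤ ((24 * ((A + δ) / δ) ^ 2 + 1) * Real.exp (-(β * δ))) * (2 * JB β T Δ (1 / 2)) :=
              mul_le_mul_of_nonneg_left hTP (by positivity)
          _ = _ := by ring

end

end Run7.h563.LS
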