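import Pool.Agent.Run7.h563.LS.ZN

set_option autoImplicit false

/-!
# The mean of order `β` at complex shifts, with the exact exponential
-/

namespace Run7.h563.LS

open Complex MeasureTheory Filter Topology Set Q97.RB Q97.MM

noncomputable section

theorem dir_mean {β ε A : ℝ} (hβ : 0 < β) (hε : 0 < ε) (hA : 0 ≤ A) : ∃ B T₀ : ℝ, 1 ≤ B ∧ 200 ≤ T₀ ∧
    ∀ T Δ : ℝ, T₀ ≤ T → 0 < Δ → B ≤ Δ ^ 2 * Real.log T → Δ ≤ T / Real.log T →
    ∀ z : ℂ, ‖z‖ ≤ A → ∫⁻ t : ℝ, ENNReal.ofReal (‖riemannZeta (sp t + z / Real.log T)‖ ^ β * wt T Δ t) ≤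
      ENNReal.ofReal ((1 + ε) * Real.exp (β * lf z) * JB β T Δ (1 / 2)) := by
  set ε₁ : ℝ := min 1 (ε / 40) with hε₁
  have hε₁0 : 0 < ε₁ := by positivity
  have hε₁1 : ε₁ ≤ 1 := min_le_left _ _
  have hε₁2 : ε₁ ≤ ε / 40 := min_le_right _ _
  set n := ⌈β⌉₊ with hn
  have hnβ : β ≤ n := Nat.le_ceil β
  have hK := KB_pos β
  set K := KB β with hKd
  obtain ⟨η, hη, hη4, -, hη1⟩ := near_one (β := β) hε₁0
  obtain ⟨T₁, hT₁⟩ := PB_le_JB hβ hε₁0
  set ρ : ℝ := A + 1 with hρ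
  have hρ0 : 0 < ρ := by positivity
  have hlog0 : 0 < Real.log (1 + ε₁) := Real.log_pos (by linarith)
  set κ : ℝ := 2 * Real.log (1 + ε₁) / ρ with hκ
  have hκ0 : 0 < κ := by positivity
  have hκρ : Real.exp (κ * ρ / 2) = 1 + ε₁ := by
    have : κ * ρ / 2 = Real.log (1 + ε₁) := by rw [hκ]; field_simp
    rw [this, Real.exp_log (by linarith)]
  set κ' : ℝ := Real.log (1 + ε₁) / ρ with hκ'
  have hκ'0 : 0 < κ' := by positivity
  have hκ'A : ∀ u : ℝ, u ≤ A → Real.exp (κ' * u) ≤ 1 + ε₁ := by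
    intro u hu
    have h1 : κ' * u ≤ Real.log (1 + ε₁) := by
      calc κ' * u ≤ κ' * ρ := mul_le_mul_of_nonneg_left (by linarith) hκ'0.le
        _ = Real.log (1 + ε₁) := by rw [hκ']; field_simp
    calc Real.exp (κ' * u) ≤ Real.exp (Real.log (1 + ε₁)) := Real.exp_le_exp.mpr h1
      _ = 1 + ε₁ := Real.exp_log (by linarith)
  obtain ⟨B, T₂, hB₁, hT₂, hG⟩ := band hβ hκ'0 hε₁0
  obtain ⟨T₃, hT₃⟩ := far_sup hβ hε₁0 hnβ
  refine ⟨max B (max ((8 * K / κ) ^ 2) (1 / (4 * κ))), max (max T₂ (Real.exp (16 * ρ))) (max (max T₁ T₃)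
    (max (Real.exp ((K / η) ^ 2)) (1 / η))), hB₁.trans (le_max_left _ _),
    hT₂.trans ((le_max_left _ _).trans (le_max_left _ _)), fun T Δ hT hΔ hB h2 z hz => ?_⟩
  have hTT2 : T₂ ≤ T := (le_max_left _ _).trans ((le_max_left _ _).trans hT)
  have hTT16 : Real.exp (16 * ρ) ≤ T := (le_max_right _ _).trans ((le_max_left _ _).trans hT)
  have hTT1 : T₁ ≤ T := (le_max_left _ _).trans ((le_max_left _ _).trans ((le_max_right _ _).trans hT))
  have hTT3 : T₃ ≤ T := (le_max_right _ _).trans ((le_max_left _ _).trans ((le_max_right _ _).trans hT))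
  have hTe : Real.exp ((K / η) ^ 2) ≤ T :=
    (le_max_left _ _).trans ((le_max_right _ _).trans ((le_max_right _ _).trans hT))
  have hTη : 1 / η ≤ T := (le_max_right _ _).trans ((le_max_right _ _).trans ((le_max_right _ _).trans hT))
  have hT3 : 3 ≤ T := by linarith
  have hT0 : 0 < T := by linarith
  have hlog := log_ge_one hT3
  have hL0 : 0 < Real.log T := by linarith
  have hL16 : 16 * ρ ≤ Real.log T := (Real.le_log_iff_exp_le hT0).mpr hTT16
  have hBB : B ≤ Δ ^ 2 * Real.log T := (le_max_left _ _).trans hB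
  have hB2 : (8 * K / κ) ^ 2 ≤ Δ ^ 2 * Real.log T := (le_max_left _ _).trans ((le_max_right _ _).trans hB)
  have hB3 : 1 / (4 * κ) ≤ Δ ^ 2 * Real.log T := (le_max_right _ _).trans ((le_max_right _ _).trans hB)
  have h1 : 1 ≤ Δ ^ 2 * Real.log T := hB₁.trans hBB
  have hΔT : Δ ≤ T := h2.trans (div_le_self hT0.le hlog)
  have hPJ := hT₁ T Δ hTT1 hΔ h1 h2
  have hJ0 := JB_nonneg β T Δ (1 / 2)
  have hPpos := PB_pos hβ hΔ T (x := 1 / 2) (by norm_num) (by norm_num)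
  obtain ⟨hbr, hbl⟩ := hG T Δ hTT2 hΔ hBB h2
  rw [LI_half hβ hΔ] at hbr hbl
  have hGd := GW_diff β T Δ
  set L := Real.log T with hL
  set N : Set ℝ := {y : ℝ | |(y - T) / Δ| ≤ K * √L} with hN
  have hms : MeasurableSet N := measurableSet_le (by fun_prop) measurable_const
  have hr16 : ρ / L ≤ 1 / 16 := by rw [div_le_iff₀ hL0]; linarith
  have hfar := hT₃ T Δ hTT3 hT3 hΔ h1 hΔT (ρ / L) hr16
  have hzρ : z / (L : ℂ) ∈ Metric.closedBall (0 : ℂ) (ρ / L) := by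
    rw [Metric.mem_closedBall, dist_zero_right, norm_div, Complex.norm_real, Real.norm_eq_abs, abs_of_pos hL0]
    exact div_le_div_of_nonneg_right (by rw [hρ]; linarith) hL0.le
  set X := T ^ (-β) * PB β T Δ (1 / 2) with hX
  have hX0 : 0 ≤ X := by positivity
  have hTP : X ≤ (1 + ε₁) * JB β T Δ (1 / 2) := by
    calc T ^ (-β) * PB β T Δ (1 / 2) ≤ T ^ (-β) * ((1 + ε₁) * T ^ β * JB β T Δ (1 / 2)) :=
          mul_le_mul_of_nonneg_left hPJ (by positivity)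
      _ = (T ^ (-β) * T ^ β) * ((1 + ε₁) * JB β T Δ (1 / 2)) := by ring
      _ = _ := by rw [← Real.rpow_add hT0, neg_add_cancel, Real.rpow_zero, one_mul]
  -- the mean of the windowed function
  have hLI : ∫⁻ y : ℝ, ENNReal.ofReal (‖GW β T Δ (((1 / 2 : ℝ) : ℂ) + y * I + z / L)‖ ^ β) ≤
      ENNReal.ofReal ((1 + ε₁) * (1 + ε₁) * Real.exp (β * lf z) * PB β T Δ (1 / 2)) := by
    have hreA : |z.re| ≤ A := (Complex.abs_re_le_norm z).trans hz
    have hre : |(z / (L : ℂ)).re| ≤ 1 / 8 := by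
      refine (Complex.abs_re_le_norm _).trans ?_
      rw [Metric.mem_closedBall, dist_zero_right] at hzρ
      linarith
    have hre' := abs_le.mp hre
    set w : ℂ := z / (L : ℂ) with hw
    have hwz : w.re * L = z.re := by rw [hw, Complex.div_ofReal_re, div_mul_cancel₀ _ hL0.ne']
    have e1 : ∀ y : ℝ, ((1 / 2 : ℝ) : ℂ) + y * I + w =
        ((1 / 2 + w.re : ℝ) : ℂ) + ((y + w.im : ℝ) : ℂ) * I := by
      intro y
      nth_rewrite 1 [← Complex.re_add_im w]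
      push_cast
      ring
    simp_rw [e1]
    rw [lintegral_add_right_eq_self (fun y : ℝ =>
      ENNReal.ofReal (‖GW β T Δ (((1 / 2 + w.re : ℝ) : ℂ) + (y : ℂ) * I)‖ ^ β)) w.im,
      LI_lint hGd hβ (GW_gd hβ hΔ T) (by linarith) (by linarith)]
    apply ENNReal.ofReal_le_ofReal
    rcases le_or_gt 0 w.re with hw0 | hw0
    · have hz0 : 0 ≤ z.re := by rw [← hwz]; positivity
      have h4 := hbr w.re hw0 (by linarith)
      have e3 : lf z = 0 := max_eq_left (by linarith)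
      rw [e3, mul_zero, Real.exp_zero, mul_one]
      have e4 : κ' * w.re * L = κ' * z.re := by rw [mul_assoc, hwz]
      rw [e4] at h4
      have h5 := hκ'A z.re (le_trans (le_abs_self _) hreA)
      calc _ ≤ Real.exp (κ' * z.re) * PB β T Δ (1 / 2) := h4
        _ ≤ (1 + ε₁) * PB β T Δ (1 / 2) := mul_le_mul_of_nonneg_right h5 hPpos.le
        _ ≤ (1 + ε₁) * (1 + ε₁) * PB β T Δ (1 / 2) :=
            mul_le_mul_of_nonneg_right (le_mul_of_one_le_left (by positivity) (by linarith)) hPpos.le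
    · have hz0 : z.re < 0 := by rw [← hwz]; exact mul_neg_of_neg_of_pos hw0 hL0
      have h4 := hbl w.re hre
      have e3 : lf z = |z.re| := by
        unfold lf
        rw [abs_of_neg hz0]
        exact max_eq_right (by linarith)
      have e4 : (β + κ') * |w.re| * L = β * |z.re| + κ' * |z.re| := by
        have : |w.re| * L = |z.re| := by rw [← hwz, abs_mul, abs_of_pos hL0]
        rw [mul_assoc, this]; ring
      rw [e4, Real.exp_add] at h4
      rw [e3]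
      have h5 := hκ'A |z.re| hreA
      calc _ ≤ (1 + ε₁) * (Real.exp (β * |z.re|) * Real.exp (κ' * |z.re|)) * PB β T Δ (1 / 2) := h4
        _ ≤ (1 + ε₁) * (Real.exp (β * |z.re|) * (1 + ε₁)) * PB β T Δ (1 / 2) := by gcongr
        _ = _ := by ring
  have hnear : ∫⁻ y in N, ENNReal.ofReal (‖riemannZeta (sp y + z / L)‖ ^ β * wt T Δ y) ≤
      ENNReal.ofReal (((1 + ε₁) * (1 + ε₁)) * ((1 + ε₁) * (1 + ε₁) * Real.exp (β * lf z)) * X) := by
    calc ∫⁻ y in N, ENNReal.ofReal (‖riemannZeta (sp y + z / L)‖ ^ β * wt T Δ y) ≤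
          ∫⁻ y in N, ENNReal.ofReal ((1 + ε₁) * T ^ (-β) * (1 + ε₁)) *
            ENNReal.ofReal (‖GW β T Δ (((1 / 2 : ℝ) : ℂ) + y * I + z / L)‖ ^ β) := by
          refine setLIntegral_mono' hms fun y hy => ?_
          have h3 := near_pt (r := ρ / L) (z := z / L) hβ hε₁0 hη hη4 hη1 hκ0 hρ0 hK hΔ hT3 hTe
            hTη h2 rfl hr16 hB2 hB3 hy hzρ
          rw [hκρ] at h3
          rw [← ENNReal.ofReal_mul (by positivity)]
          exact ENNReal.ofReal_le_ofReal h3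
      _ ≤ ∫⁻ y : ℝ, ENNReal.ofReal ((1 + ε₁) * T ^ (-β) * (1 + ε₁)) *
            ENNReal.ofReal (‖GW β T Δ (((1 / 2 : ℝ) : ℂ) + y * I + z / L)‖ ^ β) :=
          setLIntegral_le_lintegral _ _
      _ = ENNReal.ofReal ((1 + ε₁) * T ^ (-β) * (1 + ε₁)) * ∫⁻ y : ℝ,
            ENNReal.ofReal (‖GW β T Δ (((1 / 2 : ℝ) : ℂ) + y * I + z / L)‖ ^ β) :=
          lintegral_const_mul' _ _ ENNReal.ofReal_ne_top
      _ ≤ ENNReal.ofReal ((1 + ε₁) * T ^ (-β) * (1 + ε₁)) *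
            ENNReal.ofReal ((1 + ε₁) * (1 + ε₁) * Real.exp (β * lf z) * PB β T Δ (1 / 2)) :=
          mul_le_mul' le_rfl hLI
      _ = _ := by
          rw [← ENNReal.ofReal_mul (by positivity)]
          congr 1
          rw [hX]
          ring
  have hfar' : ∫⁻ y in Nᶜ, ENNReal.ofReal (‖riemannZeta (sp y + z / L)‖ ^ β * wt T Δ y) ≤
      ENNReal.ofReal (ε₁ * X) := by
    refine le_trans (lintegral_mono fun y => ?_) hfar
    exact le_iSup₂ (f := fun z (_ : z ∈ Metric.closedBall (0 : ℂ) (ρ / L)) =>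
      ENNReal.ofReal (‖riemannZeta (((1 / 2 : ℝ) : ℂ) + y * I + z)‖ ^ β * wt T Δ y)) (z / L) hzρ
  rw [← lintegral_add_compl _ hms]
  refine (add_le_add hnear hfar').trans ?_
  rw [← ENNReal.ofReal_add (by positivity) (by positivity)]
  apply ENNReal.ofReal_le_ofReal
  set E := Real.exp (β * lf z) with hE
  have hE1 : 1 ≤ E := Real.one_le_exp (mul_nonneg hβ.le (lf_nonneg z))
  set J := JB β T Δ (1 / 2) with hJ
  have h10 : (1 + ε₁) * (1 + ε₁) * ((1 + ε₁) * (1 + ε₁) * E) * X + ε₁ * X ≤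
      (((1 + ε₁) * (1 + ε₁) * ((1 + ε₁) * (1 + ε₁)) + ε₁) * E) * X := by
    have : ε₁ * X ≤ ε₁ * E * X :=
      mul_le_mul_of_nonneg_right (le_mul_of_one_le_right hε₁0.le hE1) hX0
    linarith
  have h11 : (((1 + ε₁) * (1 + ε₁) * ((1 + ε₁) * (1 + ε₁)) + ε₁) * E) * X ≤
      (((1 + ε₁) * (1 + ε₁) * ((1 + ε₁) * (1 + ε₁)) + ε₁) * E) * ((1 + ε₁) * J) :=
    mul_le_mul_of_nonneg_left hTP (by positivity)
  have q2 : ε₁ * ε₁ ≤ ε₁ * 1 := mul_le_mul_of_nonneg_left hε₁1 hε₁0.le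
  have a1 : (1 + ε₁) * (1 + ε₁) ≤ 1 + 3 * ε₁ := by linarith
  have a2 : (1 + ε₁) * (1 + ε₁) * ((1 + ε₁) * (1 + ε₁)) ≤ (1 + 3 * ε₁) * (1 + 3 * ε₁) :=
    mul_le_mul a1 a1 (by positivity) (by positivity)
  have a3 : (1 + 3 * ε₁) * (1 + 3 * ε₁) ≤ 1 + 15 * ε₁ := by linarith
  have a4 : ((1 + ε₁) * (1 + ε₁) * ((1 + ε₁) * (1 + ε₁)) + ε₁) * (1 + ε₁) ≤ 1 + ε := by
    calc ((1 + ε₁) * (1 + ε₁) * ((1 + ε₁) * (1 + ε₁)) + ε₁) * (1 + ε₁) ≤ (1 + 16 * ε₁) * (1 + ε₁) :=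
          mul_le_mul_of_nonneg_right (by linarith) (by positivity)
      _ ≤ 1 + ε := by linarith
  have h12 := mul_le_mul_of_nonneg_right a4 (by positivity : 0 ≤ E * J)
  calc _ ≤ _ := h10
    _ ≤ _ := h11
    _ = (((1 + ε₁) * (1 + ε₁) * ((1 + ε₁) * (1 + ε₁)) + ε₁) * (1 + ε₁)) * (E * J) := by ring
    _ ≤ _ := h12
    _ = _ := by ring

end

end Run7.h563.LS
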