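import Pool.Agent.Run7.h563.LS.ZQ
import Pool.Agent.Run7.h563.LS.ZL

set_option autoImplicit false

/-!
# Means of zeta against a test function, as functions of the shift
-/

namespace Run7.h563.LS

open Complex MeasureTheory Filter Topology Set Q97.RB Q97.MM

noncomputable section

/-- the derivative of an integral of holomorphic functions; the proof is that of `MP27fa52.diffOn_integral` -/
theorem hasDerivAt_int {U : Set ℂ} (hU : IsOpen U) (μ : Measure ℝ) (F : ℂ → ℝ → ℂ) (B : ℝ → ℝ)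
    (hB : Integrable B μ) (hm : ∀ l ∈ U, AEStronglyMeasurable (F l) μ)
    (hd : ∀ᵐ t ∂μ, DifferentiableOn ℂ (fun l => F l t) U)
    (hb : ∀ᵐ t ∂μ, ∀ l ∈ U, ‖F l t‖ ≤ B t)
    {l₀ : ℂ} (hl₀ : l₀ ∈ U) :
    HasDerivAt (fun l => ∫ t, F l t ∂μ) (∫ t, deriv (fun l => F l t) l₀ ∂μ) l₀ := by
  obtain ⟨ρ, hρ, hball⟩ := Metric.isOpen_iff.mp hU l₀ hl₀
  set r : ℝ := ρ / 3 with hr
  have hr0 : 0 < r := by positivity
  have hsub : ∀ l ∈ Metric.ball l₀ r, Metric.closedBall l r ⊆ U := by
    intro l hl z hz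
    apply hball
    rw [Metric.mem_ball] at hl ⊢
    rw [Metric.mem_closedBall] at hz
    have := dist_triangle z l l₀
    linarith
  have hballU : Metric.ball l₀ r ⊆ U := fun l hl =>
    hsub l hl (Metric.mem_closedBall_self hr0.le)
  have hderiv : ∀ᵐ t ∂μ, ∀ l ∈ Metric.ball l₀ r,
      HasDerivAt (fun l => F l t) (deriv (fun l => F l t) l) l := by
    filter_upwards [hd] with t ht l hl
    exact ((ht l (hballU hl)).differentiableAt (hU.mem_nhds (hballU hl))).hasDerivAt
  have hbound : ∀ᵐ t ∂μ, ∀ l ∈ Metric.ball l₀ r, ‖deriv (fun l => F l t) l‖ ≤ B t / r := by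
    filter_upwards [hd, hb] with t ht hbt l hl
    apply Complex.norm_deriv_le_of_forall_mem_sphere_norm_le hr0
    · have h1 : DifferentiableOn ℂ (fun l => F l t) (Metric.closedBall l r) :=
        ht.mono (hsub l hl)
      exact h1.diffContOnCl_ball le_rfl
    · intro z hz
      exact hbt z (hsub l hl (Metric.sphere_subset_closedBall hz))
  have hl₀b : l₀ ∈ Metric.ball l₀ r := Metric.mem_ball_self hr0
  have hmeas : AEStronglyMeasurable (fun t => deriv (fun l => F l t) l₀) μ := by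
    set h : ℕ → ℂ := fun n => ((r / ((n : ℝ) + 2) : ℝ) : ℂ) with hh
    have hpos : ∀ n : ℕ, 0 < r / ((n : ℝ) + 2) := fun n => by positivity
    have hh0 : ∀ n, h n ≠ 0 := fun n => by
      have := (hpos n).ne'
      simp only [hh]
      exact_mod_cast this
    have hhU : ∀ n, l₀ + h n ∈ U := fun n => by
      apply hballU
      rw [Metric.mem_ball, dist_eq_norm, add_sub_cancel_left, hh]
      simp only
      rw [Complex.norm_real, Real.norm_eq_abs, abs_of_pos (hpos n), div_lt_iff₀ (by positivity)]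
      have : (0 : ℝ) ≤ n := Nat.cast_nonneg _
      nlinarith
    have htend : Tendsto h atTop (𝓝[≠] 0) := by
      apply tendsto_nhdsWithin_of_tendsto_nhds_of_eventually_within
      · have h1 : Tendsto (fun n : ℕ => r / ((n : ℝ) + 2)) atTop (𝓝 0) := by
          apply Tendsto.div_atTop tendsto_const_nhds
          exact tendsto_atTop_add_const_right _ _ tendsto_natCast_atTop_atTop
        have h2 := (Complex.continuous_ofReal.tendsto 0).comp h1
        rw [Complex.ofReal_zero] at h2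
        exact h2
      · exact Eventually.of_forall hh0
    apply aestronglyMeasurable_of_tendsto_ae atTop
      (f := fun n t => (h n)⁻¹ • (F (l₀ + h n) t - F l₀ t))
    · intro n
      show AEStronglyMeasurable ((h n)⁻¹ • (F (l₀ + h n) - F l₀)) μ
      exact ((hm _ (hhU n)).sub (hm _ hl₀)).const_smul _
    · filter_upwards [hderiv] with t ht
      have h1 := hasDerivAt_iff_tendsto_slope_zero.mp (ht l₀ hl₀b)
      exact h1.comp htend
  have hFint : Integrable (F l₀) μ := by
    apply Integrable.mono' hB (hm l₀ hl₀)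
    filter_upwards [hb] with t ht
    exact ht l₀ hl₀
  have hFm : ∀ᶠ l in 𝓝 l₀, AEStronglyMeasurable (F l) μ := by
    filter_upwards [hU.mem_nhds hl₀] with l hl
    exact hm l hl
  have key := hasDerivAt_integral_of_dominated_loc_of_deriv_le (μ := μ) (F := F)
    (F' := fun l t => deriv (fun l => F l t) l) (bound := fun t => B t / r)
    (Metric.ball_mem_nhds l₀ hr0) hFm hFint hmeas hbound (hB.div_const r) hderiv
  exact key.2


/-- the mean of `ζ(s + w / log T) ^ a` against `h` -/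
def KD (a : ℕ) (T Δ : ℝ) (h : ℝ → ℂ) (w : ℂ) : ℂ :=
  ∫ t : ℝ, riemannZeta (sp t + w / Real.log T) ^ a * h t * (wt T Δ t : ℂ)

theorem shift_mem {T A : ℝ} (hL : 0 < Real.log T) (hA : 16 * A ≤ Real.log T) {w : ℂ} (hw : ‖w‖ ≤ A) :
    w / (Real.log T : ℂ) ∈ Metric.closedBall (0 : ℂ) (1 / 16) := by
  rw [Metric.mem_closedBall, dist_zero_right, norm_div, Complex.norm_real, Real.norm_eq_abs, abs_of_pos hL,
    div_le_iff₀ hL]
  linarith

theorem KD_meas {a : ℕ} {T Δ : ℝ} {h : ℝ → ℂ} (hm : Measurable h) (w : ℂ) :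
    Measurable (fun t : ℝ => riemannZeta (sp t + w / Real.log T) ^ a * h t * (wt T Δ t : ℂ)) := by
  have h1 : Continuous (fun t : ℝ => sp t + w / Real.log T) := sp_cont.add continuous_const
  have h2 : Measurable (fun t : ℝ => riemannZeta (sp t + w / Real.log T)) := zeta_measurable.comp h1.measurable
  have h3 : Continuous (fun t : ℝ => (wt T Δ t : ℂ)) := by unfold wt; fun_prop
  exact ((h2.pow_const a).mul hm).mul h3.measurable

theorem KD_bd {a : ℕ} {T Δ A C₀ : ℝ} {k : ℕ} (hL : 0 < Real.log T) (hA : 16 * A ≤ Real.log T) {h : ℝ → ℂ}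
    (hC : ∀ t, ‖h t‖ ≤ C₀ * (1 + |t|) ^ k) (t : ℝ) {w : ℂ} (hw : ‖w‖ ≤ A) :
    ‖riemannZeta (sp t + w / Real.log T) ^ a * h t * (wt T Δ t : ℂ)‖ ≤
      540 ^ a * C₀ * (1 + |t|) ^ (2 * a + k) * wt T Δ t := by
  have h1 := zeta_disc_bd (β := 1) (n := 1) one_pos (by norm_num) t le_rfl (shift_mem hL hA hw)
  rw [Real.rpow_one, pow_one, mul_one] at h1
  have h1' : ‖riemannZeta (sp t + w / Real.log T)‖ ≤ 540 * (1 + |t|) ^ 2 := h1
  have hw0 := wt_pos T Δ t
  rw [norm_mul, norm_mul, norm_pow, Complex.norm_real, Real.norm_of_nonneg hw0.le]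
  refine mul_le_mul_of_nonneg_right ?_ hw0.le
  calc ‖riemannZeta (sp t + w / Real.log T)‖ ^ a * ‖h t‖ ≤ (540 * (1 + |t|) ^ 2) ^ a * (C₀ * (1 + |t|) ^ k) :=
        mul_le_mul (pow_le_pow_left₀ (norm_nonneg _) h1' a) (hC t) (norm_nonneg _) (by positivity)
    _ = _ := by rw [mul_pow, ← pow_mul, pow_add]; ring

theorem KD_dom {a : ℕ} {T Δ C₀ : ℝ} {k : ℕ} (hΔ : 0 < Δ) (hT : 0 ≤ T) (hΔT : Δ ≤ T) (hC₀ : 0 ≤ C₀) :
    Integrable (fun t : ℝ => 540 ^ a * C₀ * (1 + |t|) ^ (2 * a + k) * wt T Δ t) := by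
  refine poly_wt_integrable (2 * a + k) (C₀ := 540 ^ a * C₀) hΔ hT hΔT (p := fun t : ℝ =>
    540 ^ a * C₀ * (1 + |t|) ^ (2 * a + k)) (by fun_prop) fun y => ?_
  rw [abs_of_nonneg (by positivity)]

theorem KD_pt_diff {a : ℕ} {T Δ A : ℝ} (hL : 0 < Real.log T) (hA : 16 * A ≤ Real.log T) (h : ℝ → ℂ) (t : ℝ) :
    DifferentiableOn ℂ (fun w : ℂ => riemannZeta (sp t + w / Real.log T) ^ a * h t * (wt T Δ t : ℂ))
      (Metric.ball 0 A) := by
  intro w hw
  rw [mem_ball_zero_iff] at hw
  have h1 := shift_mem hL hA hw.le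
  have h2 : sp t + w / Real.log T ≠ 1 := by
    refine half_disc_ne (y := t) (r := 1 / 16) le_rfl ?_
    rw [Metric.mem_closedBall, dist_eq_norm] at h1 ⊢
    rw [sub_zero] at h1
    have e : sp t + w / Real.log T - (((1 / 2 : ℝ) : ℂ) + t * I) = w / Real.log T := by
      unfold sp; ring
    rw [e]
    exact h1
  have h3 : DifferentiableAt ℂ (fun w : ℂ => sp t + w / Real.log T) w := by fun_prop
  have h4 : DifferentiableAt ℂ (fun w : ℂ => riemannZeta (sp t + w / Real.log T)) w :=
    DifferentiableAt.comp (g := riemannZeta) w (differentiableAt_riemannZeta h2) h3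
  exact (((h4.pow a).mul_const _).mul_const _).differentiableWithinAt

theorem KD_hasDeriv {a : ℕ} {T Δ A C₀ : ℝ} {k : ℕ} (hL : 0 < Real.log T) (hA : 16 * A ≤ Real.log T)
    (hΔ : 0 < Δ) (hT : 0 ≤ T) (hΔT : Δ ≤ T) (hC₀ : 0 ≤ C₀) {h : ℝ → ℂ} (hm : Measurable h)
    (hC : ∀ t, ‖h t‖ ≤ C₀ * (1 + |t|) ^ k) {w : ℂ} (hw : w ∈ Metric.ball (0 : ℂ) A) :
    HasDerivAt (KD a T Δ h) (∫ t : ℝ, deriv (fun w : ℂ => riemannZeta (sp t + w / Real.log T) ^ a * h t *
      (wt T Δ t : ℂ)) w) w :=
  hasDerivAt_int Metric.isOpen_ball volume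
    (fun w t => riemannZeta (sp t + w / Real.log T) ^ a * h t * (wt T Δ t : ℂ))
    (fun t => 540 ^ a * C₀ * (1 + |t|) ^ (2 * a + k) * wt T Δ t) (KD_dom hΔ hT hΔT hC₀)
    (fun w _ => (KD_meas hm w).aestronglyMeasurable) (Eventually.of_forall fun t => KD_pt_diff hL hA h t)
    (Eventually.of_forall fun t w hw => KD_bd hL hA hC t (by rw [mem_ball_zero_iff] at hw; exact hw.le)) hw

/-- the inequality of Hölder, in the form used below -/
theorem amgm_int {β : ℝ} {a : ℕ} (ha : 1 ≤ a) (hab : (a : ℝ) ≤ β) {u v W : ℝ → ℝ} (hu0 : ∀ t, 0 ≤ u t)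
    (hv0 : ∀ t, 0 ≤ v t) (hW : ∀ t, 0 ≤ W t) (hu : Integrable fun t => u t ^ β * W t)
    (hv : Integrable fun t => v t ^ β * W t) {P V : ℝ} (hP0 : 0 < P) (hV0 : 0 < V)
    (hP : ∫ t, u t ^ β * W t ≤ P) (hV : ∫ t, v t ^ β * W t ≤ V) :
    ∫ t, u t ^ a * v t ^ (β - a) * W t ≤ P ^ (a / β) * V ^ (1 - a / β) := by
  have ha0 : (0 : ℝ) < a := by exact_mod_cast ha
  have hβ : 0 < β := by linarith
  have h1 : 0 ≤ 1 - a / β := by
    rw [sub_nonneg, div_le_one hβ]; exact hab
  set Q := P / V with hQ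
  have hQ0 : 0 < Q := by positivity
  have hpt : ∀ t, u t ^ a * v t ^ (β - a) * W t ≤
      Q ^ (a / β) * (a / β * (Q⁻¹ * (u t ^ β * W t)) + (1 - a / β) * (v t ^ β * W t)) := by
    intro t
    have h2 := Real.geom_mean_le_arith_mean2_weighted (by positivity : 0 ≤ a / β) h1
      (by have := hu0 t; positivity : 0 ≤ Q⁻¹ * u t ^ β) (by have := hv0 t; positivity : 0 ≤ v t ^ β) (by ring)
    have e1 : (Q⁻¹ * u t ^ β) ^ (a / β) = (Q ^ (a / β))⁻¹ * u t ^ a := by
      rw [Real.mul_rpow (by positivity) (by have := hu0 t; positivity), Real.inv_rpow hQ0.le,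
        ← Real.rpow_mul (hu0 t), mul_div_cancel₀ _ hβ.ne', Real.rpow_natCast]
    have e2 : (v t ^ β) ^ (1 - a / β) = v t ^ (β - a) := by
      rw [← Real.rpow_mul (hv0 t)]
      congr 1
      field_simp
    rw [e1, e2] at h2
    have h3 := mul_le_mul_of_nonneg_left h2 (by positivity : 0 ≤ Q ^ (a / β))
    have h4 : Q ^ (a / β) * ((Q ^ (a / β))⁻¹ * u t ^ a * v t ^ (β - a)) = u t ^ a * v t ^ (β - a) := by
      have : Q ^ (a / β) ≠ 0 := by positivity
      field_simp
    rw [h4] at h3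
    calc u t ^ a * v t ^ (β - a) * W t ≤
          (Q ^ (a / β) * (a / β * (Q⁻¹ * u t ^ β) + (1 - a / β) * v t ^ β)) * W t :=
          mul_le_mul_of_nonneg_right h3 (hW t)
      _ = _ := by ring
  have hint : Integrable fun t => Q ^ (a / β) * (a / β * (Q⁻¹ * (u t ^ β * W t)) + (1 - a / β) * (v t ^ β * W t)) :=
    (((hu.const_mul _).const_mul _).add (hv.const_mul _)).const_mul _
  refine (integral_mono_of_nonneg (Eventually.of_forall fun t => ?_) hint (Eventually.of_forall hpt)).trans ?_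
  · have := hu0 t; have := hv0 t; have := hW t
    show 0 ≤ _
    positivity
  · rw [integral_const_mul, integral_add ((hu.const_mul _).const_mul _) (hv.const_mul _),
      integral_const_mul, integral_const_mul, integral_const_mul]
    calc Q ^ (a / β) * (a / β * (Q⁻¹ * ∫ t, u t ^ β * W t) + (1 - a / β) * ∫ t, v t ^ β * W t)
        ≤ Q ^ (a / β) * (a / β * (Q⁻¹ * P) + (1 - a / β) * V) := by gcongr
      _ = Q ^ (a / β) * V := by
          have : Q⁻¹ * P = V := by rw [hQ]; field_simp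
          rw [this]; ring
      _ = _ := by
          rw [hQ, Real.div_rpow hP0.le hV0.le, Real.rpow_sub hV0, Real.rpow_one]
          ring

/-- the mean against a test function has the growth of a function of exponential type `a / 2` -/
theorem near_K {β : ℝ} {a n : ℕ} (ha : 1 ≤ a) (hab : (a : ℝ) ≤ β) (hn : 0 < n) :
    ∃ B T₀ : ℝ, 1 ≤ B ∧ 200 ≤ T₀ ∧ Real.exp (16 * n) ≤ T₀ ∧
    ∀ T Δ : ℝ, T₀ ≤ T → 0 < Δ → B ≤ Δ ^ 2 * Real.log T → Δ ≤ T / Real.log T →
    0 < JB β T Δ (1 / 2) ∧
    ∀ (h : ℝ → ℂ) (v : ℝ → ℝ) (C₀ V : ℝ) (k : ℕ), Measurable h → 0 ≤ C₀ → (∀ t, ‖h t‖ ≤ C₀ * (1 + |t|) ^ k) →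
      (∀ t, 0 ≤ v t) → (∀ t, ‖h t‖ ≤ v t ^ (β - a)) → (Integrable fun t => v t ^ β * wt T Δ t) → 0 < V →
      ∫ t, v t ^ β * wt T Δ t ≤ V →
      Near (a / 2) n (fun w => cexp (a * w / 2) * (KD a T Δ h w /
        ((JB β T Δ (1 / 2) ^ (a / β) * V ^ (1 - a / β) : ℝ) : ℂ))) := by
  have ha0 : (0 : ℝ) < a := by exact_mod_cast ha
  have hβ : 0 < β := by linarith
  have hn0 : (0 : ℝ) < n := by exact_mod_cast hn
  set ε : ℝ := 1 / n with hε
  have hε0 : 0 < ε := by positivity
  obtain ⟨B, T₁, hB, hT₁, hdir⟩ := dir_mean hβ hε0 hn0.le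
  obtain ⟨T₃, h₃⟩ := PB_le_JB hβ one_pos
  refine ⟨B, max (max T₁ T₃) (Real.exp (16 * n)), hB,
    hT₁.trans ((le_max_left _ _).trans (le_max_left _ _)), le_max_right _ _, fun T Δ hT hΔ hBΔ hΔT => ?_⟩
  have hTT1 : T₁ ≤ T := (le_max_left _ _).trans ((le_max_left _ _).trans hT)
  have hTT3 : T₃ ≤ T := (le_max_right _ _).trans ((le_max_left _ _).trans hT)
  have hTe : Real.exp (16 * n) ≤ T := (le_max_right _ _).trans hT
  have hT3 : 3 ≤ T := by linarith
  have hT0 : 0 < T := by linarith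
  have hlog := log_ge_one hT3
  have hL0 : 0 < Real.log T := by linarith
  have hL16 : 16 * (n : ℝ) ≤ Real.log T := (Real.le_log_iff_exp_le hT0).mpr hTe
  have hΔT' : Δ ≤ T := hΔT.trans (div_le_self hT0.le hlog)
  have hJ : 0 < JB β T Δ (1 / 2) := by
    have h6 := h₃ T Δ hTT3 hΔ (hB.trans hBΔ) hΔT
    have h7 := PB_pos hβ hΔ T (x := 1 / 2) (by norm_num) (by norm_num)
    by_contra hcon
    have h8 : (1 + 1) * T ^ β * JB β T Δ (1 / 2) ≤ 0 :=
      mul_nonpos_of_nonneg_of_nonpos (by positivity) (not_lt.mp hcon)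
    linarith
  refine ⟨hJ, fun h v C₀ V k hm hC₀ hC hv0 hhv hvi hV hVle => ?_⟩
  set J := JB β T Δ (1 / 2) with hJd
  have hN0 : 0 < J ^ (a / β) * V ^ (1 - a / β) := by positivity
  refine ⟨?_, fun w hw => ?_⟩
  · refine DifferentiableOn.mul (by fun_prop) (DifferentiableOn.div_const ?_ _)
    intro w hw
    exact (KD_hasDeriv (k := k) hL0 hL16 hΔ hT0.le hΔT' hC₀ hm hC hw).differentiableAt.differentiableWithinAt
  · rw [mem_ball_zero_iff] at hw
    have hd := hdir T Δ hTT1 hΔ hBΔ hΔT w hw.le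
    set E := (1 + ε) * Real.exp (β * lf w) with hE
    have hE0 : 0 < E := by positivity
    set u : ℝ → ℝ := fun t => ‖riemannZeta (sp t + w / Real.log T)‖ with hu
    have hun : ∀ t, 0 ≤ u t := fun t => norm_nonneg _
    have hum : Measurable u := by
      have h1 : Continuous (fun t : ℝ => sp t + w / Real.log T) := sp_cont.add continuous_const
      exact (zeta_measurable.comp h1.measurable).norm
    have hwc : Continuous (wt T Δ) := by unfold wt; fun_prop
    have hui : Integrable fun t => u t ^ β * wt T Δ t := by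
      refine ⟨((hum.pow_const β).mul hwc.measurable).aestronglyMeasurable, ?_⟩
      rw [hasFiniteIntegral_iff_ofReal (Eventually.of_forall fun t => mul_nonneg (by positivity) (wt_pos _ _ _).le)]
      exact hd.trans_lt ENNReal.ofReal_lt_top
    have hP : ∫ t, u t ^ β * wt T Δ t ≤ E * J := by
      have h2 : ENNReal.ofReal (∫ t, u t ^ β * wt T Δ t) ≤ ENNReal.ofReal (E * J) := by
        rw [ofReal_integral_eq_lintegral_ofReal hui (Eventually.of_forall fun t =>
          mul_nonneg (by positivity) (wt_pos _ _ _).le)]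
        exact hd
      exact (ENNReal.ofReal_le_ofReal_iff (by positivity)).mp h2
    have h3 := amgm_int ha hab hun hv0 (fun t => (wt_pos T Δ t).le) hui hvi (by positivity : 0 < E * J) hV hP hVle
    have h4 : ‖KD a T Δ h w‖ ≤ ∫ t, u t ^ a * v t ^ (β - a) * wt T Δ t := by
      have hint2 : Integrable fun t => u t ^ a * v t ^ (β - a) * wt T Δ t := by
        -- dominated by the two integrable functions
        have hmaj : Integrable fun t => u t ^ β * wt T Δ t + v t ^ β * wt T Δ t := hui.add hvi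
        refine hmaj.mono' ?_ (Eventually.of_forall fun t => ?_)
        · have hv1 : AEStronglyMeasurable (fun t => v t ^ β * wt T Δ t) volume := hvi.aestronglyMeasurable
          have e1 : (fun t => u t ^ a * v t ^ (β - a) * wt T Δ t) = fun t =>
              u t ^ a * ((v t ^ β * wt T Δ t) * (wt T Δ t)⁻¹) ^ ((β - a) / β) * wt T Δ t := by
            funext t
            have hw1 := (wt_pos T Δ t).ne'
            rw [mul_assoc (v t ^ β), mul_inv_cancel₀ hw1, mul_one, ← Real.rpow_mul (hv0 t),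
              mul_div_cancel₀ _ hβ.ne']
          rw [e1]
          have h5 : AEMeasurable (fun t => ((v t ^ β * wt T Δ t) * (wt T Δ t)⁻¹) ^ ((β - a) / β)) volume :=
            (hv1.aemeasurable.mul hwc.measurable.inv.aemeasurable).pow_const _
          exact (((hum.pow_const a).aemeasurable.mul h5).mul hwc.measurable.aemeasurable).aestronglyMeasurable
        · have hw1 := (wt_pos T Δ t).le
          rw [Real.norm_of_nonneg (by have := hv0 t; have := hun t; positivity), ← add_mul]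
          refine mul_le_mul_of_nonneg_right ?_ hw1
          have h5 := Real.geom_mean_le_arith_mean2_weighted (by positivity : 0 ≤ a / β)
            (by rw [sub_nonneg, div_le_one hβ]; exact hab : 0 ≤ 1 - a / β)
            (by have := hun t; positivity : 0 ≤ u t ^ β) (by have := hv0 t; positivity : 0 ≤ v t ^ β) (by ring)
          rw [← Real.rpow_mul (hun t), ← Real.rpow_mul (hv0 t), mul_div_cancel₀ _ hβ.ne', Real.rpow_natCast] at h5
          have e2 : β * (1 - a / β) = β - a := by field_simp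
          rw [e2] at h5
          have h6 : a / β ≤ 1 := by rw [div_le_one hβ]; exact hab
          have h7 : 0 ≤ a / β := by positivity
          have h8 : 0 ≤ u t ^ β := by have := hun t; positivity
          have h9 : 0 ≤ v t ^ β := by have := hv0 t; positivity
          nlinarith
      refine (norm_integral_le_integral_norm _).trans ?_
      refine integral_mono_of_nonneg (Eventually.of_forall fun t => norm_nonneg _) hint2
        (Eventually.of_forall fun t => ?_)
      show ‖riemannZeta (sp t + w / Real.log T) ^ a * h t * (wt T Δ t : ℂ)‖ ≤ _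
      rw [norm_mul, norm_mul, norm_pow, Complex.norm_real, Real.norm_of_nonneg (wt_pos _ _ _).le]
      refine mul_le_mul_of_nonneg_right ?_ (wt_pos _ _ _).le
      exact mul_le_mul_of_nonneg_left (hhv t) (by positivity)
    have h5 : ‖KD a T Δ h w‖ ≤ Real.exp (1 / n + a * lf w) * (J ^ (a / β) * V ^ (1 - a / β)) := by
      refine h4.trans (h3.trans ?_)
      rw [Real.mul_rpow hE0.le hJ.le, mul_assoc]
      refine mul_le_mul_of_nonneg_right ?_ hN0.le
      rw [hE, Real.mul_rpow (by positivity) (Real.exp_pos _).le, ← Real.exp_mul, Real.exp_add]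
      have e3 : β * lf w * (a / β) = a * lf w := by field_simp
      rw [e3]
      refine mul_le_mul_of_nonneg_right ?_ (Real.exp_pos _).le
      have h6 : a / β ≤ 1 := by rw [div_le_one hβ]; exact hab
      calc (1 + ε) ^ (a / β) ≤ (1 + ε) ^ (1 : ℝ) := Real.rpow_le_rpow_of_exponent_le (by linarith) h6
        _ = 1 + ε := Real.rpow_one _
        _ ≤ Real.exp (1 / n) := by rw [← hε]; have := Real.add_one_le_exp ε; linarith
    rw [norm_mul, norm_div, Complex.norm_exp, Complex.norm_real, Real.norm_of_nonneg hN0.le]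
    have e4 : (a * w / 2 : ℂ).re = a * w.re / 2 := by
      simp
    rw [e4]
    calc Real.exp (a * w.re / 2) * (‖KD a T Δ h w‖ / (J ^ (a / β) * V ^ (1 - a / β)))
        ≤ Real.exp (a * w.re / 2) * Real.exp (1 / n + a * lf w) := by
          refine mul_le_mul_of_nonneg_left ?_ (Real.exp_pos _).le
          rwa [div_le_iff₀ hN0]
      _ = _ := by
          rw [← Real.exp_add]
          congr 1
          unfold lf
          rcases le_or_gt 0 w.re with h | h
          · rw [max_eq_left (by linarith), abs_of_nonneg h]; ring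
          · rw [max_eq_right (by linarith), abs_of_neg h]; ring

end

end Run7.h563.LS
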