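import Pool.Agent.Run7.h563.LS.ZR

set_option autoImplicit false

/-!
# Correlations of zeta with itself are at least those of the cosine
-/

namespace Run7.h563.LS

open Complex MeasureTheory Filter Topology Set Q97.RB Q97.MM ComplexConjugate

noncomputable section

theorem zeta_half_bd (t : ℝ) : ‖riemannZeta (sp t)‖ ≤ 540 * (1 + |t|) ^ 2 := by
  have h1 := zeta_disc_bd (β := 1) (n := 1) (r := 1 / 16) (z := 0) one_pos (by norm_num) t le_rfl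
    (by rw [Metric.mem_closedBall, dist_self]; norm_num)
  rw [Real.rpow_one, pow_one, mul_one, add_zero] at h1
  exact h1

theorem rpow_growth' {γ β : ℝ} (h0 : 0 ≤ γ) (hγ : γ ≤ β) {u C v : ℝ} {k : ℕ} (hu : 0 ≤ u)
    (hC : 1 ≤ C) (hv : 1 ≤ v) (h : u ≤ C * v ^ k) : u ^ γ ≤ C ^ ⌈β⌉₊ * v ^ (k * ⌈β⌉₊) := by
  rcases h0.eq_or_lt with h1 | h1
  · rw [← h1, Real.rpow_zero]
    exact one_le_mul_of_one_le_of_one_le (one_le_pow₀ hC) (one_le_pow₀ hv)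
  · exact rpow_growth h1 (hγ.trans (Nat.le_ceil β)) hu hC hv h

theorem pow_conj_rpow {β : ℝ} {a : ℕ} (ha : 1 ≤ a) (hab : (a : ℝ) ≤ β) (z : ℂ) :
    z ^ a * (conj z ^ a * ((‖z‖ ^ (β - 2 * a) : ℝ) : ℂ)) = ((‖z‖ ^ β : ℝ) : ℂ) := by
  have ha0 : (0 : ℝ) < a := by exact_mod_cast ha
  by_cases hz : z = 0
  · have h1 : a ≠ 0 := by omega
    rw [hz, zero_pow h1, zero_mul, norm_zero, Real.zero_rpow (by linarith)]
    simp
  · have hn : 0 < ‖z‖ := norm_pos_iff.mpr hz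
    have e1 : z ^ a * conj z ^ a = ((‖z‖ ^ (2 * (a : ℝ)) : ℝ) : ℂ) := by
      rw [← mul_pow, Complex.mul_conj']
      have : ‖z‖ ^ (2 * (a : ℝ)) = (‖z‖ ^ 2) ^ a := by
        rw [← pow_mul, ← Real.rpow_natCast]
        congr 1
        push_cast
        ring
      rw [this]
      push_cast
      rfl
    rw [← mul_assoc, e1, ← Complex.ofReal_mul, ← Real.rpow_add hn]
    congr 2
    ring

theorem norm_conj_rpow {β : ℝ} {a : ℕ} (ha : 1 ≤ a) (z : ℂ) :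
    ‖conj z ^ a * ((‖z‖ ^ (β - 2 * a) : ℝ) : ℂ)‖ ≤ ‖z‖ ^ (β - a) := by
  by_cases hz : z = 0
  · have h1 : a ≠ 0 := by omega
    rw [hz, map_zero, zero_pow h1, zero_mul, norm_zero]
    positivity
  · have hn : 0 < ‖z‖ := norm_pos_iff.mpr hz
    rw [norm_mul, norm_pow, Complex.norm_conj, Complex.norm_real, Real.norm_of_nonneg (by positivity),
      ← Real.rpow_natCast, ← Real.rpow_add hn]
    apply le_of_eq
    congr 1
    ring

/-- **the correlation inequality** -/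
theorem corr {β ε : ℝ} {a : ℕ} (ha : 1 ≤ a) (hab : (a : ℝ) ≤ β) (hε : 0 < ε) :
    ∃ B T₀ : ℝ, 1 ≤ B ∧ 200 ≤ T₀ ∧ ∀ T Δ : ℝ, T₀ ≤ T → 0 < Δ → B ≤ Δ ^ 2 * Real.log T → Δ ≤ T / Real.log T →
    0 < JB β T Δ (1 / 2) ∧ ∀ x : ℝ, |x| ≤ 2 * Real.pi / a →
      (Real.cos (a * x / 2) - ε) * JB β T Δ (1 / 2) ≤
      (cexp (a * x / 2 * I) * ∫ t : ℝ, riemannZeta (sp t + x * I / Real.log T) ^ a *
        (conj (riemannZeta (sp t)) ^ a * ((‖riemannZeta (sp t)‖ ^ (β - 2 * a) : ℝ) : ℂ)) *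
        (wt T Δ t : ℂ)).re := by
  have ha0 : (0 : ℝ) < a := by exact_mod_cast ha
  have hβ : 0 < β := by linarith
  obtain ⟨n, hn, hc⟩ := fin_cos (σ := a / 2) (by positivity) hε
  obtain ⟨B, T₀, hB, hT₀, hTe, hK⟩ := near_K ha hab hn
  refine ⟨B, T₀, hB, hT₀, fun T Δ hT hΔ hBΔ hΔT => ?_⟩
  obtain ⟨hJ, hN⟩ := hK T Δ hT hΔ hBΔ hΔT
  refine ⟨hJ, fun x hx => ?_⟩
  have hT3 : 3 ≤ T := by linarith
  have hT0 : 0 < T := by linarith
  have hlog := log_ge_one hT3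
  have hL0 : 0 < Real.log T := by linarith
  have hΔT' : Δ ≤ T := hΔT.trans (div_le_self hT0.le hlog)
  set h : ℝ → ℂ := fun t => conj (riemannZeta (sp t)) ^ a * ((‖riemannZeta (sp t)‖ ^ (β - 2 * a) : ℝ) : ℂ)
    with hh
  have hzm : Measurable fun t : ℝ => riemannZeta (sp t) := zs_cont.measurable
  have hm : Measurable h := by
    have h1 : Measurable fun t : ℝ => conj (riemannZeta (sp t)) := Complex.continuous_conj.measurable.comp hzm
    have h2 : Measurable fun t : ℝ => ((‖riemannZeta (sp t)‖ ^ (β - 2 * a) : ℝ) : ℂ) :=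
      Complex.measurable_ofReal.comp (hzm.norm.pow_const _)
    exact (h1.pow_const a).mul h2
  have hhb : ∀ t, ‖h t‖ ≤ ‖riemannZeta (sp t)‖ ^ (β - a) := fun t => norm_conj_rpow ha _
  have hgr : ∀ t, ‖h t‖ ≤ 540 ^ ⌈β⌉₊ * (1 + |t|) ^ (2 * ⌈β⌉₊) := fun t =>
    (hhb t).trans (rpow_growth' (by linarith) (by linarith) (norm_nonneg _) (by norm_num)
      (by linarith [abs_nonneg t]) (zeta_half_bd t))
  have hvi : Integrable fun t => ‖riemannZeta (sp t)‖ ^ β * wt T Δ t :=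
    JB_integrable hβ hΔ hT0.le hΔT' (x := 1 / 2) (by norm_num) (by norm_num)
  have hVle : ∫ t, ‖riemannZeta (sp t)‖ ^ β * wt T Δ t ≤ JB β T Δ (1 / 2) := by rw [JB_eq_sp]
  have hG := hN h (fun t => ‖riemannZeta (sp t)‖) (540 ^ ⌈β⌉₊) (JB β T Δ (1 / 2)) (2 * ⌈β⌉₊) hm
    (by positivity) hgr (fun t => norm_nonneg _) hhb hvi hJ hVle
  have hJJ : JB β T Δ (1 / 2) ^ (a / β) * JB β T Δ (1 / 2) ^ (1 - a / β) = JB β T Δ (1 / 2) := by
    rw [← Real.rpow_add hJ, add_sub_cancel, Real.rpow_one]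
  rw [hJJ] at hG
  have hK0 : KD a T Δ h 0 = ((JB β T Δ (1 / 2) : ℝ) : ℂ) := by
    unfold KD
    rw [JB_eq_sp, ← integral_complex_ofReal]
    congr 1
    funext t
    have e0 : sp t + (0 : ℂ) / Real.log T = sp t := by simp
    rw [e0, hh, pow_conj_rpow ha hab]
    push_cast
    rfl
  have hJc : ((JB β T Δ (1 / 2) : ℝ) : ℂ) ≠ 0 := by exact_mod_cast hJ.ne'
  have hG0 : (fun w : ℂ => cexp (a * w / 2) * (KD a T Δ h w / ((JB β T Δ (1 / 2) : ℝ) : ℂ))) 0 = 1 := by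
    simp only [mul_zero, zero_div, Complex.exp_zero, one_mul]
    rw [hK0, div_self hJc]
  have h1 := hc _ hG hG0 x (by
    rw [div_div_eq_mul_div, mul_comm Real.pi]
    exact hx)
  have e1 : (a / 2 : ℝ) * x = a * x / 2 := by ring
  rw [e1] at h1
  have e2 : cexp (a * ((x : ℂ) * I) / 2) * (KD a T Δ h (x * I) / ((JB β T Δ (1 / 2) : ℝ) : ℂ)) =
      (cexp (a * x / 2 * I) * KD a T Δ h (x * I)) / ((JB β T Δ (1 / 2) : ℝ) : ℂ) := by
    have e3 : (a : ℂ) * ((x : ℂ) * I) / 2 = a * x / 2 * I := by ring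
    rw [e3]
    exact (mul_div_assoc _ _ _).symm
  rw [e2, Complex.div_ofReal_re, le_div_iff₀ hJ] at h1
  exact h1

end

end Run7.h563.LS
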